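import Pool.Agent.LZF.RCl

set_option autoImplicit false

/-!
# Rcw: recursion along the order of the model (difficulty 3)

* `ws x : Mo a`: the set of all `y` with `wlt y x` (`bdd_set`); a definable function (`DFun.of_iff`).
* `exists_recW`: as `exists_rec` in `H55/Rec.lean` (read it; the proof is almost the same with `∈` replaced by
  `wlt` and transitive sets by initial segments). An attempt is a pair `(x, f)` with `FnOn f (ws x)` and
  `app f y = H y (restr f (ws y))` for all `y` with `wlt y x`; two attempts agree on their common domain (induction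
  along `wlt`: least counterexample, `wlt` is wellfounded, externally); for every `x` there is an attempt
  (wellfounded induction outside the model: if there are attempts for all `y` below `x`, let, for `y` below `x`,
  `G y = H y (f_y)` where `f_y` is the attempt for `y`, a definable function of `y`; then `lam (ws x) G` is an attempt).
  Then `F x = H x (f_x)`, `f_x` the attempt for `x`; `f_x = lam (ws x) F`.
-/

namespace Pool.Agent.LZF

open Pool.Agent.NI Pool.Agent.H55 Pool.Agent.H55.ZFU FirstOrder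

variable {a : Rl}

theorem exists_ws (x : Mo a) : ∃ c : Mo a, ∀ y, y ∈ c ↔ wlt y x := by
  obtain ⟨c, hc⟩ := bdd_set (fun y : Mo a => wlt y x) inferInstance x (fun y h => h)
  exact ⟨c, hc⟩

/-- The set of all elements below `x`. -/
noncomputable def ws (x : Mo a) : Mo a := (exists_ws x).choose

theorem mem_ws (x y : Mo a) : y ∈ ws x ↔ wlt y x := (exists_ws x).choose_spec y

instance ws_dfun {ι : Type} (t : (ι → Mo a) → Mo a) [DFun t] : DFun (fun v => ws (t v)) := by
  refine DFun.comp1 (F := fun x : Mo a => ws x) ?_ t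
  refine DFun.of_iff (fun v y => ∀ z, z ∈ y ↔ wlt z (v 0)) inferInstance ?_
  intro v y
  constructor
  · rintro rfl
    exact fun z => mem_ws _ z
  · intro h
    exact ext (fun z => by rw [h, mem_ws])

theorem wlt_wf : WellFounded (wlt : Mo a → Mo a → Prop) := by
  have h : WellFounded (fun x y : Mo a => @LT.lt Ordinal.{0} _ x y) :=
    (wellFounded_lt : WellFounded (fun x y : Ordinal.{0} => x < y))
  exact Subrelation.wf (fun {x y} hxy => (wlt_iff x y).1 hxy) h

theorem Rcw_trans {x y z : Mo a} (h : wlt x y) (h' : wlt y z) : wlt x z :=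
  (wlt_iff x z).2 (lt_trans (α := Ordinal.{0}) ((wlt_iff x y).1 h) ((wlt_iff y z).1 h'))

theorem Rcw_sub {x y : Mo a} (h : wlt x y) : ws x ⊆ ws y := by
  intro z hz
  exact (mem_ws y z).2 (Rcw_trans ((mem_ws x z).1 hz) h)

/-- attempts at recursion along `wlt` -/
def RcwAtt (H : Mo a → Mo a → Mo a) (x f : Mo a) : Prop :=
  FnOn f (ws x) ∧ ∀ y, wlt y x → app f y = H y (restr f (ws y))

theorem Rcw_att_dfn (H : Mo a → Mo a → Mo a) [hH : Fn2 H] {ι : Type} (x f : (ι → Mo a) → Mo a)
    [DFun x] [DFun f] : Dfn (fun v => RcwAtt H (x v) (f v)) := by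
  refine Dfn.comp2 (P := fun x f : Mo a => RcwAtt H x f) ?_ x f
  unfold RcwAtt
  have : ∀ {ι : Type} (t s : (ι → Mo a) → Mo a) [DFun t] [DFun s], DFun (fun v => H (t v) (s v)) :=
    fun t s => DFun.comp2 hH t s
  infer_instance

theorem Rcw_unique {H : Mo a → Mo a → Mo a} {x x' f f' : Mo a} (h : RcwAtt H x f)
    (h' : RcwAtt H x' f') : ∀ y, wlt y x → wlt y x' → app f y = app f' y := by
  intro y
  induction y using wlt_wf.induction with
  | _ y ih =>
    intro hx hx'
    rw [h.2 y hx, h'.2 y hx']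
    rw [restr_congr h.1 h'.1 (Rcw_sub hx) (Rcw_sub hx') (fun z hz => ?_)]
    have hzy := (mem_ws y z).1 hz
    exact ih z hzy (Rcw_trans hzy hx) (Rcw_trans hzy hx')

theorem Rcw_eq {H : Mo a → Mo a → Mo a} {x f f' : Mo a} (h : RcwAtt H x f)
    (h' : RcwAtt H x f') : f = f' := by
  apply FnOn.ext h.1 h'.1
  intro y hy
  have hy' := (mem_ws x y).1 hy
  exact Rcw_unique h h' y hy' hy'

theorem Rcw_restr {H : Mo a → Mo a → Mo a} {x z f : Mo a} (h : RcwAtt H x f) (hz : wlt z x) :
    RcwAtt H z (restr f (ws z)) := by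
  refine ⟨restr_fnOn h.1 (Rcw_sub hz), ?_⟩
  intro y hy
  rw [app_restr h.1 (Rcw_sub hz) ((mem_ws z y).2 hy), h.2 y (Rcw_trans hy hz)]
  rw [restr_congr h.1 (restr_fnOn h.1 (Rcw_sub hz)) (Rcw_sub (Rcw_trans hy hz)) (Rcw_sub hy)
    (fun w hw => ?_)]
  rw [app_restr h.1 (Rcw_sub hz) (Rcw_sub hy w hw)]

theorem Rcw_exists (H : Mo a → Mo a → Mo a) [hH : Fn2 H] (x : Mo a) : ∃ f, RcwAtt H x f := by
  have i1 := @Rcw_att_dfn a H hH
  have i2 : ∀ {ι : Type} (t s : (ι → Mo a) → Mo a) [DFun t] [DFun s], DFun (fun v => H (t v) (s v)) :=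
    fun t s => DFun.comp2 hH t s
  induction x using wlt_wf.induction with
  | _ x ih =>
    obtain ⟨g, hg, hg'⟩ := exists_fn (fun y v : Mo a => ∃ f, RcwAtt H y f ∧ v = H y f) (ws x) (by
      intro y hy
      obtain ⟨f, hf⟩ := ih y ((mem_ws x y).1 hy)
      refine ⟨H y f, ⟨f, hf, rfl⟩, ?_⟩
      rintro v ⟨f', hf', rfl⟩
      rw [Rcw_eq hf hf'])
    refine ⟨g, hg, ?_⟩
    intro y hy
    obtain ⟨f, hf, he⟩ := hg' y ((mem_ws x y).2 hy)
    rw [he]
    have e : f = restr g (ws y) := by
      apply FnOn.ext hf.1 (restr_fnOn hg (Rcw_sub hy))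
      intro z hz
      rw [app_restr hg (Rcw_sub hy) hz]
      have hz' := (mem_ws y z).1 hz
      obtain ⟨f', hf', he'⟩ := hg' z (Rcw_sub hy z hz)
      rw [he', hf.2 z hz', Rcw_eq hf' (Rcw_restr hf hz')]
    rw [e]

theorem exists_recW (H : Mo a → Mo a → Mo a) [Fn2 H] : ∃ F : Mo a → Mo a, Fn1 F ∧
    ∀ x, F x = H x (lam (ws x) F) := by
  have hH : Fn2 H := inferInstance
  have i1 := @Rcw_att_dfn a H hH
  have i2 : ∀ {ι : Type} (t s : (ι → Mo a) → Mo a) [DFun t] [DFun s], DFun (fun v => H (t v) (s v)) :=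
    fun t s => DFun.comp2 hH t s
  choose fx hfx using Rcw_exists H
  have hFn : Fn1 (fun x => H x (fx x)) := by
    refine DFun.of_iff (fun v y => ∃ f, RcwAtt H (v 0) f ∧ y = H (v 0) f) inferInstance ?_
    intro v y
    constructor
    · rintro rfl
      exact ⟨_, hfx _, rfl⟩
    · rintro ⟨f, hf, rfl⟩
      rw [Rcw_eq hf (hfx (v 0))]
  refine ⟨fun x => H x (fx x), hFn, ?_⟩
  intro x
  have e : fx x = lam (ws x) (fun x => H x (fx x)) := by
    apply FnOn.ext (hfx x).1 (lam_fnOn _ _)
    intro y hy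
    rw [app_lam hy, (hfx x).2 y ((mem_ws x y).1 hy),
      Rcw_eq (Rcw_restr (hfx x) ((mem_ws x y).1 hy)) (hfx y)]
  show H x (fx x) = _
  rw [← e]

end Pool.Agent.LZF
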