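import Pool.Agent.LZF.TRd
import Pool.Agent.LZF.Rcw

set_option autoImplicit false

/-!
# BPm: the β-property of the model (difficulty 3)

Let `x ∈ RM a` be represented by `c`, and let `C q p` (`q` is a child of `p`) be the definable relation of `code_dfn`; it
holds only between numerals (`rk7`), and for numerals it is `x (Nat.pair n m) = true` (`code_iff`). Let `f : ℕ → ℕ` be a
descending sequence in `V`: `x (Nat.pair (f (n + 1)) (f n)) = true`.
* By `exists_recW` with `H u g = sep omega (fun p => ∀ v, wlt v u → ∃ q, C q p ∧ q ∈ app g v)` there is a definable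
  function `F` with `p ∈ F u ↔ p ∈ omega ∧ ∀ v, wlt v u → ∃ q, C q p ∧ q ∈ F v`. `F` is decreasing: if `wlt u' u` then
  `F u ⊆ F u'`. By wellfounded induction on `u` all `nu (f n)` are in `F u`.
* For every `n : ℕ` with `nu n ∉ F u` for some `u` choose such a `u_n`; the countably many `u_n` have a strict upper
  bound `γ` (`bdd_of_small`). So `p ∈ F γ` implies `p ∈ F u` for all `u`. Let `S = F γ`. If `p ∈ S` then `p ∈ F γ'` for the
  next ordinal `γ' = γ + 1`, so `p` has a child in `S`.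
* Let `h p` be the least (for `wlt`) `q ∈ S` with `C q p` (and `∅` if there is none): a definable function
  (`DFun.of_iff`). `omega_rec` gives `g` in the model, `app g ∅ = nu (f 0)`, `app g (suc k) = h (app g k)`. By
  `omega_induction` (or induction on `n : ℕ`, `nu_suc`) `app g k ∈ S` and `C (app g (suc k)) (app g k)`. Let `f' n` be the
  number with `app g (nu n) = nu (f' n)`.
* `gph f' ∈ RM a`: by `rc`, `gph f' k ↔ ∃ n m, pq n m (nu k) ∧ opair n m ∈ g`.
* `rm_idl`: assembly.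
-/

namespace Pool.Agent.LZF

open Pool.Agent.NI Pool.Agent.H55 Pool.Agent.H55.ZFU FirstOrder

variable {a : Rl}

theorem BPm_pq (n m : ℕ) (w : Mo a) : pq (nu a n) (nu a m) w ↔ w = nu a (Nat.pair n m) := by
  unfold pq
  refine (rk7 a _ _ _).trans ?_
  constructor
  · rintro ⟨n', m', h1, h2, h3⟩
    have e1 : n' = n := num_inj a n' n (nu a n) ((num_un a n' _).2 h1) (nu_spec n)
    have e2 : m' = m := num_inj a m' m (nu a m) ((num_un a m' _).2 h2) (nu_spec m)
    subst e1 e2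
    exact (nu_iff _ w).1 ((num_un a _ _).2 h3)
  · rintro rfl
    exact ⟨n, m, (num_un a _ _).1 (nu_spec n), (num_un a _ _).1 (nu_spec m),
      (num_un a _ _).1 (nu_spec _)⟩

/-- the derivative process along the order of the model -/
theorem BPm_F (C : Mo a → Mo a → Prop) (hC : Dfn2 C) : ∃ F : Mo a → Mo a, Fn1 F ∧
    ∀ u p, p ∈ F u ↔ p ∈ (omega : Mo a) ∧ ∀ v, wlt v u → ∃ q, C q p ∧ q ∈ F v := by
  have i1 : ∀ {ι : Type} (t s : (ι → Mo a) → Mo a) [DFun t] [DFun s], Dfn (fun v => C (t v) (s v)) :=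
    fun t s => Dfn.comp2 hC t s
  have hH : Fn2 (fun u g : Mo a => sep (omega : Mo a)
      (fun p => ∀ v, wlt v u → ∃ q, C q p ∧ q ∈ app g v)) := by
    infer_instance
  obtain ⟨F, hF, hF'⟩ := exists_recW (fun u g : Mo a => sep (omega : Mo a)
      (fun p => ∀ v, wlt v u → ∃ q, C q p ∧ q ∈ app g v))
  refine ⟨F, hF, ?_⟩
  intro u p
  rw [hF' u, mem_sep]
  constructor
  · rintro ⟨h1, h2⟩
    refine ⟨h1, fun v hv => ?_⟩
    obtain ⟨q, hq, hq'⟩ := h2 v hv
    rw [app_lam ((mem_ws u v).2 hv)] at hq'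
    exact ⟨q, hq, hq'⟩
  · rintro ⟨h1, h2⟩
    refine ⟨h1, fun v hv => ?_⟩
    obtain ⟨q, hq, hq'⟩ := h2 v hv
    rw [app_lam ((mem_ws u v).2 hv)]
    exact ⟨q, hq, hq'⟩

theorem BPm_zero : nu a 0 = ∅ := (nu_empty _).1 (nu_spec 0)

theorem BPm_suc (n : ℕ) : nu a (n + 1) = suc (nu a n) :=
  (nu_suc n (nu a n) _ (nu_spec n)).1 (nu_spec (n + 1))

theorem BPm_omega (n : ℕ) : nu a n ∈ (omega : Mo a) := (omega_iff _).2 ⟨n, rfl⟩

/-- the least child in `S` -/
theorem BPm_h (C : Mo a → Mo a → Prop) (hC : Dfn2 C) (S : Mo a) : ∃ h : Mo a → Mo a, Fn1 h ∧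
    ∀ p, (∃ q, q ∈ S ∧ C q p) → h p ∈ S ∧ C (h p) p := by
  have i1 : ∀ {ι : Type} (t s : (ι → Mo a) → Mo a) [DFun t] [DFun s], Dfn (fun v => C (t v) (s v)) :=
    fun t s => Dfn.comp2 hC t s
  have hex : ∀ p : Mo a, ∃ y : Mo a, (y ∈ S ∧ C y p ∧ ∀ z, z ∈ S → C z p → ¬ wlt z y) ∨
      (¬ (∃ q, q ∈ S ∧ C q p) ∧ y = ∅) := by
    intro p
    by_cases h : ∃ q, q ∈ S ∧ C q p
    · obtain ⟨y, hy, hy'⟩ := wlt_wf.has_min {q : Mo a | q ∈ S ∧ C q p} h
      exact ⟨y, Or.inl ⟨hy.1, hy.2, fun z h1 h2 => hy' z ⟨h1, h2⟩⟩⟩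
    · exact ⟨∅, Or.inr ⟨h, rfl⟩⟩
  choose h hh using hex
  refine ⟨h, ?_, ?_⟩
  · refine DFun.of_iff (fun v y => (y ∈ S ∧ C y (v 0) ∧ ∀ z, z ∈ S → C z (v 0) → ¬ wlt z y) ∨
      (¬ (∃ q, q ∈ S ∧ C q (v 0)) ∧ y = ∅)) inferInstance ?_
    intro v y
    constructor
    · rintro rfl
      exact hh _
    · intro hy
      rcases hy with ⟨h1, h2, h3⟩ | ⟨h1, h2⟩
      · rcases hh (v 0) with ⟨k1, k2, k3⟩ | ⟨k1, k2⟩
        · have e1 := h3 _ k1 k2
          have e2 := k3 _ h1 h2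
          rw [wlt_iff] at e1 e2
          exact le_antisymm (α := Ordinal.{0}) (not_lt.1 e1) (not_lt.1 e2)
        · exact absurd ⟨y, h1, h2⟩ k1
      · rcases hh (v 0) with ⟨k1, k2, k3⟩ | ⟨k1, k2⟩
        · exact absurd ⟨_, k1, k2⟩ h1
        · rw [h2, k2]
  · rintro p hp
    rcases hh p with ⟨k1, k2, k3⟩ | ⟨k1, k2⟩
    · exact ⟨k1, k2⟩
    · exact absurd hp k1

theorem rm_beta (x : Rl) (hx : x ∈ RM a)
    (h : ∃ f : ℕ → ℕ, ∀ n, x (Nat.pair (f (n + 1)) (f n)) = true) :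
    ∃ f : ℕ → ℕ, gph f ∈ RM a ∧ ∀ n, x (Nat.pair (f (n + 1)) (f n)) = true := by
  obtain ⟨c, hc⟩ := hx
  obtain ⟨f, hf⟩ := h
  have hC := code_dfn (a := a) c
  have hCi := code_iff (a := a) c x hc
  set C : Mo a → Mo a → Prop := fun q p => ∃ u, pq q p u ∧ EM a u c with hCdef
  obtain ⟨F, hF, hF'⟩ := BPm_F C hC
  have hanti : ∀ u' u : Mo a, wlt u' u → F u ⊆ F u' := by
    intro u' u hu p hp
    obtain ⟨h1, h2⟩ := (hF' u p).1 hp
    exact (hF' u' p).2 ⟨h1, fun v hv => h2 v (Rcw_trans hv hu)⟩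
  have hfF : ∀ u : Mo a, ∀ n : ℕ, nu a (f n) ∈ F u := by
    intro u
    induction u using wlt_wf.induction with
    | _ u ih =>
      intro n
      refine (hF' u _).2 ⟨BPm_omega _, fun v hv => ?_⟩
      exact ⟨nu a (f (n + 1)), (hCi _ _).2 (hf n), ih v hv (n + 1)⟩
  -- the stage γ
  have hch : ∀ n : ℕ, ∃ u : Mo a, (∃ u' : Mo a, nu a n ∉ F u') → nu a n ∉ F u := by
    intro n
    by_cases hn : ∃ u' : Mo a, nu a n ∉ F u'
    · obtain ⟨u, hu⟩ := hn
      exact ⟨u, fun _ => hu⟩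
    · exact ⟨∅, fun h => absurd h hn⟩
  choose un hun using hch
  obtain ⟨γ, hγ⟩ := bdd_of_small (Set.range un) inferInstance
  have hall : ∀ p, p ∈ F γ → ∀ u : Mo a, p ∈ F u := by
    intro p hp u
    obtain ⟨n, rfl⟩ := (omega_iff p).1 ((hF' γ p).1 hp).1
    by_contra hu
    exact hun n ⟨u, hu⟩ (hanti _ _ (hγ _ ⟨n, rfl⟩) _ hp)
  obtain ⟨γ', hγ'⟩ := bdd_of_small ({γ} : Set (Mo a)) inferInstance
  have hchild : ∀ p, p ∈ F γ → ∃ q, q ∈ F γ ∧ C q p := by
    intro p hp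
    obtain ⟨q, h1, h2⟩ := ((hF' γ' p).1 (hall p hp γ')).2 γ (hγ' γ rfl)
    exact ⟨q, h2, h1⟩
  obtain ⟨s, hs, hs'⟩ := BPm_h C hC (F γ)
  have i2 : Fn2 (fun _ y : Mo a => s y) := DFun.comp1 hs (fun v => v 1)
  obtain ⟨g, hg, hg0, hgs⟩ := omega_rec (nu a (f 0)) (fun _ y : Mo a => s y)
  have hS : ∀ n : ℕ, app g (nu a n) ∈ F γ := by
    intro n
    induction n with
    | zero =>
      rw [BPm_zero, hg0]
      exact hfF γ 0
    | succ n ih =>
      rw [BPm_suc, hgs _ (BPm_omega n)]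
      exact (hs' _ (hchild _ ih)).1
  have hSC : ∀ n : ℕ, C (app g (nu a (n + 1))) (app g (nu a n)) := by
    intro n
    rw [BPm_suc, hgs _ (BPm_omega n)]
    exact (hs' _ (hchild _ (hS n))).2
  have hex : ∀ n : ℕ, ∃ m : ℕ, app g (nu a n) = nu a m := fun n =>
    (omega_iff _).1 ((hF' γ _).1 (hS n)).1
  choose f' hf' using hex
  refine ⟨f', ?_, ?_⟩
  · have hd : Dfn1 (fun w : Mo a => ∃ n m : Mo a, n ∈ (omega : Mo a) ∧ m ∈ (omega : Mo a) ∧
        pq n m w ∧ opair n m ∈ g) := by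
      infer_instance
    have h1 := rc _ hd
    have e : (chr fun k => ∃ n m : Mo a, n ∈ (omega : Mo a) ∧ m ∈ (omega : Mo a) ∧
        pq n m (nu a k) ∧ opair n m ∈ g) = gph f' := by
      unfold gph
      congr 1
      funext k
      apply propext
      constructor
      · rintro ⟨n, m, hn, hm, h2, h3⟩
        obtain ⟨n, rfl⟩ := (omega_iff n).1 hn
        obtain ⟨m, rfl⟩ := (omega_iff m).1 hm
        have h4 := nu_inj _ _ ((BPm_pq n m _).1 h2)
        have h5 := hg.app_eq h3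
        rw [hf' n] at h5
        have h6 := nu_inj _ _ h5
        rw [h4, Nat.unpair_pair]
        exact h6
      · intro hk
        refine ⟨nu a k.unpair.1, nu a k.unpair.2, BPm_omega _, BPm_omega _, ?_, ?_⟩
        · rw [BPm_pq, Nat.pair_unpair]
        · have h3 := hg.mem (BPm_omega (a := a) k.unpair.1)
          rw [hf', hk] at h3
          exact h3
    rw [← e]
    exact h1
  · intro n
    have h1 := hSC n
    rw [hf', hf'] at h1
    exact (hCi _ _).1 h1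

theorem rm_idl (hb : Bas a) (c : Rl) (hc : HasT a (fun n => c n = true)) : Idl c (RM a) where
  base := by
    have h := rm_tab _ hc
    have e : chr (fun n => c n = true) = c := by
      funext n
      simp [chr]
    rwa [e] at h
  down := fun y hy x h => rm_tred hb y hy x h
  join := fun x hx y hy => rm_jn x hx y hy
  beta := fun x hx h => rm_beta x hx h

end Pool.Agent.LZF
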