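import Pool.Agent.LZF.Core

set_option autoImplicit false

/-!
# Bdd: boundedness (difficulty 2)

Let `f` be continuous and let all relations `Wr (f z)` be wellfounded, `Wr y n m ↔ pU y n ∧ pU y m ∧ pR y 2 [n, m]`.
Then the ranks are bounded by a countable ordinal. This is `NIL/Bdd.lean` (`bounded`) with `mW y a b` replaced by
`Wr y a b` (`{y | Wr y a b}` is open: three bits); copy the file and `Rk_bound_countable` of `NIL/RkW.lean`.
(`Rk` is defined in `NI/Core.lean`.)
-/

namespace Pool.Agent.LZF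

open Pool.Agent.NI

/-- The order of the coded structure. -/
def Wr (y : Rl) (n m : ℕ) : Prop := pU y n ∧ pU y m ∧ pR y 2 [n, m]

theorem Bdd_mono {α : Type} (R : α → α → Prop) {b b' : Ordinal.{0}} (h : b' ≤ b) {p : α}
    (hp : Rk R b p) : Rk R b' p := by
  rw [Rk] at hp ⊢
  exact fun c hc => hp c (lt_of_lt_of_le hc h)

theorem Bdd_succ {α : Type} (R : α → α → Prop) (b : Ordinal.{0}) (p : α) (h : Rk R (b + 1) p) :
    ∃ q, R q p ∧ Rk R b q := by
  rw [Rk] at h
  exact h b (Order.lt_add_one_iff.2 le_rfl)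

theorem Bdd_countable {α : Type} [Countable α] (R : α → α → Prop) (h : WellFounded R) :
    ∃ δ : Ordinal.{0}, δ < Ordinal.omega 1 ∧ ∀ p, ¬ Rk R δ p := by
  have h1 : ∀ p, ∃ δ : Ordinal.{0}, δ < Ordinal.omega 1 ∧ ¬ Rk R δ p := by
    intro p
    induction p using h.induction with
    | _ p ih =>
      have h2 : ∀ q : {q // R q p}, ∃ δ : Ordinal.{0}, δ < Ordinal.omega 1 ∧ ¬ Rk R δ q.1 :=
        fun q => ih q.1 q.2
      choose d hd hd' using h2
      have hs : (⨆ q, d q) < Ordinal.omega 1 := Ordinal.iSup_lt_omega_one hd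
      refine ⟨(⨆ q, d q) + 1, (Cardinal.isSuccLimit_omega 1).add_one_lt hs, fun h3 => ?_⟩
      obtain ⟨q, hq, hq'⟩ := Bdd_succ R _ p h3
      exact hd' ⟨q, hq⟩ (Bdd_mono R (Ordinal.le_iSup d ⟨q, hq⟩) hq')
  choose d hd hd' using h1
  exact ⟨⨆ p, d p, Ordinal.iSup_lt_omega_one hd, fun p hp =>
    hd' p (Bdd_mono R (Ordinal.le_iSup d p) hp)⟩

theorem Bdd_pre_iff (z z' : Rl) (n : ℕ) : pre z' n = pre z n ↔ ∀ i < n, z' i = z i := by
  unfold pre
  rw [List.map_inj_left]
  constructor
  · intro h i hi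
    exact h i (List.mem_range.2 hi)
  · intro h i hi
    exact h i (List.mem_range.1 hi)

theorem Bdd_pre_length (z : Rl) (n : ℕ) : (pre z n).length = n := by
  simp [pre]

theorem Bdd_pre_prefix (z : Rl) {n n' : ℕ} (h : n ≤ n') : pre z n <+: pre z n' := by
  have h1 : pre z n = (pre z n').take n := by
    unfold pre
    rw [← List.map_take, List.take_range, Nat.min_eq_left h]
  rw [h1]
  exact List.take_prefix _ _

theorem Bdd_open (f : Rl → Rl) (hf : Continuous f) (z : Rl) (a' a : ℕ) (h : Wr (f z) a' a) (n : ℕ) :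
    ∃ n', n ≤ n' ∧ ∀ z', pre z' n' = pre z n' → Wr (f z') a' a := by
  have h1 : IsOpen {z' : Rl | Wr (f z') a' a} := by
    have hb : ∀ i : ℕ, IsOpen {z' : Rl | f z' i = true} := by
      intro i
      have h2 : Continuous fun z' : Rl => f z' i := (continuous_apply i).comp hf
      exact (isOpen_discrete ({true} : Set Bool)).preimage h2
    exact (hb _).inter ((hb _).inter (hb _))
  obtain ⟨I, u, h2, h3⟩ := isOpen_pi_iff.1 h1 z h
  refine ⟨max n (I.sup id + 1), le_max_left _ _, fun z' hz' => ?_⟩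
  rw [Bdd_pre_iff] at hz'
  apply h3
  intro i hi
  have h4 : i ≤ I.sup id := Finset.le_sup (f := id) hi
  rw [hz' i (lt_of_lt_of_le (Nat.lt_succ_of_le h4) (le_max_right _ _))]
  exact (h2 i hi).2

/-- The relation on the nodes. -/
def Bdd_R (f : Rl → Rl) (q p : List Bool × ℕ) : Prop :=
  p.1 <+: q.1 ∧ ∀ z, pre z q.1.length = q.1 → Wr (f z) q.2 p.2

theorem Bdd_wf (f : Rl → Rl) (h : ∀ z, WellFounded (Wr (f z))) : WellFounded (Bdd_R f) := by
  rw [wellFounded_iff_isEmpty_descending_chain]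
  refine ⟨fun ⟨g, hg⟩ => ?_⟩
  have hmono : ∀ n m, n ≤ m → (g n).1 <+: (g m).1 := by
    intro n m hnm
    induction m, hnm using Nat.le_induction with
    | base => exact List.prefix_rfl
    | succ m _ ih => exact ih.trans (hg m).1
  have hget : ∀ n m i, i < (g n).1.length → i < (g m).1.length → (g n).1[i]? = (g m).1[i]? := by
    intro n m i hn hm
    rcases le_total n m with h1 | h1
    · obtain ⟨t, ht⟩ := hmono n m h1
      rw [← ht, List.getElem?_append_left hn]
    · obtain ⟨t, ht⟩ := hmono m n h1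
      rw [← ht, List.getElem?_append_left hm]
  classical
  let z : Rl := fun i => if hi : ∃ n, i < (g n).1.length then
    ((g hi.choose).1[i]?).getD false else false
  have hz : ∀ n i (hi : i < (g n).1.length), z i = (g n).1[i] := by
    intro n i hi
    have h1 : ∃ n, i < (g n).1.length := ⟨n, hi⟩
    have h2 : z i = ((g h1.choose).1[i]?).getD false := dif_pos h1
    rw [h2, hget _ n i h1.choose_spec hi, List.getElem?_eq_getElem hi]
    rfl
  have hpre : ∀ n, pre z (g n).1.length = (g n).1 := by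
    intro n
    apply List.ext_getElem
    · rw [Bdd_pre_length]
    · intro i h1 h2
      rw [← hz n i h2]
      simp [pre]
  have h1 := h z
  rw [wellFounded_iff_isEmpty_descending_chain] at h1
  exact h1.elim ⟨fun n => (g n).2, fun n => (hg n).2 z (hpre (n + 1))⟩

theorem Bdd_rk (f : Rl → Rl) (hf : Continuous f) (b : Ordinal.{0}) :
    ∀ (z : Rl) (a n : ℕ), Rk (Wr (f z)) b a → Rk (Bdd_R f) b (pre z n, a) := by
  induction b using WellFoundedLT.induction with
  | ind b ih =>
    intro z a n h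
    rw [Rk] at h ⊢
    intro c hc
    obtain ⟨a', h1, h2⟩ := h c hc
    obtain ⟨n', h3, h4⟩ := Bdd_open f hf z a' a h1 n
    refine ⟨(pre z n', a'), ⟨Bdd_pre_prefix z h3, fun z' hz' => ?_⟩, ih c hc z a' n' h2⟩
    apply h4
    rw [Bdd_pre_length] at hz'
    exact hz'

theorem bounded (f : Rl → Rl) (hf : Continuous f) (h : ∀ z, WellFounded (Wr (f z))) :
    ∃ δ : Ordinal.{0}, δ < Ordinal.omega 1 ∧ ∀ z n, ¬ Rk (Wr (f z)) δ n := by
  obtain ⟨δ, h1, h2⟩ := Bdd_countable (Bdd_R f) (Bdd_wf f h)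
  exact ⟨δ, h1, fun z a h3 => h2 (pre z 0, a) (Bdd_rk f hf δ z a 0 h3)⟩

end Pool.Agent.LZF
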