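import Pool.Agent.LZF.ElN

set_option autoImplicit false

/-!
# ElK: elementary substructures satisfy the axioms (difficulty 3)

Let `(D, R)` satisfy the axioms, with all numerals in `D`, `R 2` wellfounded on `D`, `H` elementary in `D`.

* `lin`: `elem_lin`; `ar`, `eq`, `el`: restriction; `ext`: `elem_ext`; `ta`, `tp`: `elem_num`.
* `val`: for `b, c, z, x ∈ H`, `R 2 [c, b]`: `Val R (Low R D b) c n x ↔ Val R (Low R H b) c n x` by `elem_low` and
  `elem_val` (with `lin_low`, `wf_low`; `c ∈ Low R H b`), and `elem_num`.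
* `key_in`: let `q` be the key of `k ∈ H` in `D`. Let `x`, `y` be the numerals `q.2.1` and `q.2.2.length`; they are in
  `H` (`elem_num_mem`). `Fm.ex (Fm.atm 4 [0, 1, 2, 3])` holds in `D` at `[k, x, y]` (by `pin4` for `b = q.1`), so in `H`:
  some `b ∈ H` has `R 4 [k, x, y, b]`, so `b = q.1` by `pin4`. Every parameter `b = q.2.2[i]` is in `H`: `z` the numeral
  `i`, `Fm.ex (Fm.atm 5 [0, 1, 2])` at `[k, z]` gives `b' ∈ H` with `R 5 [k, z, b']`, so by `pin5` there is `i'` with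
  `IsNum R D i' z`, `q.2.2[i']? = some b'`; `i' = i` (`num_inj'`: the numerals `i ≠ i'` are different elements), so
  `b' = b`.
* `dfs_in`: for `k, q.1 ∈ H` and parameters in `H` below `q.1`: `DfS R D k q ↔ DfS R H k q`. Direction `→`: for
  `z ∈ H`, `R 2 [z, q.1]`, the satisfaction in `Low R H q.1` and in `Low R D q.1` agree by `elem_low`. Direction `←`:
  `DfS R D k q` is the formula `Fm.all (Fm.iff (Fm.atm 0 [d + 1, d]) (Fm.and (Fm.atm 2 [d + 1, 0]) (ins d (relf d (fm n)))))`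
  at the list `(q.1 :: q.2.2) ++ [k]`, where `d = q.2.2.length + 1` is the number of `k`, and `n = q.2.1`; details: by `sat_relf`
  `Sat R (Low R D g) φ (p ++ [z]) ↔ Sat R D (relf (p.length + 1) φ) (g :: (p ++ [z]))`, and by `sat_ins` (with
  `s = g :: p`, `t = [z]`, inserted value `k`) this is `Sat R D (ins (p.length + 1) (relf (p.length + 1) φ)) ((g :: p) ++ k :: [z])`.
  So `dfs_fm : ∃ ψ : Fm, ∀ D' (a universe), k, Sat R D' ψ ((g :: p) ++ [k]) ↔ DfS R D' k (g, n, p)` for all `g ∷ p` of the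
  given length; then both directions follow from elementarity.
* `least` for `H`: a smaller key `q'` in `H` defines in `D` some `z` with `R 2 [z, k]`, `DfS R D z q'`. The formula
  `Fm.ex (Fm.and (Fm.atm 2 [d + 1, d]) ψ')`, `ψ' = ins d ψ` with `d = q'.2.2.length + 1`, at the list
  `(q'.1 :: q'.2.2) ++ [k]` (then `z` has the number `d + 1`; `ins d` skips `k`) gives `z ∈ H`. Then `DfS R H z q'`
  (`dfs_in`).
* the key of `k` in `H` is `q`: `pin4`, `pin5` by `elem_num`.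
-/

namespace Pool.Agent.LZF

open Pool.Agent.NI

universe u

variable {K : Type u} {a : Rl} {R : ℕ → List K → Prop} {H D : K → Prop}

theorem ElK_mem (hs : LStr a R D) (n : ℕ) (z : K) (hz : D z) (h : IsNum R D n z) (w : K) (hw : D w) :
    R 0 [w, z] ↔ ∃ m < n, IsNum R D m w := by
  induction n generalizing z with
  | zero =>
    constructor
    · intro h1
      exact (h w hw h1).elim
    · rintro ⟨m, hm, -⟩
      exact absurd hm (Nat.not_lt_zero m)
  | succ n ih =>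
    obtain ⟨j, hj, h1, h2⟩ := h
    rw [h2 w hw, ih j hj h1]
    constructor
    · rintro (⟨m, hm, h3⟩ | h3)
      · exact ⟨m, hm.trans (Nat.lt_succ_self n), h3⟩
      · exact ⟨n, Nat.lt_succ_self n, by rw [h3]; exact h1⟩
    · rintro ⟨m, hm, h3⟩
      rcases Nat.lt_succ_iff_lt_or_eq.mp hm with hm' | hm'
      · exact Or.inl ⟨m, hm', h3⟩
      · subst hm'
        exact Or.inr (num_uniq hs m w j hw hj h3 h1)

theorem ElK_not (hs : LStr a R D) (x : K) (hx : D x) : ¬ R 0 [x, x] := fun h =>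
  hs.lin.irr x hx (hs.el x x hx hx h)

theorem num_inj' (hs : LStr a R D) (n m : ℕ) (x : K) (hx : D x) (h : IsNum R D n x)
    (h' : IsNum R D m x) : n = m := by
  rcases lt_trichotomy n m with hnm | hnm | hnm
  · exact absurd ((ElK_mem hs m x hx h' x hx).mpr ⟨n, hnm, h⟩) (ElK_not hs x hx)
  · exact hnm
  · exact absurd ((ElK_mem hs n x hx h x hx).mpr ⟨m, hnm, h'⟩) (ElK_not hs x hx)

theorem ElK_get (s : List K) (k z : K) : (s ++ k :: [z])[s.length]? = some k := by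
  simp

theorem ElK_get' (s : List K) (k z : K) : (s ++ k :: [z])[s.length + 1]? = some z := by
  simp

theorem dfs_fm (n d : ℕ) : ∃ ψ : Fm, ∀ (D' : K → Prop) (g k : K) (p : List K), p.length = d →
    (Sat R D' ψ ((g :: p) ++ [k]) ↔ DfS R D' k (g, n, p)) := by
  refine ⟨Fm.all (Fm.iff (Fm.atm 0 [d + 1 + 1, d + 1]) (Fm.and (Fm.atm 2 [d + 1 + 1, 0])
    (ins (d + 1) (relf (d + 1) (fm n))))), ?_⟩
  intro D' g k p hp
  rw [sat_all]
  unfold DfS
  refine forall_congr' fun z => forall_congr' fun _ => ?_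
  have hlen : (g :: p).length = d + 1 := by rw [List.length_cons, hp]
  have hlen' : (p ++ [z]).length = d + 1 := by rw [List.length_append, hp]; rfl
  have e : ((g :: p) ++ [k]) ++ [z] = (g :: p) ++ k :: [z] := by simp
  rw [e, sat_iff, sat_and]
  have h1 := ElK_get' (g :: p) k z
  have h2 := ElK_get (g :: p) k z
  rw [hlen] at h1 h2
  rw [sat_atm2 R D' 0 _ _ _ z k h1 h2, sat_atm2 R D' 2 _ _ _ z g h1 rfl]
  have h3 := sat_ins R D' (relf (d + 1) (fm n)) (g :: p) [z] k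
  rw [hlen] at h3
  have h4 := sat_relf R D' (fm n) g (p ++ [z])
  rw [hlen'] at h4
  rw [h3]
  have e2 : (g :: p) ++ [z] = g :: (p ++ [z]) := rfl
  rw [e2, h4]

theorem ElK_list (g : K) (p : List K) (k : K) (hg : H g) (hp : ∀ x ∈ p, H x) (hk : H k) :
    ∀ x ∈ (g :: p) ++ [k], H x := by
  intro x hx
  rw [List.mem_append, List.mem_cons, List.mem_singleton] at hx
  rcases hx with (hx | hx) | hx
  · rw [hx]; exact hg
  · exact hp x hx
  · rw [hx]; exact hk

theorem dfs_in (h : Elem R H D) (k : K) (hk : H k) (q : Ky K) (hq : H q.1) (hp : ∀ x ∈ q.2.2, H x) :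
    DfS R D k q ↔ DfS R H k q := by
  obtain ⟨ψ, hψ⟩ := dfs_fm (R := R) q.2.1 q.2.2.length
  have h1 := hψ D q.1 k q.2.2 rfl
  have h2 := hψ H q.1 k q.2.2 rfl
  have h3 := h.2 ψ ((q.1 :: q.2.2) ++ [k]) (ElK_list q.1 q.2.2 k hq hp hk)
  exact h1.symm.trans (h3.symm.trans h2)

theorem key_in (hs : LStr a R D) (hn : ∀ n, ∃ x, D x ∧ IsNum R D n x) (h : Elem R H D) (k : K)
    (hk : H k) (q : Ky K) (hq : IsKey R D k q) : H q.1 ∧ ∀ x ∈ q.2.2, H x := by
  constructor
  · obtain ⟨x, hx, hxn⟩ := hn q.2.1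
    obtain ⟨y, hy, hyn⟩ := hn q.2.2.length
    have hHx := elem_num_mem hs h _ x hx hxn
    have hHy := elem_num_mem hs h _ y hy hyn
    have h1 : Sat R D (Fm.ex (Fm.atm 4 [0, 1, 2, 3])) [k, x, y] :=
      ⟨q.1, hq.mem, (sat_atm4 R D 4 0 1 2 3 _ k x y q.1 rfl rfl rfl rfl).mpr
        ((hq.pin4 x y q.1 hx hy hq.mem).mpr ⟨rfl, hxn, hyn⟩)⟩
    have h2 := (h.2 _ [k, x, y] (by
      intro w hw
      simp only [List.mem_cons, List.not_mem_nil, or_false] at hw
      rcases hw with hw | hw | hw <;> rw [hw] <;> assumption)).mpr h1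
    obtain ⟨b, hb, h3⟩ := h2
    have h4 : R 4 [k, x, y, b] := (sat_atm4 R H 4 0 1 2 3 _ k x y b rfl rfl rfl rfl).mp h3
    have h5 := ((hq.pin4 x y b hx hy (h.1 b hb)).mp h4).1
    rw [← h5]
    exact hb
  · intro b hb
    obtain ⟨i, hi⟩ := List.mem_iff_getElem?.mp hb
    obtain ⟨z, hz, hzn⟩ := hn i
    have hHz := elem_num_mem hs h _ z hz hzn
    have h1 : Sat R D (Fm.ex (Fm.atm 5 [0, 1, 2])) [k, z] :=
      ⟨b, (hq.par b hb).1, (sat_atm3 R D 5 0 1 2 _ k z b rfl rfl rfl).mpr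
        ((hq.pin5 z b hz (hq.par b hb).1).mpr ⟨i, hzn, hi⟩)⟩
    have h2 := (h.2 _ [k, z] (by
      intro w hw
      simp only [List.mem_cons, List.not_mem_nil, or_false] at hw
      rcases hw with hw | hw <;> rw [hw] <;> assumption)).mpr h1
    obtain ⟨b', hb', h3⟩ := h2
    have h4 : R 5 [k, z, b'] := (sat_atm3 R H 5 0 1 2 _ k z b' rfl rfl rfl).mp h3
    obtain ⟨i', hi', h5⟩ := (hq.pin5 z b' hz (h.1 b' hb')).mp h4
    have h6 : i' = i := num_inj' hs i' i z hz hi' hzn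
    rw [h6, hi] at h5
    have h7 : b = b' := Option.some.inj h5
    rw [h7]
    exact hb'

theorem lstr_elem (hs : LStr a R D) (hw : WfOn R D) (hn : ∀ n, ∃ x, D x ∧ IsNum R D n x)
    (h : Elem R H D) : LStr a R H := by
  refine ⟨elem_lin h hs.lin, ?_, ?_, ?_, ?_, ?_, ?_, ?_, ?_⟩
  · exact fun r l hl => hs.ar r l fun x hx => h.1 x (hl x hx)
  · exact fun x y hx hy => hs.eq x y (h.1 x hx) (h.1 y hy)
  · exact fun x y hx hy => hs.el x y (h.1 x hx) (h.1 y hy)
  · exact fun x y hx hy hxy => elem_ext hs h x y hx hy hxy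
  · intro b c z x hb hc hz hx
    rw [hs.val b c z x (h.1 b hb) (h.1 c hc) (h.1 z hz) (h.1 x hx)]
    refine and_congr_right fun hcb => exists_congr fun n => ?_
    rw [elem_num hs h n z hz,
      elem_val (elem_low h b hb) (lin_low hs.lin b) (wf_low hw b) c ⟨hc, hcb⟩ n x]
  · intro k hk
    obtain ⟨q, hq⟩ := hs.key k (h.1 k hk)
    obtain ⟨hq1, hqp⟩ := key_in hs hn h k hk q hq
    refine ⟨q, hq1, hq.le, fun x hx => ⟨hqp x hx, (hq.par x hx).2⟩, (dfs_in h k hk q hq1 hqp).mp hq.dfs,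
      ?_, ?_, ?_⟩
    · intro q' hq1' hqp' hlt
      obtain ⟨z, hz, hzk, hzd⟩ := hq.least q' (h.1 _ hq1') (fun x hx => ⟨h.1 x (hqp' x hx).1, (hqp' x hx).2⟩) hlt
      obtain ⟨ψ, hψ⟩ := dfs_fm (R := R) q'.2.1 q'.2.2.length
      have key : ∀ (D' : K → Prop) (z : K),
          Sat R D' (Fm.and (Fm.atm 2 [(q'.1 :: q'.2.2).length + 1, (q'.1 :: q'.2.2).length])
            (ins (q'.1 :: q'.2.2).length ψ)) (((q'.1 :: q'.2.2) ++ [k]) ++ [z]) ↔
          R 2 [z, k] ∧ DfS R D' z q' := by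
        intro D' z
        have e : ((q'.1 :: q'.2.2) ++ [k]) ++ [z] = (q'.1 :: q'.2.2) ++ k :: [z] := by simp
        rw [e, sat_and, sat_atm2 R D' 2 _ _ _ z k (ElK_get' _ k z) (ElK_get _ k z), sat_ins]
        exact and_congr_right fun _ => hψ D' q'.1 z q'.2.2 rfl
      have h1 : Sat R D (Fm.ex (Fm.and (Fm.atm 2 [(q'.1 :: q'.2.2).length + 1, (q'.1 :: q'.2.2).length])
            (ins (q'.1 :: q'.2.2).length ψ))) ((q'.1 :: q'.2.2) ++ [k]) :=
        ⟨z, hz, (key D z).mpr ⟨hzk, hzd⟩⟩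
      obtain ⟨z', hz', h2⟩ := (h.2 _ _ (ElK_list q'.1 q'.2.2 k hq1' (fun x hx => (hqp' x hx).1) hk)).mpr h1
      exact ⟨z', hz', (key H z').mp h2⟩
    · intro x y b hx hy hb
      rw [hq.pin4 x y b (h.1 x hx) (h.1 y hy) (h.1 b hb), elem_num hs h _ x hx, elem_num hs h _ y hy]
    · intro x b hx hb
      rw [hq.pin5 x b (h.1 x hx) (h.1 b hb)]
      refine exists_congr fun i => ?_
      rw [elem_num hs h _ x hx]
  · intro z hz
    rw [hs.ta z (h.1 z hz)]
    refine exists_congr fun n => ?_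
    rw [elem_num hs h _ z hz]
  · intro x y z hx hy hz
    rw [hs.tp x y z (h.1 x hx) (h.1 y hy) (h.1 z hz)]
    refine exists_congr fun n => exists_congr fun m => ?_
    rw [elem_num hs h _ x hx, elem_num hs h _ y hy, elem_num hs h _ z hz]

end Pool.Agent.LZF
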