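import Pool.Agent.LZF.UnC

set_option autoImplicit false

/-!
# UnD: wellfounded structures are isomorphic to the structures of the model (difficulty 3)

* `step`: `Hyp k → HypL k`. First `numk`: for all `x ∈ D` with `¬ R 2 [k, x]`: `IsNum R D n x ↔ NumG (Kd a) n (i x)`: for
  `x` below `k` this is `hyp_num`, for `x = k` the same argument with `el_corr` (all elements of `k` are below `k`, and
  the number `j` in the case `n + 1` is an element of `k`, so below `k`, where `hyp_num` applies).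
  Let `l` be a list of elements `≤ k` (i.e. `∈ D`, `¬ R 2 [k, x]`). By `ar`, `rk_ar` we may suppose `r < 8`,
  `l.length = arr r` (otherwise both sides are false). By cases:
  `0`, `[x, y]`: `y = k`: `el_corr`; `y` below `k`: if `x` is not below `k` both sides are false (`el`, `rk0_lt`,
  `rank_lt`), else `Hyp`. `1`: `eq`, `rk1`, `rank_inj`. `2`: `rk2`, `rank_lt`.
  `3`, `[b, c, z, x]`: `LStr.val`, `rk3`, `numk`; `hyp_iso` for `b` and `IsoS.val` (both sides imply that `c`, `x` are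
  below `b`: `Val.mem`).
  `4`, `5`, first element `k'`: let `q` be its key (`LStr.key`); `key_corr` for `k'` (`hyp_mono`), `pin4`/`rk4`,
  `pin5`/`rk5` (`(q.2.2.map i)[j]? = some (i b) ↔ q.2.2[j]? = some b` by injectivity on `D`), `numk`.
  `6`: `ta`, `rk6`. `7`: `tp`, `rk7`.
* `hyp_all`: `HypL k` for all `k ∈ D` by wellfounded induction, `hyp_of_le` and `step`.
* `uniq`: a nonempty list has a maximal element (`list_max`), the empty list as in `hyp_of_le`.
* `uniq_iso`: `mem`, `sur` from the description of `τ`.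
-/

namespace Pool.Agent.LZF

open Pool.Agent.NI

universe u

variable {K : Type u} {a : Rl} {R : ℕ → List K → Prop} {D : K → Prop} {i : K → Od}

theorem UnD_le (hs : LStr a R D) (k : K) (hk : D k) {x y : K} (hx : D x) (hy : D y)
    (hyk : ¬ R 2 [k, y]) (hxy : R 2 [x, y]) : ¬ R 2 [k, x] := fun h => hyk (hs.lin.tra k x y hk hx hy h hxy)

theorem UnD_lt (hs : LStr a R D) (k : K) (hk : D k) {x y : K} (hx : D x) (hy : D y)
    (hyk : ¬ R 2 [k, y]) (hxy : R 2 [x, y]) : R 2 [x, k] := by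
  rcases hs.lin.tri y k hy hk with h | h | h
  · exact hs.lin.tra x y k hx hy hk hxy h
  · rw [← h]; exact hxy
  · exact absurd h hyk

theorem UnD_el (hs : LStr a R D) (hi : IsRank R D i) (k : K) (hk : D k) (h : Hyp a R D i k)
    (x y : K) (hx : D x) (hy : D y) (hyk : ¬ R 2 [k, y]) : R 0 [x, y] ↔ RK a 0 [i x, i y] := by
  rcases hs.lin.tri y k hy hk with h' | h' | h'
  · constructor
    · intro h0
      have h2 := hs.el x y hx hy h0
      have hxk := hs.lin.tra x y k hx hy hk h2 h'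
      refine (h 0 [x, y] ?_).1 h0
      intro z hz
      rw [List.mem_cons, List.mem_singleton] at hz
      rcases hz with rfl | rfl
      · exact ⟨hx, hxk⟩
      · exact ⟨hy, h'⟩
    · intro h0
      have h2 : R 2 [x, y] := (rank_lt hs.lin hi x y hx hy).2 (rk0_lt a h0)
      have hxk := hs.lin.tra x y k hx hy hk h2 h'
      refine (h 0 [x, y] ?_).2 h0
      intro z hz
      rw [List.mem_cons, List.mem_singleton] at hz
      rcases hz with rfl | rfl
      · exact ⟨hx, hxk⟩
      · exact ⟨hy, h'⟩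
  · subst h'
    exact el_corr hs hi y hk h x hx
  · exact absurd h' hyk

theorem UnD_num (hs : LStr a R D) (hi : IsRank R D i) (k : K) (hk : D k) (h : Hyp a R D i k)
    (n : ℕ) : ∀ x, D x → ¬ R 2 [k, x] → (IsNum R D n x ↔ NumG (Kd a) n (i x)) := by
  induction n with
  | zero =>
    intro x hx hxk
    constructor
    · intro h0 w hw
      rw [← rk0] at hw
      obtain ⟨y, hy, hyx, rfl⟩ := (hi x hx w).1 (rk0_lt a hw)
      exact h0 y hy ((UnD_el hs hi k hk h y x hy hx hxk).2 hw)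
    · intro h0 z hz hzx
      have := (UnD_el hs hi k hk h z x hz hx hxk).1 hzx
      rw [rk0] at this
      exact h0 _ this
  | succ n ih =>
    intro x hx hxk
    constructor
    · rintro ⟨j, hj, hjn, hjx⟩
      have h1 : R 0 [j, x] := (hjx j hj).2 (Or.inr rfl)
      have h2 : R 2 [j, x] := hs.el j x hj hx h1
      have hjk := UnD_le hs k hk hj hx hxk h2
      refine ⟨i j, (rank_lt hs.lin hi j x hj hx).1 h2, (ih j hj hjk).1 hjn, ?_⟩
      intro w
      constructor
      · intro hw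
        rw [← rk0] at hw
        obtain ⟨z, hz, hzx, rfl⟩ := (hi x hx w).1 (rk0_lt a hw)
        rcases (hjx z hz).1 ((UnD_el hs hi k hk h z x hz hx hxk).2 hw) with h3 | h3
        · left
          rw [← rk0]
          exact (UnD_el hs hi k hk h z j hz hj hjk).1 h3
        · right
          rw [h3]
      · rintro (hw | rfl)
        · rw [← rk0] at hw
          obtain ⟨z, hz, hzj, rfl⟩ := (hi j hj w).1 (rk0_lt a hw)
          have h3 := (UnD_el hs hi k hk h z j hz hj hjk).2 hw
          rw [← rk0]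
          exact (UnD_el hs hi k hk h z x hz hx hxk).1 ((hjx z hz).2 (Or.inl h3))
        · rw [← rk0]
          exact (UnD_el hs hi k hk h j x hj hx hxk).1 h1
    · rintro ⟨j', hj', hjn, hjx⟩
      obtain ⟨j, hj, hjx2, rfl⟩ := (hi x hx j').1 hj'
      have hjk := UnD_le hs k hk hj hx hxk hjx2
      refine ⟨j, hj, (ih j hj hjk).2 hjn, ?_⟩
      intro z hz
      rw [UnD_el hs hi k hk h z x hz hx hxk, UnD_el hs hi k hk h z j hz hj hjk, rk0, rk0, hjx (i z)]
      constructor
      · rintro (h3 | h3)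
        · exact Or.inl h3
        · exact Or.inr (rank_inj hs.lin hi z j hz hj h3)
      · rintro (h3 | h3)
        · exact Or.inl h3
        · exact Or.inr (by rw [h3])

theorem step (hs : LStr a R D) (hi : IsRank R D i) (k : K) (hk : D k) (h : Hyp a R D i k) :
    HypL a R D i k := by
  intro r l hl
  by_cases hc : r < 8 ∧ l.length = arr r
  swap
  · constructor
    · intro h1
      exact absurd (hs.ar r l (fun x hx => (hl x hx).1) h1) hc
    · intro h1
      have := rk_ar a r _ h1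
      rw [List.length_map] at this
      exact absurd this hc
  obtain ⟨h8, hlen⟩ := hc
  have num := fun n => UnD_num hs hi k hk h n
  interval_cases r
  · rcases l with _ | ⟨x, _ | ⟨y, _ | ⟨_, _⟩⟩⟩ <;> simp [arr] at hlen
    have hx := hl x (by simp)
    have hy := hl y (by simp)
    exact UnD_el hs hi k hk h x y hx.1 hy.1 hy.2
  · rcases l with _ | ⟨x, _ | ⟨y, _ | ⟨_, _⟩⟩⟩ <;> simp [arr] at hlen
    have hx := hl x (by simp)
    have hy := hl y (by simp)
    show R 1 [x, y] ↔ RK a 1 [i x, i y]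
    rw [hs.eq x y hx.1 hy.1, rk1]
    exact ⟨fun e => by rw [e], fun e => rank_inj hs.lin hi x y hx.1 hy.1 e⟩
  · rcases l with _ | ⟨x, _ | ⟨y, _ | ⟨_, _⟩⟩⟩ <;> simp [arr] at hlen
    have hx := hl x (by simp)
    have hy := hl y (by simp)
    show R 2 [x, y] ↔ RK a 2 [i x, i y]
    rw [rk2]
    exact rank_lt hs.lin hi x y hx.1 hy.1
  · rcases l with _ | ⟨b, _ | ⟨c, _ | ⟨z, _ | ⟨x, _ | ⟨_, _⟩⟩⟩⟩⟩ <;> simp [arr] at hlen
    have hb := hl b (by simp)
    have hc := hl c (by simp)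
    have hz := hl z (by simp)
    have hx := hl x (by simp)
    show R 3 [b, c, z, x] ↔ RK a 3 [i b, i c, i z, i x]
    rw [hs.val b c z x hb.1 hc.1 hz.1 hx.1, rk3, rank_lt hs.lin hi c b hc.1 hb.1]
    have iso := hyp_iso hs.lin hi k b hk hb.1 h hb.2
    constructor
    · rintro ⟨h1, n, h2, h3⟩
      have hlow : Low R D b c := ⟨hc.1, (rank_lt hs.lin hi c b hc.1 hb.1).2 h1⟩
      exact ⟨h1, n, (num n z hz.1 hz.2).1 h2, (iso.val c hlow n x (Val.mem hlow h3)).1 h3⟩
    · rintro ⟨h1, n, h2, h3⟩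
      have hlow : Low R D b c := ⟨hc.1, (rank_lt hs.lin hi c b hc.1 hb.1).2 h1⟩
      have hx3 : i x < i b := Val.mem (D := fun y => y < i b) h1 h3
      exact ⟨h1, n, (num n z hz.1 hz.2).2 h2,
        (iso.val c hlow n x ⟨hx.1, (rank_lt hs.lin hi x b hx.1 hb.1).2 hx3⟩).2 h3⟩
  · rcases l with _ | ⟨k', _ | ⟨x, _ | ⟨y, _ | ⟨b, _ | ⟨_, _⟩⟩⟩⟩⟩ <;> simp [arr] at hlen
    have hk' := hl k' (by simp)
    have hx := hl x (by simp)
    have hy := hl y (by simp)
    have hb := hl b (by simp)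
    obtain ⟨q, hq⟩ := hs.key k' hk'.1
    have e := key_corr hs hi k' hk'.1 (hyp_mono hs.lin k k' hk hk'.1 h hk'.2) q hq
    show R 4 [k', x, y, b] ↔ RK a 4 [i k', i x, i y, i b]
    rw [hq.pin4 x y b hx.1 hy.1 hb.1, rk4, e]
    simp only [List.length_map]
    rw [num _ x hx.1 hx.2, num _ y hy.1 hy.2]
    constructor
    · rintro ⟨h1, h2⟩
      exact ⟨by rw [h1], h2⟩
    · rintro ⟨h1, h2⟩
      exact ⟨rank_inj hs.lin hi b q.1 hb.1 hq.mem h1, h2⟩
  · rcases l with _ | ⟨k', _ | ⟨x, _ | ⟨b, _ | ⟨_, _⟩⟩⟩⟩ <;> simp [arr] at hlen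
    have hk' := hl k' (by simp)
    have hx := hl x (by simp)
    have hb := hl b (by simp)
    obtain ⟨q, hq⟩ := hs.key k' hk'.1
    have e := key_corr hs hi k' hk'.1 (hyp_mono hs.lin k k' hk hk'.1 h hk'.2) q hq
    show R 5 [k', x, b] ↔ RK a 5 [i k', i x, i b]
    rw [hq.pin5 x b hx.1 hb.1, rk5, e]
    simp only [List.getElem?_map]
    constructor
    · rintro ⟨j, h1, h2⟩
      refine ⟨j, (num j x hx.1 hx.2).1 h1, ?_⟩
      rw [h2]
      rfl
    · rintro ⟨j, h1, h2⟩
      refine ⟨j, (num j x hx.1 hx.2).2 h1, ?_⟩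
      rw [Option.map_eq_some_iff] at h2
      obtain ⟨b', hb', e'⟩ := h2
      have hm : b' ∈ q.2.2 := List.mem_of_getElem? hb'
      rw [hb', rank_inj hs.lin hi b' b (hq.par b' hm).1 hb.1 e']
  · rcases l with _ | ⟨z, _ | ⟨_, _⟩⟩ <;> simp [arr] at hlen
    have hz := hl z (by simp)
    show R 6 [z] ↔ RK a 6 [i z]
    rw [hs.ta z hz.1, rk6]
    constructor
    · rintro ⟨n, h1, h2⟩
      exact ⟨n, (num n z hz.1 hz.2).1 h1, h2⟩
    · rintro ⟨n, h1, h2⟩
      exact ⟨n, (num n z hz.1 hz.2).2 h1, h2⟩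
  · rcases l with _ | ⟨x, _ | ⟨y, _ | ⟨z, _ | ⟨_, _⟩⟩⟩⟩ <;> simp [arr] at hlen
    have hx := hl x (by simp)
    have hy := hl y (by simp)
    have hz := hl z (by simp)
    show R 7 [x, y, z] ↔ RK a 7 [i x, i y, i z]
    rw [hs.tp x y z hx.1 hy.1 hz.1, rk7]
    constructor
    · rintro ⟨n, m, h1, h2, h3⟩
      exact ⟨n, m, (num n x hx.1 hx.2).1 h1, (num m y hy.1 hy.2).1 h2, (num _ z hz.1 hz.2).1 h3⟩
    · rintro ⟨n, m, h1, h2, h3⟩
      exact ⟨n, m, (num n x hx.1 hx.2).2 h1, (num m y hy.1 hy.2).2 h2, (num _ z hz.1 hz.2).2 h3⟩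

theorem UnD_all (hs : LStr a R D) (hw : WfOn R D) (hi : IsRank R D i) (k : K) :
    D k → HypL a R D i k := by
  refine hw.induction (C := fun k => D k → HypL a R D i k) k ?_
  intro k ih hk
  exact step hs hi k hk (hyp_of_le hs k hk (fun k' hk' hkk => ih k' ⟨hk', hk, hkk⟩ hk'))

theorem uniq (hs : LStr a R D) (hw : WfOn R D) (hi : IsRank R D i) (r : ℕ) (l : List K)
    (hl : ∀ x ∈ l, D x) : R r l ↔ RK a r (l.map i) := by
  by_cases hn : l = []
  · subst hn
    have key : ∀ r : ℕ, ¬ (r < 8 ∧ ([] : List K).length = arr r) := by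
      rintro r ⟨h1, h2⟩
      interval_cases r <;> simp [arr] at h2
    constructor
    · intro h
      exact absurd (hs.ar r [] hl h) (key r)
    · intro h
      exact absurd (rk_ar a r _ h) (key r)
  · obtain ⟨m, hm, hmax⟩ := list_max hs.lin l hn hl
    exact UnD_all hs hw hi m (hl m hm) r l (fun x hx => ⟨hl x hx, hmax x hx⟩)

theorem uniq_iso (hs : LStr a R D) (hw : WfOn R D) (hi : IsRank R D i) (τ : Od)
    (hτ : ∀ ξ, ξ < τ ↔ ∃ x, D x ∧ i x = ξ) : IsoS R D (RK a) (fun x => x < τ) i where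
  mem := fun x hx => (hτ _).2 ⟨x, hx, rfl⟩
  sur := fun y hy => (hτ y).1 hy
  inj := fun x y hx hy e => rank_inj hs.lin hi x y hx hy e
  rel := fun r l hl => uniq hs hw hi r l hl

end Pool.Agent.LZF
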