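import Pool.Agent.LZF.Rfl
import Pool.Agent.LZF.ElK
import Pool.Agent.LZF.UnD

set_option autoImplicit false

/-!
# PinX: every real of the model has a pinned level (difficulty 3)

Let `Rep a c x`. Take `κ` from `exists_kappa` with `c < κ`, `D = (· < κ)`, `H = Hull (RK a) D c`. By `hull_elem` and
`wfOn_K` `H` is elementary in `D`; by `lstr_K`, `lstr_elem` (numerals: `num_un`, `num_low`) `(H, RK a)` satisfies the
axioms. `exists_rank` (subsets of `Set.Iio κ` are small, `small_subset`) and `rank_image` give `i`, `τ`, and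
`uniq_iso` says that `i` is an isomorphism from `(H, RK a)` to `(· < τ, RK a)`. `c ∈ H` (`Val.base`).
* numerals: `z` numeral `n` (in `Un`), `z ∈ H` (`elem_num_mem`), and `i z` is the numeral `n` of `(· < τ)` (`elem_num`,
  `IsoS.num`), so of `Un` (`num_low`, `num_un`), so `i z = z` (`num_unique`).
* `i c = c`: by `k_ext`: if `RK a 0 [z, c]` then `z` is a numeral (`Rep`), so `z ∈ H`, `i z = z` and `RK a 0 [i z, i c]` by
  `uniq`. Conversely if `RK a 0 [z, i c]` then `z < i c`, so `z = i y` for some `y ∈ H` below `c`, `RK a 0 [y, c]` by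
  `uniq`, so `y` is a numeral and `z = i y = y`.
* `Pin a τ c`: `c = i c < τ`. For `ξ < τ`: `ξ = i x`, `x ∈ H`, `Val (RK a) D c n x`, so `Val (RK a) H c n x` (`elem_val`),
  `Val (RK a) (· < τ) (i c) n (i x)` (`IsoS.val`). Numerals: above.
-/

namespace Pool.Agent.LZF

open Pool.Agent.NI

theorem exists_pin (a : Rl) (c : Od) (x : Rl) (h : Rep a c x) : ∃ τ, Pin a τ c := by
  obtain ⟨κ, hcκ, -, hκ⟩ := exists_kappa a c
  have hs : LStr a (RK a) (fun x => x < κ) := lstr_K a κ
  have hw : WfOn (RK a) (fun x => x < κ) := wfOn_K a _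
  have hnD : ∀ n z, IsNum (RK a) Un n z → IsNum (RK a) (fun x => x < κ) n z := fun n z hz =>
    (num_low a κ n z (hκ n z hz)).2 ((num_un a n z).1 hz)
  have hnum : ∀ n, ∃ x, (fun x => x < κ) x ∧ IsNum (RK a) (fun x => x < κ) n x := by
    intro n
    obtain ⟨z, hz⟩ := exists_num a n
    exact ⟨z, hκ n z hz, hnD n z hz⟩
  have he : Elem (RK a) (Hull (RK a) (fun x => x < κ) c) (fun x => x < κ) := hull_elem hw c hcκ
  have hsH := lstr_elem hs hw hnum he
  have hwH : WfOn (RK a) (Hull (RK a) (fun x => x < κ) c) := wfOn_K a _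
  have hcH : Hull (RK a) (fun x => x < κ) c c := ⟨0, Val.base⟩
  have hsmall : ∀ (P : Od → Prop) (b : Od), (∀ x, P x → x < b) → Small.{0} {y : Od // P y} := by
    intro P b hP
    have : Small.{0} (Set.Iio b) := inferInstance
    exact small_subset (t := {y | P y}) (s := Set.Iio b) (fun y hy => hP y hy)
  obtain ⟨i, hi⟩ := exists_rank hsH.lin hwH (fun x _ => hsmall _ x fun y hy => (rk2 a y x).1 hy.2)
  obtain ⟨τ, hτ⟩ := rank_image hi (hsmall _ κ fun y hy => he.1 y hy)
  have iso := uniq_iso hsH hwH hi τ hτ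
  have hnum' : ∀ n z, IsNum (RK a) Un n z → Hull (RK a) (fun x => x < κ) c z ∧ i z = z ∧
      IsNum (RK a) (fun x => x < τ) n z := by
    intro n z hz
    have h1 := hnD n z hz
    have h2 := elem_num_mem hs he n z (hκ n z hz) h1
    have h3 := (iso.num n z h2).1 ((elem_num hs he n z h2).1 h1)
    have h4 := (num_low a τ n (i z) (iso.mem z h2)).1 h3
    have h5 := num_unique a n (i z) z ((num_un a n (i z)).2 h4) hz
    refine ⟨h2, h5, ?_⟩
    rw [h5] at h3
    exact h3
  have hrel : ∀ y, Hull (RK a) (fun x => x < κ) c y → (RK a 0 [y, c] ↔ RK a 0 [i y, i c]) := by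
    intro y hy
    have := iso.rel 0 [y, c] (by
      intro x hx
      simp only [List.mem_cons, List.not_mem_nil, or_false] at hx
      rcases hx with rfl | rfl
      · exact hy
      · exact hcH)
    simpa using this
  have hic : i c = c := by
    apply k_ext a
    intro z
    constructor
    · intro hz
      have hlt := rk0_lt a hz
      obtain ⟨y, hy, -, hyz⟩ := (hi c hcH z).1 hlt
      have h1 : RK a 0 [y, c] := (hrel y hy).2 (by rw [hyz]; exact hz)
      obtain ⟨n, hn⟩ := h.1 y h1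
      have h2 := (hnum' n y hn).2.1
      rw [← hyz, h2]
      exact h1
    · intro hz
      obtain ⟨n, hn⟩ := h.1 z hz
      obtain ⟨h1, h2, -⟩ := hnum' n z hn
      have := (hrel z h1).1 hz
      rw [h2] at this
      exact this
  refine ⟨τ, ⟨(hτ c).2 ⟨c, hcH, hic⟩, ?_, ?_⟩⟩
  · intro ξ hξ
    obtain ⟨y, hy, rfl⟩ := (hτ ξ).1 hξ
    obtain ⟨n, hn⟩ := id hy
    refine ⟨n, ?_⟩
    have h1 := (iso.val c hcH n y hy).1 ((elem_val he hs.lin hw c hcH n y).1 hn)
    rw [hic] at h1
    exact h1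
  · intro n
    obtain ⟨z, hz⟩ := exists_num a n
    obtain ⟨h1, h2, h3⟩ := hnum' n z hz
    refine ⟨z, ?_, h3⟩
    exact (hτ z).2 ⟨z, h1, h2⟩

end Pool.Agent.LZF
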