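import Pool.Agent.LZF.DgM
import Pool.Agent.LZF.PinX

set_option autoImplicit false

/-!
# CHm: the continuum hypothesis in the model (difficulty 3)

`Cb z`: the set `ws z` of all elements below `z` is countable in the model: there is `g` with
`∀ k z z', opair k z ∈ g → opair k z' ∈ g → z = z'` and `∀ y, wlt y z → ∃ n, opair (nu n) y ∈ g`. By `exists_pin` and
`pin_countable` every real `c` of the model (`Rep a c x`) is below some `τ` with `Cb τ`.

Let `d` be a set of reals of the model, and let `Y` be the set of all reals of the model (`isreal_dfn` in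
`pow omega`). Suppose that `d` is not countable in the model.
* (1) For every real `c` there is `x ∈ d` with `wlt c x` (otherwise `d ⊆ ws τ`, `Cb τ`, so `d` is countable); the same
  for `Y` (`d ⊆ Y`).
* (2) By `exists_recW` with `H x f =` the least `y ∈ d` (for `wlt`) which is not a value `app f u` of a real `u ∈ Y`
  below `x` (and `∅` if there is none; definable by `DFun.of_iff`) there is a definable `F` such that for all
  `x ∈ Y`: `F x ∈ d`, `F x ≠ F u` for `u ∈ Y` below `x`: such `y` exist: otherwise `d ⊆ {F u | u ∈ Y, wlt u x}`, and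
  this set is countable in the model (compose the `g` of a `τ` above `x` with `F`: the set of all
  `opair k (F u)` with `opair k u ∈ g`, `u ∈ Y`, `wlt u x`).
* (3) `F` is injective on `Y`. It is onto `d`: suppose `y ∈ d` is not a value. Then for all `x ∈ Y` `F x` is below `y`
  (`F x` is the least element of `d` not in `{F u}`, `y` is such an element, `F x ≠ y`). So `F` is an injection of `Y`
  into `ws y`, `Cb τ` for some `τ` above `y`, so `Y`, hence `d`, is countable in the model: the set of all `opair k x` with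
  `opair k (F x) ∈ g`, `x ∈ Y`, is functional because `F` is injective. Contradiction.
* `ContSet` is given by `lam Y F` (`mem_lam`), `CtblSet` by the `g` above; `SC.Rel` by `rel_iff` (`H55/SCBridge`),
  `IsNat`, `IsRl` by `isNat_iff`, `isRl_iff`.
-/

namespace Pool.Agent.LZF

open Pool.Agent.NI Pool.Agent.H55 Pool.Agent.H55.ZFU FirstOrder

variable {a : Rl}

/-! ### Least elements -/

open Classical in
/-- the least element with property `P` -/
noncomputable def CHm_least (P : Mo a → Prop) : Mo a :=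
  if h : ∃ x, P x ∧ ∀ z, P z → ¬ wlt z x then Classical.choose h else ∅

theorem CHm_min (P : Mo a → Prop) (h : ∃ x, P x) : ∃ x, P x ∧ ∀ z, P z → ¬ wlt z x := by
  obtain ⟨x, hx, hm⟩ := (wlt_wf (a := a)).has_min {x | P x} h
  exact ⟨x, hx, fun z hz => hm z hz⟩

theorem CHm_tri (x y : Mo a) : wlt x y ∨ x = y ∨ wlt y x := by
  rw [wlt_iff, wlt_iff]
  exact @lt_trichotomy Ordinal.{0} _ x y

theorem CHm_trans {x y z : Mo a} (h : wlt x y) (h' : wlt y z) : wlt x z := by
  rw [wlt_iff] at *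
  exact @lt_trans Ordinal.{0} _ _ _ _ h h'

theorem CHm_least_spec (P : Mo a → Prop) (h : ∃ x, P x) :
    P (CHm_least P) ∧ ∀ z, P z → ¬ wlt z (CHm_least P) := by
  have h1 := CHm_min P h
  have h2 : CHm_least P = Classical.choose h1 := by unfold CHm_least; exact dif_pos h1
  rw [h2]
  exact Classical.choose_spec h1

theorem CHm_least_iff (P : Mo a → Prop) (y : Mo a) :
    y = CHm_least P ↔ (P y ∧ ∀ z, P z → ¬ wlt z y) ∨ ((¬ ∃ x, P x) ∧ y = ∅) := by
  by_cases h : ∃ x, P x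
  · have h1 := CHm_least_spec P h
    constructor
    · rintro rfl
      exact Or.inl h1
    · rintro (h2 | h2)
      · rcases CHm_tri y (CHm_least P) with h3 | h3 | h3
        · exact absurd h3 (h1.2 y h2.1)
        · exact h3
        · exact absurd h3 (h2.2 _ h1.1)
      · exact absurd h h2.1
  · have h1 : ¬ ∃ x, P x ∧ ∀ z, P z → ¬ wlt z x := fun ⟨x, hx, _⟩ => h ⟨x, hx⟩
    have h2 : CHm_least P = ∅ := by unfold CHm_least; exact dif_neg h1
    rw [h2]
    constructor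
    · rintro rfl
      exact Or.inr ⟨h, rfl⟩
    · rintro (h3 | h3)
      · exact absurd ⟨y, h3.1⟩ h
      · exact h3.2

instance CHm_least_dfun {ι : Type} (φ : (ι → Mo a) → Mo a → Prop)
    [h : Dfn (fun w : Option ι → Mo a => φ (fun i => w (some i)) (w none))] :
    DFun (fun v => CHm_least (φ v)) := by
  have h2 : Dfn (fun w : Option (Option ι) → Mo a => φ (fun i => w (some (some i))) (w none)) :=
    Dfn.rename (fun o : Option ι => o.elim none (fun i => some (some i))) h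
  refine DFun.of_iff (fun v y => (φ v y ∧ ∀ z : Mo a, φ v z → ¬ wlt z y) ∨ ((¬ ∃ x : Mo a, φ v x) ∧ y = ∅))
    inferInstance ?_
  intro v y
  exact CHm_least_iff (φ v) y

/-! ### The recursion -/

/-- the step of the recursion -/
noncomputable def CHm_H (d Y : Mo a) (x f : Mo a) : Mo a :=
  CHm_least (fun y : Mo a => y ∈ d ∧ ∀ u : Mo a, u ∈ Y → wlt u x → y ≠ app f u)

instance CHm_H_fn (d Y : Mo a) : Fn2 (CHm_H d Y) := by
  show DFun (fun v : Fin 2 → Mo a => CHm_least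
    (fun y : Mo a => y ∈ d ∧ ∀ u : Mo a, u ∈ Y → wlt u (v 0) → y ≠ app (v 1) u))
  infer_instance

theorem CHm_rec (d Y : Mo a) : ∃ F : Mo a → Mo a, Fn1 F ∧
    ∀ x, F x = CHm_least (fun y : Mo a => y ∈ d ∧ ∀ u : Mo a, u ∈ Y → wlt u x → y ≠ F u) := by
  obtain ⟨F, hF, h⟩ := exists_recW (CHm_H d Y)
  refine ⟨F, hF, fun x => ?_⟩
  have h1 : (fun y : Mo a => y ∈ d ∧ ∀ u : Mo a, u ∈ Y → wlt u x → y ≠ app (lam (ws x) F) u) =
      fun y : Mo a => y ∈ d ∧ ∀ u : Mo a, u ∈ Y → wlt u x → y ≠ F u := by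
    funext y
    refine propext (and_congr_right fun _ => ?_)
    refine forall_congr' fun u => forall_congr' fun _ => ?_
    constructor
    · intro h2 h3
      have h4 := h2 h3
      rwa [app_lam ((mem_ws x u).2 h3)] at h4
    · intro h2 h3
      rw [app_lam ((mem_ws x u).2 h3)]
      exact h2 h3
  rw [h x]
  show CHm_least (fun y : Mo a => y ∈ d ∧ ∀ u : Mo a, u ∈ Y → wlt u x → y ≠ app (lam (ws x) F) u) = _
  rw [h1]

/-- countable in the model -/
def CHm_ct (d : Mo a) : Prop := ∃ g : Mo a, (∀ k z z' : Mo a, opair k z ∈ g → opair k z' ∈ g → z = z') ∧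
  ∀ z : Mo a, z ∈ d → ∃ n : ℕ, opair (nu a n) z ∈ g

theorem CHm_pin (c : Mo a) (x : Rl) (h : Rep a c x) : ∃ τ : Mo a, wlt c τ ∧ CHm_ct (ws τ) := by
  obtain ⟨τ, hτ⟩ := exists_pin a c x h
  obtain ⟨g, hg1, hg2⟩ := pin_countable (a := a) τ c hτ
  refine ⟨τ, (wlt_iff c τ).2 hτ.lt, g, hg1, fun z hz => hg2 z ((mem_ws τ z).1 hz)⟩

theorem CHm_nu_omega (n : ℕ) : nu a n ∈ (omega : Mo a) := (omega_iff _).2 ⟨n, rfl⟩

theorem CHm_real (c : Mo a) : c ∈ pow (omega : Mo a) ↔ ∃ x, Rep a c x := by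
  rw [mem_pow']
  constructor
  · intro h
    exact rep_real c fun z hz => (omega_iff z).1 (h z hz)
  · rintro ⟨x, hx⟩ z hz
    exact (omega_iff z).2 (rep_sub c x hx z hz)

/-- a subset of the image of a countable set is countable -/
theorem CHm_img {d e : Mo a} (F : Mo a → Mo a) [Fn1 F] (h : CHm_ct e)
    (hd : ∀ z, z ∈ d → ∃ u, u ∈ e ∧ z = F u) : CHm_ct d := by
  obtain ⟨g, hg1, hg2⟩ := h
  refine ⟨sep (prod omega d) (fun p : Mo a => ∃ u : Mo a, opair (fst p) u ∈ g ∧ snd p = F u), ?_, ?_⟩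
  · intro k z z' h1 h2
    have hF : Dfn1 (fun p : Mo a => ∃ u : Mo a, opair (fst p) u ∈ g ∧ snd p = F u) := by
      have := Fn1.comp (F := F) inferInstance (fun v : Option (Fin 1) → Mo a => v none)
      infer_instance
    rw [mem_sep] at h1 h2
    obtain ⟨-, u, h3, h4⟩ := h1
    obtain ⟨-, u', h5, h6⟩ := h2
    rw [fst_opair] at h3 h5
    rw [snd_opair] at h4 h6
    rw [h4, h6, hg1 k u u' h3 h5]
  · intro z hz
    have hF : Dfn1 (fun p : Mo a => ∃ u : Mo a, opair (fst p) u ∈ g ∧ snd p = F u) := by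
      have := Fn1.comp (F := F) inferInstance (fun v : Option (Fin 1) → Mo a => v none)
      infer_instance
    obtain ⟨u, hu, rfl⟩ := hd z hz
    obtain ⟨n, hn⟩ := hg2 u hu
    refine ⟨n, ?_⟩
    rw [mem_sep]
    refine ⟨opair_mem_prod.2 ⟨CHm_nu_omega n, hz⟩, u, ?_, ?_⟩
    · rw [fst_opair]
      exact hn
    · rw [snd_opair]

/-- a set with an injection in a countable set is countable -/
theorem CHm_inj {d e : Mo a} (F : Mo a → Mo a) [Fn1 F] (h : CHm_ct e) (hd : ∀ z, z ∈ d → F z ∈ e)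
    (hi : ∀ z z', z ∈ d → z' ∈ d → F z = F z' → z = z') : CHm_ct d := by
  obtain ⟨g, hg1, hg2⟩ := h
  have hF : Dfn1 (fun p : Mo a => opair (fst p) (F (snd p)) ∈ g) := by
    have := Fn1.comp (F := F) inferInstance (fun v : Fin 1 → Mo a => snd (v 0))
    infer_instance
  refine ⟨sep (prod omega d) (fun p : Mo a => opair (fst p) (F (snd p)) ∈ g), ?_, ?_⟩
  · intro k z z' h1 h2
    rw [mem_sep, fst_opair, snd_opair, opair_mem_prod] at h1 h2
    exact hi z z' h1.1.2 h2.1.2 (hg1 k _ _ h1.2 h2.2)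
  · intro z hz
    obtain ⟨n, hn⟩ := hg2 _ (hd z hz)
    refine ⟨n, ?_⟩
    rw [mem_sep, fst_opair, snd_opair]
    exact ⟨opair_mem_prod.2 ⟨CHm_nu_omega n, hz⟩, hn⟩

theorem CHm_sub {d e : Mo a} (h : CHm_ct e) (hd : ∀ z, z ∈ d → z ∈ e) : CHm_ct d := by
  obtain ⟨g, hg1, hg2⟩ := h
  exact ⟨g, hg1, fun z hz => hg2 z (hd z hz)⟩

theorem CHm_ctIn {d : Mo a} (h : CHm_ct d) : CtIn (EM a) d := by
  obtain ⟨g, hg1, hg2⟩ := h
  refine ⟨g, fun k z z' h1 h2 => hg1 k z z' (rel_iff.1 h1) (rel_iff.1 h2), fun z hz => ?_⟩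
  obtain ⟨n, hn⟩ := hg2 z hz
  exact ⟨n, nu a n, (isNat_iff n _).2 (nu_spec n), rel_iff.2 hn⟩

theorem CHm_contIn {d : Mo a} (F : Mo a → Mo a) [Fn1 F] (h1 : ∀ x, (∃ y, Rep a x y) → F x ∈ d)
    (h2 : ∀ x x', (∃ y, Rep a x y) → (∃ y, Rep a x' y) → F x = F x' → x = x')
    (h3 : ∀ z, z ∈ d → ∃ x, (∃ y, Rep a x y) ∧ F x = z) : ContIn (EM a) d := by
  have hr : ∀ c : Mo a, (∃ x, IsRl (EM a) c x) ↔ ∃ y, Rep a c y := fun c => exists_congr fun x => isRl_iff c x
  have hrel : ∀ c z : Mo a, SC.Rel (EM a) (lam (pow omega) F) c z ↔ (∃ y, Rep a c y) ∧ z = F c := by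
    intro c z
    refine (rel_iff (r := lam (pow (omega : Mo a)) F) (x := c) (y := z)).trans ?_
    rw [mem_lam]
    constructor
    · rintro ⟨x, hx, he⟩
      rw [opair_inj] at he
      obtain ⟨rfl, rfl⟩ := he
      exact ⟨(CHm_real c).1 hx, rfl⟩
    · rintro ⟨hx, rfl⟩
      exact ⟨c, (CHm_real c).2 hx, rfl⟩
  refine ⟨lam (pow omega) F, fun c hc => ?_, fun z hz => ?_⟩
  · have hc' := (hr c).1 hc
    refine ⟨F c, ⟨h1 c hc', (hrel c (F c)).2 ⟨hc', rfl⟩⟩, fun z hz => ?_⟩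
    exact ((hrel c z).1 hz.2).2
  · obtain ⟨x, hx, hxz⟩ := h3 z hz
    refine ⟨x, ⟨(hr x).2 hx, (hrel x z).2 ⟨hx, hxz.symm⟩⟩, fun c hc => ?_⟩
    have hc2 := (hrel c z).1 hc.2
    exact h2 c x hc2.1 hx (by rw [← hc2.2, hxz])

theorem ch_set (d : Mo a) (hd : ∀ z, EM a z d → ∃ x, Rep a z x) : CtIn (EM a) d ∨ ContIn (EM a) d := by
  by_cases hct : CHm_ct d
  · exact Or.inl (CHm_ctIn hct)
  right
  obtain ⟨F, hF, hrec⟩ := CHm_rec d (pow (omega : Mo a))
  have hdr : ∀ z, z ∈ d → ∃ x, Rep a z x := hd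
  -- there is always an eligible element
  have hex : ∀ x : Mo a, (∃ y, Rep a x y) →
      ∃ y : Mo a, y ∈ d ∧ ∀ u : Mo a, u ∈ pow (omega : Mo a) → wlt u x → y ≠ F u := by
    intro x hx
    by_contra hcon
    push Not at hcon
    obtain ⟨y, hy⟩ := hx
    obtain ⟨τ, hτ1, hτ2⟩ := CHm_pin x y hy
    refine hct (CHm_img F hτ2 fun z hz => ?_)
    obtain ⟨u, -, hu1, hu2⟩ := hcon z hz
    exact ⟨u, (mem_ws τ u).2 (CHm_trans hu1 hτ1), hu2⟩
  have hspec : ∀ x : Mo a, (∃ y, Rep a x y) →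
      (F x ∈ d ∧ ∀ u : Mo a, u ∈ pow (omega : Mo a) → wlt u x → F x ≠ F u) ∧
      ∀ z : Mo a, (z ∈ d ∧ ∀ u : Mo a, u ∈ pow (omega : Mo a) → wlt u x → z ≠ F u) → ¬ wlt z (F x) := by
    intro x hx
    have h1 := CHm_least_spec _ (hex x hx)
    rw [← hrec x] at h1
    exact h1
  have hinj : ∀ x x' : Mo a, (∃ y, Rep a x y) → (∃ y, Rep a x' y) → F x = F x' → x = x' := by
    intro x x' hx hx' he
    rcases CHm_tri x x' with h | h | h
    · exact absurd he.symm ((hspec x' hx').1.2 x ((CHm_real x).2 hx) h)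
    · exact h
    · exact absurd he ((hspec x hx).1.2 x' ((CHm_real x').2 hx') h)
  refine CHm_contIn F (fun x hx => (hspec x hx).1.1) hinj fun z hz => ?_
  by_contra hcon
  have hcon' : ∀ x : Mo a, (∃ y, Rep a x y) → F x ≠ z := fun x hx he => hcon ⟨x, hx, he⟩
  obtain ⟨y, hy⟩ := hdr z hz
  obtain ⟨τ, hτ1, hτ2⟩ := CHm_pin z y hy
  have hlt : ∀ x : Mo a, (∃ y, Rep a x y) → wlt (F x) z := by
    intro x hx
    rcases CHm_tri (F x) z with h | h | h
    · exact h
    · exact absurd h (hcon' x hx)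
    · refine absurd h ((hspec x hx).2 z ⟨hz, fun u hu _ he => hcon' u ((CHm_real u).1 hu) he.symm⟩)
  have hY : CHm_ct (pow (omega : Mo a)) := by
    refine CHm_inj F hτ2 (fun x hx => (mem_ws τ _).2 (CHm_trans (hlt x ((CHm_real x).1 hx)) hτ1)) ?_
    intro x x' hx hx' he
    exact hinj x x' ((CHm_real x).1 hx) ((CHm_real x').1 hx') he
  exact hct (CHm_sub hY fun x hx => (CHm_real x).2 (hdr x hx))

end Pool.Agent.LZF
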