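import Pool.Agent.LZF.Core

set_option autoImplicit false

/-!
# FmN: the numbering of the formulas is surjective (difficulty 1)

`Fm.enc` is injective: structural induction; the three cases are distinguished by the remainder modulo 3, then
use injectivity of `Nat.pair` (`Nat.pair_eq_pair`) and of `Encodable.encode`.
-/

namespace Pool.Agent.LZF

theorem enc_inj : Function.Injective Fm.enc := by
  intro φ
  induction φ with
  | atm r v =>
    intro ψ h
    cases ψ with
    | atm r' v' =>
      simp only [Fm.enc] at h
      have h1 : Nat.pair r (Encodable.encode v) = Nat.pair r' (Encodable.encode v') := by omega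
      rw [Nat.pair_eq_pair] at h1
      rw [h1.1, Encodable.encode_injective h1.2]
    | nand _ _ =>
      simp only [Fm.enc] at h
      omega
    | ex _ =>
      simp only [Fm.enc] at h
      omega
  | nand φ₁ φ₂ ih1 ih2 =>
    intro ψ h
    cases ψ with
    | atm r' v' =>
      simp only [Fm.enc] at h
      omega
    | nand ψ₁ ψ₂ =>
      simp only [Fm.enc] at h
      have h1 : Nat.pair φ₁.enc φ₂.enc = Nat.pair ψ₁.enc ψ₂.enc := by omega
      rw [Nat.pair_eq_pair] at h1
      rw [ih1 h1.1, ih2 h1.2]
    | ex _ =>
      simp only [Fm.enc] at h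
      omega
  | ex φ₁ ih =>
    intro ψ h
    cases ψ with
    | atm r' v' =>
      simp only [Fm.enc] at h
      omega
    | nand ψ₁ ψ₂ =>
      simp only [Fm.enc] at h
      omega
    | ex ψ₁ =>
      simp only [Fm.enc] at h
      have h1 : φ₁.enc = ψ₁.enc := by omega
      rw [ih h1]

theorem fm_enc (φ : Fm) : fm φ.enc = φ := by
  have h : ∃ ψ : Fm, ψ.enc = φ.enc := ⟨φ, rfl⟩
  unfold fm
  rw [dif_pos h]
  exact enc_inj h.choose_spec

theorem fm_surj (φ : Fm) : ∃ n, fm n = φ := ⟨φ.enc, fm_enc φ⟩

end Pool.Agent.LZF
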