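import Pool.Agent.LZF.SatI
import Pool.Agent.LZF.FmN

set_option autoImplicit false

/-!
# TVa: the Tarski–Vaught test, hulls (difficulty 1)

* `tarski`: induction on the formula; `nand` by the induction hypotheses, `ex` by the assumption `h` and the
  induction hypothesis (for the `a` from `h`: `Sat R D φ (s ++ [a])`, `s ++ [a]` is a list in `H`).
* `exists_lst`: by wellfoundedness of `R 2` on `D` there is a minimal element of `{x | D x ∧ Sat R D φ (s ++ [x])}`.
* `lst_unique`: linearity.
* `hull_elem`: `Val.mem`; for a list `s` in the hull choose numbers `ts` of terms (same length), the least witness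
  `x` (`exists_lst`) is the value of the term number `Nat.pair m (encode ts) + 1` with `fm m = φ` (`fm_surj`).
* `val_unique`: induction on the derivation (or strong induction on `n`) and `lst_unique`; the lists of values
  are equal (`List.ext_getElem?`).
-/

namespace Pool.Agent.LZF

universe u

variable {K : Type u} {R : ℕ → List K → Prop} {D : K → Prop}

theorem tarski (H : K → Prop) (hH : ∀ x, H x → D x)
    (h : ∀ φ s, (∀ b ∈ s, H b) → (∃ a, D a ∧ Sat R D φ (s ++ [a])) → ∃ a, H a ∧ Sat R D φ (s ++ [a])) :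
    Elem R H D := by
  refine ⟨hH, ?_⟩
  intro φ
  induction φ with
  | atm r v => intro s _; exact Iff.rfl
  | nand φ ψ ih1 ih2 =>
    intro s hs
    have e1 := ih1 s hs
    have e2 := ih2 s hs
    simp only [Sat, e1, e2]
  | ex φ ih =>
    intro s hs
    have hs' : ∀ a, H a → ∀ b ∈ s ++ [a], H b := by
      intro a ha b hb
      rcases List.mem_append.1 hb with h1 | h1
      · exact hs b h1
      · rw [List.mem_singleton.1 h1]; exact ha
    constructor
    · rintro ⟨a, ha, hsat⟩
      exact ⟨a, hH a ha, (ih _ (hs' a ha)).1 hsat⟩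
    · rintro ⟨a, ha, hsat⟩
      obtain ⟨a', ha', hsat'⟩ := h φ s hs ⟨a, ha, hsat⟩
      exact ⟨a', ha', (ih _ (hs' a' ha')).2 hsat'⟩

theorem exists_lst (hw : WfOn R D) (φ : Fm) (s : List K) (h : ∃ a, D a ∧ Sat R D φ (s ++ [a])) :
    ∃ x, Lst R D φ s x := by
  obtain ⟨m, hm, hmin⟩ := WellFounded.has_min hw {x | D x ∧ Sat R D φ (s ++ [x])} h
  exact ⟨m, hm.1, hm.2, fun y hy hsy hr => hmin y ⟨hy, hsy⟩ ⟨hy, hm.1, hr⟩⟩

theorem lst_unique (hl : Lin R D) (φ : Fm) (s : List K) (x y : K) (hx : Lst R D φ s x)
    (hy : Lst R D φ s y) : x = y := by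
  rcases hl.tri x y hx.1 hy.1 with h | h | h
  · exact absurd h (hy.2.2 x hx.1 hx.2.1)
  · exact h
  · exact absurd h (hx.2.2 y hy.1 hy.2.1)

theorem val_unique (hl : Lin R D) (c : K) (hc : D c) (n : ℕ) (x y : K) (hx : Val R D c n x)
    (hy : Val R D c n y) : x = y := by
  induction hx generalizing y with
  | base =>
    cases hy
    rfl
  | step m ts s x hlen h hx ih =>
    generalize hk : Nat.pair m (Encodable.encode ts) + 1 = k at hy
    cases hy with
    | base => exact absurd hk (by omega)
    | step m' ts' s' y hlen' h' hy' =>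
      have h1 : Nat.pair m (Encodable.encode ts) = Nat.pair m' (Encodable.encode ts') := by omega
      obtain ⟨h2, h3⟩ := Nat.pair_eq_pair.1 h1
      have h4 : ts = ts' := Encodable.encode_injective h3
      subst h2 h4
      have h5 : s = s' := by
        apply List.ext_getElem (hlen.trans hlen'.symm)
        intro i h6 h7
        have h8 : i < ts.length := hlen ▸ h6
        refine ih i ts[i] s[i] (List.getElem?_eq_getElem h8) (List.getElem?_eq_getElem h6) s'[i] ?_
        exact h' i ts[i] s'[i] (List.getElem?_eq_getElem h8) (List.getElem?_eq_getElem h7)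
      subst h5
      exact lst_unique hl (fm m) s x y hx hy'

theorem TVa_terms {c : K} (s : List K) (hs : ∀ b ∈ s, Hull R D c b) :
    ∃ ts : List ℕ, s.length = ts.length ∧
      ∀ (i t : ℕ) (y : K), ts[i]? = some t → s[i]? = some y → Val R D c t y := by
  induction s with
  | nil => exact ⟨[], rfl, by simp⟩
  | cons b s ih =>
    obtain ⟨ts, h1, h2⟩ := ih fun b' hb' => hs b' (List.mem_cons_of_mem _ hb')
    obtain ⟨n, hn⟩ := hs b List.mem_cons_self
    refine ⟨n :: ts, by simp [h1], ?_⟩
    intro i t y ht hy
    cases i with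
    | zero =>
      simp only [List.getElem?_cons_zero, Option.some.injEq] at ht hy
      subst ht hy
      exact hn
    | succ i =>
      simp only [List.getElem?_cons_succ] at ht hy
      exact h2 i t y ht hy

theorem hull_elem (hw : WfOn R D) (c : K) (hc : D c) : Elem R (Hull R D c) D := by
  refine tarski _ ?_ ?_
  · rintro x ⟨n, hn⟩
    exact Val.mem hc hn
  · intro φ s hs hex
    obtain ⟨x, hx⟩ := exists_lst hw φ s hex
    obtain ⟨ts, h1, h2⟩ := TVa_terms s hs
    obtain ⟨m, hm⟩ := fm_surj φ
    refine ⟨x, ⟨Nat.pair m (Encodable.encode ts) + 1, ?_⟩, hx.2.1⟩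
    refine Val.step m ts s x h1 h2 ?_
    rw [hm]
    exact hx

end Pool.Agent.LZF
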