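import Pool.Agent.LZF.UnD
import Pool.Agent.LZF.TVa

set_option autoImplicit false

/-!
# Cdy: the elements of the coanalytic set are determined by two countable ordinals (difficulty 2)

* `code_iso`: `y ∈ PP`: `LStr (col 0 y) (pR y) (pU y)`, wellfounded, so `exists_rank` and `rank_image` (`ℕ` is small)
  give `i`, `τ`, and `uniq_iso` the isomorphism. `Pin`: `i 0 < τ`; every `ξ < τ` is `i n`, `n` in `pU y`, and
  `Val (pR y) (pU y) 0 n n`, so `Val (RK _) (· < τ) (i 0) n (i n)`. (Numerals are not needed here.)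
* `code_unique`: let `y, y' ∈ PA a` with isomorphisms `i, i'` onto the same `(· < τ, RK a)` and `i 0 = i' 0 = c`. For
  `n` in `pU y`: `Val (RK a) (· < τ) c n (i n)`; let `n'` be the element of `pU y'` with `i' n' = i n`. Then
  `Val (pR y') (pU y') 0 n n'` (`IsoS.val` for `i'`), so `n' ≤ n` by `least`; by symmetry `n ≤ n'`. So `n = n'`: `pU y` and
  `pU y'` are equal and `i = i'` on it. `pR y r l ↔ pR y' r l` (`supp`, `IsoS.rel`), `col 1 y = col 1 y'` by `real` (the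
  numeral `z` of `real` is unique: `IsoS.num` and `num_low`, `num_un`, `num_unique`), `col 0 y = a = col 0 y'`. All bits
  `k = Nat.pair j m` are determined: `j = 0`, `1`, `2`, `j = r + 3` with `m = Encodable.encode l`
  (`Denumerable.encode_ofNat`).
-/

namespace Pool.Agent.LZF

open Pool.Agent.NI

theorem code_iso (y : Rl) (hy : y ∈ PP) : ∃ (τ : Od) (i : ℕ → Od),
    IsRank (pR y) (pU y) i ∧ (∀ ξ, ξ < τ ↔ ∃ n, pU y n ∧ i n = ξ) ∧
    IsoS (pR y) (pU y) (RK (col 0 y)) (fun x => x < τ) i := by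
  have hs := hy.1.lstr
  obtain ⟨i, hi⟩ := exists_rank hs.lin hy.2 fun x _ => inferInstance
  obtain ⟨τ, hτ⟩ := rank_image hi inferInstance
  exact ⟨τ, i, hi, hτ, uniq_iso hs hy.2 hi τ hτ⟩

private theorem Cdy_le (a : Rl) (y y' : Rl) (hy : PLa y) (hy' : PLa y') (τ : Od) (i i' : ℕ → Od)
    (h : IsoS (pR y) (pU y) (RK a) (fun x => x < τ) i)
    (h' : IsoS (pR y') (pU y') (RK a) (fun x => x < τ) i') (h0 : i 0 = i' 0) (n : ℕ) (hn : pU y n) :
    ∃ n', pU y' n' ∧ i' n' = i n ∧ n' ≤ n := by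
  have h1 := (h.val 0 hy.zero n n hn).mp (hy.pin n hn)
  obtain ⟨n', hn', e⟩ := h'.sur (i n) (h.mem n hn)
  rw [h0, ← e] at h1
  exact ⟨n', hn', e, hy'.least n n' ((h'.val 0 hy'.zero n n' hn').mpr h1)⟩

private theorem Cdy_eq (a : Rl) (y y' : Rl) (hy : PLa y) (hy' : PLa y') (τ : Od) (i i' : ℕ → Od)
    (h : IsoS (pR y) (pU y) (RK a) (fun x => x < τ) i)
    (h' : IsoS (pR y') (pU y') (RK a) (fun x => x < τ) i') (h0 : i 0 = i' 0) (n : ℕ) (hn : pU y n) :
    pU y' n ∧ i' n = i n := by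
  obtain ⟨n', hn', e, hle⟩ := Cdy_le a y y' hy hy' τ i i' h h' h0 n hn
  obtain ⟨m, hm, e', hle'⟩ := Cdy_le a y' y hy' hy τ i' i h' h h0.symm n' hn'
  have h1 : m = n := h.inj m n hm hn (e'.trans e)
  have h2 : n' = n := le_antisymm hle (h1 ▸ hle')
  rw [h2] at hn' e
  exact ⟨hn', e⟩

private theorem Cdy_rel (a : Rl) (y y' : Rl) (hy : PLa y) (hy' : PLa y') (τ : Od) (i i' : ℕ → Od)
    (h : IsoS (pR y) (pU y) (RK a) (fun x => x < τ) i)
    (h' : IsoS (pR y') (pU y') (RK a) (fun x => x < τ) i') (h0 : i 0 = i' 0) (r : ℕ) (l : List ℕ)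
    (hr : pR y r l) : pR y' r l := by
  have h1 := hy.supp r l hr
  have h2 := (h.rel r l h1).mp hr
  have h3 : l.map i = l.map i' := List.map_congr_left fun n hn =>
    (Cdy_eq a y y' hy hy' τ i i' h h' h0 n (h1 n hn)).2.symm
  rw [h3] at h2
  exact (h'.rel r l fun n hn => (Cdy_eq a y y' hy hy' τ i i' h h' h0 n (h1 n hn)).1).mpr h2

theorem code_unique (a : Rl) (y y' : Rl) (hy : y ∈ PA a) (hy' : y' ∈ PA a) (τ : Od) (i i' : ℕ → Od)
    (h : IsoS (pR y) (pU y) (RK a) (fun x => x < τ) i)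
    (h' : IsoS (pR y') (pU y') (RK a) (fun x => x < τ) i') (h0 : i 0 = i' 0) : y = y' := by
  have P := hy.1.1
  have P' := hy'.1.1
  have hU : ∀ n, pU y n ↔ pU y' n := fun n =>
    ⟨fun hn => (Cdy_eq a y y' P P' τ i i' h h' h0 n hn).1,
      fun hn => (Cdy_eq a y' y P' P τ i' i h' h h0.symm n hn).1⟩
  have hR : ∀ r l, pR y r l ↔ pR y' r l := fun r l =>
    ⟨fun hr => Cdy_rel a y y' P P' τ i i' h h' h0 r l hr,
      fun hr => Cdy_rel a y' y P' P τ i' i h' h h0.symm r l hr⟩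
  have hC : ∀ n, (col 1 y n = true ↔ col 1 y' n = true) := by
    intro n
    obtain ⟨z, hz, hzn, hz0⟩ := P.real n
    obtain ⟨z', hz', hzn', hz0'⟩ := P'.real n
    have e1 := (num_un a n (i z)).mpr ((num_low a τ n (i z) (h.mem z hz)).mp ((h.num n z hz).mp hzn))
    have e2 := (num_un a n (i' z')).mpr ((num_low a τ n (i' z') (h'.mem z' hz')).mp ((h'.num n z' hz').mp hzn'))
    have e3 := num_unique a n _ _ e1 e2
    obtain ⟨h3, h4⟩ := Cdy_eq a y y' P P' τ i i' h h' h0 z hz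
    have e4 : z = z' := h'.inj z z' h3 hz' (h4.trans e3)
    subst e4
    rw [← hz0, ← hz0', hR]
  funext k
  obtain ⟨j, m, rfl⟩ : ∃ j m, k = Nat.pair j m := ⟨k.unpair.1, k.unpair.2, (Nat.pair_unpair k).symm⟩
  rcases j with _ | _ | _ | r
  · have h1 := congrFun (hy.2.trans hy'.2.symm) m
    exact h1
  · exact Bool.eq_iff_iff.mpr (hC m)
  · exact Bool.eq_iff_iff.mpr (hU m)
  · have h1 := hR r (Denumerable.ofNat (List ℕ) m)
    unfold pR at h1
    rw [Denumerable.encode_ofNat] at h1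
    exact Bool.eq_iff_iff.mpr h1

end Pool.Agent.LZF
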