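import Pool.Agent.LZF.Core
import Pool.Agent.NI.Cod

set_option autoImplicit false

/-!
# ColT: a column of a real is computable from the real (difficulty 1)

`col i y n = y (Nat.pair i n)`: the code `OCode.comp OCode.oracle (OCode.pair c_i id)` where `c_i` computes the
constant `i` (`OCode.comp OCode.succ ..`, `OCode.zero`) and `id` is `OCode.pair OCode.left OCode.right`
(`Nat.pair_unpair`). See `NIL/Evn.lean` for a similar computation; `ofNat_surj` (NI) for the number of a code
(import `Pool.Agent.NI.Cod`).
-/

namespace Pool.Agent.LZF

open Pool.Agent.NI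

theorem tred_col (i : ℕ) (y : Rl) : TRed (col i y) y := by
  obtain ⟨k, hk⟩ := TRed_refl y
  exact ⟨smn k i, fun n => by rw [smn_spec, hk]; rfl⟩

end Pool.Agent.LZF
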