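import Pool.Agent.LZF.Defs

set_option autoImplicit false

/-!
# Interface between the model (RM a) and the relative version of NI
-/

namespace Pool.Agent.LZF

open Pool.Agent.NI

/-- The join of two reals. -/
def jn (x y : Rl) : Rl := fun k =>
  if k.unpair.1 = 0 then x k.unpair.2 else if k.unpair.1 = 1 then y k.unpair.2 else false

/-- The column `i` of a real. -/
def col (i : ℕ) (y : Rl) : Rl := fun n => y (Nat.pair i n)

/-- The graph of a function. -/
noncomputable def gph (f : ℕ → ℕ) : Rl := chr fun k => f k.unpair.1 = k.unpair.2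

/-- `R` is a Turing ideal with the β-property which contains `c`. -/
structure Idl (c : Rl) (R : Set Rl) : Prop where
  base : c ∈ R
  down : ∀ y ∈ R, ∀ x, TRed x y → x ∈ R
  join : ∀ x ∈ R, ∀ y ∈ R, jn x y ∈ R
  beta : ∀ x ∈ R, (∃ f : ℕ → ℕ, ∀ n, x (Nat.pair (f (n + 1)) (f n)) = true) →
    ∃ f : ℕ → ℕ, gph f ∈ R ∧ ∀ n, x (Nat.pair (f (n + 1)) (f n)) = true

/-- The relative version of NI (helper54). -/
def RelNI : Prop :=
  ∀ P : Set Rl, MeasureTheory.AnalyticSet Pᶜ → ∃ c : Rl, ∀ (a : Rl) (R : Set Rl), Idl c R → a ∈ R →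
    (¬ ∃ f : Rl → Rl, Continuous f ∧ Function.Injective f ∧ ∀ z, f z ∈ P ∧ col 0 (f z) = a) →
    (∀ x ∈ R, ∃ y ∈ R, y ∈ P ∧ col 0 y = a ∧ TRed x y) → ¬ SIn R

/-- Satisfaction is analytic (for fixed codes of sentences): used for Vaught's conjecture in the model. -/
def SatAna : Prop :=
  ∃ G : Set (Rl × Rl), MeasureTheory.AnalyticSet G ∧ ∀ (L : Voc) (f : Fml L 0) (x : Rl),
    (x, jn (vcode L) (fcode f)) ∈ G ↔ ∃ N ∈ Mod f, x = scode N

/-- Isomorphism is analytic, and isomorphism in the ideal is isomorphism. -/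
def IsoAna : Prop :=
  (∃ G : Set (Rl × Rl), MeasureTheory.AnalyticSet G ∧ ∀ (L : Voc) (N N' : Str L),
    (scode N, scode N') ∈ G ↔ Iso N N') ∧
  ∃ c : Rl, ∀ (R : Set Rl), Idl c R → ∀ (L : Voc) (N N' : Str L), scode N ∈ R → scode N' ∈ R →
    (IsoIn R N N' ↔ Iso N N')

end Pool.Agent.LZF
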