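import Mathlib
import Pool.Agent.NI.Core
import Pool.Agent.LZF.Idl

set_option autoImplicit false

/-!
# The objects of the proof

The formulas `Fm`, satisfaction, Skolem terms, the model `(Ordinal, E)`: at every stage `α` the first (in the
order of the keys) definable subset of a structure `(γ; relations)`, `γ ≤ α`, which is not yet on the list
becomes the set with number `α`.
-/

namespace Pool.Agent.LZF

open Cardinal Pool.Agent.NI

universe u

/-- The ordinals: the elements of the model. -/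
abbrev Od : Type 1 := Ordinal.{0}

/-! ### Formulas -/

/-- Formulas with relation symbols numbered by `ℕ`. A formula is evaluated at a list of values: `atm r v` says
that the relation number `r` holds for the list of the values with the numbers in `v`; `ex φ` says that `φ`
holds for the list followed by some value. -/
inductive Fm : Type
  | atm : ℕ → List ℕ → Fm
  | nand : Fm → Fm → Fm
  | ex : Fm → Fm

/-- Satisfaction in the structure with universe `{a | D a}` and relations `R`. -/
def Sat {K : Type u} (R : ℕ → List K → Prop) (D : K → Prop) : Fm → List K → Prop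
  | Fm.atm r v, s => ∃ l : List K, v.map (fun i => s[i]?) = l.map some ∧ R r l
  | Fm.nand φ ψ, s => ¬ (Sat R D φ s ∧ Sat R D ψ s)
  | Fm.ex φ, s => ∃ a, D a ∧ Sat R D φ (s ++ [a])

/-- The code of a formula. -/
def Fm.enc : Fm → ℕ
  | Fm.atm r v => 3 * Nat.pair r (Encodable.encode v)
  | Fm.nand φ ψ => 3 * Nat.pair φ.enc ψ.enc + 1
  | Fm.ex φ => 3 * φ.enc + 2

open Classical in
/-- The formula number `n`. -/
noncomputable def fm (n : ℕ) : Fm :=
  if h : ∃ φ : Fm, φ.enc = n then h.choose else Fm.atm 1 [0, 0]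

/-! ### Structures

The relations: `0` membership, `1` equality, `2` the wellorder, `3 [b, c, n, x]`: `x` is the value of the
Skolem term number `n` at `c` in the structure of the elements below `b`, `4 [k, n, m, g]` and `5 [k, i, x]`:
the key of `k`, `6 [n]`: the real `a`, `7 [n, m, k]`: pairing. Here `n, m, k, i` are numerals. -/

/-- The arities. -/
def arr : ℕ → ℕ
  | 0 => 2
  | 1 => 2
  | 2 => 2
  | 3 => 4
  | 4 => 4
  | 5 => 3
  | 6 => 1
  | 7 => 3
  | _ => 0

/-- The elements of `D` below `b`. -/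
def Low {K : Type u} (R : ℕ → List K → Prop) (D : K → Prop) (b x : K) : Prop := D x ∧ R 2 [x, b]

/-- `x` is the least element of `D` such that `φ` holds at `s, x`. -/
def Lst {K : Type u} (R : ℕ → List K → Prop) (D : K → Prop) (φ : Fm) (s : List K) (x : K) : Prop :=
  D x ∧ Sat R D φ (s ++ [x]) ∧ ∀ y, D y → Sat R D φ (s ++ [y]) → ¬ R 2 [y, x]

/-- `x` is the value at `c` of the Skolem term number `n`. -/
inductive Val {K : Type u} (R : ℕ → List K → Prop) (D : K → Prop) (c : K) : ℕ → K → Prop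
  | base : Val R D c 0 c
  | step (m : ℕ) (ts : List ℕ) (s : List K) (x : K) (hl : s.length = ts.length)
      (h : ∀ (i t : ℕ) (y : K), ts[i]? = some t → s[i]? = some y → Val R D c t y)
      (hx : Lst R D (fm m) s x) : Val R D c (Nat.pair m (Encodable.encode ts) + 1) x

/-- `x` is the numeral `n`. -/
def IsNum {K : Type u} (R : ℕ → List K → Prop) (D : K → Prop) : ℕ → K → Prop
  | 0, x => ∀ z, D z → ¬ R 0 [z, x]
  | n + 1, x => ∃ j, D j ∧ IsNum R D n j ∧ ∀ z, D z → (R 0 [z, x] ↔ R 0 [z, j] ∨ z = j)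

/-- The lexicographic order of lists of the same length. -/
def LexL {K : Type u} (lt : K → K → Prop) : List K → List K → Prop
  | x :: s, y :: t => lt x y ∨ (x = y ∧ LexL lt s t)
  | _, _ => False

/-- Keys: an element `g`, a formula number and a list of parameters (below `g`). -/
abbrev Ky (K : Type u) : Type u := K × ℕ × List K

/-- The order of the keys. -/
def KeyLt {K : Type u} (lt : K → K → Prop) (q q' : Ky K) : Prop :=
  lt q.1 q'.1 ∨ (q.1 = q'.1 ∧ (q.2.1 < q'.2.1 ∨ (q.2.1 = q'.2.1 ∧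
    (q.2.2.length < q'.2.2.length ∨ (q.2.2.length = q'.2.2.length ∧ LexL lt q.2.2 q'.2.2)))))

/-- `k` is the set defined by the key `q`. -/
def DfS {K : Type u} (R : ℕ → List K → Prop) (D : K → Prop) (k : K) (q : Ky K) : Prop :=
  ∀ z, D z → (R 0 [z, k] ↔ R 2 [z, q.1] ∧ Sat R (Low R D q.1) (fm q.2.1) (q.2.2 ++ [z]))

/-- `q` is the key of `k`. -/
structure IsKey {K : Type u} (R : ℕ → List K → Prop) (D : K → Prop) (k : K) (q : Ky K) : Prop where
  mem : D q.1
  le : ¬ R 2 [k, q.1]
  par : ∀ x ∈ q.2.2, D x ∧ R 2 [x, q.1]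
  dfs : DfS R D k q
  least : ∀ q' : Ky K, D q'.1 → (∀ x ∈ q'.2.2, D x ∧ R 2 [x, q'.1]) →
    KeyLt (fun x y => R 2 [x, y]) q' q → ∃ z, D z ∧ R 2 [z, k] ∧ DfS R D z q'
  pin4 : ∀ x y b, D x → D y → D b → (R 4 [k, x, y, b] ↔
    b = q.1 ∧ IsNum R D q.2.1 x ∧ IsNum R D q.2.2.length y)
  pin5 : ∀ x b, D x → D b → (R 5 [k, x, b] ↔ ∃ i, IsNum R D i x ∧ q.2.2[i]? = some b)

/-- `R 2` is a strict linear order on `D`. -/
structure Lin {K : Type u} (R : ℕ → List K → Prop) (D : K → Prop) : Prop where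
  irr : ∀ x, D x → ¬ R 2 [x, x]
  tra : ∀ x y z, D x → D y → D z → R 2 [x, y] → R 2 [y, z] → R 2 [x, z]
  tri : ∀ x y, D x → D y → R 2 [x, y] ∨ x = y ∨ R 2 [y, x]

/-- The axioms of the structures (for the real `a`). -/
structure LStr {K : Type u} (a : Rl) (R : ℕ → List K → Prop) (D : K → Prop) : Prop where
  lin : Lin R D
  ar : ∀ r l, (∀ x ∈ l, D x) → R r l → r < 8 ∧ l.length = arr r
  eq : ∀ x y, D x → D y → (R 1 [x, y] ↔ x = y)
  el : ∀ x y, D x → D y → R 0 [x, y] → R 2 [x, y]
  ext : ∀ x y, D x → D y → (∀ z, D z → (R 0 [z, x] ↔ R 0 [z, y])) → x = y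
  val : ∀ b c z x, D b → D c → D z → D x → (R 3 [b, c, z, x] ↔
    R 2 [c, b] ∧ ∃ n, IsNum R D n z ∧ Val R (Low R D b) c n x)
  key : ∀ k, D k → ∃ q, IsKey R D k q
  ta : ∀ z, D z → (R 6 [z] ↔ ∃ n, IsNum R D n z ∧ a n = true)
  tp : ∀ x y z, D x → D y → D z → (R 7 [x, y, z] ↔
    ∃ n m, IsNum R D n x ∧ IsNum R D m y ∧ IsNum R D (Nat.pair n m) z)

/-- The order `R 2` is wellfounded on `D`. -/
def WfOn {K : Type u} (R : ℕ → List K → Prop) (D : K → Prop) : Prop :=
  WellFounded fun x y => D x ∧ D y ∧ R 2 [x, y]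

/-- `H` is an elementary substructure of `D`. -/
def Elem {K : Type u} (R : ℕ → List K → Prop) (H D : K → Prop) : Prop :=
  (∀ x, H x → D x) ∧ ∀ φ s, (∀ b ∈ s, H b) → (Sat R H φ s ↔ Sat R D φ s)

/-- The values of the Skolem terms at `c`. -/
def Hull {K : Type u} (R : ℕ → List K → Prop) (D : K → Prop) (c : K) (x : K) : Prop := ∃ n, Val R D c n x

/-- `i` maps `D` isomorphically (for the order) to an initial segment of the ordinals. -/
def IsRank {K : Type u} (R : ℕ → List K → Prop) (D : K → Prop) (i : K → Od) : Prop :=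
  ∀ x, D x → ∀ ξ, ξ < i x ↔ ∃ y, D y ∧ R 2 [y, x] ∧ i y = ξ

/-! ### The model -/

/-- The set defined by the key `q` in the structure of the ordinals below `q.1`. -/
def DfO (R : ℕ → List Od → Prop) (q : Ky Od) (z : Od) : Prop :=
  z < q.1 ∧ Sat R (fun x => x < q.1) (fm q.2.1) (q.2.2 ++ [z])

/-- `q` is a key which defines a new set at stage `α`. -/
def NewK (R : ℕ → List Od → Prop) (α : Od) (q : Ky Od) : Prop :=
  q.1 ≤ α ∧ (∀ x ∈ q.2.2, x < q.1) ∧ ∀ β < α, ∃ z, ¬ (R 0 [z, β] ↔ DfO R q z)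

/-- The data of a stage: the elements of the set, its key, the values of the Skolem terms. -/
structure Dat : Type 1 where
  S : Od → Prop
  k : Ky Od
  V : Od → ℕ → Od → Prop

/-- Numerals. -/
def NumG (G : Od → Dat) : ℕ → Od → Prop
  | 0, z => ∀ w, ¬ (G z).S w
  | n + 1, z => ∃ j, j < z ∧ NumG G n j ∧ ∀ w, (G z).S w ↔ (G j).S w ∨ w = j

/-- The relations given by the data. -/
def RG (a : Rl) (G : Od → Dat) : ℕ → List Od → Prop
  | 0 => fun l => ∃ x y, l = [x, y] ∧ (G y).S x
  | 1 => fun l => ∃ x, l = [x, x]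
  | 2 => fun l => ∃ x y, l = [x, y] ∧ x < y
  | 3 => fun l => ∃ b c z x, l = [b, c, z, x] ∧ c < b ∧ ∃ n, NumG G n z ∧ (G b).V c n x
  | 4 => fun l => ∃ k x y, l = [k, x, y, (G k).k.1] ∧ NumG G (G k).k.2.1 x ∧ NumG G (G k).k.2.2.length y
  | 5 => fun l => ∃ k x b, l = [k, x, b] ∧ ∃ i, NumG G i x ∧ (G k).k.2.2[i]? = some b
  | 6 => fun l => ∃ z n, l = [z] ∧ NumG G n z ∧ a n = true
  | 7 => fun l => ∃ x y z n m, l = [x, y, z] ∧ NumG G n x ∧ NumG G m y ∧ NumG G (Nat.pair n m) z
  | _ => fun _ => False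

open Classical in
/-- The data of stage `α`, given the relations below `α`. -/
noncomputable def stp (α : Od) (R : ℕ → List Od → Prop) : Dat :=
  let q : Ky Od := if h : ∃ q, NewK R α q ∧ ∀ q', NewK R α q' → ¬ KeyLt (· < ·) q' q then h.choose
    else (0, 0, [])
  ⟨DfO R q, q, fun c n x => Val R (fun y => y < α) c n x⟩

open Classical in
/-- The restriction of the data to the ordinals below `α`. -/
noncomputable def cut (α : Od) (G : Od → Dat) (β : Od) : Dat :=
  if β < α then G β else ⟨fun _ => False, (0, 0, []), fun _ _ _ => False⟩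

open Classical in
/-- The data of the model. -/
noncomputable def Kd (a : Rl) : Od → Dat :=
  WellFounded.fix (C := fun _ => Dat) (wellFounded_lt (α := Od))
    (fun α G => stp α (RG a (fun β => if h : β < α then G β h else ⟨fun _ => False, (0, 0, []), fun _ _ _ => False⟩)))

/-- The relations of the model. -/
noncomputable def RK (a : Rl) : ℕ → List Od → Prop := RG a (Kd a)

/-- The whole universe. -/
def Un (_ : Od) : Prop := True

/-- `c` represents the real `x`. -/
def Rep (a : Rl) (c : Od) (x : Rl) : Prop :=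
  (∀ z, RK a 0 [z, c] → ∃ n, IsNum (RK a) Un n z) ∧
  ∀ n z, IsNum (RK a) Un n z → (RK a 0 [z, c] ↔ x n = true)

/-- The reals of the model. -/
def RM (a : Rl) : Set Rl := {x | ∃ c, Rep a c x}

/-- The ordinals below `τ` are the values of the Skolem terms at `c`, and there are all numerals. -/
structure Pin (a : Rl) (τ c : Od) : Prop where
  lt : c < τ
  val : ∀ x, x < τ → ∃ n, Val (RK a) (fun y => y < τ) c n x
  num : ∀ n, ∃ z, z < τ ∧ IsNum (RK a) (fun y => y < τ) n z

/-- `n` is the number of `x`: the least number of a Skolem term with the value `x`. -/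
def NmO (a : Rl) (τ c : Od) (n : ℕ) (x : Od) : Prop :=
  x < τ ∧ Val (RK a) (fun y => y < τ) c n x ∧ ∀ m < n, ¬ Val (RK a) (fun y => y < τ) c m x

/-- The bits of the code of the structure of the ordinals below `τ` (if `Pin a τ c`). -/
def DgP (a : Rl) (τ c : Od) (x : Rl) (k : ℕ) : Prop :=
  (∃ n, k = Nat.pair 0 n ∧ a n = true) ∨ (∃ n, k = Nat.pair 1 n ∧ x n = true) ∨
  (∃ n z, k = Nat.pair 2 n ∧ NmO a τ c n z) ∨
  (∃ (r : ℕ) (l : List ℕ) (s : List Od), k = Nat.pair (r + 3) (Encodable.encode l) ∧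
    s.length = l.length ∧ (∀ (i n : ℕ) (z : Od), l[i]? = some n → s[i]? = some z → NmO a τ c n z) ∧ RK a r s)

/-- The code of the structure of the ordinals below `τ`. -/
noncomputable def Dg (a : Rl) (τ c : Od) (x : Rl) : Rl := chr (DgP a τ c x)

/-! ### The coanalytic set -/

/-! The real `y` codes the parameter `col 0 y`, the real `col 1 y` and a structure. -/

/-- The universe coded by `y`. -/
def pU (y : Rl) (n : ℕ) : Prop := y (Nat.pair 2 n) = true

/-- The relations coded by `y`. -/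
def pR (y : Rl) (r : ℕ) (l : List ℕ) : Prop := y (Nat.pair (r + 3) (Encodable.encode l)) = true

/-- The part of the definition of the coanalytic set which does not mention wellfoundedness. -/
structure PLa (y : Rl) : Prop where
  zero : pU y 0
  supp : ∀ r l, pR y r l → ∀ n ∈ l, pU y n
  ar : ∀ r l, pR y r l → r < 8 ∧ l.length = arr r
  lstr : LStr (col 0 y) (pR y) (pU y)
  pin : ∀ n, pU y n → Val (pR y) (pU y) 0 n n
  least : ∀ n m, Val (pR y) (pU y) 0 n m → m ≤ n
  real : ∀ n, ∃ z, pU y z ∧ IsNum (pR y) (pU y) n z ∧ (pR y 0 [z, 0] ↔ col 1 y n = true)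

/-- The coanalytic set of all codes. -/
def PP : Set Rl := {y | PLa y ∧ WfOn (pR y) (pU y)}

/-- The coanalytic set of the parameter `a`. -/
def PA (a : Rl) : Set Rl := {y | y ∈ PP ∧ col 0 y = a}

end Pool.Agent.LZF
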