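import Pool.Agent.NI.Defs
import Pool.Agent.H55.CSDefs

set_option autoImplicit false

/-!
# MP_053ed5_lc: Vaught's conjecture and Statement S inside a model of set theory

`Pool.Agent.NI.Defs` contains the notions of the problem. Here they are relativized to a set `R` of reals: the
set of the reals of a wellfounded model of set theory. An object (vocabulary, structure with universe `ℕ`,
permutation of `ℕ`, infinitary formula, countable ordinal) belongs to the model if its code, a real, belongs to
`R`.
-/

namespace Pool.Agent.LZF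

open Pool.Agent.NI

universe u

/-! ### Codes -/

open Classical in
/-- The characteristic function. -/
noncomputable def chr (P : ℕ → Prop) : Rl := fun n => decide (P n)

/-- The code of a vocabulary. -/
noncomputable def vcode (L : Voc) : Rl := chr fun n => L n.unpair.1 = n.unpair.2

/-- The code of a structure. -/
noncomputable def scode {L : Voc} (M : Str L) : Rl :=
  chr fun n => M.rel n.unpair.1 (Denumerable.ofNat (List ℕ) n.unpair.2)

/-- The code of a permutation. -/
noncomputable def pcode (s : ℕ ≃ ℕ) : Rl := chr fun n => s n.unpair.1 = n.unpair.2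

/-- The code of a formula: the code of `neg f`, `conj f`, `all f` consists of a tag and of the codes of the
immediate subformulas. -/
noncomputable def fcode {L : Voc} : {n : ℕ} → Fml L n → Rl
  | _, Fml.rel k v _ => chr fun m => m = Nat.pair 0 (Nat.pair k (Encodable.encode (v.map Fin.val)))
  | _, Fml.eq i j => chr fun m => m = Nat.pair 1 (Nat.pair i j)
  | _, Fml.neg f => chr fun m => m = Nat.pair 2 0 ∨
      ∃ j, m = Nat.pair 5 (Nat.pair 0 j) ∧ fcode f j = true
  | _, Fml.conj f => chr fun m => m = Nat.pair 3 0 ∨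
      ∃ k j, m = Nat.pair 5 (Nat.pair k j) ∧ fcode (f k) j = true
  | _, Fml.all f => chr fun m => m = Nat.pair 4 0 ∨
      ∃ j, m = Nat.pair 5 (Nat.pair 0 j) ∧ fcode f j = true

/-! ### Statement S in the model with the reals `R` -/

/-- In the model, `M` and `N` are isomorphic. -/
def IsoIn (R : Set Rl) {L : Voc} (M N : Str L) : Prop :=
  ∃ s : ℕ ≃ ℕ, pcode s ∈ R ∧ ∀ k l, M.rel k l ↔ N.rel k (l.map s)

/-- In the model, the Scott rank of `M` is at most `α`. -/
def SRleIn (R : Set Rl) {L : Voc} (M : Str L) (α : Ordinal.{0}) : Prop :=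
  ∀ a b : List ℕ, BF M α a b →
    ∃ s : ℕ ≃ ℕ, pcode s ∈ R ∧ (∀ k l, M.rel k l ↔ M.rel k (l.map s)) ∧ a.map s = b

/-- `α` is a countable ordinal of the model: the model contains a surjection of `ℕ` onto `α + 1`. -/
def CtblIn (R : Set Rl) (α : Ordinal.{0}) : Prop :=
  ∃ f : ℕ → Ordinal.{0}, (∀ β, β ≤ α ↔ ∃ n, f n = β) ∧ chr (fun n => f n.unpair.1 < f n.unpair.2) ∈ R

/-- In the model, the class of the models of `f` has bounded Scott rank. -/
def BoundedIn (R : Set Rl) {L : Voc} (f : Fml L 0) : Prop :=
  ∃ α : Ordinal.{0}, CtblIn R α ∧ ∀ M ∈ Mod f, scode M ∈ R → SRleIn R M α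

/-- In the model, the class `A` is reducible to the class `B`. -/
def RedIn (R : Set Rl) {L L' : Voc} (A : Set (Str L)) (B : Set (Str L')) : Prop :=
  ∃ c ∈ R, ∀ y ∈ R, TRed c y → ∃ e : ℕ, ∀ (i j : ℕ) (M N : Str L),
    IsIdx y i M → IsIdx y j N → M ∈ A → N ∈ A →
    ∃ i' ∈ Phi y e i, ∃ j' ∈ Phi y e j, ∃ M' ∈ B, ∃ N' ∈ B,
      IsIdx y i' M' ∧ IsIdx y j' N' ∧ (IsoIn R M N ↔ IsoIn R M' N')

/-- In the model, the class of the models of `f` is universal. -/
def UniversalIn (R : Set Rl) {L : Voc} (f : Fml L 0) : Prop :=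
  ∀ (L' : Voc) (g : Fml L' 0), vcode L' ∈ R → fcode g ∈ R → RedIn R (Mod g) (Mod f)

/-- Statement S in the model with the reals `R`. -/
def SIn (R : Set Rl) : Prop :=
  ∀ (L : Voc) (f : Fml L 0), vcode L ∈ R → fcode f ∈ R → BoundedIn R f ∨ UniversalIn R f

/-! ### The reals of a model and Vaught's conjecture in a model -/

variable {M : Type u} (E : M → M → Prop)

/-- `k` is the natural number `n` of the model. -/
def IsNat : ℕ → M → Prop
  | 0, k => ∀ z, ¬ E z k
  | n + 1, k => ∃ j, IsNat n j ∧ ∀ z, E z k ↔ E z j ∨ z = j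

/-- The element `c` of the model is the real `x` (the set of all natural numbers `n` with `x n = true`). -/
def IsRl (c : M) (x : Rl) : Prop :=
  (∀ z, E z c → ∃ n, IsNat E n z) ∧ ∀ n k, IsNat E n k → (E k c ↔ x n = true)

/-- The reals of the model. -/
def Reals : Set Rl := {x | ∃ c, IsRl E c x}

/-- The set `d` of the model is countable in the model: some function of the model maps a set of natural
numbers onto `d`. -/
def CtIn (d : M) : Prop :=
  ∃ g, (∀ k z z', Pool.Agent.H55.SC.Rel E g k z → Pool.Agent.H55.SC.Rel E g k z' → z = z') ∧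
    ∀ z, E z d → ∃ n k, IsNat E n k ∧ Pool.Agent.H55.SC.Rel E g k z

/-- The set `d` of the model has the cardinality of the continuum in the model: some function of the model is
a bijection between the set of all reals of the model and `d`. -/
def ContIn (d : M) : Prop :=
  ∃ g, (∀ c, (∃ x, IsRl E c x) → ∃! z, E z d ∧ Pool.Agent.H55.SC.Rel E g c z) ∧
    ∀ z, E z d → ∃! c, (∃ x, IsRl E c x) ∧ Pool.Agent.H55.SC.Rel E g c z

/-- Vaught's conjecture in the model: for every vocabulary and every infinitary sentence of the model there is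
a set of representatives for the isomorphism classes of the models of the sentence, and this set is countable
or has the cardinality of the continuum. -/
def VCIn : Prop :=
  ∀ (L : Voc) (f : Fml L 0), vcode L ∈ Reals E → fcode f ∈ Reals E →
    ∃ d : M, (∀ z, E z d → ∃ N ∈ Mod f, IsRl E z (scode N)) ∧
      (∀ N ∈ Mod f, scode N ∈ Reals E →
        ∃! z, E z d ∧ ∃ N' : Str L, IsRl E z (scode N') ∧ IsoIn (Reals E) N N') ∧
      (CtIn E d ∨ ContIn E d)

end Pool.Agent.LZF
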