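import Pool.Agent.LZF.BPm

set_option autoImplicit false

/-!
# DfS: analytic relations between reals of the model are definable in the model (difficulty 3)

If `G = ∅` the relation is constantly false. Otherwise `G` is the image of a continuous `h : (ℕ → ℕ) → Rl × Rl`
(`MeasureTheory.AnalyticSet` unfolds to this). Let `T k l m` mean: there is `f : ℕ → ℕ` with
`pre f n = Denumerable.ofNat (List ℕ) m`, `pre (h f).1 n = sq k`, `pre (h f).2 n = sq l` for `n = (sq k).length`. Then
`(x, p) ∈ G ↔ ∃ f, ∀ n, T (encode (pre x n)) (encode (pre p n)) (encode (pre f n))`: `→` clear; `←`: for every `n` there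
is `f_n` which agrees with `f` up to `n` and `h f_n` agrees with `(x, p)` up to `n`; `f_n → f`, so `h f = (x, p)`
(`continuous`, `tendsto_nhds_unique`, or coordinatewise by discreteness of `Bool`).
Node predicate: for `z, w` representing `x, p`: `N z w m` (`m` a numeral): there are `k, l` with `T k l m`, `k` is an
initial segment of `z` (`∀ j, (qB true k j → EM a j z) ∧ (qB false k j → ¬ EM a j z)`, by tables) and `l` is an initial
segment of `w`. `N z w` is closed under initial segments. Tables: `T`, `Ch m' m` (`ofNat m' = ofNat m ++ [i]` for some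
`i`), `Q m i v` (`(ofNat m)[i]? = some v`). Let `P i v e := ∃ u, pq i v u ∧ EM a u e` (`code_dfn`). Claim: for
`z, w` representing `x, p`: `(x, p) ∈ G ↔` there is `e : Mo a` such that for all numerals `i` there is a numeral `v` with
`P i v e`, and for all numerals `m`: if `∀ i v, Q m i v → P i v e` then `N z w m`. This is a definable predicate of `z, w`.
`←`: choose `f : ℕ → ℕ` with `P i (f i) e`; for `m = encode (pre f n)` the condition holds, so `N z w m` for all `n`.
`→`: let `f` be as above. The real of the relation `Ch q p ∧ N z w q ∧ N z w p` is in `RM a` (`rc`, with `pq`), and it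
has the descending sequence `encode (pre f n)` in `V`, so by `rm_beta` it has a descending sequence `g'` with
`gph g' ∈ RM a`. Let `e` be the set of all `Nat.pair i v` with `Q (g' n) i v` for some `n` (in the model by `rc`). The lists
`ofNat (g' n)` are increasing, with lengths tending to infinity, so `e` is the graph of a function `f'`; if `m`
satisfies the condition then `ofNat m` is an initial segment of `f'`, hence of some `ofNat (g' n)`, so `N z w m`.
-/

namespace Pool.Agent.LZF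

open Pool.Agent.NI Pool.Agent.H55 Pool.Agent.H55.ZFU FirstOrder

/-! ### The pure part -/

/-- `m` is a child of `m'`. -/
def DfS_Ch (m' m : ℕ) : Prop := ∃ v : ℕ,
  Denumerable.ofNat (List ℕ) m' = Denumerable.ofNat (List ℕ) m ++ [v]

/-- The finite approximations. -/
def DfS_T (h : (ℕ → ℕ) → Rl × Rl) (k l m : ℕ) : Prop := ∃ f : ℕ → ℕ,
  pre f (sq k).length = Denumerable.ofNat (List ℕ) m ∧ pre (h f).1 (sq k).length = sq k ∧
  pre (h f).2 (sq k).length = sq l

/-- The node `m` is in the tree of `x, p`. -/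
def DfS_N (h : (ℕ → ℕ) → Rl × Rl) (x p : Rl) (m : ℕ) : Prop := ∃ k l, DfS_T h k l m ∧
  sq k = pre x (sq k).length ∧ sq l = pre p (sq l).length

theorem DfS_chr (P : ℕ → Prop) (n : ℕ) : chr P n = true ↔ P n := by
  classical
  simp [chr]

theorem DfS_pre_length {α : Type} (f : ℕ → α) (n : ℕ) : (pre f n).length = n := by
  simp [pre]

theorem DfS_pre_get {α : Type} (f : ℕ → α) (n i : ℕ) (hi : i < n) : (pre f n)[i]? = some (f i) := by
  simp [pre, hi]

theorem DfS_pre_succ {α : Type} (f : ℕ → α) (n : ℕ) : pre f (n + 1) = pre f n ++ [f n] := by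
  simp [pre, List.range_succ]

theorem DfS_sq_encode (s : List Bool) : sq (Encodable.encode s) = s := by
  simp [sq]

theorem DfS_pre_eq {α : Type} (f g : ℕ → α) (n : ℕ) (h : pre f n = pre g n) (i : ℕ) (hi : i < n) :
    f i = g i := by
  have h1 := DfS_pre_get f n i hi
  rw [h, DfS_pre_get g n i hi] at h1
  exact (Option.some.inj h1).symm

theorem DfS_branch (u : ℕ → List ℕ) (hu : ∀ n, ∃ v, u (n + 1) = u n ++ [v]) :
    ∃ f : ℕ → ℕ, ∀ n, n ≤ (u n).length ∧ u n = pre f (u n).length := by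
  have hlen : ∀ n, (u n).length = (u 0).length + n := by
    intro n
    induction n with
    | zero => rfl
    | succ n ih =>
      obtain ⟨v, hv⟩ := hu n
      rw [hv, List.length_append, ih]
      simp
      omega
  have hpre : ∀ n d, u n <+: u (n + d) := by
    intro n d
    induction d with
    | zero => exact List.prefix_refl _
    | succ d ih =>
      obtain ⟨v, hv⟩ := hu (n + d)
      have : u (n + (d + 1)) = u (n + d) ++ [v] := hv
      rw [this]
      exact ih.trans (List.prefix_append _ _)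
  have hpre' : ∀ n m, n ≤ m → u n <+: u m := by
    intro n m hnm
    obtain ⟨d, rfl⟩ := Nat.exists_eq_add_of_le hnm
    exact hpre n d
  refine ⟨fun i => (u (i + 1)).getD i 0, fun n => ⟨by rw [hlen]; omega, ?_⟩⟩
  apply List.ext_getElem?
  intro i
  by_cases hi : i < (u n).length
  · rw [DfS_pre_get _ _ _ hi]
    have h1 : i < (u (i + 1)).length := by rw [hlen]; omega
    have h2 : (u n)[i]? = (u (max n (i + 1)))[i]? := by
      obtain ⟨t, ht⟩ := hpre' n (max n (i + 1)) (le_max_left _ _)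
      rw [← ht, List.getElem?_append_left hi]
    have h3 : (u (i + 1))[i]? = (u (max n (i + 1)))[i]? := by
      obtain ⟨t, ht⟩ := hpre' (i + 1) (max n (i + 1)) (le_max_right _ _)
      rw [← ht, List.getElem?_append_left h1]
    rw [h2, ← h3]
    simp [List.getD, h1]
  · have h1 : (u n)[i]? = none := List.getElem?_eq_none (not_lt.1 hi)
    rw [h1, List.getElem?_eq_none]
    rw [DfS_pre_length]
    exact not_lt.1 hi

theorem DfS_pure (h : (ℕ → ℕ) → Rl × Rl) (hc : Continuous h) (x p : Rl) :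
    (x, p) ∈ Set.range h ↔
      ∃ g : ℕ → ℕ, ∀ n, DfS_Ch (g (n + 1)) (g n) ∧ DfS_N h x p (g n) := by
  constructor
  · rintro ⟨f, hf⟩
    refine ⟨fun n => Encodable.encode (pre f n), fun n => ⟨⟨f n, ?_⟩, ?_⟩⟩
    · simp only [Denumerable.ofNat_encode]
      exact DfS_pre_succ f n
    · refine ⟨Encodable.encode (pre x n), Encodable.encode (pre p n), ⟨f, ?_, ?_, ?_⟩, ?_, ?_⟩
      · rw [DfS_sq_encode, DfS_pre_length, Denumerable.ofNat_encode]
      · rw [DfS_sq_encode, DfS_pre_length, hf]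
      · rw [DfS_sq_encode, DfS_sq_encode, DfS_pre_length, hf]
      · rw [DfS_sq_encode, DfS_pre_length]
      · rw [DfS_sq_encode, DfS_pre_length]
  · rintro ⟨g, hg⟩
    obtain ⟨f, hf⟩ := DfS_branch (fun n => Denumerable.ofNat (List ℕ) (g n))
      (fun n => (hg n).1)
    have key : ∀ n, ∃ f' : ℕ → ℕ, ∀ i < n, f' i = f i ∧ (h f').1 i = x i ∧ (h f').2 i = p i := by
      intro n
      obtain ⟨k, l, ⟨f', h1, h2, h3⟩, h4, h5⟩ := (hg n).2
      obtain ⟨h6, h7⟩ := hf n
      have e1 : (sq k).length = (Denumerable.ofNat (List ℕ) (g n)).length := by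
        rw [← h1, DfS_pre_length]
      have e2 : (sq l).length = (sq k).length := by
        rw [← h3, DfS_pre_length]
      refine ⟨f', fun i hi => ⟨?_, ?_, ?_⟩⟩
      · refine DfS_pre_eq f' f (sq k).length ?_ i (by omega)
        rw [h1, e1]
        exact h7
      · refine DfS_pre_eq (h f').1 x (sq k).length ?_ i (by omega)
        rw [h2]
        exact h4
      · refine DfS_pre_eq (h f').2 p (sq k).length ?_ i (by omega)
        rw [h3, ← e2]
        exact h5
    choose F hF using key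
    have hlim : Filter.Tendsto F Filter.atTop (nhds f) := by
      rw [tendsto_pi_nhds]
      intro i
      refine tendsto_const_nhds.congr' ?_
      filter_upwards [Filter.eventually_gt_atTop i] with n hn
      exact ((hF n i hn).1).symm
    have h1 : Filter.Tendsto (fun n => h (F n)) Filter.atTop (nhds (h f)) :=
      (hc.tendsto f).comp hlim
    have h2 : Filter.Tendsto (fun n => h (F n)) Filter.atTop (nhds (x, p)) := by
      rw [nhds_prod_eq]
      refine Filter.Tendsto.prodMk (f := Filter.atTop) (m₁ := fun n => (h (F n)).1)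
        (m₂ := fun n => (h (F n)).2) ?_ ?_
      · rw [tendsto_pi_nhds]
        intro i
        refine tendsto_const_nhds.congr' ?_
        filter_upwards [Filter.eventually_gt_atTop i] with n hn
        exact ((hF n i hn).2.1).symm
      · rw [tendsto_pi_nhds]
        intro i
        refine tendsto_const_nhds.congr' ?_
        filter_upwards [Filter.eventually_gt_atTop i] with n hn
        exact ((hF n i hn).2.2).symm
    exact ⟨f, tendsto_nhds_unique h1 h2⟩

/-! ### In the model -/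

variable {a : Rl}

theorem DfS_numG (n : ℕ) (z : Mo a) : NumG (Kd a) n z ↔ z = nu a n := by
  rw [← nu_iff]
  exact (num_un a n z).symm

theorem DfS_pq (q p t : Mo a) :
    pq q p t ↔ ∃ n m, q = nu a n ∧ p = nu a m ∧ t = nu a (Nat.pair n m) := by
  have h7 := rk7 a q p t
  have e : pq q p t ↔ RK a 7 [q, p, t] := Iff.rfl
  rw [e, h7]
  simp only [DfS_numG]

/-- The table of `qB b`. -/
def DfS_QB (b : Bool) (k j : Mo a) : Prop := ∃ n m, k = nu a n ∧ j = nu a m ∧ qB b n m

/-- The table of children. -/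
def DfS_CH (q p : Mo a) : Prop := ∃ n m, q = nu a n ∧ p = nu a m ∧ DfS_Ch n m

/-- The table of `T`. -/
def DfS_TT (h : (ℕ → ℕ) → Rl × Rl) (k l m : Mo a) : Prop :=
  ∃ k' l' m', k = nu a k' ∧ l = nu a l' ∧ m = nu a m' ∧ DfS_T h k' l' m'

/-- `k` is an initial segment of `z`. -/
def DfS_IS (k z : Mo a) : Prop :=
  ∀ j : Mo a, (DfS_QB true k j → EM a j z) ∧ (DfS_QB false k j → ¬ EM a j z)

/-- The nodes in the model. -/
def DfS_NN (h : (ℕ → ℕ) → Rl × Rl) (z w m : Mo a) : Prop :=
  ∃ k l : Mo a, DfS_TT h k l m ∧ DfS_IS k z ∧ DfS_IS l w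

/-- The relation in the model. -/
def DfS_Phi (h : (ℕ → ℕ) → Rl × Rl) (z w : Mo a) : Prop :=
  ∃ e : Mo a, (∃ p : Mo a, EM a p e) ∧ ∀ p : Mo a, EM a p e →
    DfS_NN h z w p ∧ ∃ q : Mo a, EM a q e ∧ DfS_CH q p

theorem DfS_IS_iff (k : ℕ) (z : Mo a) (x : Rl) (hx : Rep a z x) :
    DfS_IS (nu a k) z ↔ sq k = pre x (sq k).length := by
  unfold DfS_IS
  constructor
  · intro h
    apply List.ext_getElem?
    intro j
    by_cases hj : j < (sq k).length
    · rw [DfS_pre_get _ _ _ hj]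
      have h1 : (sq k)[j]? = some ((sq k)[j]) := List.getElem?_eq_getElem hj
      rw [h1]
      obtain ⟨h2, h3⟩ := h (nu a j)
      cases hb : (sq k)[j] with
      | true =>
        have h4 := (rep_mem z x hx j).1 (h2 ⟨k, j, rfl, rfl, by rw [qB, h1, hb]⟩)
        rw [h4]
      | false =>
        have h4 : ¬ x j = true := fun hc => (h3 ⟨k, j, rfl, rfl, by rw [qB, h1, hb]⟩)
          ((rep_mem z x hx j).2 hc)
        rw [Bool.not_eq_true] at h4
        rw [h4]
    · rw [List.getElem?_eq_none (not_lt.1 hj), List.getElem?_eq_none]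
      rw [DfS_pre_length]
      exact not_lt.1 hj
  · intro h j
    have key : ∀ b, DfS_QB b (nu a k) j → ∃ m, j = nu a m ∧ x m = b := by
      rintro b ⟨n, m, h1, rfl, h2⟩
      have := nu_inj _ _ h1
      subst this
      refine ⟨m, rfl, ?_⟩
      unfold qB at h2
      have hm : m < (sq k).length := by
        by_contra hm
        rw [List.getElem?_eq_none (not_lt.1 hm)] at h2
        cases h2
      rw [h, DfS_pre_get _ _ _ hm] at h2
      exact Option.some.inj h2
    constructor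
    · intro h1
      obtain ⟨m, rfl, hm⟩ := key true h1
      exact (rep_mem z x hx m).2 hm
    · intro h1 h2
      obtain ⟨m, rfl, hm⟩ := key false h1
      have := (rep_mem z x hx m).1 h2
      rw [hm] at this
      cases this

theorem DfS_NN_iff (h : (ℕ → ℕ) → Rl × Rl) (z w : Mo a) (x p : Rl) (hx : Rep a z x)
    (hp : Rep a w p) (m : ℕ) : DfS_NN h z w (nu a m) ↔ DfS_N h x p m := by
  constructor
  · rintro ⟨k, l, ⟨k', l', m', rfl, rfl, h1, h2⟩, h3, h4⟩
    have := nu_inj _ _ h1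
    subst this
    exact ⟨k', l', h2, (DfS_IS_iff _ _ _ hx).1 h3, (DfS_IS_iff _ _ _ hp).1 h4⟩
  · rintro ⟨k', l', h2, h3, h4⟩
    exact ⟨nu a k', nu a l', ⟨k', l', m, rfl, rfl, rfl, h2⟩, (DfS_IS_iff _ _ _ hx).2 h3,
      (DfS_IS_iff _ _ _ hp).2 h4⟩

theorem DfS_CH_iff (n m : ℕ) : DfS_CH (nu a n) (nu a m) ↔ DfS_Ch n m := by
  constructor
  · rintro ⟨n', m', h1, h2, h3⟩
    rw [nu_inj _ _ h1, nu_inj _ _ h2]
    exact h3
  · intro h3
    exact ⟨n, m, rfl, rfl, h3⟩

section dfn

variable (hb : Bas a) (h : (ℕ → ℕ) → Rl × Rl)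
  (hT : HasT a (fun k => DfS_T h k.unpair.1 k.unpair.2.unpair.1 k.unpair.2.unpair.2))
  (hC : HasT a (fun k => DfS_Ch k.unpair.1 k.unpair.2))

include hb in
theorem DfS_QB_dfn (b : Bool) {ι : Type} (t s : (ι → Mo a) → Mo a) [DFun t] [DFun s] :
    Dfn (fun v => DfS_QB b (t v) (s v)) := by
  refine Dfn.comp2 (P := fun x y : Mo a => DfS_QB b x y) ?_ t s
  cases b with
  | true => exact tab2 (qB true) hb.tT
  | false => exact tab2 (qB false) hb.tF

include hC in
theorem DfS_CH_dfn {ι : Type} (t s : (ι → Mo a) → Mo a) [DFun t] [DFun s] :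
    Dfn (fun v => DfS_CH (t v) (s v)) :=
  Dfn.comp2 (P := fun x y : Mo a => DfS_CH x y) (tab2 DfS_Ch hC) t s

include hT in
theorem DfS_TT_dfn {ι : Type} (t s r : (ι → Mo a) → Mo a) [DFun t] [DFun s] [DFun r] :
    Dfn (fun v => DfS_TT h (t v) (s v) (r v)) :=
  Dfn.comp3 (P := fun x y z : Mo a => DfS_TT h x y z) (tab3 (DfS_T h) hT) t s r

include hb in
theorem DfS_IS_dfn {ι : Type} (t s : (ι → Mo a) → Mo a) [DFun t] [DFun s] :
    Dfn (fun v => DfS_IS (t v) (s v)) := by
  refine Dfn.comp2 (P := fun x y : Mo a => DfS_IS x y) ?_ t s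
  unfold DfS_IS
  have h1 : Dfn (fun v : Option (Fin 2) → Mo a => DfS_QB true (v (some 0)) (v none)) :=
    DfS_QB_dfn hb true _ _
  have h2 : Dfn (fun v : Option (Fin 2) → Mo a => DfS_QB false (v (some 0)) (v none)) :=
    DfS_QB_dfn hb false _ _
  infer_instance

include hb hT in
theorem DfS_NN_dfn {ι : Type} (t s r : (ι → Mo a) → Mo a) [DFun t] [DFun s] [DFun r] :
    Dfn (fun v => DfS_NN h (t v) (s v) (r v)) := by
  refine Dfn.comp3 (P := fun x y z : Mo a => DfS_NN h x y z) ?_ t s r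
  unfold DfS_NN
  have h1 : Dfn (fun v : Option (Option (Fin 3)) → Mo a =>
      DfS_TT h (v (some none)) (v none) (v (some (some 2)))) := DfS_TT_dfn h hT _ _ _
  have h2 : Dfn (fun v : Option (Option (Fin 3)) → Mo a =>
      DfS_IS (v (some none)) (v (some (some 0)))) := DfS_IS_dfn hb _ _
  have h3 : Dfn (fun v : Option (Option (Fin 3)) → Mo a =>
      DfS_IS (v none) (v (some (some 1)))) := DfS_IS_dfn hb _ _
  infer_instance

include hb hT hC in
theorem DfS_Phi_dfn : Dfn2 (fun z w : Mo a => DfS_Phi h z w) := by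
  unfold DfS_Phi
  have h1 : Dfn (fun v : Option (Option (Fin 2)) → Mo a =>
      DfS_NN h (v (some (some 0))) (v (some (some 1))) (v none)) := DfS_NN_dfn hb h hT _ _ _
  have h2 : Dfn (fun v : Option (Option (Option (Fin 2))) → Mo a =>
      DfS_CH (v none) (v (some none))) := DfS_CH_dfn hC _ _
  infer_instance

include hb hT hC in
theorem DfS_rel_dfn (z w : Mo a) : Dfn1 (fun t : Mo a => ∃ q p : Mo a, pq q p t ∧ DfS_CH q p ∧
    DfS_NN h z w q ∧ DfS_NN h z w p) := by
  have h1 : Dfn (fun v : Option (Option (Fin 1)) → Mo a =>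
      DfS_CH (v (some none)) (v none)) := DfS_CH_dfn hC _ _
  have h2 : Dfn (fun v : Option (Option (Fin 1)) → Mo a =>
      DfS_NN h z w (v (some none))) := DfS_NN_dfn hb h hT _ _ _
  have h3 : Dfn (fun v : Option (Option (Fin 1)) → Mo a =>
      DfS_NN h z w (v none)) := DfS_NN_dfn hb h hT _ _ _
  infer_instance

include hb hT hC in
theorem DfS_model (z w : Mo a) (x p : Rl) (hx : Rep a z x) (hp : Rep a w p) :
    DfS_Phi h z w ↔ ∃ g : ℕ → ℕ, ∀ n, DfS_Ch (g (n + 1)) (g n) ∧ DfS_N h x p (g n) := by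
  constructor
  · rintro ⟨e, ⟨p0, hp0⟩, he⟩
    have hnum : ∀ q : Mo a, EM a q e → ∃ m, q = nu a m := by
      intro q hq
      obtain ⟨-, -, ⟨-, -, m', -, -, h1, -⟩, -, -⟩ := (he q hq).1
      exact ⟨m', h1⟩
    obtain ⟨m0, rfl⟩ := hnum p0 hp0
    have hstep : ∀ s : {m : ℕ // EM a (nu a m) e}, ∃ s' : {m : ℕ // EM a (nu a m) e},
        DfS_Ch s'.1 s.1 := by
      rintro ⟨m, hm⟩
      obtain ⟨q, hq, hc⟩ := (he _ hm).2
      obtain ⟨m', rfl⟩ := hnum q hq
      exact ⟨⟨m', hq⟩, (DfS_CH_iff _ _).1 hc⟩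
    choose S hS using hstep
    let g : ℕ → {m : ℕ // EM a (nu a m) e} := fun n => Nat.rec ⟨m0, hp0⟩ (fun _ s => S s) n
    refine ⟨fun n => (g n).1, fun n => ⟨hS (g n), ?_⟩⟩
    exact (DfS_NN_iff h z w x p hx hp _).1 (he _ (g n).2).1
  · rintro ⟨g, hg⟩
    have h1 := rc _ (DfS_rel_dfn hb h hT hC z w)
    have hbit : ∀ n m : ℕ, chr (fun t => ∃ q p : Mo a, pq q p (nu a t) ∧ DfS_CH q p ∧
        DfS_NN h z w q ∧ DfS_NN h z w p) (Nat.pair n m) = true ↔
        DfS_Ch n m ∧ DfS_N h x p n ∧ DfS_N h x p m := by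
      intro n m
      rw [DfS_chr]
      constructor
      · rintro ⟨q, r, h2, h3, h4, h5⟩
        obtain ⟨n', m', rfl, rfl, h6⟩ := (DfS_pq _ _ _).1 h2
        have h7 := nu_inj _ _ h6
        rw [Nat.pair_eq_pair] at h7
        obtain ⟨rfl, rfl⟩ := h7
        exact ⟨(DfS_CH_iff _ _).1 h3, (DfS_NN_iff h z w x p hx hp _).1 h4,
          (DfS_NN_iff h z w x p hx hp _).1 h5⟩
      · rintro ⟨h3, h4, h5⟩
        exact ⟨nu a n, nu a m, (DfS_pq _ _ _).2 ⟨n, m, rfl, rfl, rfl⟩, (DfS_CH_iff _ _).2 h3,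
          (DfS_NN_iff h z w x p hx hp _).2 h4, (DfS_NN_iff h z w x p hx hp _).2 h5⟩
    obtain ⟨g', ⟨d, hd⟩, hg'⟩ := rm_beta _ h1 ⟨g, fun n => (hbit _ _).2
      ⟨(hg n).1, (hg (n + 1)).2, (hg n).2⟩⟩
    have hgd : ∀ q : Mo a, (∃ n u : Mo a, pq n q u ∧ EM a u d) ↔ ∃ n : ℕ, q = nu a (g' n) := by
      intro q
      constructor
      · rintro ⟨n, u, h2, h3⟩
        obtain ⟨n', m', rfl, rfl, rfl⟩ := (DfS_pq _ _ _).1 h2
        have h4 := (code_iff d _ hd n' m').1 ⟨_, h2, h3⟩
        rw [gph, DfS_chr] at h4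
        simp only [Nat.unpair_pair] at h4
        exact ⟨n', by rw [h4]⟩
      · rintro ⟨n, rfl⟩
        have h4 : gph g' (Nat.pair n (g' n)) = true := by
          rw [gph, DfS_chr]
          simp only [Nat.unpair_pair]
        obtain ⟨u, h5, h6⟩ := (code_iff d _ hd n (g' n)).2 h4
        exact ⟨nu a n, u, h5, h6⟩
    have hmem : ∀ q : Mo a, EM a q (sep omega (fun q : Mo a => ∃ n u : Mo a, pq n q u ∧ EM a u d)) ↔
        ∃ n : ℕ, q = nu a (g' n) := by
      intro q
      have e : EM a q (sep omega (fun q : Mo a => ∃ n u : Mo a, pq n q u ∧ EM a u d)) ↔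
        q ∈ (sep omega (fun q : Mo a => ∃ n u : Mo a, pq n q u ∧ EM a u d)) := Iff.rfl
      rw [e, mem_sep, hgd]
      constructor
      · exact fun h2 => h2.2
      · rintro ⟨n, rfl⟩
        exact ⟨(omega_iff _).2 ⟨_, rfl⟩, n, rfl⟩
    refine ⟨_, ⟨nu a (g' 0), (hmem _).2 ⟨0, rfl⟩⟩, ?_⟩
    intro q hq
    obtain ⟨n, rfl⟩ := (hmem q).1 hq
    have h2 := (hbit _ _).1 (hg' n)
    exact ⟨(DfS_NN_iff h z w x p hx hp _).2 h2.2.2, nu a (g' (n + 1)), (hmem _).2 ⟨n + 1, rfl⟩,
      (DfS_CH_iff _ _).2 h2.1⟩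

end dfn

theorem dfn_sigma (G : Set (Rl × Rl)) (hG : MeasureTheory.AnalyticSet G) : ∃ ts : ℕ → ℕ → Prop,
    ∀ a : Rl, Bas a → (∀ j, HasT a (ts j)) →
      Dfn2 (fun z w : Mo a => ∃ x p, Rep a z x ∧ Rep a w p ∧ (x, p) ∈ G) := by
  rw [MeasureTheory.AnalyticSet] at hG
  rcases hG with rfl | ⟨h, hc, rfl⟩
  · refine ⟨fun _ _ => False, fun a _ _ => ?_⟩
    refine Dfn.congr (φ := fun _ => False) (Dfn.const False) ?_
    intro v
    simp
  · refine ⟨fun j k => if j = 0 then DfS_T h k.unpair.1 k.unpair.2.unpair.1 k.unpair.2.unpair.2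
      else DfS_Ch k.unpair.1 k.unpair.2, fun a hb hts => ?_⟩
    have hT : HasT a (fun k => DfS_T h k.unpair.1 k.unpair.2.unpair.1 k.unpair.2.unpair.2) := by
      simpa using hts 0
    have hC : HasT a (fun k => DfS_Ch k.unpair.1 k.unpair.2) := by
      simpa using hts 1
    have h1 : Dfn (fun v : Fin 2 → Mo a => ∃ x, Rep a (v 0) x) :=
      Dfn.comp1 (P := fun c : Mo a => ∃ x, Rep a c x) isreal_dfn (fun v => v 0)
    have h2 : Dfn (fun v : Fin 2 → Mo a => ∃ x, Rep a (v 1) x) :=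
      Dfn.comp1 (P := fun c : Mo a => ∃ x, Rep a c x) isreal_dfn (fun v => v 1)
    have h3 : Dfn (fun v : Fin 2 → Mo a => DfS_Phi h (v 0) (v 1)) := DfS_Phi_dfn hb h hT hC
    have h4 : Dfn (fun v : Fin 2 → Mo a => (∃ x, Rep a (v 0) x) ∧ (∃ x, Rep a (v 1) x) ∧
      DfS_Phi h (v 0) (v 1)) := inferInstance
    refine Dfn.congr h4 ?_
    intro v
    constructor
    · rintro ⟨x, p, hx, hp, hxp⟩
      exact ⟨⟨x, hx⟩, ⟨p, hp⟩, (DfS_model hb h hT hC _ _ x p hx hp).2
        ((DfS_pure h hc x p).1 hxp)⟩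
    · rintro ⟨⟨x, hx⟩, ⟨p, hp⟩, hP⟩
      exact ⟨x, p, hx, hp, (DfS_pure h hc x p).2 ((DfS_model hb h hT hC _ _ x p hx hp).1 hP)⟩

end Pool.Agent.LZF
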