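import Pool.Agent.LZF.KCm

set_option autoImplicit false

/-!
# KLs: the structures of the model satisfy the axioms (difficulty 2)

All relations by `rk0` ... `rk7`, `rk_ar`; numerals by `num_low`. `Low (RK a) (· < δ) b x ↔ x < b` for `b < δ`
(`low_eq`, as functions by `funext`, `propext`). `ext`: `k_ext` (elements are smaller, `rk0_lt`). `key`: the key of `k`
is `(Kd a k).k`: `mem`, `le`, `par` from `kd_new`; `dfs` from `rk_S`; `least`: a smaller key `q'` is not new at `k`
(`kd_least`), `q'.1 ≤ (Kd a k).k.1 ≤ k`, so there is `β < k` with `RK a 0 [z, β] ↔ DfO (RK a) q' z` for all `z`;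
`KeyLt (fun x y => RK a 2 [x, y])` is `KeyLt (· < ·)` by `keyLt_congr` and `rk2`.
-/

namespace Pool.Agent.LZF

open Pool.Agent.NI

theorem low_eq (a : Rl) (δ b : Od) (hb : b ≤ δ) :
    Low (RK a) (fun x => x < δ) b = fun x => x < b := by
  funext x
  apply propext
  simp only [Low, rk2]
  exact ⟨fun h => h.2, fun h => ⟨lt_of_lt_of_le h hb, h⟩⟩

theorem KLs_dfs (a : Rl) (δ k : Od) (q : Ky Od) (hq : q.1 ≤ δ)
    (h : ∀ z, RK a 0 [z, k] ↔ DfO (RK a) q z) : DfS (RK a) (fun x => x < δ) k q := by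
  intro z _
  rw [h z, low_eq a δ q.1 hq, rk2]
  exact Iff.rfl

theorem KLs_key (a : Rl) (δ k : Od) (hk : k < δ) :
    IsKey (RK a) (fun x => x < δ) k (Kd a k).k := by
  have hn := kd_new a k
  have hle : (Kd a k).k.1 ≤ k := hn.1
  have hlt : (Kd a k).k.1 < δ := lt_of_le_of_lt hle hk
  refine ⟨hlt, ?_, ?_, ?_, ?_, ?_, ?_⟩
  · rw [rk2]
    exact not_lt.2 hle
  · intro x hx
    have h1 := hn.2.1 x hx
    exact ⟨h1.trans hlt, (rk2 a _ _).2 h1⟩
  · exact KLs_dfs a δ k _ hlt.le fun z => rk_S a z k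
  · intro q' hq' hpar hlt'
    have h1 : KeyLt (· < ·) q' (Kd a k).k :=
      (keyLt_congr _ _ (fun x y => rk2 a x y) _ _).1 hlt'
    have h2 : q'.1 ≤ k := by
      rcases h1 with h | h
      · exact h.le.trans hle
      · exact h.1.le.trans hle
    have h3 : ¬ NewK (RK a) k q' := fun h => kd_least a k q' h h1
    have h4 : ∃ β < k, ∀ z, (RK a 0 [z, β] ↔ DfO (RK a) q' z) := by
      by_contra hcon
      apply h3
      refine ⟨h2, fun x hx => (rk2 a _ _).1 (hpar x hx).2, ?_⟩
      intro β hβ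
      by_contra hc
      exact hcon ⟨β, hβ, fun z => not_not.1 fun hz => hc ⟨z, hz⟩⟩
    obtain ⟨β, hβ, h5⟩ := h4
    exact ⟨β, hβ.trans hk, (rk2 a _ _).2 hβ, KLs_dfs a δ β q' (le_of_lt hq') h5⟩
  · intro x y b hx hy _
    rw [rk4, num_low a δ _ x hx, num_low a δ _ y hy]
  · intro x b hx _
    rw [rk5]
    exact exists_congr fun i => by rw [num_low a δ i x hx]

theorem lstr_K (a : Rl) (δ : Od) : LStr a (RK a) (fun x => x < δ) := by
  refine ⟨⟨?_, ?_, ?_⟩, ?_, ?_, ?_, ?_, ?_, ?_, ?_, ?_⟩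
  · intro x _
    rw [rk2]
    exact lt_irrefl x
  · intro x y z _ _ _
    rw [rk2, rk2, rk2]
    exact lt_trans
  · intro x y _ _
    rw [rk2, rk2]
    exact lt_trichotomy x y
  · intro r l _ h
    exact rk_ar a r l h
  · intro x y _ _
    exact rk1 a x y
  · intro x y _ _ h
    rw [rk2]
    exact rk0_lt a h
  · intro x y hx hy h
    apply k_ext a
    intro z
    rcases lt_or_ge z δ with hz | hz
    · exact h z hz
    · constructor
      · intro h1
        exact absurd ((rk0_lt a h1).trans hx) (not_lt.2 hz)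
      · intro h1
        exact absurd ((rk0_lt a h1).trans hy) (not_lt.2 hz)
  · intro b c z x hb _ hz _
    rw [rk3, rk2, low_eq a δ b (le_of_lt hb)]
    refine and_congr Iff.rfl (exists_congr fun n => ?_)
    rw [num_low a δ n z hz]
  · intro k hk
    exact ⟨_, KLs_key a δ k hk⟩
  · intro z hz
    rw [rk6]
    exact exists_congr fun n => by rw [num_low a δ n z hz]
  · intro x y z hx hy hz
    rw [rk7]
    refine exists_congr fun n => exists_congr fun m => ?_
    rw [num_low a δ _ x hx, num_low a δ _ y hy, num_low a δ _ z hz]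

theorem wfOn_K (a : Rl) (D : Od → Prop) : WfOn (RK a) D := by
  refine Subrelation.wf (r := fun x y : Od => x < y) ?_ wellFounded_lt
  intro x y h
  exact (rk2 a x y).1 h.2.2

end Pool.Agent.LZF
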