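import Pool.Agent.LZF.TRd
import Pool.Agent.LZF.Rcw
import Pool.Agent.LZF.KLs

set_option autoImplicit false

/-!
# DgM: the codes of the pinned levels belong to the model; pinned levels are countable (difficulty 2)

Let `Pin a τ c`, `Rep a c x`.
* `nm_iff`: `NmO a τ c n z ↔ wlt z τ ∧ vr τ c (nu n) z ∧ ∀ m, m ∈ nu n → ¬ vr τ c m z`: `rk3`, `num_un`, `num_unique` (the numeral
  determines `n`), `nu_mem_nu`, and the elements of a numeral are numerals (`num_mem`); `c < τ` from `Pin`. So it is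
  definable as a relation of `(nu n, z)` (`nm_dfn`; for elements which are not numerals it does not matter).
* `dg_rm`: by `rc` it suffices that `DgP a τ c x k` is definable from `nu k`: the first three cases with `pq`
  (`Nat.pair 0 n` etc., `ta`, `EM a n c`, `nm_dfn`). The fourth case: `RK a r s` implies `r < 8` and
  `s.length = arr r` (`rk_ar`), so it is the disjunction over `r = 0, ..., 7` of: there are `n₁ ... n_d`, `z₁ ... z_d` with
  `NmO (n_i, z_i)`, `RK a r [z₁, ..., z_d]` and `k = Nat.pair (r + 3) (encode [n₁, ..., n_d])`, where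
  `encode (n :: l) = Nat.pair n (encode l) + 1` (`Encodable.encode_list_cons`), `encode [] = 0`: tables `qC` (`tab3`) for
  the steps and `pq` for the outer pair.
* `pin_countable`: `g = sep (prod omega (ws τ)) (fun p => vr τ c (fst p) (snd p))`, or by `bdd_set`; functional by
  `val_unique` (`lstr_K`, `rk3`), and every `z` below `τ` is a value (`Pin.val`).
-/

namespace Pool.Agent.LZF

open Pool.Agent.NI Pool.Agent.H55 Pool.Agent.H55.ZFU FirstOrder

variable {a : Rl}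

theorem DgM_numG (n : ℕ) (z : Mo a) : NumG (Kd a) n z ↔ z = nu a n := by
  rw [← nu_iff]
  exact (num_un a n z).symm

theorem DgM_pq (i : ℕ) (n : Mo a) (k : ℕ) :
    pq (nu a i) n (nu a k) ↔ ∃ m, n = nu a m ∧ k = Nat.pair i m := by
  have h7 := rk7 a (nu a i) n (nu a k)
  have e : pq (nu a i) n (nu a k) ↔ RK a 7 [nu a i, n, nu a k] := Iff.rfl
  rw [e, h7]
  constructor
  · rintro ⟨i', m, h1, h2, h3⟩
    rw [DgM_numG] at h1 h2 h3
    have hi := nu_inj _ _ h1
    have hk := nu_inj _ _ h3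
    subst hi
    exact ⟨m, h2, hk⟩
  · rintro ⟨m, rfl, rfl⟩
    exact ⟨i, m, (DgM_numG _ _).2 rfl, (DgM_numG _ _).2 rfl, (DgM_numG _ _).2 rfl⟩

theorem DgM_mem_nu (n : ℕ) (m : Mo a) : m ∈ nu a n ↔ ∃ k < n, m = nu a k := by
  have h := num_mem a n (nu a n) m (nu_spec n)
  have e : m ∈ nu a n ↔ RK a 0 [m, nu a n] := Iff.rfl
  rw [e, h]
  constructor
  · rintro ⟨k, hk, hm⟩
    exact ⟨k, hk, (nu_iff k m).1 hm⟩
  · rintro ⟨k, hk, hm⟩
    exact ⟨k, hk, (nu_iff k m).2 hm⟩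

theorem DgM_vr (τ c : Mo a) (hc : @LT.lt Ordinal.{0} _ c τ) (n : ℕ) (z : Mo a) :
    vr τ c (nu a n) z ↔ Val (K := Od) (RK a) (fun y => y < τ) c n z := by
  have h3 := rk3 a τ c (nu a n) z
  have e : vr τ c (nu a n) z ↔ RK a 3 [τ, c, nu a n, z] := Iff.rfl
  rw [e, h3]
  constructor
  · rintro ⟨-, n', hn, hv⟩
    rw [DgM_numG] at hn
    rw [nu_inj _ _ hn]
    exact hv
  · intro hv
    exact ⟨hc, n, (DgM_numG _ _).2 rfl, hv⟩

/-- `z` has the number `p` (a numeral). -/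
def DgM_Nm (τ c p z : Mo a) : Prop := wlt z τ ∧ vr τ c p z ∧ ∀ m : Mo a, m ∈ p → ¬ vr τ c m z

theorem DgM_nm_iff (τ c : Mo a) (hc : @LT.lt Ordinal.{0} _ c τ) (n : ℕ) (z : Mo a) :
    DgM_Nm τ c (nu a n) z ↔ NmO a τ c n z := by
  unfold DgM_Nm NmO
  rw [wlt_iff, DgM_vr τ c hc]
  refine and_congr Iff.rfl (and_congr Iff.rfl ?_)
  constructor
  · intro h m hm hv
    exact h (nu a m) ((DgM_mem_nu n _).2 ⟨m, hm, rfl⟩) ((DgM_vr τ c hc m z).2 hv)
  · intro h m hm hv
    obtain ⟨k, hk, rfl⟩ := (DgM_mem_nu n m).1 hm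
    exact h k hk ((DgM_vr τ c hc k z).1 hv)

instance DgM_Nm_dfn {ι : Type} (τ c : Mo a) (t s : (ι → Mo a) → Mo a) [DFun t] [DFun s] :
    Dfn (fun v => DgM_Nm τ c (t v) (s v)) := by
  refine Dfn.comp2 (P := fun p z : Mo a => DgM_Nm τ c p z) ?_ t s
  unfold DgM_Nm
  infer_instance

/-- The table of `qC`. -/
def DgM_T (x y z : Mo a) : Prop := ∃ n m k, x = nu a n ∧ y = nu a m ∧ z = nu a k ∧ qC n m k

theorem DgM_T_dfn (hb : Bas a) {ι : Type} (t s r : (ι → Mo a) → Mo a) [DFun t] [DFun s] [DFun r] :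
    Dfn (fun v => DgM_T (t v) (s v) (r v)) := by
  refine Dfn.comp3 (P := fun x y z : Mo a => DgM_T x y z) ?_ t s r
  exact tab3 qC hb.tC

/-- `m` is the code of the list of the numbers of the elements of the list. -/
def DgM_E (τ c : Mo a) : List (Mo a) → Mo a → Prop
  | [], m => m = nu a 0
  | z :: s, m => ∃ n m', DgM_Nm τ c n z ∧ DgM_E τ c s m' ∧ DgM_T n m' m

theorem DgM_E_iff (τ c : Mo a) (hc : @LT.lt Ordinal.{0} _ c τ) (s : List (Mo a)) : ∀ m : Mo a,
    DgM_E τ c s m ↔ ∃ l : List ℕ, s.length = l.length ∧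
      (∀ (i n : ℕ) (z : Od), l[i]? = some n → s[i]? = some z → NmO a τ c n z) ∧
      m = nu a (Encodable.encode l) := by
  induction s with
  | nil =>
    intro m
    unfold DgM_E
    constructor
    · rintro rfl
      refine ⟨[], rfl, ?_, ?_⟩
      · intro i n z h1
        simp at h1
      · simp
    · rintro ⟨l, hl, -, rfl⟩
      have : l = [] := List.length_eq_zero_iff.1 hl.symm
      subst this
      simp
  | cons z s ih =>
    intro m
    unfold DgM_E
    constructor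
    · rintro ⟨n, m', hn, hm', n', m'', k, rfl, rfl, rfl, hq⟩
      obtain ⟨l, hl, hN, he⟩ := (ih _).1 hm'
      have he' := nu_inj _ _ he
      subst he'
      refine ⟨n' :: l, by simp [hl], ?_, ?_⟩
      · intro i n z' h1 h2
        cases i with
        | zero =>
          have e1 : n' = n := Option.some.inj h1
          have e2 : z = z' := Option.some.inj h2
          subst e1 e2
          exact (DgM_nm_iff τ c hc _ _).1 hn
        | succ i =>
          simp only [List.getElem?_cons_succ] at h1 h2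
          exact hN i n z' h1 h2
      · unfold qC at hq
        rw [hq, Encodable.encode_list_cons]
        rfl
    · rintro ⟨l, hl, hN, rfl⟩
      cases l with
      | nil => simp at hl
      | cons n l =>
        refine ⟨nu a n, nu a (Encodable.encode l), ?_, ?_, ?_⟩
        · exact (DgM_nm_iff τ c hc _ _).2 (hN 0 n z rfl rfl)
        · refine (ih _).2 ⟨l, by simpa using hl, ?_, rfl⟩
          intro i n' z' h1 h2
          exact hN (i + 1) n' z' (by simpa using h1) (by simpa using h2)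
        · refine ⟨n, Encodable.encode l, Encodable.encode (n :: l), rfl, rfl, rfl, ?_⟩
          unfold qC
          rw [Encodable.encode_list_cons]
          rfl

theorem DgM_E_nil {ι : Type} (τ c : Mo a) (r : (ι → Mo a) → Mo a) [DFun r] :
    Dfn (fun v => DgM_E τ c [] (r v)) := by
  unfold DgM_E
  infer_instance

theorem DgM_E_cons (hb : Bas a) {ι : Type} (τ c : Mo a) (t : (ι → Mo a) → Mo a)
    (s : (ι → Mo a) → List (Mo a)) (r : (ι → Mo a) → Mo a) [ht : DFun t] [hr : DFun r]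
    (h : Dfn (fun v : Option ι → Mo a => DgM_E τ c (s (fun i => v (some i))) (v none))) :
    Dfn (fun v => DgM_E τ c (t v :: s v) (r v)) := by
  unfold DgM_E
  have h1 := DFun.rename (κ := Option (Option ι)) (fun i => some (some i)) ht
  have h2 := DFun.rename (κ := Option (Option ι)) (fun i => some (some i)) hr
  have h3 : Dfn (fun v : Option (Option ι) → Mo a =>
      DgM_E τ c (s (fun i => v (some (some i)))) (v none)) :=
    Dfn.rename (fun o : Option ι => o.elim none (fun i => some (some i))) h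
  have h4 : Dfn (fun v : Option (Option ι) → Mo a =>
      DgM_T (v (some none)) (v none) (r (fun i => v (some (some i))))) :=
    DgM_T_dfn hb _ _ _
  infer_instance

theorem DgM_E1 (hb : Bas a) {ι : Type} (τ c : Mo a) (t r : (ι → Mo a) → Mo a) [DFun t] [DFun r] :
    Dfn (fun v => DgM_E τ c [t v] (r v)) :=
  DgM_E_cons hb τ c t (fun _ => []) r (DgM_E_nil τ c _)

theorem DgM_E2 (hb : Bas a) {ι : Type} (τ c : Mo a) (t s r : (ι → Mo a) → Mo a) [DFun t]
    [hs : DFun s] [DFun r] : Dfn (fun v => DgM_E τ c [t v, s v] (r v)) := by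
  have h := DFun.rename (κ := Option ι) some hs
  exact DgM_E_cons hb τ c t (fun v => [s v]) r
    (DgM_E1 hb τ c (fun v : Option ι → Mo a => s (fun i => v (some i))) _)

theorem DgM_E3 (hb : Bas a) {ι : Type} (τ c : Mo a) (t s s' r : (ι → Mo a) → Mo a) [DFun t]
    [hs : DFun s] [hs' : DFun s'] [DFun r] : Dfn (fun v => DgM_E τ c [t v, s v, s' v] (r v)) := by
  have h := DFun.rename (κ := Option ι) some hs
  have h' := DFun.rename (κ := Option ι) some hs'
  exact DgM_E_cons hb τ c t (fun v => [s v, s' v]) r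
    (DgM_E2 hb τ c (fun v : Option ι → Mo a => s (fun i => v (some i)))
      (fun v : Option ι → Mo a => s' (fun i => v (some i))) _)

theorem DgM_E4 (hb : Bas a) {ι : Type} (τ c : Mo a) (t s s' s'' r : (ι → Mo a) → Mo a) [DFun t]
    [hs : DFun s] [hs' : DFun s'] [hs'' : DFun s''] [DFun r] :
    Dfn (fun v => DgM_E τ c [t v, s v, s' v, s'' v] (r v)) := by
  have h := DFun.rename (κ := Option ι) some hs
  have h' := DFun.rename (κ := Option ι) some hs'
  have h'' := DFun.rename (κ := Option ι) some hs''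
  exact DgM_E_cons hb τ c t (fun v => [s v, s' v, s'' v]) r
    (DgM_E3 hb τ c (fun v : Option ι → Mo a => s (fun i => v (some i)))
      (fun v : Option ι → Mo a => s' (fun i => v (some i)))
      (fun v : Option ι → Mo a => s'' (fun i => v (some i))) _)

/-- The bits which belong to the relation number `r`. -/
def DgM_Q (τ c : Mo a) (r : ℕ) (k : Mo a) : Prop :=
  ∃ (s : List (Mo a)) (m : Mo a), DgM_E τ c s m ∧ RK a r s ∧ pq (nu a (r + 3)) m k

theorem DgM_Q1 (hb : Bas a) (τ c : Mo a) (r : ℕ) (hr : arr r = 1) : Dfn1 (DgM_Q τ c r) := by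
  have h1 : Dfn (fun v : Option (Option (Fin 1)) → Mo a =>
      DgM_E τ c [v (some none)] (v none)) := DgM_E1 hb τ c _ _
  have h2 : Dfn (fun v : Option (Option (Fin 1)) → Mo a => RK a r [v (some none)]) :=
    Dfn.comp1 (P := fun x : Mo a => RK a r [x]) (dfn_rel1 a r) _
  have hd : Dfn (fun v : Fin 1 → Mo a => ∃ z m : Mo a, DgM_E τ c [z] m ∧ RK a r [z] ∧
    pq (nu a (r + 3)) m (v 0)) := inferInstance
  refine Dfn.congr hd ?_
  intro v
  constructor
  · rintro ⟨s, m, h1, h2, h3⟩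
    have hl := (rk_ar a r s h2).2
    rw [hr] at hl
    obtain ⟨z, rfl⟩ := List.length_eq_one_iff.1 hl
    exact ⟨z, m, h1, h2, h3⟩
  · rintro ⟨z, m, h1, h2, h3⟩
    exact ⟨[z], m, h1, h2, h3⟩

theorem DgM_Q2 (hb : Bas a) (τ c : Mo a) (r : ℕ) (hr : arr r = 2) : Dfn1 (DgM_Q τ c r) := by
  have h1 : Dfn (fun v : Option (Option (Option (Fin 1))) → Mo a =>
      DgM_E τ c [v (some (some none)), v (some none)] (v none)) := DgM_E2 hb τ c _ _ _
  have h2 : Dfn (fun v : Option (Option (Option (Fin 1))) → Mo a =>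
      RK a r [v (some (some none)), v (some none)]) :=
    Dfn.comp2 (P := fun x y : Mo a => RK a r [x, y]) (dfn_rel2 a r) _ _
  have hd : Dfn (fun v : Fin 1 → Mo a => ∃ z z' m : Mo a, DgM_E τ c [z, z'] m ∧
    RK a r [z, z'] ∧ pq (nu a (r + 3)) m (v 0)) := inferInstance
  refine Dfn.congr hd ?_
  intro v
  constructor
  · rintro ⟨s, m, h1, h2, h3⟩
    have hl := (rk_ar a r s h2).2
    rw [hr] at hl
    obtain ⟨z, z', rfl⟩ := List.length_eq_two.1 hl
    exact ⟨z, z', m, h1, h2, h3⟩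
  · rintro ⟨z, z', m, h1, h2, h3⟩
    exact ⟨[z, z'], m, h1, h2, h3⟩

theorem DgM_Q3 (hb : Bas a) (τ c : Mo a) (r : ℕ) (hr : arr r = 3) : Dfn1 (DgM_Q τ c r) := by
  have h1 : Dfn (fun v : Option (Option (Option (Option (Fin 1)))) → Mo a =>
      DgM_E τ c [v (some (some (some none))), v (some (some none)), v (some none)] (v none)) :=
    DgM_E3 hb τ c _ _ _ _
  have h2 : Dfn (fun v : Option (Option (Option (Option (Fin 1)))) → Mo a =>
      RK a r [v (some (some (some none))), v (some (some none)), v (some none)]) :=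
    Dfn.comp3 (P := fun x y z : Mo a => RK a r [x, y, z]) (dfn_rel3 a r) _ _ _
  have hd : Dfn (fun v : Fin 1 → Mo a => ∃ z z' z'' m : Mo a, DgM_E τ c [z, z', z''] m ∧
    RK a r [z, z', z''] ∧ pq (nu a (r + 3)) m (v 0)) := inferInstance
  refine Dfn.congr hd ?_
  intro v
  constructor
  · rintro ⟨s, m, h1, h2, h3⟩
    have hl := (rk_ar a r s h2).2
    rw [hr] at hl
    obtain ⟨z, z', z'', rfl⟩ := List.length_eq_three.1 hl
    exact ⟨z, z', z'', m, h1, h2, h3⟩
  · rintro ⟨z, z', z'', m, h1, h2, h3⟩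
    exact ⟨[z, z', z''], m, h1, h2, h3⟩

theorem DgM_Q4 (hb : Bas a) (τ c : Mo a) (r : ℕ) (hr : arr r = 4) : Dfn1 (DgM_Q τ c r) := by
  have h1 : Dfn (fun v : Option (Option (Option (Option (Option (Fin 1))))) → Mo a =>
      DgM_E τ c [v (some (some (some (some none)))), v (some (some (some none))),
        v (some (some none)), v (some none)] (v none)) :=
    DgM_E4 hb τ c _ _ _ _ _
  have h2 : Dfn (fun v : Option (Option (Option (Option (Option (Fin 1))))) → Mo a =>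
      RK a r [v (some (some (some (some none)))), v (some (some (some none))),
        v (some (some none)), v (some none)]) :=
    Dfn.comp4 (P := fun x y z w : Mo a => RK a r [x, y, z, w]) (dfn_rel4 a r) _ _ _ _
  have hd : Dfn (fun v : Fin 1 → Mo a => ∃ z z' z'' z3 m : Mo a,
    DgM_E τ c [z, z', z'', z3] m ∧
    RK a r [z, z', z'', z3] ∧ pq (nu a (r + 3)) m (v 0)) := inferInstance
  refine Dfn.congr hd ?_
  intro v
  constructor
  · rintro ⟨s, m, h1, h2, h3⟩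
    have hl := (rk_ar a r s h2).2
    rw [hr] at hl
    cases s with
    | nil => simp at hl
    | cons z s =>
      have hl' : s.length = 3 := Nat.succ.inj hl
      obtain ⟨z', z'', z3, rfl⟩ := List.length_eq_three.1 hl'
      exact ⟨z, z', z'', z3, m, h1, h2, h3⟩
  · rintro ⟨z, z', z'', z3, m, h1, h2, h3⟩
    exact ⟨[z, z', z'', z3], m, h1, h2, h3⟩

theorem DgM_Q_dfn (hb : Bas a) (τ c : Mo a) :
    Dfn1 (fun k : Mo a => ∃ r, DgM_Q τ c r k) := by
  have h0 := DgM_Q2 hb τ c 0 rfl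
  have h1 := DgM_Q2 hb τ c 1 rfl
  have h2 := DgM_Q2 hb τ c 2 rfl
  have h3 := DgM_Q4 hb τ c 3 rfl
  have h4 := DgM_Q4 hb τ c 4 rfl
  have h5 := DgM_Q3 hb τ c 5 rfl
  have h6 := DgM_Q1 hb τ c 6 rfl
  have h7 := DgM_Q3 hb τ c 7 rfl
  have hd : Dfn (fun v : Fin 1 → Mo a => DgM_Q τ c 0 (v 0) ∨ DgM_Q τ c 1 (v 0) ∨
    DgM_Q τ c 2 (v 0) ∨ DgM_Q τ c 3 (v 0) ∨ DgM_Q τ c 4 (v 0) ∨ DgM_Q τ c 5 (v 0) ∨
    DgM_Q τ c 6 (v 0) ∨ DgM_Q τ c 7 (v 0)) := inferInstance
  refine Dfn.congr hd ?_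
  intro v
  constructor
  · rintro ⟨r, h⟩
    obtain ⟨s, m, -, hs, -⟩ := id h
    have hr := (rk_ar a r s hs).1
    interval_cases r
    · exact Or.inl h
    · exact Or.inr (Or.inl h)
    · exact Or.inr (Or.inr (Or.inl h))
    · exact Or.inr (Or.inr (Or.inr (Or.inl h)))
    · exact Or.inr (Or.inr (Or.inr (Or.inr (Or.inl h))))
    · exact Or.inr (Or.inr (Or.inr (Or.inr (Or.inr (Or.inl h)))))
    · exact Or.inr (Or.inr (Or.inr (Or.inr (Or.inr (Or.inr (Or.inl h))))))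
    · exact Or.inr (Or.inr (Or.inr (Or.inr (Or.inr (Or.inr (Or.inr h))))))
  · rintro (h | h | h | h | h | h | h | h)
    · exact ⟨0, h⟩
    · exact ⟨1, h⟩
    · exact ⟨2, h⟩
    · exact ⟨3, h⟩
    · exact ⟨4, h⟩
    · exact ⟨5, h⟩
    · exact ⟨6, h⟩
    · exact ⟨7, h⟩

theorem DgM_iff (τ c : Mo a) (x : Rl) (h : Pin a τ c) (hx : Rep a c x) (k : ℕ) :
    ((∃ n, pq (nu a 0) n (nu a k) ∧ ta n) ∨ (∃ n, pq (nu a 1) n (nu a k) ∧ EM a n c) ∨
      (∃ n z, pq (nu a 2) n (nu a k) ∧ DgM_Nm τ c n z) ∨ ∃ r, DgM_Q τ c r (nu a k)) ↔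
    DgP a τ c x k := by
  have hc : @LT.lt Ordinal.{0} _ c τ := h.lt
  unfold DgP
  refine or_congr ?_ (or_congr ?_ (or_congr ?_ ?_))
  · constructor
    · rintro ⟨n, h1, h2⟩
      obtain ⟨m, rfl, hk⟩ := (DgM_pq _ _ _).1 h1
      obtain ⟨m', hm', ha⟩ := (rk6 a (nu a m)).1 h2
      rw [DgM_numG] at hm'
      rw [← nu_inj _ _ hm'] at ha
      exact ⟨m, hk, ha⟩
    · rintro ⟨m, hk, ha⟩
      exact ⟨nu a m, (DgM_pq _ _ _).2 ⟨m, rfl, hk⟩,
        (rk6 a (nu a m)).2 ⟨m, (DgM_numG _ _).2 rfl, ha⟩⟩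
  · constructor
    · rintro ⟨n, h1, h2⟩
      obtain ⟨m, rfl, hk⟩ := (DgM_pq _ _ _).1 h1
      exact ⟨m, hk, (rep_mem c x hx m).1 h2⟩
    · rintro ⟨m, hk, ha⟩
      exact ⟨nu a m, (DgM_pq _ _ _).2 ⟨m, rfl, hk⟩, (rep_mem c x hx m).2 ha⟩
  · constructor
    · rintro ⟨n, z, h1, h2⟩
      obtain ⟨m, rfl, hk⟩ := (DgM_pq _ _ _).1 h1
      exact ⟨m, z, hk, (DgM_nm_iff τ c hc m z).1 h2⟩
    · rintro ⟨m, z, hk, ha⟩
      exact ⟨nu a m, z, (DgM_pq _ _ _).2 ⟨m, rfl, hk⟩, (DgM_nm_iff τ c hc m z).2 ha⟩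
  · constructor
    · rintro ⟨r, s, m, h1, h2, h3⟩
      obtain ⟨m', rfl, hk⟩ := (DgM_pq _ _ _).1 h3
      obtain ⟨l, hl, hN, he⟩ := (DgM_E_iff τ c hc s _).1 h1
      have he' := nu_inj _ _ he
      subst he'
      exact ⟨r, l, s, hk, hl, hN, h2⟩
    · rintro ⟨r, l, s, hk, hl, hN, h2⟩
      exact ⟨r, s, nu a (Encodable.encode l), (DgM_E_iff τ c hc s _).2 ⟨l, hl, hN, rfl⟩, h2,
        (DgM_pq _ _ _).2 ⟨_, rfl, hk⟩⟩

theorem DgM_main (hb : Bas a) (τ c : Mo a) (x : Rl) (h : Pin a τ c) (hx : Rep a c x) :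
    Dg a τ c x ∈ RM a := by
  have hQ := DgM_Q_dfn hb τ c
  have hd : Dfn1 (fun k : Mo a => (∃ n, pq (nu a 0) n k ∧ ta n) ∨ (∃ n, pq (nu a 1) n k ∧ EM a n c) ∨
      (∃ n z, pq (nu a 2) n k ∧ DgM_Nm τ c n z) ∨ ∃ r, DgM_Q τ c r k) := by
    infer_instance
  have h1 := rc _ hd
  have e : chr (fun k => (∃ n, pq (nu a 0) n (nu a k) ∧ ta n) ∨
      (∃ n, pq (nu a 1) n (nu a k) ∧ EM a n c) ∨
      (∃ n z, pq (nu a 2) n (nu a k) ∧ DgM_Nm τ c n z) ∨ ∃ r, DgM_Q τ c r (nu a k)) =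
      Dg a τ c x := by
    unfold Dg
    congr 1
    funext k
    exact propext (DgM_iff τ c x h hx k)
  rwa [e] at h1

theorem dg_rm (hb : Bas a) (τ c : Od) (x : Rl) (h : Pin a τ c) (hx : Rep a c x) :
    Dg a τ c x ∈ RM a :=
  DgM_main hb τ c x h hx

theorem pin_countable (τ c : Mo a) (h : Pin a τ c) : ∃ g : Mo a,
    (∀ k z z' : Mo a, opair k z ∈ g → opair k z' ∈ g → z = z') ∧
    ∀ z : Mo a, wlt z τ → ∃ n : ℕ, opair (nu a n) z ∈ g := by
  have hc : @LT.lt Ordinal.{0} _ c τ := h.lt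
  have key : ∀ k z : Mo a, opair k z ∈ sep (prod omega (ws τ))
      (fun p : Mo a => ∃ k z, p = opair k z ∧ vr τ c k z) ↔ k ∈ (omega : Mo a) ∧ wlt z τ ∧ vr τ c k z := by
    intro k z
    rw [mem_sep, opair_mem_prod, mem_ws]
    constructor
    · rintro ⟨⟨h1, h2⟩, k', z', he, h3⟩
      obtain ⟨rfl, rfl⟩ := opair_inj.1 he
      exact ⟨h1, h2, h3⟩
    · rintro ⟨h1, h2, h3⟩
      exact ⟨⟨h1, h2⟩, k, z, rfl, h3⟩
  refine ⟨sep (prod omega (ws τ)) (fun p : Mo a => ∃ k z, p = opair k z ∧ vr τ c k z), ?_, ?_⟩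
  · intro k z z' h1 h2
    obtain ⟨ho, -, hv⟩ := (key k z).1 h1
    obtain ⟨-, -, hv'⟩ := (key k z').1 h2
    obtain ⟨n, rfl⟩ := (omega_iff k).1 ho
    rw [DgM_vr τ c hc] at hv hv'
    exact val_unique (K := Od) (lstr_K a τ).lin c hc n z z' hv hv'
  · intro z hz
    obtain ⟨n, hn⟩ := h.val z ((wlt_iff z τ).1 hz)
    refine ⟨n, (key _ _).2 ⟨(omega_iff _).2 ⟨n, rfl⟩, hz, (DgM_vr τ c hc n z).2 hn⟩⟩

end Pool.Agent.LZF
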