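import Pool.Agent.LZF.LsI
import Pool.Agent.LZF.KLs
import Pool.Agent.LZF.TVa

set_option autoImplicit false

/-!
# Dga: the code of a pinned level belongs to the coanalytic set (difficulty 3)

Let `Pin a τ c`, `Rep a c x`, `y = Dg a τ c x`. `NmO a τ c n z`: `n` is the least number of a term with the value `z < τ`.
Every `z < τ` has exactly one number (`Pin.val`, `Nat.find`), and different `z` have different numbers
(`val_unique` with `lstr_K`, `low`; `c < τ`). Let `e z` be the number of `z`.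

* bits: `col 0 y = a`, `col 1 y = x` (`Nat.pair_eq_pair`, the first components `0, 1, 2, r + 3` are different);
  `pU y n ↔ ∃ z, NmO a τ c n z`; `pR y r l ↔ ∃ s, s.length = l.length ∧ (∀ i n z, l[i]? = some n → s[i]? = some z →
  NmO a τ c n z) ∧ RK a r s` (`Encodable.encode` is injective), so for a list `s` of ordinals `< τ`:
  `pR y r (s.map e) ↔ RK a r s`, and `pR y r l` implies `l = s.map e` for such a list.
* `e` is an isomorphism from `(· < τ, RK a)` to `(pU y, pR y)`. So `lstr` by `lstr_iso` and `lstr_K`, wellfoundedness by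
  `wfOn_iso`, `wfOn_K`. `zero`: `c` has the number `0` (`Val.base`), `e c = 0`. `supp`, `ar`: above, `rk_ar`.
* `pin`: `n = e z`, `Val (RK a) (· < τ) c n z`, so `Val (pR y) (pU y) (e c) n (e z)` by `IsoS.val`. `least`: let
  `Val (pR y) (pU y) 0 n m`; then `m` is in `pU y` (`Val.mem`), `m = e z`, `Val (RK a) (· < τ) c n z`, and `e z` is the least
  number of `z`.
* `real`: for every `n` there is a numeral `z < τ` (`Pin.num`); `IsoS.num`; `RK a 0 [z, c] ↔ x n = true` by `Rep`
  (`num_low`, `num_un`).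
-/

namespace Pool.Agent.LZF

open Pool.Agent.NI

theorem Dga_dg {a : Rl} {τ c : Od} {x : Rl} {k : ℕ} : Dg a τ c x k = true ↔ DgP a τ c x k := by
  simp only [Dg, chr, decide_eq_true_eq]

theorem dg_col0 (a : Rl) (τ c : Od) (x : Rl) : col 0 (Dg a τ c x) = a := by
  funext n
  rw [Bool.eq_iff_iff]
  change Dg a τ c x (Nat.pair 0 n) = true ↔ a n = true
  rw [Dga_dg]
  unfold DgP
  constructor
  · rintro (⟨m, h, h'⟩ | ⟨m, h, h'⟩ | ⟨m, z, h, h'⟩ | ⟨r, l, s, h, h'⟩)
    · rw [Nat.pair_eq_pair] at h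
      rw [h.2]; exact h'
    · rw [Nat.pair_eq_pair] at h
      exact absurd h.1 (by omega)
    · rw [Nat.pair_eq_pair] at h
      exact absurd h.1 (by omega)
    · rw [Nat.pair_eq_pair] at h
      exact absurd h.1 (by omega)
  · intro h
    exact Or.inl ⟨n, rfl, h⟩

theorem dg_col1 (a : Rl) (τ c : Od) (x : Rl) : col 1 (Dg a τ c x) = x := by
  funext n
  rw [Bool.eq_iff_iff]
  change Dg a τ c x (Nat.pair 1 n) = true ↔ x n = true
  rw [Dga_dg]
  unfold DgP
  constructor
  · rintro (⟨m, h, h'⟩ | ⟨m, h, h'⟩ | ⟨m, z, h, h'⟩ | ⟨r, l, s, h, h'⟩)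
    · rw [Nat.pair_eq_pair] at h
      exact absurd h.1 (by omega)
    · rw [Nat.pair_eq_pair] at h
      rw [h.2]; exact h'
    · rw [Nat.pair_eq_pair] at h
      exact absurd h.1 (by omega)
    · rw [Nat.pair_eq_pair] at h
      exact absurd h.1 (by omega)
  · intro h
    exact Or.inr (Or.inl ⟨n, rfl, h⟩)

theorem Dga_pU {a : Rl} {τ c : Od} {x : Rl} {n : ℕ} :
    pU (Dg a τ c x) n ↔ ∃ z, NmO a τ c n z := by
  unfold pU
  rw [Dga_dg]
  unfold DgP
  constructor
  · rintro (⟨m, h, h'⟩ | ⟨m, h, h'⟩ | ⟨m, z, h, h'⟩ | ⟨r, l, s, h, h'⟩)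
    · rw [Nat.pair_eq_pair] at h
      exact absurd h.1 (by omega)
    · rw [Nat.pair_eq_pair] at h
      exact absurd h.1 (by omega)
    · rw [Nat.pair_eq_pair] at h
      rw [h.2]; exact ⟨z, h'⟩
    · rw [Nat.pair_eq_pair] at h
      exact absurd h.1 (by omega)
  · rintro ⟨z, h⟩
    exact Or.inr (Or.inr (Or.inl ⟨n, z, rfl, h⟩))

theorem Dga_pR {a : Rl} {τ c : Od} {x : Rl} {r : ℕ} {l : List ℕ} :
    pR (Dg a τ c x) r l ↔ ∃ s : List Od, s.length = l.length ∧
      (∀ (i n : ℕ) (z : Od), l[i]? = some n → s[i]? = some z → NmO a τ c n z) ∧ RK a r s := by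
  unfold pR
  rw [Dga_dg]
  unfold DgP
  constructor
  · rintro (⟨m, h, h'⟩ | ⟨m, h, h'⟩ | ⟨m, z, h, h'⟩ | ⟨r', l', s, h, h1, h2, h3⟩)
    · rw [Nat.pair_eq_pair] at h
      exact absurd h.1 (by omega)
    · rw [Nat.pair_eq_pair] at h
      exact absurd h.1 (by omega)
    · rw [Nat.pair_eq_pair] at h
      exact absurd h.1 (by omega)
    · rw [Nat.pair_eq_pair] at h
      obtain ⟨ha, hb⟩ := h
      have hr : r = r' := by omega
      have hl : l = l' := Encodable.encode_injective hb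
      subst hr
      subst hl
      exact ⟨s, h1, h2, h3⟩
  · rintro ⟨s, h1, h2, h3⟩
    exact Or.inr (Or.inr (Or.inr ⟨r, l, s, rfl, h1, h2, h3⟩))

open Classical in
/-- The number of `z`. -/
noncomputable def Dga_e (a : Rl) (τ c : Od) (z : Od) : ℕ :=
  if h : ∃ n, Val (RK a) (fun y => y < τ) c n z then Nat.find h else 0

theorem Dga_e_spec {a : Rl} {τ c : Od} (h : Pin a τ c) {z : Od} (hz : z < τ) :
    NmO a τ c (Dga_e a τ c z) z := by
  classical
  have hex := h.val z hz
  have he : Dga_e a τ c z = Nat.find hex := by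
    unfold Dga_e
    rw [dif_pos hex]
  rw [he]
  exact ⟨hz, Nat.find_spec hex, fun m hm => Nat.find_min hex hm⟩

theorem Dga_un1 {a : Rl} {τ c : Od} {n m : ℕ} {z : Od} (h : NmO a τ c n z) (h' : NmO a τ c m z) :
    n = m := by
  rcases lt_trichotomy n m with hl | hl | hl
  · exact absurd h.2.1 (h'.2.2 n hl)
  · exact hl
  · exact absurd h'.2.1 (h.2.2 m hl)

theorem Dga_un2 {a : Rl} {τ c : Od} (h : Pin a τ c) {n : ℕ} {z z' : Od} (h1 : NmO a τ c n z)
    (h2 : NmO a τ c n z') : z = z' :=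
  val_unique (lstr_K a τ).lin c h.lt n z z' h1.2.1 h2.2.1

theorem Dga_eq {a : Rl} {τ c : Od} (h : Pin a τ c) {n : ℕ} {z : Od} (h1 : NmO a τ c n z) :
    Dga_e a τ c z = n := Dga_un1 (Dga_e_spec h h1.1) h1

theorem Dga_iso {a : Rl} {τ c : Od} (x : Rl) (h : Pin a τ c) :
    IsoS (RK a) (fun z => z < τ) (pR (Dg a τ c x)) (pU (Dg a τ c x)) (Dga_e a τ c) where
  mem := fun z hz => Dga_pU.2 ⟨z, Dga_e_spec h hz⟩
  sur := by
    intro n hn
    obtain ⟨z, hz⟩ := Dga_pU.1 hn
    exact ⟨z, hz.1, Dga_eq h hz⟩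
  inj := by
    intro z z' hz hz' he
    have h1 := Dga_e_spec h hz
    rw [he] at h1
    exact Dga_un2 h h1 (Dga_e_spec h hz')
  rel := by
    intro r l hl
    rw [Dga_pR]
    constructor
    · intro hr
      refine ⟨l, by rw [List.length_map], ?_, hr⟩
      intro i n z h1 h2
      rw [List.getElem?_map, h2] at h1
      have hz : z ∈ l := List.mem_of_getElem? h2
      have h3 : Dga_e a τ c z = n := Option.some.inj h1
      rw [← h3]
      exact Dga_e_spec h (hl z hz)
    · rintro ⟨s, h1, h2, h3⟩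
      have hs : s = l := by
        rw [List.length_map] at h1
        refine List.ext_getElem? ?_
        intro i
        rcases lt_or_ge i l.length with hi | hi
        · have hi' : i < s.length := by omega
          have e1 : s[i]? = some s[i] := List.getElem?_eq_getElem hi'
          have e2 : l[i]? = some l[i] := List.getElem?_eq_getElem hi
          have e3 : (l.map (Dga_e a τ c))[i]? = some (Dga_e a τ c l[i]) := by
            rw [List.getElem?_map, e2]; rfl
          have h4 := h2 i _ _ e3 e1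
          have h5 := Dga_e_spec h (hl l[i] (List.getElem_mem hi))
          rw [e1, e2, Dga_un2 h h4 h5]
        · rw [List.getElem?_eq_none (by omega), List.getElem?_eq_none hi]
      rw [hs] at h3
      exact h3

theorem dg_mem (a : Rl) (τ c : Od) (x : Rl) (h : Pin a τ c) (hx : Rep a c x) : Dg a τ c x ∈ PA a := by
  have hiso := Dga_iso x h
  have hc0 : NmO a τ c 0 c := ⟨h.lt, Val.base, fun m hm => absurd hm (Nat.not_lt_zero m)⟩
  have he0 : Dga_e a τ c c = 0 := Dga_eq h hc0
  refine ⟨⟨?_, wfOn_iso hiso (wfOn_K a _)⟩, dg_col0 a τ c x⟩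
  refine ⟨Dga_pU.2 ⟨c, hc0⟩, ?_, ?_, ?_, ?_, ?_, ?_⟩
  · intro r l hl n hn
    obtain ⟨s, h1, h2, -⟩ := Dga_pR.1 hl
    obtain ⟨i, hi, hin⟩ := List.getElem_of_mem hn
    have e1 : l[i]? = some n := by rw [List.getElem?_eq_getElem hi, hin]
    have e2 : s[i]? = some s[i] := List.getElem?_eq_getElem (by omega)
    exact Dga_pU.2 ⟨_, h2 i n _ e1 e2⟩
  · intro r l hl
    obtain ⟨s, h1, -, h3⟩ := Dga_pR.1 hl
    have := rk_ar a r s h3
    rw [← h1]
    exact this
  · rw [dg_col0]
    exact lstr_iso hiso (lstr_K a τ)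
  · intro n hn
    obtain ⟨z, hz⟩ := Dga_pU.1 hn
    have h1 := (hiso.val c h.lt n z hz.1).1 hz.2.1
    rw [he0, Dga_eq h hz] at h1
    exact h1
  · intro n m hnm
    have hm : pU (Dg a τ c x) m := Val.mem (Dga_pU.2 ⟨c, hc0⟩) hnm
    obtain ⟨z, hz⟩ := Dga_pU.1 hm
    have h1 : Val (RK a) (fun y => y < τ) c n z := by
      refine (hiso.val c h.lt n z hz.1).2 ?_
      rw [he0, Dga_eq h hz]
      exact hnm
    by_contra hcon
    exact hz.2.2 n (not_le.1 hcon) h1
  · intro n
    obtain ⟨z, hz, hnum⟩ := h.num n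
    refine ⟨Dga_e a τ c z, hiso.mem z hz, (hiso.num n z hz).1 hnum, ?_⟩
    rw [dg_col1]
    have hrel := hiso.rel 0 [z, c] (by
      intro w hw
      rcases List.mem_cons.1 hw with h1 | h1
      · rw [h1]; exact hz
      · rw [List.mem_singleton.1 h1]; exact h.lt)
    have e1 : [z, c].map (Dga_e a τ c) = [Dga_e a τ c z, 0] := by
      rw [List.map_cons, List.map_cons, List.map_nil, he0]
    rw [e1] at hrel
    rw [← hrel]
    exact hx.2 n z ((num_un a n z).2 ((num_low a τ n z hz).1 hnum))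

end Pool.Agent.LZF
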