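import Pool.Agent.LZF.Core

set_option autoImplicit false

/-!
# Ren: connectives, insertion of a value into the list, relativization (difficulty 1)

* `sat_ins`: induction on `φ`, generalizing `t`. `atm`: for `i < s.length` both lists have the value `s[i]?`; for
  `i ≥ s.length` `(s ++ z :: t)[i + 1]? = t[i - s.length]? = (s ++ t)[i]?`. `ex`:
  `(s ++ z :: t) ++ [a] = s ++ z :: (t ++ [a])`.
* `sat_relf`: induction on `φ`, generalizing `s`. `atm`: `(b :: s)[i + 1]? = s[i]?`. `ex`: the value `a` has the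
  number `s.length + 1` in `b :: s ++ [a]`, and `b :: s ++ [a] = b :: (s ++ [a])`; `Low R D b a = (D a ∧ R 2 [a, b])`.
-/

namespace Pool.Agent.LZF

universe u

/-- Negation. -/
def Fm.not (φ : Fm) : Fm := Fm.nand φ φ

/-- Conjunction. -/
def Fm.and (φ ψ : Fm) : Fm := Fm.not (Fm.nand φ ψ)

/-- Implication. -/
def Fm.imp (φ ψ : Fm) : Fm := Fm.nand φ (Fm.not ψ)

/-- Equivalence. -/
def Fm.iff (φ ψ : Fm) : Fm := Fm.and (Fm.imp φ ψ) (Fm.imp ψ φ)

/-- Universal quantification. -/
def Fm.all (φ : Fm) : Fm := Fm.not (Fm.ex (Fm.not φ))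

/-- Insertion of a value with the number `d` which is not used by the formula. -/
def ins (d : ℕ) : Fm → Fm
  | Fm.atm r v => Fm.atm r (v.map fun i => if i < d then i else i + 1)
  | Fm.nand φ ψ => Fm.nand (ins d φ) (ins d ψ)
  | Fm.ex φ => Fm.ex (ins d φ)

/-- Relativization of `φ` (evaluated at a list of length `d`) to the elements below the first value. -/
def relf : ℕ → Fm → Fm
  | _, Fm.atm r v => Fm.atm r (v.map (· + 1))
  | d, Fm.nand φ ψ => Fm.nand (relf d φ) (relf d ψ)
  | d, Fm.ex φ => Fm.ex (Fm.and (Fm.atm 2 [d + 1, 0]) (relf (d + 1) φ))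

variable {K : Type u} (R : ℕ → List K → Prop) (D : K → Prop)

theorem sat_not (φ : Fm) (s : List K) : Sat R D φ.not s ↔ ¬ Sat R D φ s := by
  simp only [Fm.not, Sat, and_self]

theorem sat_and (φ ψ : Fm) (s : List K) : Sat R D (φ.and ψ) s ↔ Sat R D φ s ∧ Sat R D ψ s := by
  rw [Fm.and, sat_not]
  simp only [Sat, not_not]

theorem sat_imp (φ ψ : Fm) (s : List K) : Sat R D (φ.imp ψ) s ↔ (Sat R D φ s → Sat R D ψ s) := by
  have h : Sat R D (φ.imp ψ) s ↔ ¬ (Sat R D φ s ∧ Sat R D ψ.not s) := Iff.rfl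
  rw [h, sat_not]
  tauto

theorem sat_iff (φ ψ : Fm) (s : List K) : Sat R D (φ.iff ψ) s ↔ (Sat R D φ s ↔ Sat R D ψ s) := by
  rw [Fm.iff, sat_and, sat_imp, sat_imp]
  tauto

theorem sat_ex (φ : Fm) (s : List K) : Sat R D φ.ex s ↔ ∃ a, D a ∧ Sat R D φ (s ++ [a]) := Iff.rfl

theorem sat_all (φ : Fm) (s : List K) : Sat R D φ.all s ↔ ∀ a, D a → Sat R D φ (s ++ [a]) := by
  rw [Fm.all, sat_not, sat_ex]
  constructor
  · intro h a ha
    by_contra hn
    exact h ⟨a, ha, (sat_not R D φ _).2 hn⟩
  · rintro h ⟨a, ha, hn⟩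
    exact (sat_not R D φ _).1 hn (h a ha)

theorem sat_atm (r : ℕ) (v : List ℕ) (s : List K) :
    Sat R D (Fm.atm r v) s ↔ ∃ l : List K, v.map (fun i => s[i]?) = l.map some ∧ R r l := Iff.rfl

theorem Ren_atm (r : ℕ) (v : List ℕ) (s l' : List K) (h : v.map (fun i => s[i]?) = l'.map some) :
    Sat R D (Fm.atm r v) s ↔ R r l' := by
  rw [sat_atm, h]
  constructor
  · rintro ⟨l, hl, hr⟩
    rw [List.map_injective_iff.2 (Option.some_injective K) hl]
    exact hr
  · intro hr
    exact ⟨l', rfl, hr⟩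

theorem sat_atm2 (r i j : ℕ) (s : List K) (x y : K) (hx : s[i]? = some x) (hy : s[j]? = some y) :
    Sat R D (Fm.atm r [i, j]) s ↔ R r [x, y] := by
  apply Ren_atm
  simp only [List.map_cons, List.map_nil, hx, hy]

theorem sat_atm3 (r i j k : ℕ) (s : List K) (x y z : K) (hx : s[i]? = some x) (hy : s[j]? = some y)
    (hz : s[k]? = some z) : Sat R D (Fm.atm r [i, j, k]) s ↔ R r [x, y, z] := by
  apply Ren_atm
  simp only [List.map_cons, List.map_nil, hx, hy, hz]

theorem sat_atm4 (r i j k l : ℕ) (s : List K) (x y z w : K) (hx : s[i]? = some x) (hy : s[j]? = some y)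
    (hz : s[k]? = some z) (hw : s[l]? = some w) : Sat R D (Fm.atm r [i, j, k, l]) s ↔ R r [x, y, z, w] := by
  apply Ren_atm
  simp only [List.map_cons, List.map_nil, hx, hy, hz, hw]

theorem sat_ins (φ : Fm) (s t : List K) (z : K) :
    Sat R D (ins s.length φ) (s ++ z :: t) ↔ Sat R D φ (s ++ t) := by
  induction φ generalizing t with
  | atm r v =>
    have e : (v.map fun i => if i < s.length then i else i + 1).map (fun i => (s ++ z :: t)[i]?) =
        v.map fun i => (s ++ t)[i]? := by
      rw [List.map_map]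
      apply List.map_congr_left
      intro i _
      change (s ++ z :: t)[if i < s.length then i else i + 1]? = (s ++ t)[i]?
      by_cases h : i < s.length
      · rw [if_pos h, List.getElem?_append_left h, List.getElem?_append_left h]
      · rw [if_neg h, List.getElem?_append_right (by omega), List.getElem?_append_right (by omega)]
        have e1 : i + 1 - s.length = (i - s.length) + 1 := by omega
        rw [e1, List.getElem?_cons_succ]
    rw [ins, sat_atm, sat_atm, e]
  | nand φ ψ ih1 ih2 =>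
    have h1 : Sat R D (ins s.length (Fm.nand φ ψ)) (s ++ z :: t) ↔
      ¬ (Sat R D (ins s.length φ) (s ++ z :: t) ∧ Sat R D (ins s.length ψ) (s ++ z :: t)) := Iff.rfl
    have h2 : Sat R D (Fm.nand φ ψ) (s ++ t) ↔ ¬ (Sat R D φ (s ++ t) ∧ Sat R D ψ (s ++ t)) := Iff.rfl
    rw [h1, h2, ih1, ih2]
  | ex φ ih =>
    rw [ins, sat_ex, sat_ex]
    have h1 : ∀ a, Sat R D (ins s.length φ) (s ++ z :: t ++ [a]) ↔ Sat R D φ (s ++ t ++ [a]) := by
      intro a
      rw [List.append_assoc, List.cons_append, List.append_assoc]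
      exact ih (t ++ [a])
    simp only [h1]

theorem sat_relf (φ : Fm) (b : K) (s : List K) :
    Sat R D (relf s.length φ) (b :: s) ↔ Sat R (Low R D b) φ s := by
  induction φ generalizing s with
  | atm r v =>
    have e : (v.map (· + 1)).map (fun i => (b :: s)[i]?) = v.map fun i => s[i]? := by
      rw [List.map_map]
      apply List.map_congr_left
      intro i _
      change (b :: s)[i + 1]? = s[i]?
      rw [List.getElem?_cons_succ]
    rw [relf, sat_atm, sat_atm, e]
  | nand φ ψ ih1 ih2 =>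
    have h1 : Sat R D (relf s.length (Fm.nand φ ψ)) (b :: s) ↔
      ¬ (Sat R D (relf s.length φ) (b :: s) ∧ Sat R D (relf s.length ψ) (b :: s)) := Iff.rfl
    have h2 : Sat R (Low R D b) (Fm.nand φ ψ) s ↔ ¬ (Sat R (Low R D b) φ s ∧ Sat R (Low R D b) ψ s) := Iff.rfl
    rw [h1, h2, ih1, ih2]
  | ex φ ih =>
    rw [relf, sat_ex, sat_ex]
    have h1 : ∀ a, D a ∧ Sat R D (Fm.and (Fm.atm 2 [s.length + 1, 0]) (relf (s.length + 1) φ)) (b :: s ++ [a]) ↔
        Low R D b a ∧ Sat R (Low R D b) φ (s ++ [a]) := by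
      intro a
      have h2 : Sat R D (relf (s.length + 1) φ) (b :: (s ++ [a])) ↔ Sat R (Low R D b) φ (s ++ [a]) := by
        have h3 := ih (s ++ [a])
        rw [List.length_append, List.length_cons, List.length_nil] at h3
        exact h3
      rw [List.cons_append, sat_and, h2, sat_atm2 R D 2 (s.length + 1) 0 (b :: (s ++ [a])) a b ?_ ?_]
      · unfold Low
        tauto
      · rw [List.getElem?_cons_succ, List.getElem?_append_right (le_refl _), Nat.sub_self]
        rfl
      · rfl
    simp only [h1]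

end Pool.Agent.LZF
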