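import Pool.Agent.LZF.TVa
import Pool.Agent.LZF.Ren

set_option autoImplicit false

/-!
# ElA: elementary substructures: lower parts, values of terms (difficulty 2)

* `elem_low`: for `b ∈ H` and a list `s` in `Low R H b`: `Sat R (Low R H b) φ s ↔ Sat R H (relf s.length φ) (b :: s)`
  by `sat_relf`, and the same for `D`.
* `elem_lin`: a substructure of a linear order; `elem_wf`: `Subrelation.wf`.
* `elem_lst`: `←`: let `x` be the least element of `H` with `Sat R H φ (s ++ [x])`; then `Sat R D φ (s ++ [x])`.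
  Suppose `y ∈ D`, `Sat R D φ (s ++ [y])`, `R 2 [y, x]`. Then the formula
  `Fm.ex (Fm.and (Fm.atm 2 [s.length + 1, 0]) (ins 0 φ))` holds in `D` at the list `x :: s` (`sat_ins` with the
  empty first list: `Sat R D (ins 0 φ) (x :: (s ++ [y])) ↔ Sat R D φ (s ++ [y])`), so in `H`: there is `y' ∈ H` with
  `R 2 [y', x]` and `Sat R H φ (s ++ [y'])`, a contradiction.
  `→`: let `x` be the least element for `D`. There is an element of `H` with `φ` (`Fm.ex φ`), so a least one for `H`
  (`exists_lst`, `elem_wf`), which by `←` is the least one for `D`, so it is `x` by `lst_unique`.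
* `elem_val`: both directions by induction on the derivation (`→` gives in addition `H x`, which follows from
  `Val.mem` for `H`).
-/

namespace Pool.Agent.LZF

universe u

variable {K : Type u} {R : ℕ → List K → Prop} {H D : K → Prop}

theorem elem_low (h : Elem R H D) (b : K) (hb : H b) : Elem R (Low R H b) (Low R D b) := by
  refine ⟨fun x hx => ⟨h.1 x hx.1, hx.2⟩, fun φ s hs => ?_⟩
  refine (sat_relf R H φ b s).symm.trans ((h.2 (relf s.length φ) (b :: s) ?_).trans (sat_relf R D φ b s))
  intro c hc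
  rcases List.mem_cons.1 hc with rfl | hc
  · exact hb
  · exact (hs c hc).1

theorem elem_lin (h : Elem R H D) (hl : Lin R D) : Lin R H := ⟨fun x hx => hl.irr x (h.1 x hx), fun x y z hx hy hz => hl.tra x y z (h.1 x hx) (h.1 y hy) (h.1 z hz),
    fun x y hx hy => hl.tri x y (h.1 x hx) (h.1 y hy)⟩

theorem elem_wf (h : Elem R H D) (hw : WfOn R D) : WfOn R H := by
  refine Subrelation.wf ?_ hw
  intro x y hxy
  exact ⟨h.1 x hxy.1, h.1 y hxy.2.1, hxy.2.2⟩

theorem ElA_psi (R : ℕ → List K → Prop) (D : K → Prop) (φ : Fm) (s : List K) (x : K) :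
    Sat R D (Fm.ex (Fm.and (Fm.atm 2 [s.length + 1, 0]) (ins 0 φ))) (x :: s) ↔
      ∃ a, D a ∧ R 2 [a, x] ∧ Sat R D φ (s ++ [a]) := by
  rw [sat_ex]
  refine exists_congr fun a => and_congr_right fun _ => ?_
  rw [sat_and]
  refine and_congr ?_ ?_
  · refine sat_atm2 R D 2 (s.length + 1) 0 (x :: s ++ [a]) a x ?_ rfl
    show (x :: (s ++ [a]))[s.length + 1]? = some a
    rw [List.getElem?_cons_succ]
    simp
  · exact sat_ins R D φ [] (s ++ [a]) x

theorem elem_lst (h : Elem R H D) (hl : Lin R D) (hw : WfOn R D) (φ : Fm) (s : List K)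
    (hs : ∀ x ∈ s, H x) (x : K) : Lst R D φ s x ↔ Lst R H φ s x := by
  have key : ∀ x, Lst R H φ s x → Lst R D φ s x := by
    intro x hx
    refine ⟨h.1 x hx.1, ?_, ?_⟩
    · refine (h.2 φ (s ++ [x]) ?_).1 hx.2.1
      intro b hb
      rcases List.mem_append.1 hb with hb | hb
      · exact hs b hb
      · rw [List.mem_singleton] at hb
        rw [hb]
        exact hx.1
    · intro y hy hy2 hyx
      have h1 : Sat R D (Fm.ex (Fm.and (Fm.atm 2 [s.length + 1, 0]) (ins 0 φ))) (x :: s) :=
        (ElA_psi R D φ s x).2 ⟨y, hy, hyx, hy2⟩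
      have h2 := (h.2 (Fm.ex (Fm.and (Fm.atm 2 [s.length + 1, 0]) (ins 0 φ))) (x :: s) (by
        intro b hb
        rcases List.mem_cons.1 hb with rfl | hb
        · exact hx.1
        · exact hs b hb)).2 h1
      obtain ⟨y', hy', hyx', hy2'⟩ := (ElA_psi R H φ s x).1 h2
      exact hx.2.2 y' hy' hy2' hyx'
  constructor
  · intro hx
    have h1 : Sat R D (Fm.ex φ) s := ⟨x, hx.1, hx.2.1⟩
    have h2 : Sat R H (Fm.ex φ) s := (h.2 (Fm.ex φ) s hs).2 h1
    obtain ⟨x', hx'⟩ := exists_lst (elem_wf h hw) φ s h2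
    have h3 := lst_unique hl φ s x x' hx (key x' hx')
    rw [h3]
    exact hx'
  · exact key x

theorem elem_val (h : Elem R H D) (hl : Lin R D) (hw : WfOn R D) (c : K) (hc : H c) (n : ℕ) (x : K) :
    Val R D c n x ↔ Val R H c n x := by
  constructor
  · intro hv
    induction hv with
    | base => exact Val.base
    | step m ts s x hlen _ hx ih =>
      have hs : ∀ y ∈ s, H y := by
        intro y hy
        obtain ⟨i, hi, hiy⟩ := List.mem_iff_getElem.1 hy
        have hi' : i < ts.length := hlen ▸ hi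
        exact Val.mem hc (ih i ts[i] y (List.getElem?_eq_getElem hi') (by rw [List.getElem?_eq_getElem hi, hiy]))
      exact Val.step m ts s x hlen ih ((elem_lst h hl hw (fm m) s hs x).1 hx)
  · intro hv
    induction hv with
    | base => exact Val.base
    | step m ts s x hlen hval hx ih =>
      have hs : ∀ y ∈ s, H y := by
        intro y hy
        obtain ⟨i, hi, hiy⟩ := List.mem_iff_getElem.1 hy
        have hi' : i < ts.length := hlen ▸ hi
        exact Val.mem hc (hval i ts[i] y (List.getElem?_eq_getElem hi') (by rw [List.getElem?_eq_getElem hi, hiy]))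
      exact Val.step m ts s x hlen ih ((elem_lst h hl hw (fm m) s hs x).2 hx)

theorem wf_low (hw : WfOn R D) (b : K) : WfOn R (Low R D b) := by
  refine Subrelation.wf ?_ hw
  intro x y hxy
  exact ⟨hxy.1.1, hxy.2.1.1, hxy.2.2⟩

theorem lin_low (hl : Lin R D) (b : K) : Lin R (Low R D b) := ⟨fun x hx => hl.irr x hx.1, fun x y z hx hy hz => hl.tra x y z hx.1 hy.1 hz.1,
    fun x y hx hy => hl.tri x y hx.1 hy.1⟩

end Pool.Agent.LZF
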