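import Pool.Agent.LZF.ElA

set_option autoImplicit false

/-!
# ElN: numerals in elementary substructures (difficulty 2)

Let `(D, R)` satisfy the axioms and let `H` be an elementary substructure.

* `num_uniq`: induction on `n`, `ext`.
* `elem_ext`: if `x, y ∈ H` and `∀ z, H z → (R 0 [z, x] ↔ R 0 [z, y])` then `x = y`: the formula
  `Fm.all (Fm.iff (Fm.atm 0 [2, 0]) (Fm.atm 0 [2, 1]))` at `[x, y]`.
* `elem_num`: induction on `n`. `0`: the formula `Fm.all (Fm.not (Fm.atm 0 [1, 0]))` at `[x]`. `n + 1`, `→`: let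
  `IsNum R D (n + 1) x`, `x ∈ H`, with `j ∈ D`. The formula
  `Fm.ex (Fm.all (Fm.iff (Fm.atm 0 [2, 0]) (or (Fm.atm 0 [2, 1]) (Fm.atm 1 [2, 1]))))` (`or φ ψ = nand (not φ) (not ψ)`)
  holds in `D` at `[x]`, so in `H`: there is `j' ∈ H` such that for all `z ∈ H` `R 0 [z, x] ↔ R 0 [z, j'] ∨ z = j'`;
  again by elementarity (the formula without the first quantifier at `[x, j']`) this holds for all `z ∈ D`.
  Then `R 0 [j', x]`, so `R 0 [j', j]` or `j' = j`; and `R 0 [j, x]`, so `R 0 [j, j']` or `j = j'`; both of the first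
  alternatives together contradict `el` and the linear order; so in any case `j = j'` (if `R 0 [j', j]` then
  `j = j'` by the second disjunction and irreflexivity/transitivity). Use the induction hypothesis for `j ∈ H`.
  `←`: similarly, the universal statement for `j ∈ H` goes up from `H` to `D`.
* `elem_num_mem`: induction on `n`: `0`: `Fm.ex (Fm.all (Fm.not (Fm.atm 0 [1, 0])))` at `[]` holds in `D`, so some
  `x' ∈ H` has no elements in `H`, so none in `D` (formula at `[x']`), so `x' = x` by `ext`. `n + 1`: `j ∈ H` by the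
  induction hypothesis; `Fm.ex (Fm.all (...))` at `[j]` gives `x' ∈ H` with the same elements as `x`.
-/

namespace Pool.Agent.LZF

open Pool.Agent.NI

universe u

variable {K : Type u} {a : Rl} {R : ℕ → List K → Prop} {H D : K → Prop}

theorem num_uniq (hs : LStr a R D) (n : ℕ) (x y : K) (hx : D x) (hy : D y) (h : IsNum R D n x)
    (h' : IsNum R D n y) : x = y := by
  induction n generalizing x y with
  | zero =>
    have h1 : ∀ z, D z → ¬ R 0 [z, x] := h
    have h2 : ∀ z, D z → ¬ R 0 [z, y] := h'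
    exact hs.ext x y hx hy fun z hz => iff_of_false (h1 z hz) (h2 z hz)
  | succ n ih =>
    obtain ⟨j, hj, hn, hxj⟩ := h
    obtain ⟨j', hj', hn', hxj'⟩ := h'
    have e := ih j j' hj hj' hn hn'
    subst e
    exact hs.ext x y hx hy fun z hz => (hxj z hz).trans (hxj' z hz).symm

/-- disjunction -/
def ElN_or (φ ψ : Fm) : Fm := Fm.nand φ.not ψ.not

theorem ElN_sat_or (R : ℕ → List K → Prop) (D : K → Prop) (φ ψ : Fm) (s : List K) :
    Sat R D (ElN_or φ ψ) s ↔ Sat R D φ s ∨ Sat R D ψ s := by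
  show ¬ (Sat R D φ.not s ∧ Sat R D ψ.not s) ↔ _
  rw [sat_not, sat_not]
  tauto

theorem ElN_p1 (R : ℕ → List K → Prop) (D : K → Prop) (x y : K) :
    Sat R D (Fm.all (Fm.iff (Fm.atm 0 [2, 0]) (Fm.atm 0 [2, 1]))) [x, y] ↔
      ∀ z, D z → (R 0 [z, x] ↔ R 0 [z, y]) := by
  rw [sat_all]
  refine forall_congr' fun z => imp_congr_right fun _ => ?_
  rw [sat_iff, sat_atm2 R D 0 2 0 ([x, y] ++ [z]) z x rfl rfl,
    sat_atm2 R D 0 2 1 ([x, y] ++ [z]) z y rfl rfl]

theorem ElN_p0 (R : ℕ → List K → Prop) (D : K → Prop) (x : K) :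
    Sat R D (Fm.all (Fm.not (Fm.atm 0 [1, 0]))) [x] ↔ ∀ z, D z → ¬ R 0 [z, x] := by
  rw [sat_all]
  refine forall_congr' fun z => imp_congr_right fun _ => ?_
  rw [sat_not, sat_atm2 R D 0 1 0 ([x] ++ [z]) z x rfl rfl]

theorem ElN_ps (R : ℕ → List K → Prop) (D : K → Prop) (x j : K) :
    Sat R D (Fm.all (Fm.iff (Fm.atm 0 [2, 0]) (ElN_or (Fm.atm 0 [2, 1]) (Fm.atm 1 [2, 1])))) [x, j] ↔
      ∀ z, D z → (R 0 [z, x] ↔ R 0 [z, j] ∨ R 1 [z, j]) := by
  rw [sat_all]
  refine forall_congr' fun z => imp_congr_right fun _ => ?_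
  rw [sat_iff, ElN_sat_or, sat_atm2 R D 0 2 0 ([x, j] ++ [z]) z x rfl rfl,
    sat_atm2 R D 0 2 1 ([x, j] ++ [z]) z j rfl rfl, sat_atm2 R D 1 2 1 ([x, j] ++ [z]) z j rfl rfl]

theorem ElN_pt (R : ℕ → List K → Prop) (D : K → Prop) (x j : K) :
    Sat R D (Fm.all (Fm.iff (Fm.atm 0 [2, 1]) (ElN_or (Fm.atm 0 [2, 0]) (Fm.atm 1 [2, 0])))) [j, x] ↔
      ∀ z, D z → (R 0 [z, x] ↔ R 0 [z, j] ∨ R 1 [z, j]) := by
  rw [sat_all]
  refine forall_congr' fun z => imp_congr_right fun _ => ?_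
  rw [sat_iff, ElN_sat_or, sat_atm2 R D 0 2 1 ([j, x] ++ [z]) z x rfl rfl,
    sat_atm2 R D 0 2 0 ([j, x] ++ [z]) z j rfl rfl, sat_atm2 R D 1 2 0 ([j, x] ++ [z]) z j rfl rfl]

theorem ElN_eq (hs : LStr a R D) {x j : K} (hj : D j) :
    (∀ z, D z → (R 0 [z, x] ↔ R 0 [z, j] ∨ R 1 [z, j])) ↔
      ∀ z, D z → (R 0 [z, x] ↔ R 0 [z, j] ∨ z = j) := by
  refine forall_congr' fun z => imp_congr_right fun hz => ?_
  rw [hs.eq z j hz hj]

theorem ElN_eqH (hs : LStr a R D) (h : Elem R H D) {x j : K} (hj : H j) :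
    (∀ z, H z → (R 0 [z, x] ↔ R 0 [z, j] ∨ R 1 [z, j])) ↔
      ∀ z, H z → (R 0 [z, x] ↔ R 0 [z, j] ∨ z = j) := by
  refine forall_congr' fun z => imp_congr_right fun hz => ?_
  rw [hs.eq z j (h.1 z hz) (h.1 j hj)]

theorem ElN_up (hs : LStr a R D) (h : Elem R H D) {x j : K} (hx : H x) (hj : H j) :
    (∀ z, H z → (R 0 [z, x] ↔ R 0 [z, j] ∨ z = j)) ↔
      ∀ z, D z → (R 0 [z, x] ↔ R 0 [z, j] ∨ z = j) := by
  rw [← ElN_eqH hs h hj, ← ElN_eq hs (h.1 j hj), ← ElN_ps R H x j, ← ElN_ps R D x j]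
  refine h.2 _ [x, j] ?_
  intro b hb
  simp only [List.mem_cons, List.not_mem_nil, or_false] at hb
  rcases hb with rfl | rfl
  · exact hx
  · exact hj

theorem elem_ext (hs : LStr a R D) (h : Elem R H D) (x y : K) (hx : H x) (hy : H y)
    (hxy : ∀ z, H z → (R 0 [z, x] ↔ R 0 [z, y])) : x = y := by
  have h1 : Sat R H (Fm.all (Fm.iff (Fm.atm 0 [2, 0]) (Fm.atm 0 [2, 1]))) [x, y] :=
    (ElN_p1 R H x y).2 hxy
  have h2 := (h.2 _ [x, y] (by
    intro b hb
    simp only [List.mem_cons, List.not_mem_nil, or_false] at hb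
    rcases hb with rfl | rfl
    · exact hx
    · exact hy)).1 h1
  exact hs.ext x y (h.1 x hx) (h.1 y hy) ((ElN_p1 R D x y).1 h2)

theorem elem_num (hs : LStr a R D) (h : Elem R H D) (n : ℕ) (x : K) (hx : H x) :
    IsNum R D n x ↔ IsNum R H n x := by
  induction n generalizing x with
  | zero =>
    show (∀ z, D z → ¬ R 0 [z, x]) ↔ (∀ z, H z → ¬ R 0 [z, x])
    rw [← ElN_p0 R D x, ← ElN_p0 R H x]
    refine (h.2 _ [x] ?_).symm
    intro b hb
    rw [List.mem_singleton] at hb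
    rw [hb]
    exact hx
  | succ n ih =>
    constructor
    · rintro ⟨j, hj, hn, hxj⟩
      have h1 : Sat R D (Fm.ex (Fm.all (Fm.iff (Fm.atm 0 [2, 0])
          (ElN_or (Fm.atm 0 [2, 1]) (Fm.atm 1 [2, 1]))))) [x] :=
        ⟨j, hj, (ElN_ps R D x j).2 ((ElN_eq hs hj).2 hxj)⟩
      have h2 := (h.2 _ [x] (by
        intro b hb
        rw [List.mem_singleton] at hb
        rw [hb]
        exact hx)).2 h1
      obtain ⟨j', hj', hj2⟩ := h2
      have h3 := (ElN_eqH hs h hj').1 ((ElN_ps R H x j').1 hj2)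
      have h4 := (ElN_up hs h hx hj').1 h3
      have hDj' := h.1 j' hj'
      have e : j = j' := by
        have a1 : R 0 [j', x] := (h4 j' hDj').2 (Or.inr rfl)
        have a2 : R 0 [j, x] := (hxj j hj).2 (Or.inr rfl)
        rcases (hxj j' hDj').1 a1 with b1 | b1
        · rcases (h4 j hj).1 a2 with b2 | b2
          · exfalso
            exact hs.lin.irr j hj (hs.lin.tra j j' j hj hDj' hj (hs.el j j' hj hDj' b2)
              (hs.el j' j hDj' hj b1))
          · exact b2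
        · exact b1.symm
      subst e
      exact ⟨j, hj', (ih j hj').1 hn, h3⟩
    · rintro ⟨j, hj, hn, hxj⟩
      exact ⟨j, h.1 j hj, (ih j hj).2 hn, (ElN_up hs h hx hj).1 hxj⟩

theorem elem_num_mem (hs : LStr a R D) (h : Elem R H D) (n : ℕ) (x : K) (hx : D x)
    (hn : IsNum R D n x) : H x := by
  induction n generalizing x with
  | zero =>
    have h1 : Sat R D (Fm.ex (Fm.all (Fm.not (Fm.atm 0 [1, 0])))) [] :=
      ⟨x, hx, (ElN_p0 R D x).2 hn⟩
    have h2 := (h.2 _ [] (by intro b hb; exact absurd hb List.not_mem_nil)).2 h1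
    obtain ⟨x', hx', hx2⟩ := h2
    have h3 : IsNum R H 0 x' := (ElN_p0 R H x').1 hx2
    have h4 := (elem_num hs h 0 x' hx').2 h3
    rw [num_uniq hs 0 x x' hx (h.1 x' hx') hn h4]
    exact hx'
  | succ n ih =>
    obtain ⟨j, hj, hnj, hxj⟩ := id hn
    have hHj := ih j hj hnj
    have h1 : Sat R D (Fm.ex (Fm.all (Fm.iff (Fm.atm 0 [2, 1])
        (ElN_or (Fm.atm 0 [2, 0]) (Fm.atm 1 [2, 0]))))) [j] :=
      ⟨x, hx, (ElN_pt R D x j).2 ((ElN_eq hs hj).2 hxj)⟩
    have h2 := (h.2 _ [j] (by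
      intro b hb
      rw [List.mem_singleton] at hb
      rw [hb]
      exact hHj)).2 h1
    obtain ⟨x', hx', hx2⟩ := h2
    have h3 := (ElN_eqH hs h hHj).1 ((ElN_pt R H x' j).1 hx2)
    have h4 : IsNum R H (n + 1) x' := ⟨j, hHj, (elem_num hs h n j hHj).1 hnj, h3⟩
    have h5 := (elem_num hs h (n + 1) x' hx').2 h4
    rw [num_uniq hs (n + 1) x x' hx (h.1 x' hx') hn h5]
    exact hx'

end Pool.Agent.LZF
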