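import Pool.Agent.LZF.KEq

set_option autoImplicit false

/-!
# KCm: extensionality, comprehension, numerals (difficulty 2)

* `k_ext`: if `x < y`, then `NewK (RK a) y (Kd a y).k` (`kd_new`) and `rk_S` give a `z` with
  `¬ (RK a 0 [z, x] ↔ RK a 0 [z, y])`; trichotomy.
* `k_comp`: suppose not. Then for every `α ≥ g` the key `q = (g, n, p)` is new at stage `α` (`NewK`), so
  `¬ KeyLt q (Kd a α).k` by `kd_least`, hence `(Kd a α).k.1 ≤ g` (else `KeyLt q (Kd a α).k`). The map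
  `α ↦ (Kd a α).k` is injective (`rk_S`, `k_ext`). So the ordinals `≥ g` inject into the keys `q'` with
  `q'.1 ≤ g` and parameters `< q'.1 ≤ g`, a small type (`Set.Iic g × ℕ × List (Set.Iio g)`; `Set.Iic g` is small by
  `Ordinal.small_Iic`, ...). Contradiction: `not_small_ordinal` (map `α ↦ g + α`), or
  `not_injective_of_ordinal_of_small`.
* `k_sep`: `k_comp` with a number `n` of the formula (`fm_surj`).
* `num_un`, `num_low`: induction on `n`. For `n + 1`: from `∀ z, D z → (R 0 [z, x] ↔ R 0 [z, j] ∨ z = j)` we get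
  `R 0 [j, x]`, so `j < x` (`rk0_lt`); and for `z ≥ δ` nothing is an element of `x, j < δ`.
* `exists_num`: the set `∅`: `k_comp` with `g = 0`; the successor of `j`: `k_sep` at `g = j + 1` with the formula
  `E z j ∨ z = j` and parameter `[j]` (evaluated below `j + 1`).
* `num_unique`: induction on `n`, `k_ext`. `num_inj`: if `n < m`, `IsNum n z`, `IsNum m z`: by induction all
  numerals `k < m` are elements of the numeral `m`, and `rk0_lt` gives `z < z`.
* `num_mem`: the elements of the numeral `n` are exactly the numerals `m < n`.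
-/

namespace Pool.Agent.LZF

open Pool.Agent.NI

theorem KCm_ext (a : Rl) {x y : Od} (hxy : x < y) (h : ∀ z, RK a 0 [z, x] ↔ RK a 0 [z, y]) : False := by
  obtain ⟨z, hz⟩ := (kd_new a y).2.2 x hxy
  exact hz ((h z).trans (rk_S a z y))

theorem k_ext (a : Rl) (x y : Od) (h : ∀ z, RK a 0 [z, x] ↔ RK a 0 [z, y]) : x = y := by
  rcases lt_trichotomy x y with hxy | hxy | hxy
  · exact (KCm_ext a hxy h).elim
  · exact hxy
  · exact (KCm_ext a hxy fun z => (h z).symm).elim

theorem KCm_inj (a : Rl) (x y : Od) (h : (Kd a x).k = (Kd a y).k) : x = y := by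
  refine k_ext a x y fun z => ?_
  rw [rk_S, rk_S, h]

theorem k_comp (a : Rl) (g : Od) (n : ℕ) (p : List Od) (hp : ∀ x ∈ p, x < g) :
    ∃ β, ∀ z, RK a 0 [z, β] ↔ DfO (RK a) (g, n, p) z := by
  by_contra hcon
  push Not at hcon
  have hnew : ∀ α, g ≤ α → NewK (RK a) α (g, n, p) := by
    intro α hα
    refine ⟨hα, hp, fun β _ => ?_⟩
    obtain ⟨z, hz⟩ := hcon β
    refine ⟨z, fun h => ?_⟩
    rcases hz with ⟨h1, h2⟩ | ⟨h1, h2⟩
    · exact h2 (h.mp h1)
    · exact h1 (h.mpr h2)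
  have hle : ∀ α, g ≤ α → (Kd a α).k.1 ≤ g := by
    intro α hα
    by_contra hlt
    exact kd_least a α _ (hnew α hα) (Or.inl (not_le.mp hlt))
  have hmem : ∀ α, g ≤ α → ∀ x ∈ (Kd a α).k.2.2, x < g := fun α hα x hx =>
    lt_of_lt_of_le ((kd_new a α).2.1 x hx) (hle α hα)
  let f : Od → (Set.Iic g) × ℕ × List (Set.Iio g) := fun α =>
    (⟨(Kd a (g + α)).k.1, hle _ (le_add_of_nonneg_right zero_le)⟩, (Kd a (g + α)).k.2.1,
      (Kd a (g + α)).k.2.2.attach.map fun x =>
        ⟨x.1, hmem _ (le_add_of_nonneg_right zero_le) x.1 x.2⟩)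
  refine not_injective_of_ordinal f ?_
  intro α β he
  have h1 : (Kd a (g + α)).k.1 = (Kd a (g + β)).k.1 := congrArg (fun t => t.1.1) he
  have h2 : (Kd a (g + α)).k.2.1 = (Kd a (g + β)).k.2.1 := congrArg (fun t => t.2.1) he
  have h3 : (Kd a (g + α)).k.2.2 = (Kd a (g + β)).k.2.2 := by
    have := congrArg (fun t => t.2.2.map (fun x : Set.Iio g => x.1)) he
    simpa [f, List.map_map, Function.comp_def] using this
  have h4 : g + α = g + β := KCm_inj a _ _ (Prod.ext h1 (Prod.ext h2 h3))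
  exact (add_right_inj g).mp h4

theorem k_sep (a : Rl) (g : Od) (φ : Fm) (p : List Od) (hp : ∀ x ∈ p, x < g) :
    ∃ β, ∀ z, RK a 0 [z, β] ↔ z < g ∧ Sat (RK a) (fun x => x < g) φ (p ++ [z]) := by
  obtain ⟨n, hn⟩ := fm_surj φ
  obtain ⟨β, hβ⟩ := k_comp a g n p hp
  refine ⟨β, fun z => ?_⟩
  rw [hβ z]
  unfold DfO
  rw [hn]

theorem num_un (a : Rl) (n : ℕ) (z : Od) : IsNum (RK a) Un n z ↔ NumG (Kd a) n z := by
  induction n generalizing z with
  | zero =>
    show (∀ w, Un w → ¬ RK a 0 [w, z]) ↔ ∀ w, ¬ (Kd a z).S w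
    constructor
    · intro h w hw
      exact h w trivial ((rk0 a w z).mpr hw)
    · intro h w _ hw
      exact h w ((rk0 a w z).mp hw)
  | succ n ih =>
    show (∃ j, Un j ∧ IsNum (RK a) Un n j ∧ ∀ w, Un w → (RK a 0 [w, z] ↔ RK a 0 [w, j] ∨ w = j)) ↔
      ∃ j, j < z ∧ NumG (Kd a) n j ∧ ∀ w, (Kd a z).S w ↔ (Kd a j).S w ∨ w = j
    constructor
    · rintro ⟨j, _, h1, h2⟩
      refine ⟨j, rk0_lt a ((h2 j trivial).mpr (Or.inr rfl)), (ih j).mp h1, fun w => ?_⟩
      rw [← rk0, ← rk0]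
      exact h2 w trivial
    · rintro ⟨j, _, h1, h2⟩
      refine ⟨j, trivial, (ih j).mpr h1, fun w _ => ?_⟩
      rw [rk0, rk0]
      exact h2 w

theorem num_low (a : Rl) (δ : Od) (n : ℕ) (z : Od) (hz : z < δ) :
    IsNum (RK a) (fun x => x < δ) n z ↔ NumG (Kd a) n z := by
  induction n generalizing z with
  | zero =>
    show (∀ w, w < δ → ¬ RK a 0 [w, z]) ↔ ∀ w, ¬ (Kd a z).S w
    constructor
    · intro h w hw
      have h1 := (rk0 a w z).mpr hw
      exact h w ((rk0_lt a h1).trans hz) h1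
    · intro h w _ hw
      exact h w ((rk0 a w z).mp hw)
  | succ n ih =>
    show (∃ j, j < δ ∧ IsNum (RK a) (fun x => x < δ) n j ∧
        ∀ w, w < δ → (RK a 0 [w, z] ↔ RK a 0 [w, j] ∨ w = j)) ↔
      ∃ j, j < z ∧ NumG (Kd a) n j ∧ ∀ w, (Kd a z).S w ↔ (Kd a j).S w ∨ w = j
    constructor
    · rintro ⟨j, hj, h1, h2⟩
      have hjz : j < z := rk0_lt a ((h2 j hj).mpr (Or.inr rfl))
      refine ⟨j, hjz, (ih j hj).mp h1, fun w => ?_⟩
      rw [← rk0, ← rk0]
      constructor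
      · intro hw
        exact (h2 w ((rk0_lt a hw).trans hz)).mp hw
      · intro hw
        have hwδ : w < δ := by
          rcases hw with hw | hw
          · exact (rk0_lt a hw).trans hj
          · rw [hw]; exact hj
        exact (h2 w hwδ).mpr hw
    · rintro ⟨j, hj, h1, h2⟩
      refine ⟨j, hj.trans hz, (ih j (hj.trans hz)).mpr h1, fun w _ => ?_⟩
      rw [rk0, rk0]
      exact h2 w

theorem KCm_atm (a : Rl) (D : Od → Prop) (r : ℕ) (j z : Od) :
    Sat (RK a) D (Fm.atm r [1, 0]) [j, z] ↔ RK a r [z, j] := by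
  show (∃ l : List Od, [1, 0].map (fun i => [j, z][i]?) = l.map some ∧ RK a r l) ↔ _
  constructor
  · rintro ⟨l, hl, h⟩
    have h1 : [z, j].map some = l.map some := hl
    have h2 : [z, j] = l := List.map_injective_iff.mpr (Option.some_injective Od) h1
    rw [h2]
    exact h
  · intro h
    exact ⟨[z, j], rfl, h⟩

theorem exists_num (a : Rl) (n : ℕ) : ∃ z, IsNum (RK a) Un n z := by
  induction n with
  | zero =>
    obtain ⟨β, hβ⟩ := k_comp a 0 0 [] (by simp)
    refine ⟨β, fun w _ hw => ?_⟩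
    exact absurd ((hβ w).mp hw).1 (not_lt.mpr zero_le)
  | succ n ih =>
    obtain ⟨j, hj⟩ := ih
    obtain ⟨β, hβ⟩ := k_sep a (Order.succ j)
      (Fm.nand (Fm.nand (Fm.atm 0 [1, 0]) (Fm.atm 0 [1, 0])) (Fm.nand (Fm.atm 1 [1, 0]) (Fm.atm 1 [1, 0])))
      [j] (by simp)
    refine ⟨β, j, trivial, hj, fun w _ => ?_⟩
    rw [hβ w]
    have h1 : Sat (RK a) (fun x => x < Order.succ j)
        (Fm.nand (Fm.nand (Fm.atm 0 [1, 0]) (Fm.atm 0 [1, 0]))
          (Fm.nand (Fm.atm 1 [1, 0]) (Fm.atm 1 [1, 0]))) ([j] ++ [w]) ↔ RK a 0 [w, j] ∨ w = j := by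
      show ¬ (¬ (Sat (RK a) _ (Fm.atm 0 [1, 0]) [j, w] ∧ Sat (RK a) _ (Fm.atm 0 [1, 0]) [j, w]) ∧
        ¬ (Sat (RK a) _ (Fm.atm 1 [1, 0]) [j, w] ∧ Sat (RK a) _ (Fm.atm 1 [1, 0]) [j, w])) ↔ _
      rw [KCm_atm, KCm_atm, rk1]
      tauto
    rw [h1]
    constructor
    · exact fun h => h.2
    · intro h
      refine ⟨?_, h⟩
      rcases h with h | h
      · exact (rk0_lt a h).trans (Order.lt_succ j)
      · rw [h]; exact Order.lt_succ j

theorem num_unique (a : Rl) (n : ℕ) (z z' : Od) (h : IsNum (RK a) Un n z) (h' : IsNum (RK a) Un n z') :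
    z = z' := by
  induction n generalizing z z' with
  | zero =>
    exact k_ext a z z' fun w => ⟨fun hw => (h w trivial hw).elim, fun hw => (h' w trivial hw).elim⟩
  | succ n ih =>
    obtain ⟨j, _, h1, h2⟩ := h
    obtain ⟨j', _, h1', h2'⟩ := h'
    have hj : j = j' := ih j j' h1 h1'
    subst hj
    exact k_ext a z z' fun w => (h2 w trivial).trans (h2' w trivial).symm

theorem num_mem (a : Rl) (n : ℕ) (z w : Od) (h : IsNum (RK a) Un n z) :
    RK a 0 [w, z] ↔ ∃ m < n, IsNum (RK a) Un m w := by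
  induction n generalizing z with
  | zero =>
    constructor
    · intro hw
      exact (h w trivial hw).elim
    · rintro ⟨m, hm, -⟩
      exact absurd hm (Nat.not_lt_zero m)
  | succ n ih =>
    obtain ⟨j, _, h1, h2⟩ := h
    rw [h2 w trivial, ih j h1]
    constructor
    · rintro (⟨m, hm, hw⟩ | hw)
      · exact ⟨m, hm.trans (Nat.lt_succ_self n), hw⟩
      · exact ⟨n, Nat.lt_succ_self n, by rw [hw]; exact h1⟩
    · rintro ⟨m, hm, hw⟩
      rcases Nat.lt_succ_iff_lt_or_eq.mp hm with hm' | hm'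
      · exact Or.inl ⟨m, hm', hw⟩
      · subst hm'
        exact Or.inr (num_unique a m w j hw h1)

theorem num_inj (a : Rl) (n m : ℕ) (z : Od) (h : IsNum (RK a) Un n z) (h' : IsNum (RK a) Un m z) :
    n = m := by
  rcases lt_trichotomy n m with hnm | hnm | hnm
  · exact absurd (rk0_lt a ((num_mem a m z z h').mpr ⟨n, hnm, h⟩)) (lt_irrefl z)
  · exact hnm
  · exact absurd (rk0_lt a ((num_mem a n z z h).mpr ⟨m, hnm, h'⟩)) (lt_irrefl z)

end Pool.Agent.LZF
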