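import Pool.Agent.LZF.Core

set_option autoImplicit false

/-!
# KLt: the order of the keys (difficulty 2)

* `lexL_min`: for lists of a fixed length `m` over the ordinals every nonempty class has an element which is
  minimal for `LexL (· < ·)`: induction on `m` (choose the least first element which occurs, then a minimal
  rest among the lists with this first element).
* `keyLt_min`: choose the least `q.1` (ordinals are wellfounded), then the least `q.2.1`, then the least length,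
  then use `lexL_min`.
* `keyLt_tri`: trichotomy of `<` for ordinals and natural numbers; for two lists of the same length
  `LexL s t ∨ s = t ∨ LexL t s` by induction. `keyLt_irr`: `LexL` is irreflexive on every list.
* `keyLt_map`: for lists in `D`, `LexL lt s t ↔ LexL lt' (s.map i) (t.map i)` by induction on the first list
  (`i` is injective on `D`), `List.length_map`.
-/

namespace Pool.Agent.LZF

universe u v

theorem KLt_least {α : Type v} [LinearOrder α] [WellFoundedLT α] (Q : α → Prop) (h : ∃ a, Q a) :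
    ∃ a, Q a ∧ ∀ b, Q b → ¬ b < a := by
  obtain ⟨a, ha, h'⟩ := (wellFounded_lt (α := α)).has_min {a | Q a} h
  exact ⟨a, ha, fun b hb => h' b hb⟩

theorem lexL_min (m : ℕ) (P : List Od → Prop) (h : ∃ s : List Od, s.length = m ∧ P s) :
    ∃ s : List Od, s.length = m ∧ P s ∧ ∀ t : List Od, t.length = m → P t → ¬ LexL (· < ·) t s := by
  induction m generalizing P with
  | zero =>
    obtain ⟨s, hs, hP⟩ := h
    refine ⟨s, hs, hP, fun t ht _ hl => ?_⟩
    rw [List.length_eq_zero_iff] at hs ht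
    rw [hs, ht] at hl
    exact hl
  | succ m ih =>
    obtain ⟨x, ⟨s0, hs0, hP0⟩, hx⟩ := KLt_least (fun x : Od => ∃ s' : List Od, s'.length = m ∧ P (x :: s')) (by
      obtain ⟨s, hs, hP⟩ := h
      obtain ⟨x, s', rfl⟩ := List.exists_cons_of_length_eq_add_one hs
      exact ⟨x, s', by simpa using hs, hP⟩)
    obtain ⟨s', hs', hP', hmin⟩ := ih (fun s' => P (x :: s')) ⟨s0, hs0, hP0⟩
    refine ⟨x :: s', by simp [hs'], hP', fun t ht hPt hl => ?_⟩
    obtain ⟨y, t', rfl⟩ := List.exists_cons_of_length_eq_add_one ht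
    have ht' : t'.length = m := by simpa using ht
    rcases hl with h1 | ⟨h1, h2⟩
    · exact hx y ⟨t', ht', hPt⟩ h1
    · subst h1
      exact hmin t' ht' hPt h2

theorem keyLt_min (P : Ky Od → Prop) (h : ∃ q, P q) :
    ∃ q, P q ∧ ∀ q', P q' → ¬ KeyLt (· < ·) q' q := by
  obtain ⟨α, h1, hα⟩ := KLt_least (fun α : Od => ∃ x : ℕ × List Od, P (α, x)) (by
    obtain ⟨q, hq⟩ := h
    exact ⟨q.1, q.2, hq⟩)
  obtain ⟨n, h2, hn⟩ := KLt_least (fun n : ℕ => ∃ l : List Od, P (α, n, l)) (by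
    obtain ⟨x, hx⟩ := h1
    exact ⟨x.1, x.2, hx⟩)
  obtain ⟨m, h3, hm⟩ := KLt_least (fun m : ℕ => ∃ l : List Od, l.length = m ∧ P (α, n, l)) (by
    obtain ⟨l, hl⟩ := h2
    exact ⟨l.length, l, rfl, hl⟩)
  obtain ⟨s, hs, hP, hmin⟩ := lexL_min m (fun l => P (α, n, l)) h3
  refine ⟨(α, n, s), hP, ?_⟩
  rintro ⟨β, k, t⟩ hq' hlt
  rcases hlt with h4 | ⟨h4, h5 | ⟨h5, h6 | ⟨h6, h7⟩⟩⟩
  · exact hα β ⟨(k, t), hq'⟩ h4
  · change β = α at h4
    subst h4
    exact hn k ⟨t, hq'⟩ h5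
  · change β = α at h4
    change k = n at h5
    change t.length < s.length at h6
    subst h4 h5
    rw [hs] at h6
    exact hm _ ⟨t, rfl, hq'⟩ h6
  · change β = α at h4
    change k = n at h5
    change t.length = s.length at h6
    change LexL _ t s at h7
    subst h4 h5
    exact hmin t (h6.trans hs) hq' h7

theorem KLt_ltri : ∀ s t : List Od, s.length = t.length →
    LexL (· < ·) s t ∨ s = t ∨ LexL (· < ·) t s
  | [], [], _ => Or.inr (Or.inl rfl)
  | [], _ :: _, h => by simp at h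
  | _ :: _, [], h => by simp at h
  | x :: s, y :: t, h => by
    have h' : s.length = t.length := by simpa using h
    rcases lt_trichotomy x y with h1 | h1 | h1
    · exact Or.inl (Or.inl h1)
    · subst h1
      rcases KLt_ltri s t h' with h2 | h2 | h2
      · exact Or.inl (Or.inr ⟨rfl, h2⟩)
      · exact Or.inr (Or.inl (by rw [h2]))
      · exact Or.inr (Or.inr (Or.inr ⟨rfl, h2⟩))
    · exact Or.inr (Or.inr (Or.inl h1))

theorem KLt_lirr : ∀ s : List Od, ¬ LexL (· < ·) s s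
  | [], h => h
  | x :: s, h => by
    rcases h with h | ⟨-, h⟩
    · exact lt_irrefl x h
    · exact KLt_lirr s h

theorem KLt_lmap {K : Type u} {K' : Type v} (lt : K → K → Prop) (lt' : K' → K' → Prop) (i : K → K')
    (D : K → Prop) (hlt : ∀ x y, D x → D y → (lt x y ↔ lt' (i x) (i y)))
    (hi : ∀ x y, D x → D y → i x = i y → x = y) : ∀ s t : List K, (∀ x ∈ s, D x) → (∀ x ∈ t, D x) →
    (LexL lt s t ↔ LexL lt' (s.map i) (t.map i))
  | [], [], _, _ => Iff.rfl
  | [], _ :: _, _, _ => Iff.rfl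
  | _ :: _, [], _, _ => Iff.rfl
  | x :: s, y :: t, h1, h2 => by
    have hx : D x := h1 x (List.mem_cons_self ..)
    have hy : D y := h2 y (List.mem_cons_self ..)
    have ih := KLt_lmap lt lt' i D hlt hi s t (fun z hz => h1 z (List.mem_cons_of_mem _ hz))
      (fun z hz => h2 z (List.mem_cons_of_mem _ hz))
    have e1 : LexL lt (x :: s) (y :: t) ↔ lt x y ∨ (x = y ∧ LexL lt s t) := Iff.rfl
    have e2 : LexL lt' ((x :: s).map i) ((y :: t).map i) ↔
      lt' (i x) (i y) ∨ (i x = i y ∧ LexL lt' (s.map i) (t.map i)) := Iff.rfl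
    have e3 : x = y ↔ i x = i y := ⟨fun h => by rw [h], hi x y hx hy⟩
    rw [e1, e2, hlt x y hx hy, e3, ih]

theorem keyLt_tri (q q' : Ky Od) : KeyLt (· < ·) q q' ∨ q = q' ∨ KeyLt (· < ·) q' q := by
  obtain ⟨α, n, s⟩ := q
  obtain ⟨β, k, t⟩ := q'
  rcases lt_trichotomy α β with h1 | h1 | h1
  · exact Or.inl (Or.inl h1)
  · subst h1
    rcases lt_trichotomy n k with h2 | h2 | h2
    · exact Or.inl (Or.inr ⟨rfl, Or.inl h2⟩)
    · subst h2
      rcases lt_trichotomy s.length t.length with h3 | h3 | h3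
      · exact Or.inl (Or.inr ⟨rfl, Or.inr ⟨rfl, Or.inl h3⟩⟩)
      · rcases KLt_ltri s t h3 with h4 | h4 | h4
        · exact Or.inl (Or.inr ⟨rfl, Or.inr ⟨rfl, Or.inr ⟨h3, h4⟩⟩⟩)
        · exact Or.inr (Or.inl (by rw [h4]))
        · exact Or.inr (Or.inr (Or.inr ⟨rfl, Or.inr ⟨rfl, Or.inr ⟨h3.symm, h4⟩⟩⟩))
      · exact Or.inr (Or.inr (Or.inr ⟨rfl, Or.inr ⟨rfl, Or.inl h3⟩⟩))
    · exact Or.inr (Or.inr (Or.inr ⟨rfl, Or.inl h2⟩))
  · exact Or.inr (Or.inr (Or.inl h1))

theorem keyLt_irr (q : Ky Od) : ¬ KeyLt (· < ·) q q := by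
  rintro (h | ⟨-, h | ⟨-, h | ⟨-, h⟩⟩⟩)
  · exact lt_irrefl _ h
  · exact lt_irrefl _ h
  · exact lt_irrefl _ h
  · exact KLt_lirr _ h

theorem keyLt_map {K : Type u} {K' : Type v} (lt : K → K → Prop) (lt' : K' → K' → Prop) (i : K → K')
    (D : K → Prop) (hlt : ∀ x y, D x → D y → (lt x y ↔ lt' (i x) (i y)))
    (hi : ∀ x y, D x → D y → i x = i y → x = y) (q q' : Ky K) (h1 : D q.1) (h2 : ∀ x ∈ q.2.2, D x)
    (h1' : D q'.1) (h2' : ∀ x ∈ q'.2.2, D x) :
    KeyLt lt q q' ↔ KeyLt lt' (i q.1, q.2.1, q.2.2.map i) (i q'.1, q'.2.1, q'.2.2.map i) := by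
  unfold KeyLt
  have e3 : q.1 = q'.1 ↔ i q.1 = i q'.1 := ⟨fun h => by rw [h], hi _ _ h1 h1'⟩
  have e4 := KLt_lmap lt lt' i D hlt hi q.2.2 q'.2.2 h2 h2'
  simp only [List.length_map]
  rw [hlt _ _ h1 h1', e3, e4]

theorem keyLt_congr {K : Type u} (lt lt' : K → K → Prop) (h : ∀ x y, lt x y ↔ lt' x y) (q q' : Ky K) :
    KeyLt lt q q' ↔ KeyLt lt' q q' := by
  have e : lt = lt' := by
    funext x y
    exact propext (h x y)
  rw [e]

end Pool.Agent.LZF
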