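import Pool.Agent.LZF.SatI
import Pool.Agent.LZF.FmN
import Pool.Agent.LZF.KLt

set_option autoImplicit false

/-!
# KEq: the recursion equations of the model (difficulty 3)

* `kd_eq`: `WellFounded.fix_eq`; the function `fun β => if h : β < α then Kd a β else _` is `cut α (Kd a)`.
* `numG_cut`: induction on `n`: for `z < α`, `NumG (cut α G) n z ↔ NumG G n z` (`(cut α G) z = G z` for `z < α`, and
  the `j < z` are `< α` too).
* `rg_cut`: for a list `l` of ordinals `< α`, by cases on `r` (`r = 0, 1, ..., 7`, else): all elements `x` of the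
  list have `(cut α G) x = G x`; use `numG_cut`. (In case `4` the fourth element of the list is
  `((cut α G) k).k.1 = (G k).k.1`.)
* `rk0`: `RK a 0 [x, y] ↔ (Kd a y).S x`. `rk_S`: `(Kd a y).S = DfO (RG a (cut y (Kd a))) (Kd a y).k` by `kd_eq` and the
  definition of `stp`; the formula is evaluated in the ordinals `< (Kd a y).k.1`. To replace
  `RG a (cut y (Kd a))` by `RK a` one needs `(Kd a y).k.1 ≤ y`, part of `NewK`. So prove by strong induction on `α` the
  statement `Main α`: `NewK (RK a) α (Kd a α).k ∧ ∀ q', NewK (RK a) α q' → ¬ KeyLt (· < ·) q' (Kd a α).k`.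
  For `β < α` the induction hypothesis gives `(Kd a β).k.1 ≤ β`, hence `(Kd a β).S x → x < β`.
  Let `R' = RG a (cut α (Kd a))`. For all keys `q` with `q.1 ≤ α`, `∀ x ∈ q.2.2, x < q.1`: `DfO R' q z ↔ DfO (RK a) q z`
  (`(isoS_id _).sat` with `D = (· < q.1)`; `rg_cut`), and `R' 0 [z, β] ↔ RK a 0 [z, β]` for `β < α` and all `z`.
  So `NewK R' α q ↔ NewK (RK a) α q`. There is a new key: `(α, n, [])` with `fm n = Fm.atm 1 [0, 0]` (`fm_surj`): it
  defines the set of all `z < α` (`RK a 1 [z, z]` holds); for `β < α` the element `z = β` shows that it is new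
  (`RK a 0 [β, β]` would give `β < β`). By `keyLt_min` there is a least new key, so the `if` in `stp` is
  decided and `(Kd a α).k` is a least new key.
* `kd_V`: `(Kd a b).V c n x = Val (RG a (cut b (Kd a))) (· < b) c n x` by `kd_eq`; compare with `(isoS_id _).val`
  (`x < b` by `Val.mem` in both directions).
* the remaining theorems unfold `RK`, `RG`.
-/

namespace Pool.Agent.LZF

open Pool.Agent.NI

theorem kd_eq (a : Rl) (α : Od) : Kd a α = stp α (RG a (cut α (Kd a))) := by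
  unfold Kd
  rw [WellFounded.fix_eq]
  rfl

theorem KEq_cut (G : Od → Dat) {α β : Od} (h : β < α) : cut α G β = G β := if_pos h

theorem numG_cut (G : Od → Dat) (α : Od) (n : ℕ) (z : Od) (hz : z < α) :
    NumG (cut α G) n z ↔ NumG G n z := by
  induction n generalizing z with
  | zero =>
    show (∀ w, ¬ (cut α G z).S w) ↔ ∀ w, ¬ (G z).S w
    rw [KEq_cut G hz]
  | succ n ih =>
    show (∃ j, j < z ∧ NumG (cut α G) n j ∧ ∀ w, (cut α G z).S w ↔ (cut α G j).S w ∨ w = j) ↔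
      ∃ j, j < z ∧ NumG G n j ∧ ∀ w, (G z).S w ↔ (G j).S w ∨ w = j
    constructor
    · rintro ⟨j, hj, h1, h2⟩
      rw [KEq_cut G hz, KEq_cut G (hj.trans hz)] at h2
      exact ⟨j, hj, (ih j (hj.trans hz)).mp h1, h2⟩
    · rintro ⟨j, hj, h1, h2⟩
      refine ⟨j, hj, (ih j (hj.trans hz)).mpr h1, ?_⟩
      rw [KEq_cut G hz, KEq_cut G (hj.trans hz)]
      exact h2

theorem KEq_rg (a : Rl) (G : Od → Dat) (α : Od) (r : ℕ) (l : List Od) (hl : ∀ x ∈ l, x < α) :
    RG a (cut α G) r l ↔ RG a G r l := by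
  match r with
  | 0 =>
    constructor
    · rintro ⟨x, y, rfl, h⟩
      rw [KEq_cut G (hl y (by simp))] at h
      exact ⟨x, y, rfl, h⟩
    · rintro ⟨x, y, rfl, h⟩
      refine ⟨x, y, rfl, ?_⟩
      rw [KEq_cut G (hl y (by simp))]
      exact h
  | 1 => exact Iff.rfl
  | 2 => exact Iff.rfl
  | 3 =>
    constructor
    · rintro ⟨b, c, z, x, rfl, hc, n, h1, h2⟩
      rw [KEq_cut G (hl b (by simp))] at h2
      exact ⟨b, c, z, x, rfl, hc, n, (numG_cut G α n z (hl z (by simp))).mp h1, h2⟩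
    · rintro ⟨b, c, z, x, rfl, hc, n, h1, h2⟩
      refine ⟨b, c, z, x, rfl, hc, n, (numG_cut G α n z (hl z (by simp))).mpr h1, ?_⟩
      rw [KEq_cut G (hl b (by simp))]
      exact h2
  | 4 =>
    constructor
    · rintro ⟨k, x, y, hl', h1, h2⟩
      have hk : k < α := hl k (by rw [hl']; simp)
      have hx : x < α := hl x (by rw [hl']; simp)
      have hy : y < α := hl y (by rw [hl']; simp)
      rw [KEq_cut G hk] at hl' h1 h2
      exact ⟨k, x, y, hl', (numG_cut G α _ x hx).mp h1, (numG_cut G α _ y hy).mp h2⟩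
    · rintro ⟨k, x, y, hl', h1, h2⟩
      have hk : k < α := hl k (by rw [hl']; simp)
      have hx : x < α := hl x (by rw [hl']; simp)
      have hy : y < α := hl y (by rw [hl']; simp)
      refine ⟨k, x, y, ?_, ?_, ?_⟩
      · rw [KEq_cut G hk]
        exact hl'
      · rw [KEq_cut G hk]
        exact (numG_cut G α _ x hx).mpr h1
      · rw [KEq_cut G hk]
        exact (numG_cut G α _ y hy).mpr h2
  | 5 =>
    constructor
    · rintro ⟨k, x, b, rfl, i, h1, h2⟩
      rw [KEq_cut G (hl k (by simp))] at h2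
      exact ⟨k, x, b, rfl, i, (numG_cut G α i x (hl x (by simp))).mp h1, h2⟩
    · rintro ⟨k, x, b, rfl, i, h1, h2⟩
      refine ⟨k, x, b, rfl, i, (numG_cut G α i x (hl x (by simp))).mpr h1, ?_⟩
      rw [KEq_cut G (hl k (by simp))]
      exact h2
  | 6 =>
    constructor
    · rintro ⟨z, n, rfl, h1, h2⟩
      exact ⟨z, n, rfl, (numG_cut G α n z (hl z (by simp))).mp h1, h2⟩
    · rintro ⟨z, n, rfl, h1, h2⟩
      exact ⟨z, n, rfl, (numG_cut G α n z (hl z (by simp))).mpr h1, h2⟩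
  | 7 =>
    constructor
    · rintro ⟨x, y, z, n, m, rfl, h1, h2, h3⟩
      exact ⟨x, y, z, n, m, rfl, (numG_cut G α n x (hl x (by simp))).mp h1,
        (numG_cut G α m y (hl y (by simp))).mp h2, (numG_cut G α _ z (hl z (by simp))).mp h3⟩
    · rintro ⟨x, y, z, n, m, rfl, h1, h2, h3⟩
      exact ⟨x, y, z, n, m, rfl, (numG_cut G α n x (hl x (by simp))).mpr h1,
        (numG_cut G α m y (hl y (by simp))).mpr h2, (numG_cut G α _ z (hl z (by simp))).mpr h3⟩
  | (n + 8) => exact Iff.rfl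

theorem rg_cut (a : Rl) (α : Od) (r : ℕ) (l : List Od) (hl : ∀ x ∈ l, x < α) :
    RG a (cut α (Kd a)) r l ↔ RK a r l := KEq_rg a (Kd a) α r l hl

theorem KEq_dfo (a : Rl) (α : Od) (q : Ky Od) (h1 : q.1 ≤ α) (h2 : ∀ x ∈ q.2.2, x < q.1) (z : Od) :
    DfO (RG a (cut α (Kd a))) q z ↔ DfO (RK a) q z := by
  unfold DfO
  refine and_congr_right fun hz => ?_
  have hiso : IsoS (RG a (cut α (Kd a))) (fun x => x < q.1) (RK a) (fun x => x < q.1) id :=
    isoS_id fun r l hl => rg_cut a α r l fun x hx => lt_of_lt_of_le (hl x hx) h1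
  have h3 := hiso.sat (fm q.2.1) (q.2.2 ++ [z]) (by
    intro x hx
    rw [List.mem_append, List.mem_singleton] at hx
    rcases hx with hx | hx
    · exact h2 x hx
    · rw [hx]; exact hz)
  rw [List.map_id] at h3
  exact h3

theorem KEq_r0 (a : Rl) (α z β : Od) (hβ : β < α) :
    RG a (cut α (Kd a)) 0 [z, β] ↔ RK a 0 [z, β] := by
  show (∃ x y, [z, β] = [x, y] ∧ (cut α (Kd a) y).S x) ↔ ∃ x y, [z, β] = [x, y] ∧ (Kd a y).S x
  constructor
  · rintro ⟨x, y, he, h⟩
    have hy : β = y := by simpa using (List.cons.inj (List.cons.inj he).2).1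
    subst hy
    rw [KEq_cut (Kd a) hβ] at h
    exact ⟨x, β, he, h⟩
  · rintro ⟨x, y, he, h⟩
    have hy : β = y := by simpa using (List.cons.inj (List.cons.inj he).2).1
    subst hy
    refine ⟨x, β, he, ?_⟩
    rw [KEq_cut (Kd a) hβ]
    exact h

theorem KEq_newK (a : Rl) (α : Od) (q : Ky Od) :
    NewK (RG a (cut α (Kd a))) α q ↔ NewK (RK a) α q := by
  unfold NewK
  refine and_congr_right fun h1 => and_congr_right fun h2 => ?_
  refine forall_congr' fun β => forall_congr' fun hβ => exists_congr fun z => ?_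
  rw [KEq_dfo a α q h1 h2 z, KEq_r0 a α z β hβ]

theorem KEq_stp (R : ℕ → List Od → Prop) (α : Od)
    (h : ∃ q, NewK R α q ∧ ∀ q', NewK R α q' → ¬ KeyLt (· < ·) q' q) :
    NewK R α (stp α R).k ∧ ∀ q', NewK R α q' → ¬ KeyLt (· < ·) q' (stp α R).k := by
  have h1 : (stp α R).k = h.choose := dif_pos h
  rw [h1]
  exact h.choose_spec

theorem KEq_S (a : Rl) (α : Od) : (Kd a α).S = DfO (RG a (cut α (Kd a))) (Kd a α).k := by
  have h := kd_eq a α
  rw [h]
  rfl

theorem KEq_V (a : Rl) (α : Od) :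
    (Kd a α).V = fun c n x => Val (RG a (cut α (Kd a))) (fun y => y < α) c n x := by
  have h := kd_eq a α
  rw [h]
  rfl

theorem rk0 (a : Rl) (x y : Od) : RK a 0 [x, y] ↔ (Kd a y).S x := by
  show (∃ x' y', [x, y] = [x', y'] ∧ (Kd a y').S x') ↔ _
  constructor
  · rintro ⟨x', y', he, h⟩
    simp only [List.cons.injEq, and_true] at he
    rw [he.1, he.2]
    exact h
  · intro h
    exact ⟨x, y, rfl, h⟩

theorem rk1 (a : Rl) (x y : Od) : RK a 1 [x, y] ↔ x = y := by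
  show (∃ x', [x, y] = [x', x']) ↔ _
  constructor
  · rintro ⟨x', he⟩
    simp only [List.cons.injEq, and_true] at he
    rw [he.1, he.2]
  · rintro rfl
    exact ⟨x, rfl⟩

theorem KEq_main (a : Rl) (α : Od) : NewK (RK a) α (Kd a α).k ∧
    ∀ q', NewK (RK a) α q' → ¬ KeyLt (· < ·) q' (Kd a α).k := by
  induction α using WellFoundedLT.induction with
  | ind α ih =>
    have hirr : ∀ β < α, ¬ RK a 0 [β, β] := by
      intro β hβ h
      rw [rk0, KEq_S] at h
      have h1 : β < (Kd a β).k.1 := h.1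
      exact absurd (lt_of_lt_of_le h1 (ih β hβ).1.1) (lt_irrefl β)
    obtain ⟨n, hn⟩ := fm_surj (Fm.atm 1 [0, 0])
    have hnew : NewK (RK a) α (α, n, []) := by
      refine ⟨le_refl α, by simp, ?_⟩
      intro β hβ
      refine ⟨β, fun h => hirr β hβ (h.mpr ⟨hβ, ?_⟩)⟩
      show Sat (RK a) (fun x => x < α) (fm n) ([] ++ [β])
      rw [hn]
      exact ⟨[β, β], rfl, (rk1 a β β).mpr rfl⟩
    have hex : ∃ q, NewK (RG a (cut α (Kd a))) α q := ⟨_, (KEq_newK a α _).mpr hnew⟩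
    obtain ⟨h1, h2⟩ := KEq_stp _ α (keyLt_min _ hex)
    rw [← kd_eq] at h1 h2
    exact ⟨(KEq_newK a α _).mp h1, fun q' hq' => h2 q' ((KEq_newK a α _).mpr hq')⟩

theorem kd_new (a : Rl) (α : Od) : NewK (RK a) α (Kd a α).k := (KEq_main a α).1

theorem kd_least (a : Rl) (α : Od) (q : Ky Od) (h : NewK (RK a) α q) :
    ¬ KeyLt (· < ·) q (Kd a α).k := (KEq_main a α).2 q h

theorem rk_S (a : Rl) (x y : Od) : RK a 0 [x, y] ↔ DfO (RK a) (Kd a y).k x := by
  rw [rk0, KEq_S]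
  exact KEq_dfo a y (Kd a y).k (kd_new a y).1 (kd_new a y).2.1 x

theorem rk0_lt (a : Rl) {x y : Od} (h : RK a 0 [x, y]) : x < y := by
  rw [rk_S] at h
  exact lt_of_lt_of_le h.1 (kd_new a y).1

theorem rk2 (a : Rl) (x y : Od) : RK a 2 [x, y] ↔ x < y := by
  show (∃ x' y', [x, y] = [x', y'] ∧ x' < y') ↔ _
  constructor
  · rintro ⟨x', y', he, h⟩
    simp only [List.cons.injEq, and_true] at he
    rw [he.1, he.2]
    exact h
  · intro h
    exact ⟨x, y, rfl, h⟩

theorem rk3 (a : Rl) (b c z x : Od) : RK a 3 [b, c, z, x] ↔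
    c < b ∧ ∃ n, NumG (Kd a) n z ∧ Val (RK a) (fun y => y < b) c n x := by
  have hiso : IsoS (RG a (cut b (Kd a))) (fun x => x < b) (RK a) (fun x => x < b) id :=
    isoS_id fun r l hl => rg_cut a b r l hl
  have hV : ∀ n, c < b → ((Kd a b).V c n x ↔ Val (RK a) (fun y => y < b) c n x) := by
    intro n hc
    rw [KEq_V]
    constructor
    · intro h
      exact (hiso.val c hc n x (Val.mem (D := fun y => y < b) hc h)).mp h
    · intro h
      exact (hiso.val c hc n x (Val.mem (D := fun y => y < b) hc h)).mpr h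
  show (∃ b' c' z' x', [b, c, z, x] = [b', c', z', x'] ∧ c' < b' ∧ ∃ n, NumG (Kd a) n z' ∧
    (Kd a b').V c' n x') ↔ _
  constructor
  · rintro ⟨b', c', z', x', he, hc, n, h1, h2⟩
    simp only [List.cons.injEq, and_true] at he
    obtain ⟨rfl, rfl, rfl, rfl⟩ := he
    exact ⟨hc, n, h1, (hV n hc).mp h2⟩
  · rintro ⟨hc, n, h1, h2⟩
    exact ⟨b, c, z, x, rfl, hc, n, h1, (hV n hc).mpr h2⟩

theorem rk4 (a : Rl) (k x y b : Od) : RK a 4 [k, x, y, b] ↔
    b = (Kd a k).k.1 ∧ NumG (Kd a) (Kd a k).k.2.1 x ∧ NumG (Kd a) (Kd a k).k.2.2.length y := by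
  show (∃ k' x' y', [k, x, y, b] = [k', x', y', (Kd a k').k.1] ∧ NumG (Kd a) (Kd a k').k.2.1 x' ∧
    NumG (Kd a) (Kd a k').k.2.2.length y') ↔ _
  constructor
  · rintro ⟨k', x', y', he, h1, h2⟩
    simp only [List.cons.injEq, and_true] at he
    obtain ⟨rfl, rfl, rfl, h3⟩ := he
    exact ⟨h3, h1, h2⟩
  · rintro ⟨rfl, h1, h2⟩
    exact ⟨k, x, y, rfl, h1, h2⟩

theorem rk5 (a : Rl) (k x b : Od) : RK a 5 [k, x, b] ↔
    ∃ i, NumG (Kd a) i x ∧ (Kd a k).k.2.2[i]? = some b := by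
  show (∃ k' x' b', [k, x, b] = [k', x', b'] ∧ ∃ i, NumG (Kd a) i x' ∧ (Kd a k').k.2.2[i]? = some b') ↔ _
  constructor
  · rintro ⟨k', x', b', he, h⟩
    simp only [List.cons.injEq, and_true] at he
    obtain ⟨rfl, rfl, rfl⟩ := he
    exact h
  · intro h
    exact ⟨k, x, b, rfl, h⟩

theorem rk6 (a : Rl) (z : Od) : RK a 6 [z] ↔ ∃ n, NumG (Kd a) n z ∧ a n = true := by
  show (∃ z' n, [z] = [z'] ∧ NumG (Kd a) n z' ∧ a n = true) ↔ _
  constructor
  · rintro ⟨z', n, he, h⟩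
    simp only [List.cons.injEq, and_true] at he
    subst he
    exact ⟨n, h⟩
  · rintro ⟨n, h⟩
    exact ⟨z, n, rfl, h⟩

theorem rk7 (a : Rl) (x y z : Od) : RK a 7 [x, y, z] ↔
    ∃ n m, NumG (Kd a) n x ∧ NumG (Kd a) m y ∧ NumG (Kd a) (Nat.pair n m) z := by
  show (∃ x' y' z' n m, [x, y, z] = [x', y', z'] ∧ NumG (Kd a) n x' ∧ NumG (Kd a) m y' ∧
    NumG (Kd a) (Nat.pair n m) z') ↔ _
  constructor
  · rintro ⟨x', y', z', n, m, he, h⟩
    simp only [List.cons.injEq, and_true] at he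
    obtain ⟨rfl, rfl, rfl⟩ := he
    exact ⟨n, m, h⟩
  · rintro ⟨n, m, h⟩
    exact ⟨x, y, z, n, m, rfl, h⟩

theorem rk_ar (a : Rl) (r : ℕ) (l : List Od) (h : RK a r l) : r < 8 ∧ l.length = arr r := by
  match r, h with
  | 0, h =>
    obtain ⟨x, y, rfl, -⟩ := h
    exact ⟨by norm_num, rfl⟩
  | 1, h =>
    obtain ⟨x, rfl⟩ := h
    exact ⟨by norm_num, rfl⟩
  | 2, h =>
    obtain ⟨x, y, rfl, -⟩ := h
    exact ⟨by norm_num, rfl⟩
  | 3, h =>
    obtain ⟨b, c, z, x, rfl, -⟩ := h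
    exact ⟨by norm_num, rfl⟩
  | 4, h =>
    obtain ⟨k, x, y, rfl, -⟩ := h
    exact ⟨by norm_num, rfl⟩
  | 5, h =>
    obtain ⟨k, x, b, rfl, -⟩ := h
    exact ⟨by norm_num, rfl⟩
  | 6, h =>
    obtain ⟨z, n, rfl, -⟩ := h
    exact ⟨by norm_num, rfl⟩
  | 7, h =>
    obtain ⟨x, y, z, n, m, rfl, -⟩ := h
    exact ⟨by norm_num, rfl⟩
  | (n + 8), h => exact absurd h (fun h' => h')

end Pool.Agent.LZF
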