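import Pool.Agent.LZF.SatI
import Pool.Agent.LZF.KLt

set_option autoImplicit false

/-!
# LsI: the axioms are invariant under isomorphisms (difficulty 2)

Every clause of `LStr` and `IsKey` is translated with `IsoS.rel` (for lists in `D`), `IsoS.sur`, `IsoS.inj`,
`IsoS.num`, `IsoS.val` and `IsoS.sat` for `IsoS.low` (the isomorphism of `Low R D b` and `Low R' D' (i b)`),
`keyLt_map`. A list in `D'` is the image of a list in `D` (`list_pre`). `DfS R D k q ↔ DfS R' D' (i k) (i q.1, q.2.1, q.2.2.map i)`.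
In `pin5`: `(p.map i)[j]? = some (i b) ↔ p[j]? = some b` for `b` and the elements of `p` in `D`.
-/

namespace Pool.Agent.LZF

open Pool.Agent.NI

universe u v

variable {K : Type u} {K' : Type v} {a : Rl} {R : ℕ → List K → Prop} {D : K → Prop}
  {R' : ℕ → List K' → Prop} {D' : K' → Prop} {i : K → K'}

theorem list_pre (h : IsoS R D R' D' i) (l' : List K') (hl : ∀ y ∈ l', D' y) :
    ∃ l : List K, (∀ x ∈ l, D x) ∧ l.map i = l' := by
  induction l' with
  | nil => exact ⟨[], by simp, rfl⟩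
  | cons y l' ih =>
    obtain ⟨l, h1, h2⟩ := ih fun z hz => hl z (List.mem_cons_of_mem _ hz)
    obtain ⟨x, hx, rfl⟩ := h.sur y (hl y List.mem_cons_self)
    refine ⟨x :: l, ?_, by simp [h2]⟩
    intro z hz
    rcases List.mem_cons.mp hz with rfl | hz
    · exact hx
    · exact h1 z hz

private theorem LsI_r2 (h : IsoS R D R' D' i) (r : ℕ) {x y : K} (hx : D x) (hy : D y) :
    R r [x, y] ↔ R' r [i x, i y] := by
  have := h.rel r [x, y] (by
    intro z hz
    rcases List.mem_cons.mp hz with rfl | hz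
    · exact hx
    · rcases List.mem_cons.mp hz with rfl | hz
      · exact hy
      · simp at hz)
  simpa using this

private theorem LsI_r3 (h : IsoS R D R' D' i) (r : ℕ) {x y z : K} (hx : D x) (hy : D y) (hz : D z) :
    R r [x, y, z] ↔ R' r [i x, i y, i z] := by
  have := h.rel r [x, y, z] (by
    intro w hw
    simp only [List.mem_cons, List.not_mem_nil, or_false] at hw
    rcases hw with rfl | rfl | rfl <;> assumption)
  simpa using this

private theorem LsI_r4 (h : IsoS R D R' D' i) (r : ℕ) {x y z w : K} (hx : D x) (hy : D y) (hz : D z) (hw : D w) :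
    R r [x, y, z, w] ↔ R' r [i x, i y, i z, i w] := by
  have := h.rel r [x, y, z, w] (by
    intro v hv
    simp only [List.mem_cons, List.not_mem_nil, or_false] at hv
    rcases hv with rfl | rfl | rfl | rfl <;> assumption)
  simpa using this

private theorem LsI_r1 (h : IsoS R D R' D' i) (r : ℕ) {x : K} (hx : D x) :
    R r [x] ↔ R' r [i x] := by
  have := h.rel r [x] (by
    intro v hv
    simp only [List.mem_cons, List.not_mem_nil, or_false] at hv
    rw [hv]; exact hx)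
  simpa using this

private theorem LsI_dfs (h : IsoS R D R' D' i) (k : K) (hk : D k) (q : Ky K) (h1 : D q.1)
    (h2 : ∀ x ∈ q.2.2, D x ∧ R 2 [x, q.1]) :
    DfS R D k q ↔ DfS R' D' (i k) (i q.1, q.2.1, q.2.2.map i) := by
  have key : ∀ z, D z → ((R 2 [z, q.1] ∧ Sat R (Low R D q.1) (fm q.2.1) (q.2.2 ++ [z])) ↔
      (R' 2 [i z, i q.1] ∧ Sat R' (Low R' D' (i q.1)) (fm q.2.1) (q.2.2.map i ++ [i z]))) := by
    intro z hz
    rw [← LsI_r2 h 2 hz h1]
    refine and_congr_right fun hzq => ?_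
    rw [(h.low q.1 h1).sat (fm q.2.1) (q.2.2 ++ [z]) ?_]
    · rw [List.map_append]
      exact Iff.rfl
    · intro x hx
      rcases List.mem_append.mp hx with hx | hx
      · exact h2 x hx
      · rw [List.mem_singleton.mp hx]
        exact ⟨hz, hzq⟩
  constructor
  · intro H z' hz'
    obtain ⟨z, hz, rfl⟩ := h.sur z' hz'
    rw [← LsI_r2 h 0 hz hk, H z hz]
    exact key z hz
  · intro H z hz
    rw [LsI_r2 h 0 hz hk, H (i z) (h.mem z hz)]
    exact (key z hz).symm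

private theorem LsI_lin (h : IsoS R D R' D' i) (hs : Lin R D) : Lin R' D' := by
  refine ⟨?_, ?_, ?_⟩
  · intro x' hx'
    obtain ⟨x, hx, rfl⟩ := h.sur x' hx'
    rw [← LsI_r2 h 2 hx hx]
    exact hs.irr x hx
  · intro x' y' z' hx' hy' hz'
    obtain ⟨x, hx, rfl⟩ := h.sur x' hx'
    obtain ⟨y, hy, rfl⟩ := h.sur y' hy'
    obtain ⟨z, hz, rfl⟩ := h.sur z' hz'
    rw [← LsI_r2 h 2 hx hy, ← LsI_r2 h 2 hy hz, ← LsI_r2 h 2 hx hz]
    exact hs.tra x y z hx hy hz
  · intro x' y' hx' hy'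
    obtain ⟨x, hx, rfl⟩ := h.sur x' hx'
    obtain ⟨y, hy, rfl⟩ := h.sur y' hy'
    rw [← LsI_r2 h 2 hx hy, ← LsI_r2 h 2 hy hx]
    rcases hs.tri x y hx hy with h1 | h1 | h1
    · exact Or.inl h1
    · exact Or.inr (Or.inl (by rw [h1]))
    · exact Or.inr (Or.inr h1)

private theorem LsI_key (h : IsoS R D R' D' i) (k : K) (hk : D k) (q : Ky K) (hq : IsKey R D k q) :
    IsKey R' D' (i k) (i q.1, q.2.1, q.2.2.map i) := by
  have hpD : ∀ x ∈ q.2.2, D x := fun x hx => (hq.par x hx).1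
  refine ⟨h.mem _ hq.mem, ?_, ?_, ?_, ?_, ?_, ?_⟩
  · show ¬ R' 2 [i k, i q.1]
    rw [← LsI_r2 h 2 hk hq.mem]
    exact hq.le
  · intro x' hx'
    obtain ⟨x, hx, rfl⟩ := List.mem_map.mp hx'
    refine ⟨h.mem x (hpD x hx), ?_⟩
    show R' 2 [i x, i q.1]
    rw [← LsI_r2 h 2 (hpD x hx) hq.mem]
    exact (hq.par x hx).2
  · exact (LsI_dfs h k hk q hq.mem hq.par).mp hq.dfs
  · rintro ⟨g', n, p'⟩ hg' hp' hlt
    obtain ⟨g, hg, rfl⟩ := h.sur g' hg'
    obtain ⟨p, hp, rfl⟩ := list_pre h p' fun x hx => (hp' x hx).1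
    have hp2 : ∀ x ∈ p, D x ∧ R 2 [x, g] := by
      intro x hx
      refine ⟨hp x hx, ?_⟩
      rw [LsI_r2 h 2 (hp x hx) hg]
      exact (hp' (i x) (List.mem_map.mpr ⟨x, hx, rfl⟩)).2
    have hlt' : KeyLt (fun x y => R 2 [x, y]) (g, n, p) q :=
      (keyLt_map (fun x y => R 2 [x, y]) (fun x y => R' 2 [x, y]) i D (fun x y hx hy => LsI_r2 h 2 hx hy)
        h.inj (g, n, p) q hg hp hq.mem hpD).mpr hlt
    obtain ⟨z, hz, hzk, hdf⟩ := hq.least (g, n, p) hg hp2 hlt'
    refine ⟨i z, h.mem z hz, ?_, ?_⟩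
    · rw [← LsI_r2 h 2 hz hk]
      exact hzk
    · exact (LsI_dfs h z hz (g, n, p) hg hp2).mp hdf
  · intro x' y' b' hx' hy' hb'
    obtain ⟨x, hx, rfl⟩ := h.sur x' hx'
    obtain ⟨y, hy, rfl⟩ := h.sur y' hy'
    obtain ⟨b, hb, rfl⟩ := h.sur b' hb'
    rw [← LsI_r4 h 4 hk hx hy hb, hq.pin4 x y b hx hy hb, h.num _ x hx, h.num _ y hy]
    show _ ↔ i b = i q.1 ∧ IsNum R' D' q.2.1 (i x) ∧ IsNum R' D' (q.2.2.map i).length (i y)
    rw [List.length_map]
    refine and_congr_left fun _ => ?_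
    exact ⟨fun e => by rw [e], fun e => h.inj b q.1 hb hq.mem e⟩
  · intro x' b' hx' hb'
    obtain ⟨x, hx, rfl⟩ := h.sur x' hx'
    obtain ⟨b, hb, rfl⟩ := h.sur b' hb'
    rw [← LsI_r3 h 5 hk hx hb, hq.pin5 x b hx hb]
    refine exists_congr fun j => ?_
    rw [h.num j x hx]
    refine and_congr_right fun _ => ?_
    show _ ↔ (q.2.2.map i)[j]? = some (i b)
    rw [List.getElem?_map]
    constructor
    · intro e
      rw [e]
      rfl
    · intro e
      cases hj : q.2.2[j]? with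
      | none => rw [hj] at e; simp at e
      | some c =>
        rw [hj] at e
        have e' : i c = i b := by simpa using e
        rw [h.inj c b (hpD c (List.mem_of_getElem? hj)) hb e']

theorem lstr_iso (h : IsoS R D R' D' i) (hs : LStr a R D) : LStr a R' D' := by
  refine ⟨LsI_lin h hs.lin, ?_, ?_, ?_, ?_, ?_, ?_, ?_, ?_⟩
  · intro r l' hl' hr
    obtain ⟨l, hl, rfl⟩ := list_pre h l' hl'
    rw [List.length_map]
    exact hs.ar r l hl ((h.rel r l hl).mpr hr)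
  · intro x' y' hx' hy'
    obtain ⟨x, hx, rfl⟩ := h.sur x' hx'
    obtain ⟨y, hy, rfl⟩ := h.sur y' hy'
    rw [← LsI_r2 h 1 hx hy, hs.eq x y hx hy]
    exact ⟨fun e => by rw [e], fun e => h.inj x y hx hy e⟩
  · intro x' y' hx' hy'
    obtain ⟨x, hx, rfl⟩ := h.sur x' hx'
    obtain ⟨y, hy, rfl⟩ := h.sur y' hy'
    rw [← LsI_r2 h 0 hx hy, ← LsI_r2 h 2 hx hy]
    exact hs.el x y hx hy
  · intro x' y' hx' hy' H
    obtain ⟨x, hx, rfl⟩ := h.sur x' hx'
    obtain ⟨y, hy, rfl⟩ := h.sur y' hy'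
    rw [hs.ext x y hx hy ?_]
    intro z hz
    rw [LsI_r2 h 0 hz hx, LsI_r2 h 0 hz hy]
    exact H (i z) (h.mem z hz)
  · intro b' c' z' x' hb' hc' hz' hx'
    obtain ⟨b, hb, rfl⟩ := h.sur b' hb'
    obtain ⟨c, hc, rfl⟩ := h.sur c' hc'
    obtain ⟨z, hz, rfl⟩ := h.sur z' hz'
    obtain ⟨x, hx, rfl⟩ := h.sur x' hx'
    rw [← LsI_r4 h 3 hb hc hz hx, hs.val b c z x hb hc hz hx, ← LsI_r2 h 2 hc hb]
    refine and_congr_right fun hcb => exists_congr fun n => ?_
    rw [h.num n z hz]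
    refine and_congr_right fun _ => ?_
    have hl := h.low b hb
    constructor
    · intro hv
      exact (hl.val c ⟨hc, hcb⟩ n x (Val.mem (D := Low R D b) ⟨hc, hcb⟩ hv)).mp hv
    · intro hv
      have h1 : Low R' D' (i b) (i c) := hl.mem c ⟨hc, hcb⟩
      have h2 : Low R' D' (i b) (i x) := Val.mem (D := Low R' D' (i b)) h1 hv
      exact (hl.val c ⟨hc, hcb⟩ n x ⟨hx, (LsI_r2 h 2 hx hb).mpr h2.2⟩).mpr hv
  · intro k' hk'
    obtain ⟨k, hk, rfl⟩ := h.sur k' hk'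
    obtain ⟨q, hq⟩ := hs.key k hk
    exact ⟨_, LsI_key h k hk q hq⟩
  · intro z' hz'
    obtain ⟨z, hz, rfl⟩ := h.sur z' hz'
    rw [← LsI_r1 h 6 hz, hs.ta z hz]
    exact exists_congr fun n => by rw [h.num n z hz]
  · intro x' y' z' hx' hy' hz'
    obtain ⟨x, hx, rfl⟩ := h.sur x' hx'
    obtain ⟨y, hy, rfl⟩ := h.sur y' hy'
    obtain ⟨z, hz, rfl⟩ := h.sur z' hz'
    rw [← LsI_r3 h 7 hx hy hz, hs.tp x y z hx hy hz]
    exact exists_congr fun n => exists_congr fun m => by rw [h.num n x hx, h.num m y hy, h.num _ z hz]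

theorem wfOn_iso (h : IsoS R D R' D' i) (hw : WfOn R D) : WfOn R' D' := by
  have key : ∀ x : K, D x → Acc (fun x y => D' x ∧ D' y ∧ R' 2 [x, y]) (i x) := by
    intro x
    induction x using hw.induction with
    | _ x ih =>
      intro hx
      refine Acc.intro _ ?_
      rintro y' ⟨hy', -, hr⟩
      obtain ⟨y, hy, rfl⟩ := h.sur y' hy'
      exact ih y ⟨hy, hx, (LsI_r2 h 2 hy hx).mpr hr⟩ hy
  refine ⟨fun y' => Acc.intro _ ?_⟩
  rintro z' ⟨hz', -, -⟩
  obtain ⟨z, hz, rfl⟩ := h.sur z' hz'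
  exact key z hz

end Pool.Agent.LZF
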