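import Pool.Agent.LZF.MsB

set_option autoImplicit false

/-!
# MsC: the set of all codes is coanalytic (difficulty 1)

`PPᶜ = {y | ¬ PLa y} ∪ {y | ∃ f : ℕ → ℕ, ∀ n, pU y (f (n+1)) ∧ pU y (f n) ∧ pR y 2 [f (n+1), f n]}`. The first set is
Borel (`ms_PLa`), the second is the projection of a closed subset of `Rl × (ℕ → ℕ)`. Copy `NIL/QMsB.lean`
(`Qs_coanalytic`). `WfOn` fails iff there is an infinite descending sequence
(`wellFounded_iff_isEmpty_descending_chain`).
-/

namespace Pool.Agent.LZF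

open Pool.Agent.NI

lemma MsC_polish : PolishSpace (ℕ → Bool) := by
  have h2 : TopologicalSpace.IsCompletelyMetrizableSpace (ℕ → Bool) :=
    TopologicalSpace.IsCompletelyMetrizableSpace.pi_countable
  exact @PolishSpace.mk (ℕ → Bool) _ inferInstance h2

lemma MsC_polish2 : PolishSpace ((ℕ → Bool) × (ℕ → ℕ)) := by
  have h0 : TopologicalSpace.IsCompletelyMetrizableSpace (ℕ → Bool) :=
    TopologicalSpace.IsCompletelyMetrizableSpace.pi_countable
  have h1 : TopologicalSpace.IsCompletelyMetrizableSpace (ℕ → ℕ) :=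
    TopologicalSpace.IsCompletelyMetrizableSpace.pi_countable
  have h2 : TopologicalSpace.IsCompletelyMetrizableSpace ((ℕ → Bool) × (ℕ → ℕ)) :=
    TopologicalSpace.IsCompletelyMetrizableSpace.prod
  exact @PolishSpace.mk ((ℕ → Bool) × (ℕ → ℕ)) _ inferInstance h2

theorem MsC_bit (g : ℕ → ℕ → ℕ) (n : ℕ) :
    MeasurableSet {q : Rl × (ℕ → ℕ) | q.1 (g (q.2 (n + 1)) (q.2 n)) = true} := by
  have h : {q : Rl × (ℕ → ℕ) | q.1 (g (q.2 (n + 1)) (q.2 n)) = true} =
      ⋃ (i : ℕ), ⋃ (j : ℕ), ({q : Rl × (ℕ → ℕ) | q.2 (n + 1) = i} ∩ {q : Rl × (ℕ → ℕ) | q.2 n = j} ∩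
        {q : Rl × (ℕ → ℕ) | q.1 (g i j) = true}) := by
    ext q
    simp only [Set.mem_ofPred_eq, Set.mem_iUnion, Set.mem_inter_iff]
    constructor
    · intro h
      exact ⟨_, _, ⟨rfl, rfl⟩, h⟩
    · rintro ⟨i, j, ⟨hi, hj⟩, h⟩
      rw [hi, hj]; exact h
  rw [h]
  refine MeasurableSet.iUnion fun i => MeasurableSet.iUnion fun j => ?_
  refine MeasurableSet.inter (MeasurableSet.inter ?_ ?_) ?_
  · have hm : Measurable fun q : Rl × (ℕ → ℕ) => q.2 (n + 1) :=
      (measurable_pi_apply (n + 1)).comp measurable_snd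
    exact hm (measurableSet_singleton i)
  · have hm : Measurable fun q : Rl × (ℕ → ℕ) => q.2 n :=
      (measurable_pi_apply n).comp measurable_snd
    exact hm (measurableSet_singleton j)
  · have hm : Measurable fun q : Rl × (ℕ → ℕ) => q.1 (g i j) :=
      (measurable_pi_apply (g i j)).comp measurable_fst
    exact hm (measurableSet_singleton true)

theorem coana_PP : MeasureTheory.AnalyticSet PPᶜ := by
  have hP1 : PolishSpace Rl := MsC_polish
  have hP2 : PolishSpace (Rl × (ℕ → ℕ)) := MsC_polish2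
  have h : PPᶜ = {y : Rl | PLa y}ᶜ ∪ Prod.fst '' {q : Rl × (ℕ → ℕ) | ∀ n,
      q.1 (Nat.pair 2 (q.2 (n + 1))) = true ∧ q.1 (Nat.pair 2 (q.2 n)) = true ∧
      q.1 (Nat.pair (2 + 3) (Encodable.encode [q.2 (n + 1), q.2 n])) = true} := by
    ext y
    simp only [Set.mem_compl_iff, Set.mem_union, Set.mem_image, Set.mem_ofPred_eq, Prod.exists,
      exists_and_right, exists_eq_right]
    constructor
    · intro hy
      by_cases hp : PLa y
      · right
        have hw : ¬ WfOn (pR y) (pU y) := fun h => hy ⟨hp, h⟩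
        unfold WfOn at hw
        rw [wellFounded_iff_isEmpty_descending_chain, not_isEmpty_iff] at hw
        obtain ⟨f, hf⟩ := hw
        exact ⟨f, hf⟩
      · left; exact hp
    · rintro (hy | ⟨f, hf⟩) hP
      · exact hy hP.1
      · have hw := hP.2
        unfold WfOn at hw
        rw [wellFounded_iff_isEmpty_descending_chain] at hw
        exact hw.false ⟨f, hf⟩
  rw [h, Set.union_eq_iUnion]
  refine MeasureTheory.AnalyticSet.iUnion ?_
  intro b
  cases b with
  | true => exact ms_PLa.compl.analyticSet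
  | false =>
    refine MeasureTheory.AnalyticSet.image_of_continuous ?_ continuous_fst
    refine MeasurableSet.analyticSet ?_
    rw [Set.ofPred_forall]
    refine MeasurableSet.iInter fun n => ?_
    have e : {q : Rl × (ℕ → ℕ) | q.1 (Nat.pair 2 (q.2 (n + 1))) = true ∧
        q.1 (Nat.pair 2 (q.2 n)) = true ∧
        q.1 (Nat.pair (2 + 3) (Encodable.encode [q.2 (n + 1), q.2 n])) = true} =
        {q : Rl × (ℕ → ℕ) | q.1 (Nat.pair 2 (q.2 (n + 1))) = true} ∩
        ({q : Rl × (ℕ → ℕ) | q.1 (Nat.pair 2 (q.2 n)) = true} ∩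
        {q : Rl × (ℕ → ℕ) | q.1 (Nat.pair (2 + 3) (Encodable.encode [q.2 (n + 1), q.2 n])) = true}) := rfl
    rw [e]
    exact (MsC_bit (fun i _ => Nat.pair 2 i) n).inter ((MsC_bit (fun _ j => Nat.pair 2 j) n).inter
      (MsC_bit (fun i j => Nat.pair (2 + 3) (Encodable.encode [i, j])) n))

end Pool.Agent.LZF
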