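import Pool.Agent.LZF.Bdd
import Pool.Agent.LZF.Cdy

set_option autoImplicit false

/-!
# Thn: the coanalytic set of a parameter has no perfect subset (difficulty 2)

Let `f` be continuous and injective with values in `PA a`. By `bounded` there is `δ < ω₁` such that no element has
rank `≥ δ` in `Wr (f z)`. By `code_iso` let `τ z`, `i z` be the data of `f z`; `n` in `pU (f z)` has
`Rk (Wr (f z)) (i z n) n` (`IsRank`, induction on the ordinal), so `i z n < δ` (`Rk_mono` of NI), so `τ z ≤ δ`. The map
`z ↦ (τ z, i z 0)` into the pairs of ordinals `≤ δ` is injective by `code_unique` (`col 0 (f z) = a`), so `Rl` would be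
countable (`δ < ω₁`: `Set.Iic δ` is countable). Contradiction (`Cardinal.mk_...`, `Set.not_countable...`, or
Cantor: `Function.cantor_injective`).
-/

namespace Pool.Agent.LZF

open Pool.Agent.NI

theorem Thn_rk_mono {α : Type} (R : α → α → Prop) (b b' : Ordinal.{0}) (p : α) (h : Rk R b p)
    (hb : b' ≤ b) : Rk R b' p := by
  rw [Rk] at h ⊢
  exact fun c hc => h c (lt_of_lt_of_le hc hb)

theorem Thn_count (δ : Ordinal.{0}) (h : δ < Ordinal.omega 1) : Countable (Set.Iio δ) := by
  rw [← Cardinal.ord_aleph, Cardinal.lt_ord] at h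
  rw [Cardinal.lt_aleph_one_iff] at h
  have h1 : Cardinal.mk (Set.Iio δ) ≤ Cardinal.aleph0 := by
    rw [Cardinal.mk_Iio_ordinal, Cardinal.lift_le_aleph0]
    exact h
  exact Cardinal.mk_le_aleph0_iff.1 h1

theorem thin_PA (a : Rl) :
    ¬ ∃ f : Rl → Rl, Continuous f ∧ Function.Injective f ∧ ∀ z, f z ∈ PP ∧ col 0 (f z) = a := by
  rintro ⟨f, hf, hi, h⟩
  have hw : ∀ z, WellFounded (Wr (f z)) := fun z => (h z).1.2
  obtain ⟨δ, hδ, hb⟩ := bounded f hf hw
  choose τ i h1 h2 h3 using fun z => code_iso (f z) (h z).1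
  have hrk : ∀ z (β : Ordinal.{0}) (n : ℕ), pU (f z) n → i z n = β → Rk (Wr (f z)) β n := by
    intro z β
    induction β using WellFoundedLT.induction with
    | ind β ih =>
      intro n hn hβ
      rw [Rk]
      intro c hc
      rw [← hβ] at hc
      obtain ⟨m, hm, hmn, hmc⟩ := (h1 z n hn c).1 hc
      exact ⟨m, ⟨hm, hn, hmn⟩, ih c (by rw [← hβ]; exact hc) m hm hmc⟩
  have hlt : ∀ z n, pU (f z) n → i z n < δ := by
    intro z n hn
    by_contra hc
    exact hb z n (Thn_rk_mono _ _ _ _ (hrk z _ n hn rfl) (not_lt.1 hc))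
  have hτ : ∀ z, τ z ≤ δ := by
    intro z
    refine le_of_forall_lt fun ξ hξ => ?_
    obtain ⟨n, hn, rfl⟩ := (h2 z ξ).1 hξ
    exact hlt z n hn
  have hinj : ∀ z z', τ z = τ z' → i z 0 = i z' 0 → z = z' := by
    intro z z' e1 e2
    apply hi
    have hz := h3 z
    have hz' := h3 z'
    rw [(h z).2] at hz
    rw [(h z').2, ← e1] at hz'
    exact code_unique a (f z) (f z') ⟨(h z).1, (h z).2⟩ ⟨(h z').1, (h z').2⟩ (τ z) (i z) (i z') hz hz' e2
  have hc1 : Countable (Set.Iio (δ + 1)) := Thn_count (δ + 1) (by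
    have := Cardinal.isSuccLimit_omega 1
    exact this.add_one_lt hδ)
  have hc2 : Countable Rl := by
    let g : Rl → Set.Iio (δ + 1) × Set.Iio (δ + 1) := fun z =>
      (⟨τ z, lt_of_le_of_lt (hτ z) (by simp)⟩,
        ⟨i z 0, lt_of_lt_of_le (hlt z 0 (h z).1.1.zero) (by simp)⟩)
    have hg : Function.Injective g := by
      intro z z' e
      have e1 := congrArg (fun p => (p.1.1 : Ordinal.{0})) e
      have e2 := congrArg (fun p => (p.2.1 : Ordinal.{0})) e
      exact hinj z z' e1 e2
    exact hg.countable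
  have hc3 : Countable (Set ℕ) := by
    let k : Set ℕ → Rl := fun s => chr fun n => n ∈ s
    have hk : Function.Injective k := by
      intro s t e
      ext n
      have e1 := congrFun e n
      have e2 : (chr (fun n => n ∈ s) n = true) ↔ (chr (fun n => n ∈ t) n = true) := by
        rw [show chr (fun n => n ∈ s) n = chr (fun n => n ∈ t) n from e1]
      simpa [chr] using e2
    exact hk.countable
  obtain ⟨e, he⟩ := exists_injective_nat (Set ℕ)
  exact Function.cantor_injective e he

end Pool.Agent.LZF
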