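import Pool.Agent.LZF.Mdl

set_option autoImplicit false

/-!
# Zfc: the model satisfies ZFC (difficulty 2)

`CS.ZFC (EM a)`: extensionality, foundation, pairing, union, power, infinity from `Zfb`, `Mdl`. Separation and
replacement of `SC.ZF` are for sets which are definable in the language `SC.Lang` with the relation `E` only; they
are definable in the language `LK` of the model: `Set.Definable.map_expansion` for the homomorphism of languages
`SC.Lang → LK` which maps `mem` to the symbol `0`, or a direct induction on formulas. Choice: for `b` a set of nonempty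
pairwise disjoint sets take (`bdd_set`/`small_set`, bounded by `b`) the set of all `x` such that for some `y` with
`EM a y b`: `EM a x y` and `¬ wlt z x` for all `z` with `EM a z y`.
-/

namespace Pool.Agent.LZF

open Pool.Agent.NI Pool.Agent.H55 Pool.Agent.H55.ZFU FirstOrder

/-- the homomorphism of languages -/
def Zfc_hom : SC.Lang →ᴸ LK where
  onFunction := fun _ f => Empty.elim f
  onRelation := fun _ _ => (0 : ℕ)

theorem Zfc_exp (a : Rl) : @FirstOrder.Language.LHom.IsExpansionOn _ _ Zfc_hom (Mo a) (SC.str (EM a)) (strK a) := by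
  let i1 := SC.str (EM a)
  let i2 := strK a
  refine ⟨fun {n} f => Empty.elim f, fun {n} R x => ?_⟩
  cases R
  have h : List.ofFn x = [x 0, x 1] := by
    simp [List.ofFn_succ]
  exact congrArg (fun l : List (Mo a) => RK a 0 l) h

theorem Zfc_dfn (a : Rl) {ι : Type} (S : Set (ι → Mo a))
    (h : @Set.Definable (Mo a) Set.univ SC.Lang (SC.str (EM a)) ι S) : Dfn (fun v => v ∈ S) := by
  let i1 := SC.str (EM a)
  have h1 := Zfc_exp a
  exact ⟨h.map_expansion Zfc_hom⟩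

theorem Zfc_sep (a : Rl) (S : Set (Mo a)) (h : letI := SC.str (EM a); Set.univ.Definable₁ SC.Lang S) (b : Mo a) :
    ∃ c : Mo a, ∀ x, EM a x c ↔ EM a x b ∧ x ∈ S := em_sep (fun x => x ∈ S) (Zfc_dfn a _ h) b

theorem Zfc_repl (a : Rl) (R : Set (Mo a × Mo a)) (h : letI := SC.str (EM a); Set.univ.Definable₂ SC.Lang R)
    (b : Mo a) (hR : ∀ x, EM a x b → ∃! y, (x, y) ∈ R) :
    ∃ c : Mo a, ∀ y, EM a y c ↔ ∃ x, EM a x b ∧ (x, y) ∈ R :=
  em_repl (fun x y => (x, y) ∈ R) (Zfc_dfn a _ h) b hR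

theorem Zfc_wlt_trans {a : Rl} {x y z : Mo a} (h : wlt x y) (h' : wlt y z) : wlt x z := by
  rw [wlt_iff] at *
  exact @lt_trans Ordinal.{0} _ _ _ _ h h'

theorem Zfc_wlt_tri {a : Rl} (x y : Mo a) : wlt x y ∨ x = y ∨ wlt y x := by
  rw [wlt_iff, wlt_iff]
  exact @lt_trichotomy Ordinal.{0} _ x y

theorem Zfc_wlt_min {a : Rl} (S : Set (Mo a)) (h : S.Nonempty) : ∃ x ∈ S, ∀ z ∈ S, ¬ wlt z x := by
  obtain ⟨x, hx, hm⟩ := (wellFounded_lt (α := Ordinal.{0})).has_min S h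
  refine ⟨x, hx, fun z hz hlt => ?_⟩
  rw [wlt_iff] at hlt
  exact hm z hz hlt

theorem Zfc_choice (a : Rl) (b : Mo a) (h1 : ∀ x, EM a x b → ∃ z, EM a z x)
    (h2 : ∀ x y z, EM a x b → EM a y b → EM a z x → EM a z y → x = y) :
    ∃ c : Mo a, ∀ x, EM a x b → ∃! z, EM a z x ∧ EM a z c := by
  obtain ⟨c, hc⟩ := bdd_set (fun x : Mo a => ∃ y : Mo a, EM a y b ∧ EM a x y ∧ ∀ z : Mo a, EM a z y → ¬ wlt z x)
    inferInstance b (by
      rintro x ⟨y, hy, hx, -⟩
      exact Zfc_wlt_trans (em_lt x y hx) (em_lt y b hy))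
  refine ⟨c, fun x hx => ?_⟩
  obtain ⟨z, hz, hm⟩ := Zfc_wlt_min {z : Mo a | EM a z x} (h1 x hx)
  refine ⟨z, ⟨hz, (hc z).2 ⟨x, hx, hz, hm⟩⟩, ?_⟩
  rintro z' ⟨hz', hc'⟩
  obtain ⟨y, hy, hzy, hm'⟩ := (hc z').1 hc'
  have hxy := h2 x y z' hx hy hz' hzy
  subst hxy
  rcases Zfc_wlt_tri z' z with h | h | h
  · exact absurd h (hm z' hz')
  · exact h
  · exact absurd h (hm' z hz)

theorem zfc (a : Rl) : CS.ZFC (EM a) := by
  refine ⟨⟨em_ext, em_found, em_pair, em_union, em_pow, ?_, fun S h b => Zfc_sep a S h b,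
    fun R h b hR => Zfc_repl a R h b hR⟩, Zfc_choice a⟩
  obtain ⟨w, ⟨e, he, _, he'⟩, hw⟩ := em_inf (a := a)
  exact ⟨w, ⟨e, he, he'⟩, hw⟩

end Pool.Agent.LZF
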