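import Pool.Agent.LZF.VCm
import Pool.Agent.LZF.Zfc
import Pool.Agent.LZF.Dga
import Pool.Agent.LZF.MsC
import Pool.Agent.LZF.Thn
import Pool.Agent.LZF.ColT

set_option autoImplicit false

/-!
# Main: a wellfounded model of ZFC in which Vaught's conjecture holds and Statement S fails
-/

namespace Pool.Agent.LZF

open Pool.Agent.NI Pool.Agent.H55 Pool.Agent.H55.ZFU FirstOrder

/-- A real with countably many given tables. -/
theorem exists_tab (Q : ℕ → ℕ → Prop) : ∃ a : Rl, ∀ j, HasT a (Q j) := by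
  classical
  refine ⟨fun k => decide (Q k.unpair.1 k.unpair.2), fun j => ⟨j, fun n => ?_⟩⟩
  simp

theorem cofinal_PA {a : Rl} (hb : Bas a) (x : Rl) (hx : x ∈ RM a) :
    ∃ y ∈ RM a, y ∈ PP ∧ col 0 y = a ∧ TRed x y := by
  obtain ⟨c, hc⟩ := hx
  obtain ⟨τ, hτ⟩ := exists_pin a c x hc
  refine ⟨Dg a τ c x, dg_rm hb τ c x hτ hc, (dg_mem a τ c x hτ hc).1, dg_col0 a τ c x, ?_⟩
  have h := tred_col 1 (Dg a τ c x)
  rwa [dg_col1] at h

theorem main (hN : RelNI) (hS : SatAna) (hI : IsoAna) : ∃ (M : Type 1) (E : M → M → Prop),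
    WellFounded E ∧ CS.ZFC E ∧ VCIn E ∧ ¬ SIn (Reals E) := by
  obtain ⟨c, hc⟩ := hN PP coana_PP
  obtain ⟨ts, hts⟩ := vc_model hS hI
  obtain ⟨a, ha⟩ := exists_tab (fun j => match j with
    | 0 => fun k => qB true k.unpair.1 k.unpair.2
    | 1 => fun k => qB false k.unpair.1 k.unpair.2
    | 2 => fun k => qPhi k.unpair.1 k.unpair.2.unpair.1 k.unpair.2.unpair.2
    | 3 => fun k => qC k.unpair.1 k.unpair.2.unpair.1 k.unpair.2.unpair.2
    | 4 => fun n => c n = true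
    | j + 5 => ts j)
  have hb : Bas a := ⟨ha 0, ha 1, ha 2, ha 3⟩
  refine ⟨Mo a, EM a, em_wf, zfc a, hts a hb fun j => ha (j + 5), ?_⟩
  rw [reals_eq]
  exact hc a (RM a) (rm_idl hb c (ha 4)) (rm_a a) (thin_PA a) fun x hx => cofinal_PA hb x hx

end Pool.Agent.LZF
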