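import Pool.Agent.LZF.Zfb
import Pool.Agent.H55.SCBridge

set_option autoImplicit false

/-!
# Mdl: the model as a model of the set theory library; numerals

The instance `Model (Mo a)` is built from the theorems of `Zfa` (no urelements: `Ur = fun _ => False`), and
`Pure (Mo a)`.

* `omega_iff`: `x ∈ omega ↔ ∃ n, Nu a n x`: `←`: induction on `n` (`∅`, `suc` by `em_ext`); `→`: the set of all numerals
  (`em_omega`) is inductive (`exists_num`).
* `isNat_iff`, `isRl_iff`: `IsNat (EM a) n x ↔ Nu a n x` (induction), `IsRl (EM a) c x ↔ Rep a c x`.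
-/

namespace Pool.Agent.LZF

open Pool.Agent.NI Pool.Agent.H55 Pool.Agent.H55.ZFU FirstOrder

variable {a : Rl}

theorem false_dfn : Dfn1 (fun _ : Mo a => False) := Dfn.const False

theorem em_inf : ∃ w : Mo a, (∃ e, EM a e w ∧ ¬ False ∧ ∀ x, ¬ EM a x e) ∧
    ∀ x, EM a x w → ∃ y, EM a y w ∧ ∀ z, EM a z y ↔ EM a z x ∨ z = x := by
  obtain ⟨w, hw⟩ := em_omega (a := a)
  obtain ⟨e, he⟩ := exists_num a 0
  refine ⟨w, ⟨e, (hw e).2 ⟨0, he⟩, not_false, fun x hx => he x trivial hx⟩, fun x hx => ?_⟩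
  obtain ⟨n, hn⟩ := (hw x).1 hx
  obtain ⟨y, hy⟩ := exists_num a (n + 1)
  exact ⟨y, (hw y).2 ⟨n + 1, hy⟩, (nu_succ n x y hn).1 hy⟩

theorem em_found (b : Mo a) (h : ∃ x, EM a x b) : ∃ x, EM a x b ∧ ∀ y, EM a y x → ¬ EM a y b := by
  obtain ⟨x, hx, hm⟩ := (em_wf (a := a)).has_min {x | EM a x b} h
  exact ⟨x, hx, fun y hy hyb => hm y hyb hy⟩

noncomputable instance modelK (a : Rl) : Model (Mo a) :=
  { toDSys := dsK a
    par := fun _ => trivial
    E := EM a
    Ur := fun _ => False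
    E_def := em_dfn _ _
    Ur_def := false_dfn
    ext' := fun x y _ _ h => em_ext x y h
    ur' := fun _ _ h => h.elim
    found' := em_found
    pair' := em_pair
    union' := fun b => by
      obtain ⟨d, hd⟩ := em_union b
      exact ⟨d, not_false, hd⟩
    pow' := fun b => by
      obtain ⟨d, hd⟩ := em_pow b
      exact ⟨d, fun x => (hd x).trans ⟨fun hx => ⟨not_false, hx⟩, fun hx => hx.2⟩⟩
    inf' := em_inf
    sep' := fun φ hφ b => by
      obtain ⟨d, hd⟩ := em_sep φ hφ b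
      exact ⟨d, not_false, hd⟩
    repl' := fun R hR b hb => by
      obtain ⟨d, hd⟩ := em_repl R hR b hb
      exact ⟨d, not_false, hd⟩ }

instance : Pure (Mo a) := ⟨fun _ => ⟨fun h => h⟩⟩

theorem omega_iff' (x : Mo a) : x ∈ (omega : Mo a) ↔ ∃ n, Nu a n x := by
  have h0 : ∀ y : Mo a, Nu a 0 y → y = ∅ := by
    intro y h
    exact eq_empty_iff.2 fun z hz => h z trivial hz
  have h1 : ∀ (n : ℕ) (z y : Mo a), Nu a n z → Nu a (n + 1) y → y = suc z := by
    intro n z y hz hy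
    exact ext (fun w => by rw [mem_suc]; exact (nu_succ n z y hz).1 hy w)
  constructor
  · intro hx
    obtain ⟨w, hw⟩ := em_omega (a := a)
    refine (hw x).1 (mem_omega.1 hx w ⟨?_, fun y hy => ?_⟩)
    · obtain ⟨e, he⟩ := exists_num a 0
      have h2 : (∅ : Mo a) = e := (h0 e he).symm
      rw [h2]
      exact (hw e).2 ⟨0, he⟩
    · obtain ⟨n, hn⟩ := (hw y).1 hy
      obtain ⟨z, hz⟩ := exists_num a (n + 1)
      rw [← h1 n y z hn hz]
      exact (hw z).2 ⟨n + 1, hz⟩
  · rintro ⟨n, hn⟩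
    induction n generalizing x with
    | zero =>
      rw [h0 x hn]
      exact empty_mem_omega
    | succ n ih =>
      obtain ⟨y, hy⟩ := exists_num a n
      rw [h1 n y x hy hn]
      exact suc_mem_omega (ih y hy)

theorem nu_empty (x : Mo a) : Nu a 0 x ↔ x = ∅ := by
  rw [eq_empty_iff]
  constructor
  · intro h z hz
    exact h z trivial hz
  · intro h z _ hz
    exact h z hz

theorem nu_suc (n : ℕ) (x y : Mo a) (hx : Nu a n x) : Nu a (n + 1) y ↔ y = suc x := by
  rw [nu_succ n x y hx]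
  constructor
  · intro h
    exact ext (fun z => by rw [mem_suc]; exact h z)
  · rintro rfl z
    exact mem_suc (a := x) (x := z)

theorem isNat_iff (n : ℕ) (x : Mo a) : IsNat (EM a) n x ↔ Nu a n x := by
  induction n generalizing x with
  | zero =>
    constructor
    · intro h z _
      exact h z
    · intro h z
      exact h z trivial
  | succ n ih =>
    constructor
    · rintro ⟨j, hj, h⟩
      exact ⟨j, trivial, (ih j).1 hj, fun z _ => h z⟩
    · rintro ⟨j, _, hj, h⟩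
      exact ⟨j, (ih j).2 hj, fun z => h z trivial⟩

theorem isRl_iff (c : Mo a) (x : Rl) : IsRl (EM a) c x ↔ Rep a c x := by
  constructor
  · rintro ⟨h1, h2⟩
    refine ⟨fun z hz => ?_, fun n z hz => h2 n z ((isNat_iff n z).2 hz)⟩
    obtain ⟨n, hn⟩ := h1 z hz
    exact ⟨n, (isNat_iff n z).1 hn⟩
  · rintro ⟨h1, h2⟩
    refine ⟨fun z hz => ?_, fun n z hz => h2 n z ((isNat_iff n z).1 hz)⟩
    obtain ⟨n, hn⟩ := h1 z hz
    exact ⟨n, (isNat_iff n z).2 hn⟩

theorem reals_eq (a : Rl) : Reals (EM a) = RM a := by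
  ext x
  constructor
  · rintro ⟨c, hc⟩
    exact ⟨c, (isRl_iff c x).1 hc⟩
  · rintro ⟨c, hc⟩
    exact ⟨c, (isRl_iff c x).2 hc⟩

end Pool.Agent.LZF
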