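import Pool.Agent.LZF.Core
import Pool.Agent.LZF.Defs
import Pool.Agent.H55.Ord

set_option autoImplicit false

/-!
# The model `(Mo a, EM a)` and definability with respect to all relations of the model
-/

namespace Pool.Agent.LZF

open Pool.Agent.NI Pool.Agent.H55 Pool.Agent.H55.ZFU FirstOrder

/-- The model of set theory given by the real `a`. -/
def Mo (_ : Rl) : Type 1 := Ordinal.{0}

/-- The membership relation of the model. -/
def EM (a : Rl) (x y : Mo a) : Prop := RK a 0 [x, y]

/-- The language with relation symbols of all arities numbered by `ℕ`. -/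
def LK : FirstOrder.Language.{0, 0} := ⟨fun _ => Empty, fun _ => ℕ⟩

/-- The structure of the model. -/
@[reducible] noncomputable def strK (a : Rl) : LK.Structure (Mo a) where
  funMap := fun f => f.elim
  RelMap := fun {n} (r : ℕ) (v : Fin n → Mo a) => RK a r (List.ofFn v)

/-- Definability in the model: with all relations and with parameters. -/
@[reducible] noncomputable instance dsK (a : Rl) : DSys (Mo a) :=
  { L := LK, str := strK a, A := Set.univ }

/-- The order of the model. -/
def wlt {a : Rl} (x y : Mo a) : Prop := RK a 2 [x, y]

/-- `x` is the value of the term number `n` (a numeral) at `c` in the structure of the elements below `b`. -/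
def vr {a : Rl} (b c n x : Mo a) : Prop := RK a 3 [b, c, n, x]

/-- `z` is the numeral `Nat.pair n m`, where `x`, `y` are the numerals `n`, `m`. -/
def pq {a : Rl} (x y z : Mo a) : Prop := RK a 7 [x, y, z]

/-- `x` is a numeral `n` with `a n = true`. -/
def ta {a : Rl} (x : Mo a) : Prop := RK a 6 [x]

/-- `x` is the numeral `n`. -/
def Nu (a : Rl) (n : ℕ) (x : Mo a) : Prop := IsNum (RK a) Un n x

/-- The real `a` contains a table of the set `Q`. -/
def HasT (a : Rl) (Q : ℕ → Prop) : Prop := ∃ j, ∀ n, a (Nat.pair j n) = true ↔ Q n

end Pool.Agent.LZF
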