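import Pool.Agent.LZF.SatI

set_option autoImplicit false

/-!
# MsA: measurability of satisfaction, values, numerals in the coded structure (difficulty 2)

`R y = pR y`; `D y` a universe which depends on `y` such that all `{y | D y x}` are measurable.
* `ms_rel`: `{y | pR y r l}` is given by one bit.
* `ms_sat`: induction on `φ`. `atm r v`: if there is `l` with `v.map (fun i => s[i]?) = l.map some` (it is unique and
  does not depend on `y`) the set is `{y | pR y r l}`, otherwise `∅`; or: countable union over `l`. `nand`: complement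
  of an intersection. `ex`: countable union over `a : ℕ`.
* `ms_lst`: countable intersections and unions. (`Measurable.forall`, `.imp`, `.and`, ... for `Prop`-valued functions,
  `measurableSet_setOf`, as in `NIL/QMsA.lean`.)
* `val_iff`: inversion: `Val R D c n x ↔ (n = 0 ∧ x = c) ∨ ∃ m ts s, n = Nat.pair m (encode ts) + 1 ∧
  s.length = ts.length ∧ (∀ i t z, ts[i]? = some t → s[i]? = some z → Val R D c t z) ∧ Lst R D (fm m) s x`.
* `ms_val`: strong induction on `n` with `val_iff` (`lt_term`: `t < n` for the `t` in `ts`; in the induction step for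
  `t` not `< n` nothing is to be shown: for fixed `ts` with `n = Nat.pair m (encode ts) + 1`).
* `ms_num`: induction on `n`.
-/

namespace Pool.Agent.LZF

open Pool.Agent.NI

variable {D : Rl → ℕ → Prop}

theorem msA_ex {ι : Type} [Countable ι] {p : ι → Rl → Prop} (h : ∀ i, MeasurableSet {y : Rl | p i y}) :
    MeasurableSet {y : Rl | ∃ i, p i y} := by
  rw [Set.ofPred_exists]
  exact MeasurableSet.iUnion h

theorem msA_all {ι : Type} [Countable ι] {p : ι → Rl → Prop} (h : ∀ i, MeasurableSet {y : Rl | p i y}) :
    MeasurableSet {y : Rl | ∀ i, p i y} := by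
  rw [Set.ofPred_forall]
  exact MeasurableSet.iInter h

theorem msA_and {p q : Rl → Prop} (hp : MeasurableSet {y : Rl | p y}) (hq : MeasurableSet {y : Rl | q y}) :
    MeasurableSet {y : Rl | p y ∧ q y} := hp.inter hq

theorem msA_or {p q : Rl → Prop} (hp : MeasurableSet {y : Rl | p y}) (hq : MeasurableSet {y : Rl | q y}) :
    MeasurableSet {y : Rl | p y ∨ q y} := hp.union hq

theorem msA_not {p : Rl → Prop} (hp : MeasurableSet {y : Rl | p y}) : MeasurableSet {y : Rl | ¬ p y} := hp.compl

theorem msA_imp {p q : Rl → Prop} (hp : MeasurableSet {y : Rl | p y}) (hq : MeasurableSet {y : Rl | q y}) :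
    MeasurableSet {y : Rl | p y → q y} := by
  have e : {y : Rl | p y → q y} = {y : Rl | ¬ p y ∨ q y} := by
    ext y
    exact imp_iff_not_or
  rw [e]
  exact msA_or (msA_not hp) hq

theorem msA_iff {p q : Rl → Prop} (hp : MeasurableSet {y : Rl | p y}) (hq : MeasurableSet {y : Rl | q y}) :
    MeasurableSet {y : Rl | p y ↔ q y} := by
  have e : {y : Rl | p y ↔ q y} = {y : Rl | (p y → q y) ∧ (q y → p y)} := by
    ext y
    exact iff_iff_implies_and_implies
  rw [e]
  exact msA_and (msA_imp hp hq) (msA_imp hq hp)

theorem msA_const (p : Prop) : MeasurableSet {_y : Rl | p} := MeasurableSet.const p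

theorem msA_bit (k : ℕ) : MeasurableSet {y : Rl | y k = true} := by
  have h : Measurable fun y : Rl => y k := measurable_pi_apply k
  have h2 := h (measurableSet_singleton true)
  have e : {y : Rl | y k = true} = (fun y : Rl => y k) ⁻¹' {true} := by
    ext y
    simp
  rw [e]
  exact h2

theorem ms_rel (r : ℕ) (l : List ℕ) : MeasurableSet {y : Rl | pR y r l} :=
  msA_bit _

theorem ms_sat (hD : ∀ x, MeasurableSet {y : Rl | D y x}) (φ : Fm) (s : List ℕ) :
    MeasurableSet {y : Rl | Sat (pR y) (D y) φ s} := by
  induction φ generalizing s with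
  | atm r v =>
    simp only [Sat]
    exact msA_ex fun l => msA_and (msA_const _) (ms_rel r l)
  | nand φ ψ ih1 ih2 =>
    simp only [Sat]
    exact msA_not (msA_and (ih1 s) (ih2 s))
  | ex φ ih =>
    simp only [Sat]
    exact msA_ex fun a => msA_and (hD a) (ih (s ++ [a]))

theorem ms_lst (hD : ∀ x, MeasurableSet {y : Rl | D y x}) (φ : Fm) (s : List ℕ) (x : ℕ) :
    MeasurableSet {y : Rl | Lst (pR y) (D y) φ s x} := by
  simp only [Lst]
  exact msA_and (hD x) (msA_and (ms_sat hD φ _) (msA_all fun z =>
    msA_imp (hD z) (msA_imp (ms_sat hD φ _) (msA_not (ms_rel 2 _)))))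

theorem val_iff {K : Type} (R : ℕ → List K → Prop) (D : K → Prop) (c : K) (n : ℕ) (x : K) :
    Val R D c n x ↔ (n = 0 ∧ x = c) ∨ ∃ (m : ℕ) (ts : List ℕ) (s : List K),
      n = Nat.pair m (Encodable.encode ts) + 1 ∧ s.length = ts.length ∧
      (∀ (i t : ℕ) (z : K), ts[i]? = some t → s[i]? = some z → Val R D c t z) ∧ Lst R D (fm m) s x := by
  constructor
  · intro h
    cases h with
    | base => exact Or.inl ⟨rfl, rfl⟩
    | step m ts s x hl h hx => exact Or.inr ⟨m, ts, s, rfl, hl, h, hx⟩
  · rintro (⟨rfl, rfl⟩ | ⟨m, ts, s, rfl, hl, h, hx⟩)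
    · exact Val.base
    · exact Val.step m ts s x hl h hx

theorem ms_val (hD : ∀ x, MeasurableSet {y : Rl | D y x}) (c n x : ℕ) :
    MeasurableSet {y : Rl | Val (pR y) (D y) c n x} := by
  induction n using Nat.strong_induction_on generalizing x with
  | _ n ih =>
    simp only [val_iff _ _ c n x]
    refine msA_or (msA_const _) (msA_ex fun m => msA_ex fun ts => msA_ex fun s => ?_)
    by_cases hn : n = Nat.pair m (Encodable.encode ts) + 1
    · refine msA_and (msA_const _) (msA_and (msA_const _) (msA_and
        (msA_all fun i => msA_all fun t => msA_all fun z => ?_) (ms_lst hD _ _ _)))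
      by_cases ht : ts[i]? = some t
      · have hlt : t < n := by
          rw [hn]
          exact lt_term (List.mem_of_getElem? ht)
        exact msA_imp (msA_const _) (msA_imp (msA_const _) (ih t hlt z))
      · have e : {y : Rl | ts[i]? = some t → s[i]? = some z → Val (pR y) (D y) c t z} = Set.univ := by
          ext y
          simp [ht]
        rw [e]
        exact MeasurableSet.univ
    · have e : {y : Rl | n = Nat.pair m (Encodable.encode ts) + 1 ∧ s.length = ts.length ∧
          (∀ (i t : ℕ) (z : ℕ), ts[i]? = some t → s[i]? = some z → Val (pR y) (D y) c t z) ∧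
          Lst (pR y) (D y) (fm m) s x} = ∅ := by
        ext y
        simp [hn]
      rw [e]
      exact MeasurableSet.empty

theorem ms_num (hD : ∀ x, MeasurableSet {y : Rl | D y x}) (n x : ℕ) :
    MeasurableSet {y : Rl | IsNum (pR y) (D y) n x} := by
  induction n generalizing x with
  | zero =>
    simp only [IsNum]
    exact msA_all fun z => msA_imp (hD z) (msA_not (ms_rel 0 _))
  | succ n ih =>
    simp only [IsNum]
    exact msA_ex fun j => msA_and (hD j) (msA_and (ih j) (msA_all fun z =>
      msA_imp (hD z) (msA_iff (ms_rel 0 _) (msA_or (ms_rel 0 _) (msA_const _)))))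

end Pool.Agent.LZF
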