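import Pool.Agent.LZF.MsA

set_option autoImplicit false

/-!
# MsB: the Borel part of the coanalytic set (difficulty 2)

All clauses of `PLa y` are countable Boolean combinations of measurable sets: `ms_rel`, `ms_sat` and `ms_val` (also for
the universes `pU y` and `Low (pR y) (pU y) b`: `{y | Low (pR y) (pU y) b x}` is measurable), `ms_num`, `pU y n`
(one bit), `col 0 y n = true`, `col 1 y n = true` (bits). `LexL` for fixed lists: induction on the lists; so
`{y | KeyLt (fun x z => pR y 2 [x, z]) q q'}` is measurable. Keys `Ky ℕ = ℕ × ℕ × List ℕ` are countable. It is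
convenient to write `LStr`, `IsKey`, `Lin` as conjunctions (an `iff` lemma for each structure, as `QMsA_iff` in
`NIL/QMsA.lean`) and to use `Measurable.forall`, `Measurable.exists`, `Measurable.and`, `Measurable.imp`,
`Measurable.iff`, `Measurable.not`, `measurableSet_setOf` for predicates.
-/

namespace Pool.Agent.LZF

open Pool.Agent.NI

theorem msB_lexL (s t : List ℕ) : MeasurableSet {y : Rl | LexL (fun x z => pR y 2 [x, z]) s t} := by
  induction s generalizing t with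
  | nil =>
    have e : {y : Rl | LexL (fun x z => pR y 2 [x, z]) [] t} = ∅ := by
      ext y
      simp [LexL]
    rw [e]
    exact MeasurableSet.empty
  | cons x s ih =>
    cases t with
    | nil =>
      have e : {y : Rl | LexL (fun x z => pR y 2 [x, z]) (x :: s) []} = ∅ := by
        ext y
        simp [LexL]
      rw [e]
      exact MeasurableSet.empty
    | cons w t =>
      simp only [LexL]
      exact msA_or (ms_rel 2 _) (msA_and (msA_const _) (ih t))

theorem ms_keyLt (q q' : Ky ℕ) : MeasurableSet {y : Rl | KeyLt (fun x z => pR y 2 [x, z]) q q'} := by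
  simp only [KeyLt]
  exact msA_or (ms_rel 2 _) (msA_and (msA_const _) (msA_or (msA_const _) (msA_and (msA_const _)
    (msA_or (msA_const _) (msA_and (msA_const _) (msB_lexL _ _))))))

theorem msB_U (n : ℕ) : MeasurableSet {y : Rl | pU y n} := msA_bit _

theorem msB_low (b x : ℕ) : MeasurableSet {y : Rl | Low (pR y) (pU y) b x} := by
  simp only [Low]
  exact msA_and (msB_U x) (ms_rel 2 _)

theorem msB_dfs (k : ℕ) (q : Ky ℕ) : MeasurableSet {y : Rl | DfS (pR y) (pU y) k q} := by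
  simp only [DfS]
  exact msA_all fun z => msA_imp (msB_U z) (msA_iff (ms_rel 0 _) (msA_and (ms_rel 2 _)
    (ms_sat (D := fun y => Low (pR y) (pU y) q.1) (fun x => msB_low q.1 x) _ _)))

theorem msB_par (q : Ky ℕ) (l : List ℕ) : MeasurableSet {y : Rl | ∀ x ∈ l, pU y x ∧ pR y 2 [x, q.1]} :=
  msA_all fun x => msA_imp (msA_const _) (msA_and (msB_U x) (ms_rel 2 _))

theorem msB_isKey_iff (y : Rl) (k : ℕ) (q : Ky ℕ) : IsKey (pR y) (pU y) k q ↔
    pU y q.1 ∧ ¬ pR y 2 [k, q.1] ∧ (∀ x ∈ q.2.2, pU y x ∧ pR y 2 [x, q.1]) ∧ DfS (pR y) (pU y) k q ∧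
    (∀ q' : Ky ℕ, pU y q'.1 → (∀ x ∈ q'.2.2, pU y x ∧ pR y 2 [x, q'.1]) →
      KeyLt (fun x z => pR y 2 [x, z]) q' q → ∃ z, pU y z ∧ pR y 2 [z, k] ∧ DfS (pR y) (pU y) z q') ∧
    (∀ x w b, pU y x → pU y w → pU y b → (pR y 4 [k, x, w, b] ↔
      b = q.1 ∧ IsNum (pR y) (pU y) q.2.1 x ∧ IsNum (pR y) (pU y) q.2.2.length w)) ∧
    (∀ x b, pU y x → pU y b → (pR y 5 [k, x, b] ↔ ∃ i, IsNum (pR y) (pU y) i x ∧ q.2.2[i]? = some b)) := by
  constructor
  · intro h
    exact ⟨h.mem, h.le, h.par, h.dfs, h.least, h.pin4, h.pin5⟩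
  · rintro ⟨h1, h2, h3, h4, h5, h6, h7⟩
    exact ⟨h1, h2, h3, h4, h5, h6, h7⟩

theorem ms_isKey (k : ℕ) (q : Ky ℕ) : MeasurableSet {y : Rl | IsKey (pR y) (pU y) k q} := by
  simp only [msB_isKey_iff]
  refine msA_and (msB_U _) (msA_and (msA_not (ms_rel 2 _)) (msA_and (msB_par q _) (msA_and (msB_dfs k q)
    (msA_and ?_ (msA_and ?_ ?_)))))
  · exact msA_all fun q' => msA_imp (msB_U _) (msA_imp (msB_par q' _) (msA_imp (ms_keyLt q' q)
      (msA_ex fun z => msA_and (msB_U z) (msA_and (ms_rel 2 _) (msB_dfs z q')))))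
  · exact msA_all fun x => msA_all fun w => msA_all fun b => msA_imp (msB_U x) (msA_imp (msB_U w)
      (msA_imp (msB_U b) (msA_iff (ms_rel 4 _) (msA_and (msA_const _)
        (msA_and (ms_num msB_U _ _) (ms_num msB_U _ _))))))
  · exact msA_all fun x => msA_all fun b => msA_imp (msB_U x) (msA_imp (msB_U b) (msA_iff (ms_rel 5 _)
      (msA_ex fun i => msA_and (ms_num msB_U _ _) (msA_const _))))

theorem msB_lin_iff (y : Rl) : Lin (pR y) (pU y) ↔ (∀ x, pU y x → ¬ pR y 2 [x, x]) ∧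
    (∀ x w z, pU y x → pU y w → pU y z → pR y 2 [x, w] → pR y 2 [w, z] → pR y 2 [x, z]) ∧
    ∀ x w, pU y x → pU y w → pR y 2 [x, w] ∨ x = w ∨ pR y 2 [w, x] := by
  constructor
  · intro h
    exact ⟨h.irr, h.tra, h.tri⟩
  · rintro ⟨h1, h2, h3⟩
    exact ⟨h1, h2, h3⟩

theorem msB_lin : MeasurableSet {y : Rl | Lin (pR y) (pU y)} := by
  simp only [msB_lin_iff]
  refine msA_and ?_ (msA_and ?_ ?_)
  · exact msA_all fun x => msA_imp (msB_U x) (msA_not (ms_rel 2 _))
  · exact msA_all fun x => msA_all fun w => msA_all fun z => msA_imp (msB_U x) (msA_imp (msB_U w)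
      (msA_imp (msB_U z) (msA_imp (ms_rel 2 _) (msA_imp (ms_rel 2 _) (ms_rel 2 _)))))
  · exact msA_all fun x => msA_all fun w => msA_imp (msB_U x) (msA_imp (msB_U w)
      (msA_or (ms_rel 2 _) (msA_or (msA_const _) (ms_rel 2 _))))

theorem msB_lstr_iff (y : Rl) : LStr (col 0 y) (pR y) (pU y) ↔ Lin (pR y) (pU y) ∧
    (∀ r l, (∀ x ∈ l, pU y x) → pR y r l → r < 8 ∧ l.length = arr r) ∧
    (∀ x w, pU y x → pU y w → (pR y 1 [x, w] ↔ x = w)) ∧
    (∀ x w, pU y x → pU y w → pR y 0 [x, w] → pR y 2 [x, w]) ∧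
    (∀ x w, pU y x → pU y w → (∀ z, pU y z → (pR y 0 [z, x] ↔ pR y 0 [z, w])) → x = w) ∧
    (∀ b c z x, pU y b → pU y c → pU y z → pU y x → (pR y 3 [b, c, z, x] ↔
      pR y 2 [c, b] ∧ ∃ n, IsNum (pR y) (pU y) n z ∧ Val (pR y) (Low (pR y) (pU y) b) c n x)) ∧
    (∀ k, pU y k → ∃ q, IsKey (pR y) (pU y) k q) ∧
    (∀ z, pU y z → (pR y 6 [z] ↔ ∃ n, IsNum (pR y) (pU y) n z ∧ col 0 y n = true)) ∧
    (∀ x w z, pU y x → pU y w → pU y z → (pR y 7 [x, w, z] ↔
      ∃ n m, IsNum (pR y) (pU y) n x ∧ IsNum (pR y) (pU y) m w ∧ IsNum (pR y) (pU y) (Nat.pair n m) z)) := by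
  constructor
  · intro h
    exact ⟨h.lin, h.ar, h.eq, h.el, h.ext, h.val, h.key, h.ta, h.tp⟩
  · rintro ⟨h1, h2, h3, h4, h5, h6, h7, h8, h9⟩
    exact ⟨h1, h2, h3, h4, h5, h6, h7, h8, h9⟩

theorem msB_col (i n : ℕ) : MeasurableSet {y : Rl | col i y n = true} := msA_bit _

theorem msB_lstr : MeasurableSet {y : Rl | LStr (col 0 y) (pR y) (pU y)} := by
  simp only [msB_lstr_iff]
  refine msA_and msB_lin (msA_and ?_ (msA_and ?_ (msA_and ?_ (msA_and ?_ (msA_and ?_ (msA_and ?_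
    (msA_and ?_ ?_)))))))
  · exact msA_all fun r => msA_all fun l => msA_imp (msA_all fun x => msA_imp (msA_const _) (msB_U x))
      (msA_imp (ms_rel _ _) (msA_const _))
  · exact msA_all fun x => msA_all fun w => msA_imp (msB_U x) (msA_imp (msB_U w)
      (msA_iff (ms_rel 1 _) (msA_const _)))
  · exact msA_all fun x => msA_all fun w => msA_imp (msB_U x) (msA_imp (msB_U w)
      (msA_imp (ms_rel 0 _) (ms_rel 2 _)))
  · exact msA_all fun x => msA_all fun w => msA_imp (msB_U x) (msA_imp (msB_U w)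
      (msA_imp (msA_all fun z => msA_imp (msB_U z) (msA_iff (ms_rel 0 _) (ms_rel 0 _))) (msA_const _)))
  · exact msA_all fun b => msA_all fun c => msA_all fun z => msA_all fun x => msA_imp (msB_U b)
      (msA_imp (msB_U c) (msA_imp (msB_U z) (msA_imp (msB_U x) (msA_iff (ms_rel 3 _) (msA_and (ms_rel 2 _)
        (msA_ex fun n => msA_and (ms_num msB_U _ _)
          (ms_val (D := fun y => Low (pR y) (pU y) b) (fun x => msB_low b x) _ _ _)))))))
  · exact msA_all fun k => msA_imp (msB_U k) (msA_ex fun q => ms_isKey k q)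
  · exact msA_all fun z => msA_imp (msB_U z) (msA_iff (ms_rel 6 _)
      (msA_ex fun n => msA_and (ms_num msB_U _ _) (msB_col 0 n)))
  · exact msA_all fun x => msA_all fun w => msA_all fun z => msA_imp (msB_U x) (msA_imp (msB_U w)
      (msA_imp (msB_U z) (msA_iff (ms_rel 7 _) (msA_ex fun n => msA_ex fun m => msA_and (ms_num msB_U _ _)
        (msA_and (ms_num msB_U _ _) (ms_num msB_U _ _))))))

theorem msB_PLa_iff (y : Rl) : PLa y ↔ pU y 0 ∧ (∀ r l, pR y r l → ∀ n ∈ l, pU y n) ∧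
    (∀ r l, pR y r l → r < 8 ∧ l.length = arr r) ∧ LStr (col 0 y) (pR y) (pU y) ∧
    (∀ n, pU y n → Val (pR y) (pU y) 0 n n) ∧ (∀ n m, Val (pR y) (pU y) 0 n m → m ≤ n) ∧
    (∀ n, ∃ z, pU y z ∧ IsNum (pR y) (pU y) n z ∧ (pR y 0 [z, 0] ↔ col 1 y n = true)) := by
  constructor
  · intro h
    exact ⟨h.zero, h.supp, h.ar, h.lstr, h.pin, h.least, h.real⟩
  · rintro ⟨h1, h2, h3, h4, h5, h6, h7⟩
    exact ⟨h1, h2, h3, h4, h5, h6, h7⟩

theorem ms_PLa : MeasurableSet {y : Rl | PLa y} := by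
  simp only [msB_PLa_iff]
  refine msA_and (msB_U 0) (msA_and ?_ (msA_and ?_ (msA_and msB_lstr (msA_and ?_ (msA_and ?_ ?_)))))
  · exact msA_all fun r => msA_all fun l => msA_imp (ms_rel _ _) (msA_all fun n =>
      msA_imp (msA_const _) (msB_U n))
  · exact msA_all fun r => msA_all fun l => msA_imp (ms_rel _ _) (msA_const _)
  · exact msA_all fun n => msA_imp (msB_U n) (ms_val msB_U _ _ _)
  · exact msA_all fun n => msA_all fun m => msA_imp (ms_val msB_U _ _ _) (msA_const _)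
  · exact msA_all fun n => msA_ex fun z => msA_and (msB_U z) (msA_and (ms_num msB_U _ _)
      (msA_iff (ms_rel 0 _) (msB_col 1 n)))

end Pool.Agent.LZF
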