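import Pool.Agent.LZF.Mdl

set_option autoImplicit false

/-!
# RCl: definable reals belong to the model; tables (difficulty 2)

* `nu n : Mo a`: the numeral `n` (chosen). `Nu a n x ↔ x = nu n` (`num_unique`).
* `rc`: if `φ` is definable then the real `n ↦ φ (nu n)` is in `RM a`: `em_sep` from `omega` gives `c` with
  `EM a z c ↔ z ∈ omega ∧ φ z`; `Rep a c x`.
* `tab1`: let `HasT a Q`, with the number `j`. For `x : Mo a`: `(∃ n, x = nu n ∧ Q n) ↔ ∃ v, pq (nu j) x v ∧ ta v`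
  (`rk6`, `rk7`, `num_un`, `num_inj`, `Nat.pair_eq_pair`); so it is definable (instances `pq_dfn`, `ta_dfn` of `Zfa`;
  `nu j` is a constant). `tab2`: `(∃ n m, x = nu n ∧ y = nu m ∧ Q (Nat.pair n m)) ↔
  ∃ u, pq x y u ∧ tab1 u`. `tab3`, `tab4` with `Q (Nat.pair n (Nat.pair m k))`, ...
* `rm_tab`: a real with a table is in the model; `rm_a`: `a` itself: `ta x`.
* `rep_mem`: `Rep a c x → (EM a (nu n) c ↔ x n = true)`; `rep_real`: every set of numerals of the model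
  represents a real of the model; `rep_unique`.
-/

namespace Pool.Agent.LZF

open Pool.Agent.NI Pool.Agent.H55 Pool.Agent.H55.ZFU FirstOrder

variable {a : Rl}

/-- The numeral `n`. -/
noncomputable def nu (a : Rl) (n : ℕ) : Mo a := (exists_num a n).choose

theorem nu_spec (n : ℕ) : Nu a n (nu a n) := (exists_num a n).choose_spec

theorem nu_iff (n : ℕ) (x : Mo a) : Nu a n x ↔ x = nu a n := by
  constructor
  · intro h
    exact num_unique a n _ _ h (nu_spec n)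
  · intro h
    rw [h]
    exact nu_spec n

theorem nu_inj (n m : ℕ) (h : nu a n = nu a m) : n = m := by
  refine num_inj a n m (nu a n) (nu_spec n) ?_
  rw [h]
  exact nu_spec m

theorem omega_iff (x : Mo a) : x ∈ (omega : Mo a) ↔ ∃ n, x = nu a n := by
  rw [omega_iff']
  exact exists_congr fun n => nu_iff n x

theorem nu_mem_nu (n m : ℕ) : nu a n ∈ nu a m ↔ n < m := by
  have h := num_mem a m (nu a m) (nu a n) (nu_spec m)
  constructor
  · intro h1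
    obtain ⟨k, hk, hk'⟩ := h.1 h1
    rwa [num_inj a n k (nu a n) (nu_spec n) hk']
  · intro h1
    exact h.2 ⟨n, h1, nu_spec n⟩

theorem rep_mem (c : Mo a) (x : Rl) (h : Rep a c x) (n : ℕ) : EM a (nu a n) c ↔ x n = true :=
  h.2 n (nu a n) (nu_spec n)

theorem rep_sub (c : Mo a) (x : Rl) (h : Rep a c x) (z : Mo a) (hz : EM a z c) : ∃ n, z = nu a n := by
  obtain ⟨n, hn⟩ := h.1 z hz
  exact ⟨n, (nu_iff n z).1 hn⟩

theorem rep_unique (c : Mo a) (x y : Rl) (h : Rep a c x) (h' : Rep a c y) : x = y := by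
  funext n
  rw [Bool.eq_iff_iff, ← rep_mem c x h n, ← rep_mem c y h' n]

theorem rep_inj (c d : Mo a) (x : Rl) (h : Rep a c x) (h' : Rep a d x) : c = d := by
  apply em_ext
  intro z
  constructor
  · intro hz
    obtain ⟨n, rfl⟩ := rep_sub c x h z hz
    exact (rep_mem d x h' n).2 ((rep_mem c x h n).1 hz)
  · intro hz
    obtain ⟨n, rfl⟩ := rep_sub d x h' z hz
    exact (rep_mem c x h n).2 ((rep_mem d x h' n).1 hz)

theorem rcl_chr (P : ℕ → Prop) (n : ℕ) : chr P n = true ↔ P n := by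
  simp [chr]

theorem rep_real (c : Mo a) (h : ∀ z, EM a z c → ∃ n, z = nu a n) : ∃ x, Rep a c x := by
  refine ⟨chr fun n => EM a (nu a n) c, ?_, ?_⟩
  · intro z hz
    obtain ⟨n, hn⟩ := h z hz
    exact ⟨n, (nu_iff n z).2 hn⟩
  · intro n z hz
    have e : z = nu a n := (nu_iff n z).1 hz
    rw [e, rcl_chr]
    exact Iff.rfl

theorem isreal_dfn : Dfn1 (fun c : Mo a => ∃ x, Rep a c x) := by
  refine Dfn.congr (φ := fun v : Fin 1 → Mo a => ∀ z, EM a z (v 0) → z ∈ (omega : Mo a)) ?_ ?_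
  · infer_instance
  · intro v
    constructor
    · rintro ⟨x, hx⟩ z hz
      exact (omega_iff z).2 (rep_sub _ x hx z hz)
    · intro h
      exact rep_real _ fun z hz => (omega_iff z).1 (h z hz)

theorem rc (φ : Mo a → Prop) (h : Dfn1 φ) : chr (fun n => φ (nu a n)) ∈ RM a := by
  obtain ⟨d, hd⟩ := em_sep φ h (omega : Mo a)
  refine ⟨d, ?_, ?_⟩
  · intro z hz
    exact (omega_iff' z).1 ((hd z).1 hz).1
  · intro n z hz
    have e : z = nu a n := (nu_iff n z).1 hz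
    rw [rcl_chr]
    constructor
    · intro h1
      have h2 := ((hd z).1 h1).2
      rwa [e] at h2
    · intro h1
      refine (hd z).2 ⟨(omega_iff' z).2 ⟨n, hz⟩, ?_⟩
      rwa [e]

theorem rcl_pq (x y z : Mo a) : pq x y z ↔ ∃ n m, x = nu a n ∧ y = nu a m ∧ z = nu a (Nat.pair n m) := by
  constructor
  · intro h
    obtain ⟨n, m, h1, h2, h3⟩ := (rk7 a x y z).1 h
    exact ⟨n, m, (nu_iff n x).1 ((num_un a n x).2 h1), (nu_iff m y).1 ((num_un a m y).2 h2),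
      (nu_iff _ z).1 ((num_un a _ z).2 h3)⟩
  · rintro ⟨n, m, h1, h2, h3⟩
    exact (rk7 a x y z).2 ⟨n, m, (num_un a n x).1 ((nu_iff n x).2 h1), (num_un a m y).1 ((nu_iff m y).2 h2),
      (num_un a _ z).1 ((nu_iff _ z).2 h3)⟩

theorem rcl_ta (z : Mo a) : ta z ↔ ∃ n, z = nu a n ∧ a n = true := by
  constructor
  · intro h
    obtain ⟨n, h1, h2⟩ := (rk6 a z).1 h
    exact ⟨n, (nu_iff n z).1 ((num_un a n z).2 h1), h2⟩
  · rintro ⟨n, h1, h2⟩
    exact (rk6 a z).2 ⟨n, (num_un a n z).1 ((nu_iff n z).2 h1), h2⟩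

theorem tab1 (Q : ℕ → Prop) (h : HasT a Q) : Dfn1 (fun x : Mo a => ∃ n, x = nu a n ∧ Q n) := by
  obtain ⟨j, hj⟩ := h
  refine Dfn.congr (φ := fun v : Fin 1 → Mo a => ∃ u, pq (nu a j) (v 0) u ∧ ta u) inferInstance ?_
  intro v
  constructor
  · rintro ⟨n, h1, h2⟩
    exact ⟨nu a (Nat.pair j n), (rcl_pq _ _ _).2 ⟨j, n, rfl, h1, rfl⟩, (rcl_ta _).2 ⟨_, rfl, (hj n).2 h2⟩⟩
  · rintro ⟨u, h1, h2⟩
    obtain ⟨n, m, h3, h4, h5⟩ := (rcl_pq _ _ _).1 h1
    obtain ⟨k, h6, h7⟩ := (rcl_ta _).1 h2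
    refine ⟨m, h4, ?_⟩
    have e1 : j = n := nu_inj _ _ h3
    have e2 : Nat.pair n m = k := nu_inj _ _ (h5.symm.trans h6)
    rw [← hj m, e1, e2]
    exact h7

theorem rcl_tab (Q : ℕ → Prop) (h : HasT a Q) {ι : Type} (t : (ι → Mo a) → Mo a) [DFun t] :
    Dfn (fun v => ∃ n, t v = nu a n ∧ Q n) :=
  Dfn.comp1 (P := fun x : Mo a => ∃ n, x = nu a n ∧ Q n) (tab1 Q h) t

theorem tab2 (Q : ℕ → ℕ → Prop) (h : HasT a (fun k => Q k.unpair.1 k.unpair.2)) :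
    Dfn2 (fun x y : Mo a => ∃ n m, x = nu a n ∧ y = nu a m ∧ Q n m) := by
  have i1 : ∀ {ι : Type} (t : (ι → Mo a) → Mo a) [DFun t],
      Dfn (fun v => ∃ n : ℕ, t v = nu a n ∧ Q n.unpair.1 n.unpair.2) := fun t => rcl_tab _ h t
  refine Dfn.congr (φ := fun v : Fin 2 → Mo a => ∃ u, pq (v 0) (v 1) u ∧
    ∃ n : ℕ, u = nu a n ∧ Q n.unpair.1 n.unpair.2) ?_ ?_
  · infer_instance
  · intro v
    constructor
    · rintro ⟨n, m, h1, h2, h3⟩
      refine ⟨nu a (Nat.pair n m), (rcl_pq _ _ _).2 ⟨n, m, h1, h2, rfl⟩, _, rfl, ?_⟩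
      simpa only [Nat.unpair_pair] using h3
    · rintro ⟨u, h1, k, h2, h3⟩
      obtain ⟨n, m, h4, h5, h6⟩ := (rcl_pq _ _ _).1 h1
      have e : Nat.pair n m = k := nu_inj _ _ (h6.symm.trans h2)
      rw [← e] at h3
      exact ⟨n, m, h4, h5, by simpa only [Nat.unpair_pair] using h3⟩

theorem tab3 (Q : ℕ → ℕ → ℕ → Prop)
    (h : HasT a (fun k => Q k.unpair.1 k.unpair.2.unpair.1 k.unpair.2.unpair.2)) :
    Dfn (fun v : Fin 3 → Mo a => ∃ n m k, v 0 = nu a n ∧ v 1 = nu a m ∧ v 2 = nu a k ∧ Q n m k) := by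
  have i1 : ∀ {ι : Type} (t : (ι → Mo a) → Mo a) [DFun t],
      Dfn (fun v => ∃ n : ℕ, t v = nu a n ∧ Q n.unpair.1 n.unpair.2.unpair.1 n.unpair.2.unpair.2) :=
    fun t => rcl_tab _ h t
  refine Dfn.congr (φ := fun v : Fin 3 → Mo a => ∃ u, pq (v 1) (v 2) u ∧ ∃ w, pq (v 0) u w ∧
    ∃ n : ℕ, w = nu a n ∧ Q n.unpair.1 n.unpair.2.unpair.1 n.unpair.2.unpair.2) ?_ ?_
  · infer_instance
  · intro v
    constructor
    · rintro ⟨n, m, k, h1, h2, h3, h4⟩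
      refine ⟨nu a (Nat.pair m k), (rcl_pq _ _ _).2 ⟨m, k, h2, h3, rfl⟩, nu a (Nat.pair n (Nat.pair m k)),
        (rcl_pq _ _ _).2 ⟨n, _, h1, rfl, rfl⟩, _, rfl, ?_⟩
      simpa only [Nat.unpair_pair] using h4
    · rintro ⟨u, h1, w, h2, l, h3, h4⟩
      obtain ⟨m, k, h5, h6, h7⟩ := (rcl_pq _ _ _).1 h1
      obtain ⟨n, r, h8, h9, h10⟩ := (rcl_pq _ _ _).1 h2
      have e1 : Nat.pair m k = r := nu_inj _ _ (h7.symm.trans h9)
      have e2 : Nat.pair n r = l := nu_inj _ _ (h10.symm.trans h3)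
      rw [← e2, ← e1] at h4
      exact ⟨n, m, k, h8, h5, h6, by simpa only [Nat.unpair_pair] using h4⟩

theorem tab4 (Q : ℕ → ℕ → ℕ → ℕ → Prop)
    (h : HasT a (fun k => Q k.unpair.1 k.unpair.2.unpair.1 k.unpair.2.unpair.2.unpair.1
      k.unpair.2.unpair.2.unpair.2)) :
    Dfn (fun v : Fin 4 → Mo a => ∃ n m k l, v 0 = nu a n ∧ v 1 = nu a m ∧ v 2 = nu a k ∧ v 3 = nu a l ∧
      Q n m k l) := by
  have i1 : ∀ {ι : Type} (t : (ι → Mo a) → Mo a) [DFun t],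
      Dfn (fun v => ∃ n : ℕ, t v = nu a n ∧ Q n.unpair.1 n.unpair.2.unpair.1 n.unpair.2.unpair.2.unpair.1
        n.unpair.2.unpair.2.unpair.2) :=
    fun t => rcl_tab _ h t
  refine Dfn.congr (φ := fun v : Fin 4 → Mo a => ∃ z, pq (v 2) (v 3) z ∧ ∃ u, pq (v 1) z u ∧
    ∃ w, pq (v 0) u w ∧
    ∃ n : ℕ, w = nu a n ∧ Q n.unpair.1 n.unpair.2.unpair.1 n.unpair.2.unpair.2.unpair.1
        n.unpair.2.unpair.2.unpair.2) ?_ ?_
  · infer_instance
  · intro v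
    constructor
    · rintro ⟨n, m, k, l, h1, h2, h3, h4, h5⟩
      refine ⟨nu a (Nat.pair k l), (rcl_pq _ _ _).2 ⟨k, l, h3, h4, rfl⟩, nu a (Nat.pair m (Nat.pair k l)),
        (rcl_pq _ _ _).2 ⟨m, _, h2, rfl, rfl⟩, nu a (Nat.pair n (Nat.pair m (Nat.pair k l))),
        (rcl_pq _ _ _).2 ⟨n, _, h1, rfl, rfl⟩, _, rfl, ?_⟩
      simpa only [Nat.unpair_pair] using h5
    · rintro ⟨z, h1, u, h2, w, h3, q, h4, h5⟩
      obtain ⟨k, l, h6, h7, h8⟩ := (rcl_pq _ _ _).1 h1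
      obtain ⟨m, r, h9, h10, h11⟩ := (rcl_pq _ _ _).1 h2
      obtain ⟨n, t, h12, h13, h14⟩ := (rcl_pq _ _ _).1 h3
      have e1 : Nat.pair k l = r := nu_inj _ _ (h8.symm.trans h10)
      have e2 : Nat.pair m r = t := nu_inj _ _ (h11.symm.trans h13)
      have e3 : Nat.pair n t = q := nu_inj _ _ (h14.symm.trans h4)
      rw [← e3, ← e2, ← e1] at h5
      exact ⟨n, m, k, l, h12, h9, h6, h7, by simpa only [Nat.unpair_pair] using h5⟩

theorem rm_tab (Q : ℕ → Prop) (h : HasT a Q) : chr Q ∈ RM a := by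
  have h1 := rc (a := a) (fun x : Mo a => ∃ n, x = nu a n ∧ Q n) (tab1 Q h)
  have e : (chr fun n => ∃ m, nu a n = nu a m ∧ Q m) = chr Q := by
    funext n
    rw [Bool.eq_iff_iff, rcl_chr, rcl_chr]
    constructor
    · rintro ⟨m, h2, h3⟩
      rwa [nu_inj n m h2]
    · intro h2
      exact ⟨n, rfl, h2⟩
  rwa [e] at h1

theorem rm_a (a : Rl) : a ∈ RM a := by
  have h1 := rc (a := a) (fun x : Mo a => ta x)
    (inferInstanceAs (Dfn (fun v : Fin 1 → Mo a => ta (v 0))))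
  have e : (chr fun n => ta (nu a n)) = a := by
    funext n
    rw [Bool.eq_iff_iff, rcl_chr, rcl_ta]
    constructor
    · rintro ⟨m, h2, h3⟩
      rwa [nu_inj n m h2]
    · intro h2
      exact ⟨n, rfl, h2⟩
  rwa [e] at h1

end Pool.Agent.LZF
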