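import Pool.Agent.LZF.TVa
import Pool.Agent.LZF.KCm

set_option autoImplicit false

/-!
# Rfl: reflection (difficulty 2)

For every formula `φ` and list `s` for which there is an `a` with `Sat (RK a) Un φ (s ++ [a])` let `w φ s` be the least
such ordinal (else `0`). For every ordinal `β` the set of all `w φ s + 1`, `s` a list of ordinals `< β`, is small
(`Fm` is countable, `List (Set.Iio β)` is small), so bounded by some `g β` (`Ordinal.bddAbove_of_small`, or an
`iSup` over the small type). Let `κ 0 = B + 1`, `κ (n + 1) = max (κ n) (g (κ n))`, `κ = ⨆ n, κ n + 1` (or the supremum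
of the `κ n`, which must be `> B`; a list of ordinals `< κ` is a list of ordinals `< κ n` for some `n`: use that the
sequence is monotone, and take for `κ` the supremum of a strictly increasing sequence, e.g.
`κ (n + 1) = max (κ n) (g (κ n)) + 1`; then `x < κ ↔ ∃ n, x < κ n`). By `tarski` `(· < κ)` is elementary in `Un`.
* `exists_kappa`: in addition all numerals are below `κ`: take `B` above `β` and all numerals (a countable set of
  ordinals, `exists_num`, `num_unique`).
-/

namespace Pool.Agent.LZF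

open Pool.Agent.NI

/-- A witness (if there is one). -/
private noncomputable def Rfl_W (R : ℕ → List Od → Prop) (φ : Fm) (s : List Od) : Od :=
  open Classical in if h : ∃ a, Un a ∧ Sat R Un φ (s ++ [a]) then h.choose else 0

private theorem Rfl_W_spec (R : ℕ → List Od → Prop) (φ : Fm) (s : List Od)
    (h : ∃ a, Un a ∧ Sat R Un φ (s ++ [a])) : Sat R Un φ (s ++ [Rfl_W R φ s]) := by
  unfold Rfl_W
  rw [dif_pos h]
  exact h.choose_spec.2

private theorem Rfl_bound (R : ℕ → List Od → Prop) (β : Od) :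
    ∃ γ, ∀ (φ : Fm) (s : List Od), (∀ b ∈ s, b < β) → Rfl_W R φ s < γ := by
  have hbd : BddAbove (Set.range fun q : ℕ × List (Set.Iio β) =>
      Rfl_W R (fm q.1) (q.2.map (fun x => x.1))) := Ordinal.bddAbove_of_small
  obtain ⟨γ, hγ⟩ := hbd
  refine ⟨Order.succ γ, ?_⟩
  intro φ s hs
  obtain ⟨n, hn⟩ := fm_surj φ
  have h1 : ∃ t : List (Set.Iio β), t.map (fun x => x.1) = s := by
    refine ⟨s.attach.map (fun x => ⟨x.1, hs x.1 x.2⟩), ?_⟩
    rw [List.map_map]
    exact List.attach_map_subtype_val s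
  obtain ⟨t, ht⟩ := h1
  have h2 := hγ ⟨(n, t), rfl⟩
  simp only [hn, ht] at h2
  exact Order.lt_succ_of_le h2

/-- The bound. -/
private noncomputable def Rfl_g (R : ℕ → List Od → Prop) (β : Od) : Od := (Rfl_bound R β).choose

private theorem Rfl_g_spec (R : ℕ → List Od → Prop) (β : Od) (φ : Fm) (s : List Od)
    (hs : ∀ b ∈ s, b < β) : Rfl_W R φ s < Rfl_g R β := (Rfl_bound R β).choose_spec φ s hs

/-- The sequence. -/
private noncomputable def Rfl_k (R : ℕ → List Od → Prop) (B : Od) : ℕ → Od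
  | 0 => Order.succ B
  | n + 1 => Order.succ (max (Rfl_k R B n) (Rfl_g R (Rfl_k R B n)))

private theorem Rfl_k_mono (R : ℕ → List Od → Prop) (B : Od) : StrictMono (Rfl_k R B) := by
  refine strictMono_nat_of_lt_succ ?_
  intro n
  exact Order.lt_succ_of_le (le_max_left _ _)

private theorem Rfl_k_g (R : ℕ → List Od → Prop) (B : Od) (n : ℕ) :
    Rfl_g R (Rfl_k R B n) < Rfl_k R B (n + 1) := Order.lt_succ_of_le (le_max_right _ _)

private theorem Rfl_lists (κ : ℕ → Od) (hκ : StrictMono κ) (s : List Od)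
    (hs : ∀ b ∈ s, ∃ n, b < κ n) : ∃ n, ∀ b ∈ s, b < κ n := by
  induction s with
  | nil => exact ⟨0, by simp⟩
  | cons x s ih =>
    obtain ⟨n, hn⟩ := ih (fun b hb => hs b (List.mem_cons_of_mem _ hb))
    obtain ⟨m, hm⟩ := hs x List.mem_cons_self
    refine ⟨max n m, ?_⟩
    intro b hb
    rcases List.mem_cons.1 hb with rfl | hb
    · exact hm.trans_le (hκ.monotone (le_max_right _ _))
    · exact (hn b hb).trans_le (hκ.monotone (le_max_left _ _))

theorem reflection (a : Rl) (B : Od) : ∃ κ, B < κ ∧ Elem (RK a) (fun x => x < κ) Un := by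
  have hbd : BddAbove (Set.range (Rfl_k (RK a) B)) := Ordinal.bddAbove_of_small
  have hlt : ∀ x, x < (⨆ n, Rfl_k (RK a) B n) ↔ ∃ n, x < Rfl_k (RK a) B n := fun x => lt_ciSup_iff hbd
  refine ⟨⨆ n, Rfl_k (RK a) B n, ?_, ?_⟩
  · exact (hlt B).2 ⟨0, Order.lt_succ B⟩
  · refine tarski _ (fun _ _ => trivial) ?_
    intro φ s hs h
    obtain ⟨n, hn⟩ := Rfl_lists _ (Rfl_k_mono (RK a) B) s (fun b hb => (hlt b).1 (hs b hb))
    refine ⟨Rfl_W (RK a) φ s, ?_, Rfl_W_spec (RK a) φ s h⟩
    exact (hlt _).2 ⟨n + 1, (Rfl_g_spec (RK a) _ φ s hn).trans (Rfl_k_g (RK a) B n)⟩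

theorem exists_kappa (a : Rl) (B : Od) : ∃ κ, B < κ ∧ Elem (RK a) (fun x => x < κ) Un ∧
    ∀ n z, IsNum (RK a) Un n z → z < κ := by
  have hbd : BddAbove (Set.range fun n : ℕ => (exists_num a n).choose) := Ordinal.bddAbove_of_small
  obtain ⟨γ, hγ⟩ := hbd
  obtain ⟨κ, h1, h2⟩ := reflection a (max B γ)
  refine ⟨κ, (le_max_left _ _).trans_lt h1, h2, ?_⟩
  intro n z hz
  have h3 : z = (exists_num a n).choose := num_unique a n _ _ hz (exists_num a n).choose_spec
  have h4 := hγ ⟨n, rfl⟩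
  rw [h3]
  exact lt_of_le_of_lt (h4.trans (le_max_right B γ)) h1

end Pool.Agent.LZF
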