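import Pool.Agent.LZF.SatI

set_option autoImplicit false

/-!
# Rnk: ranks (difficulty 2)

* `exists_rank`: define `i` by wellfounded recursion (`WellFounded.fix` for the relation
  `fun x y => D x ∧ D y ∧ R 2 [x, y]`): `i x = sSup of the i y + 1` over `{y | D y ∧ R 2 [y, x]}` for `x ∈ D`. This
  set is small, so the supremum is one of a bounded set (`Ordinal.bddAbove_range`/`bddAbove_of_small`; e.g. `⨆` over
  the small type, or `sInf {α | ∀ y, D y → R 2 [y, x] → i y < α}`, where the set is nonempty by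
  `Ordinal.bddAbove_of_small`). Then `i y < i x` for `R 2 [y, x]`. Conversely let `ξ < i x`, claim that `ξ = i y` for
  some `y ∈ D` with `R 2 [y, x]`: by wellfounded induction on `x`: by minimality some `y ∈ D`, `R 2 [y, x]`, has
  `ξ ≤ i y`; `ξ = i y` or `ξ < i y` (induction hypothesis for `y`, transitivity).
* `rank_lt`: `→` from `IsRank`; `←` by trichotomy. `rank_inj`: trichotomy.
* `list_max`: induction on the list (linear order).
* `rank_low`: for `b ∈ D`: `ξ < i b` iff `ξ = i x` for some `x ∈ Low R D b` (this is `IsRank`).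
* `rank_image`: the set of all ranks is an initial segment; if `D` is small it is `Set.Iio τ` for some `τ`: the least
  ordinal which is not a rank (or: the supremum of the `i x + 1`).
-/

namespace Pool.Agent.LZF

universe u

variable {K : Type u} {R : ℕ → List K → Prop} {D : K → Prop} {i : K → Od}

theorem Rnk_sup {α : Type u} [Small.{0} α] (f : α → Od) (ξ : Od) :
    ξ < sSup (Set.range fun a => Order.succ (f a)) ↔ ∃ a, ξ ≤ f a := by
  have hb : BddAbove (Set.range fun a => Order.succ (f a)) := Ordinal.bddAbove_of_small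
  constructor
  · intro h
    rcases isEmpty_or_nonempty α with h1 | h1
    · exfalso
      rw [Set.range_eq_empty, csSup_empty] at h
      exact not_lt_bot h
    · obtain ⟨b, ⟨a, rfl⟩, h2⟩ := exists_lt_of_lt_csSup (Set.range_nonempty _) h
      exact ⟨a, Order.lt_succ_iff.1 h2⟩
  · rintro ⟨a, h⟩
    exact lt_of_lt_of_le (Order.lt_succ_iff.2 h) (le_csSup hb ⟨a, rfl⟩)

theorem exists_rank (hl : Lin R D) (hw : WfOn R D)
    (hsm : ∀ x, D x → Small.{0} {y : K // D y ∧ R 2 [y, x]}) : ∃ i : K → Od, IsRank R D i := by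
  classical
  let F : ∀ x : K, (∀ y, (D y ∧ D x ∧ R 2 [y, x]) → Od) → Od := fun x ih =>
    sSup (Set.range fun p : {y : K // D y ∧ D x ∧ R 2 [y, x]} => Order.succ (ih p.1 p.2))
  let i : K → Od := hw.fix F
  have hi : ∀ x, i x = sSup (Set.range fun p : {y : K // D y ∧ D x ∧ R 2 [y, x]} => Order.succ (i p.1)) := by
    intro x
    exact hw.fix_eq F x
  have hsm' : ∀ x, D x → Small.{0} {y : K // D y ∧ D x ∧ R 2 [y, x]} := by
    intro x hx
    have := hsm x hx
    exact small_of_injective (β := {y : K // D y ∧ R 2 [y, x]})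
      (f := fun p => ⟨p.1, p.2.1, p.2.2.2⟩) (by
        rintro ⟨y, hy⟩ ⟨z, hz⟩ h
        simpa using h)
  have hlt : ∀ x, D x → ∀ ξ, ξ < i x ↔ ∃ y, (D y ∧ R 2 [y, x]) ∧ ξ ≤ i y := by
    intro x hx ξ
    have := hsm' x hx
    rw [hi x, Rnk_sup]
    constructor
    · rintro ⟨⟨y, h1, _, h2⟩, h3⟩
      exact ⟨y, ⟨h1, h2⟩, h3⟩
    · rintro ⟨y, ⟨h1, h2⟩, h3⟩
      exact ⟨⟨y, h1, hx, h2⟩, h3⟩
  refine ⟨i, ?_⟩
  intro x
  induction x using hw.induction with
  | _ x ih =>
    intro hx ξ
    constructor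
    · intro h
      obtain ⟨y, ⟨h1, h2⟩, h3⟩ := (hlt x hx ξ).1 h
      rcases eq_or_lt_of_le h3 with h4 | h4
      · exact ⟨y, h1, h2, h4.symm⟩
      · obtain ⟨z, h5, h6, h7⟩ := (ih y ⟨h1, hx, h2⟩ h1 ξ).1 h4
        exact ⟨z, h5, hl.tra z y x h5 h1 hx h6 h2, h7⟩
    · rintro ⟨y, h1, h2, rfl⟩
      exact (hlt x hx _).2 ⟨y, ⟨h1, h2⟩, le_rfl⟩

theorem rank_lt (hl : Lin R D) (hi : IsRank R D i) (x y : K) (hx : D x) (hy : D y) :
    R 2 [x, y] ↔ i x < i y := by
  constructor
  · intro h
    exact (hi y hy (i x)).2 ⟨x, hx, h, rfl⟩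
  · intro h
    rcases hl.tri x y hx hy with h1 | h1 | h1
    · exact h1
    · rw [h1] at h
      exact absurd h (lt_irrefl _)
    · exact absurd ((hi x hx (i y)).2 ⟨y, hy, h1, rfl⟩) h.asymm

theorem rank_inj (hl : Lin R D) (hi : IsRank R D i) (x y : K) (hx : D x) (hy : D y) (h : i x = i y) :
    x = y := by
  rcases hl.tri x y hx hy with h1 | h1 | h1
  · have := (rank_lt hl hi x y hx hy).1 h1
    rw [h] at this
    exact absurd this (lt_irrefl _)
  · exact h1
  · have := (rank_lt hl hi y x hy hx).1 h1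
    rw [h] at this
    exact absurd this (lt_irrefl _)

theorem list_max (hl : Lin R D) (l : List K) (hn : l ≠ []) (h : ∀ x ∈ l, D x) :
    ∃ m ∈ l, ∀ x ∈ l, ¬ R 2 [m, x] := by
  induction l with
  | nil => exact absurd rfl hn
  | cons a l ih =>
    have ha : D a := h a List.mem_cons_self
    rcases eq_or_ne l [] with h1 | h1
    · subst h1
      refine ⟨a, List.mem_cons_self, ?_⟩
      intro x hx
      rw [List.mem_singleton.1 hx]
      exact hl.irr a ha
    · obtain ⟨m, hm, h2⟩ := ih h1 fun x hx => h x (List.mem_cons_of_mem _ hx)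
      have hmD : D m := h m (List.mem_cons_of_mem _ hm)
      by_cases h3 : R 2 [m, a]
      · refine ⟨a, List.mem_cons_self, ?_⟩
        intro x hx
        rcases List.mem_cons.1 hx with h4 | h4
        · rw [h4]
          exact hl.irr a ha
        · intro h5
          exact h2 x h4 (hl.tra m a x hmD ha (h x hx) h3 h5)
      · refine ⟨m, List.mem_cons_of_mem _ hm, ?_⟩
        intro x hx
        rcases List.mem_cons.1 hx with h4 | h4
        · rw [h4]
          exact h3
        · exact h2 x h4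

theorem rank_image (hi : IsRank R D i) (hsm : Small.{0} {y : K // D y}) :
    ∃ τ : Od, ∀ ξ, ξ < τ ↔ ∃ x, D x ∧ i x = ξ := by
  refine ⟨sSup (Set.range fun p : {y : K // D y} => Order.succ (i p.1)), ?_⟩
  intro ξ
  rw [Rnk_sup]
  constructor
  · rintro ⟨⟨x, hx⟩, h⟩
    rcases eq_or_lt_of_le h with h1 | h1
    · exact ⟨x, hx, h1.symm⟩
    · obtain ⟨y, h2, _, h3⟩ := (hi x hx ξ).1 h1
      exact ⟨y, h2, h3⟩
  · rintro ⟨x, hx, rfl⟩
    exact ⟨⟨x, hx⟩, le_rfl⟩

end Pool.Agent.LZF
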