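import Pool.Agent.LZF.Core

set_option autoImplicit false

/-!
# SatI: isomorphism invariance (difficulty 2)

`IsoS R D R' D' i`: `i` is an isomorphism from the structure with universe `D` and relations `R` to the one
with universe `D'` and relations `R'`.

* `sat`: induction on the formula. `atm r v`: `(s.map i)[j]? = (s[j]?).map i`; if `v.map (fun j => s[j]?) =
  l.map some` then `v.map (fun j => (s.map i)[j]?) = (l.map i).map some`, and all elements of `l` are elements
  of `s` (they are `some`-values of `s[j]?`), so in `D`; conversely if `v.map (fun j => (s.map i)[j]?) =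
  l'.map some` then every `s[j]?` is `some`, so there is `l` with `l' = l.map i` and the first equation. `ex`: use
  `mem`, `sur`, and `(s ++ [a]).map i = s.map i ++ [i a]`.
* `lst`: from `sat`, `rel 2 [y, x]`, `sur`, `mem`.
* `Val.mem`: `Lst` contains `D x`.
* `val`: `→` by induction on the derivation (all values are in `D` by `Val.mem`); `←`: by strong induction on `n`
  (inversion of `Val`: `n = 0` and `i x = i c`, so `x = c` by `inj`; or `n = Nat.pair m (encode ts) + 1` with values
  `s'` of the `ts`, all in `D'` by `Val.mem`; take preimages `s`; `t < Nat.pair m (encode ts) + 1` for `t ∈ ts`: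
  `encode (t :: ts) = succ (pair t (encode ts))`, `Nat.left_le_pair`, `Nat.right_le_pair`). It may be
  convenient to prove both directions by induction on the derivation: for `←` generalize over `x` with
  `i x = y`.
* `num`: induction on `n`. `low`: immediate.
-/

namespace Pool.Agent.LZF

universe u v

/-- `i` is an isomorphism from `(D, R)` to `(D', R')`. -/
structure IsoS {K : Type u} {K' : Type v} (R : ℕ → List K → Prop) (D : K → Prop) (R' : ℕ → List K' → Prop)
    (D' : K' → Prop) (i : K → K') : Prop where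
  mem : ∀ x, D x → D' (i x)
  sur : ∀ y, D' y → ∃ x, D x ∧ i x = y
  inj : ∀ x y, D x → D y → i x = i y → x = y
  rel : ∀ r l, (∀ x ∈ l, D x) → (R r l ↔ R' r (l.map i))

section
variable {K : Type u} {K' : Type v} {R : ℕ → List K → Prop} {D : K → Prop} {R' : ℕ → List K' → Prop}
  {D' : K' → Prop} {i : K → K'}

theorem Val.mem {c : K} (hc : D c) {n : ℕ} {x : K} (h : Val R D c n x) : D x := by
  cases h with
  | base => exact hc
  | step m ts s _ hl h hx => exact hx.1

theorem SatI_lt {ts : List ℕ} {t : ℕ} (h : t ∈ ts) : t < Encodable.encode ts := by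
  induction ts with
  | nil => exact absurd h (List.not_mem_nil)
  | cons a ts ih =>
    rw [Encodable.encode_list_cons, Nat.lt_succ_iff]
    rcases List.mem_cons.1 h with h1 | h1
    · rw [h1]
      exact Nat.left_le_pair _ _
    · exact (ih h1).le.trans (Nat.right_le_pair _ _)

/-- The numbers of the arguments of a term are smaller. -/
theorem lt_term {m : ℕ} {ts : List ℕ} {t : ℕ} (h : t ∈ ts) : t < Nat.pair m (Encodable.encode ts) + 1 :=
  Nat.lt_succ_of_lt (lt_of_lt_of_le (SatI_lt h) (Nat.right_le_pair _ _))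

theorem SatI_atm (i : K → K') (s : List K) (v : List ℕ) : ∀ l' : List K',
    v.map (fun j => (s.map i)[j]?) = l'.map some → ∃ l : List K, v.map (fun j => s[j]?) = l.map some ∧ l' = l.map i := by
  induction v with
  | nil =>
    intro l' h
    rw [List.map_nil] at h
    have h1 : l' = [] := List.map_eq_nil_iff.1 h.symm
    exact ⟨[], by simp, by simp [h1]⟩
  | cons j v ih =>
    intro l' h
    cases l' with
    | nil => simp at h
    | cons a l' =>
      rw [List.map_cons, List.map_cons, List.cons.injEq] at h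
      obtain ⟨h1, h2⟩ := h
      obtain ⟨l, h3, h4⟩ := ih l' h2
      rw [List.getElem?_map, Option.map_eq_some_iff] at h1
      obtain ⟨b, h5, h6⟩ := h1
      exact ⟨b :: l, by rw [List.map_cons, List.map_cons, h3, h5], by rw [List.map_cons, h4, h6]⟩

theorem SatI_mem {s : List K} {v : List ℕ} {l : List K} (h : v.map (fun j => s[j]?) = l.map some) {x : K}
    (hx : x ∈ l) : x ∈ s := by
  have h1 : some x ∈ l.map some := List.mem_map.2 ⟨x, hx, rfl⟩
  rw [← h, List.mem_map] at h1
  obtain ⟨j, _, h2⟩ := h1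
  exact List.mem_of_getElem? h2

theorem SatI_app (i : K → K') (s : List K) (a : K) : (s ++ [a]).map i = s.map i ++ [i a] := by
  simp

theorem SatI_memD {s : List K} (hs : ∀ x ∈ s, D x) {a : K} (ha : D a) : ∀ x ∈ s ++ [a], D x := by
  intro x hx
  rcases List.mem_append.1 hx with h | h
  · exact hs x h
  · rw [List.mem_singleton.1 h]; exact ha

theorem IsoS.sat (h : IsoS R D R' D' i) (φ : Fm) (s : List K) (hs : ∀ x ∈ s, D x) :
    Sat R D φ s ↔ Sat R' D' φ (s.map i) := by
  induction φ generalizing s with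
  | atm r v =>
    constructor
    · rintro ⟨l, h1, h2⟩
      refine ⟨l.map i, ?_, (h.rel r l fun x hx => hs x (SatI_mem h1 hx)).1 h2⟩
      have e1 : v.map (fun j => (s.map i)[j]?) = (v.map (fun j => s[j]?)).map (Option.map i) := by
        rw [List.map_map]
        apply List.map_congr_left
        intro j _
        simp
      rw [e1, h1, List.map_map, List.map_map]
      rfl
    · rintro ⟨l', h1, h2⟩
      obtain ⟨l, h3, rfl⟩ := SatI_atm i s v l' h1
      exact ⟨l, h3, (h.rel r l fun x hx => hs x (SatI_mem h3 hx)).2 h2⟩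
  | nand φ ψ ih1 ih2 =>
    show ¬ (Sat R D φ s ∧ Sat R D ψ s) ↔ ¬ (Sat R' D' φ (s.map i) ∧ Sat R' D' ψ (s.map i))
    rw [ih1 s hs, ih2 s hs]
  | ex φ ih =>
    constructor
    · rintro ⟨a, ha, h1⟩
      refine ⟨i a, h.mem a ha, ?_⟩
      rw [← SatI_app]
      exact (ih _ (SatI_memD hs ha)).1 h1
    · rintro ⟨a', ha', h1⟩
      obtain ⟨a, ha, rfl⟩ := h.sur a' ha'
      refine ⟨a, ha, (ih _ (SatI_memD hs ha)).2 ?_⟩
      rw [SatI_app]
      exact h1

theorem IsoS.lst (h : IsoS R D R' D' i) (φ : Fm) (s : List K) (hs : ∀ x ∈ s, D x) (x : K) (hx : D x) :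
    Lst R D φ s x ↔ Lst R' D' φ (s.map i) (i x) := by
  have hR : ∀ y, D y → (R 2 [y, x] ↔ R' 2 [i y, i x]) := by
    intro y hy
    refine h.rel 2 [y, x] ?_
    intro z hz
    rcases List.mem_cons.1 hz with h1 | h1
    · rw [h1]; exact hy
    · rw [List.mem_singleton.1 h1]; exact hx
  constructor
  · rintro ⟨_, h1, h2⟩
    refine ⟨h.mem x hx, ?_, ?_⟩
    · rw [← SatI_app]
      exact (h.sat φ _ (SatI_memD hs hx)).1 h1
    · intro y' hy' h3
      obtain ⟨y, hy, rfl⟩ := h.sur y' hy'
      rw [← hR y hy]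
      rw [← SatI_app] at h3
      exact h2 y hy ((h.sat φ _ (SatI_memD hs hy)).2 h3)
  · rintro ⟨_, h1, h2⟩
    refine ⟨hx, ?_, ?_⟩
    · rw [← SatI_app] at h1
      exact (h.sat φ _ (SatI_memD hs hx)).2 h1
    · intro y hy h3
      rw [hR y hy]
      refine h2 (i y) (h.mem y hy) ?_
      rw [← SatI_app]
      exact (h.sat φ _ (SatI_memD hs hy)).1 h3

theorem SatI_pre (h : IsoS R D R' D' i) : ∀ s' : List K', (∀ y ∈ s', D' y) →
    ∃ s : List K, s.map i = s' ∧ ∀ x ∈ s, D x := by
  intro s'
  induction s' with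
  | nil => exact fun _ => ⟨[], rfl, by simp⟩
  | cons a s' ih =>
    intro hs
    obtain ⟨s, h1, h2⟩ := ih fun y hy => hs y (List.mem_cons_of_mem _ hy)
    obtain ⟨b, hb, h3⟩ := h.sur a (hs a List.mem_cons_self)
    refine ⟨b :: s, by rw [List.map_cons, h1, h3], ?_⟩
    intro x hx
    rcases List.mem_cons.1 hx with h4 | h4
    · rw [h4]; exact hb
    · exact h2 x h4

theorem SatI_args {c : K} (hc : D c) {ts : List ℕ} {s : List K} (hl : s.length = ts.length)
    (h : ∀ (i t : ℕ) (y : K), ts[i]? = some t → s[i]? = some y → Val R D c t y) : ∀ y ∈ s, D y := by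
  intro y hy
  obtain ⟨j, hj, h1⟩ := List.mem_iff_getElem.1 hy
  have hj' : j < ts.length := by omega
  exact Val.mem hc (h j ts[j] y (List.getElem?_eq_getElem hj') (by rw [List.getElem?_eq_getElem hj, h1]))

theorem IsoS.val (h : IsoS R D R' D' i) (c : K) (hc : D c) (n : ℕ) (x : K) (hx : D x) :
    Val R D c n x ↔ Val R' D' (i c) n (i x) := by
  constructor
  · intro hv
    clear hx
    induction hv with
    | base => exact Val.base
    | step m ts s x hl hs hx ih =>
      have hD := SatI_args hc hl hs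
      refine Val.step m ts (s.map i) (i x) (by rw [List.length_map, hl]) ?_ ((h.lst _ s hD x hx.1).1 hx)
      intro j t y' h1 h2
      rw [List.getElem?_map, Option.map_eq_some_iff] at h2
      obtain ⟨y, h3, rfl⟩ := h2
      exact ih j t y h1 h3
  · intro hv
    have key : ∀ (n : ℕ) (y : K'), Val R' D' (i c) n y → ∀ x, D x → i x = y → Val R D c n x := by
      intro n y hv
      induction hv with
      | base =>
        intro x hx hxc
        rw [h.inj x c hx hc hxc]
        exact Val.base
      | step m ts s' y hl hs hy ih =>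
        intro x hx hxy
        have hD := SatI_args (h.mem c hc) hl hs
        obtain ⟨s, rfl, hs'⟩ := SatI_pre h s' hD
        refine Val.step m ts s x (by rw [← hl, List.length_map]) ?_ ?_
        · intro j t y0 h1 h2
          refine ih j t (i y0) h1 ?_ y0 (hs' y0 (List.mem_of_getElem? h2)) rfl
          rw [List.getElem?_map, h2]
          rfl
        · rw [h.lst _ s hs' x hx, hxy]
          exact hy
    exact key n (i x) hv x hx rfl

theorem SatI_two {x y : K} (hx : D x) (hy : D y) : ∀ z ∈ [x, y], D z := by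
  intro z hz
  rcases List.mem_cons.1 hz with h1 | h1
  · rw [h1]; exact hx
  · rw [List.mem_singleton.1 h1]; exact hy

theorem IsoS.num (h : IsoS R D R' D' i) (n : ℕ) (x : K) (hx : D x) : IsNum R D n x ↔ IsNum R' D' n (i x) := by
  induction n generalizing x with
  | zero =>
    constructor
    · intro h1 z' hz'
      obtain ⟨z, hz, rfl⟩ := h.sur z' hz'
      have := h.rel 0 [z, x] (SatI_two hz hx)
      exact fun h2 => h1 z hz (this.2 h2)
    · intro h1 z hz
      have := h.rel 0 [z, x] (SatI_two hz hx)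
      exact fun h2 => h1 (i z) (h.mem z hz) (this.1 h2)
  | succ n ih =>
    constructor
    · rintro ⟨j, hj, h1, h2⟩
      refine ⟨i j, h.mem j hj, (ih j hj).1 h1, ?_⟩
      intro z' hz'
      obtain ⟨z, hz, rfl⟩ := h.sur z' hz'
      have e1 := h.rel 0 [z, x] (SatI_two hz hx)
      have e2 := h.rel 0 [z, j] (SatI_two hz hj)
      have e3 : z = j ↔ i z = i j := ⟨fun e => by rw [e], h.inj z j hz hj⟩
      have e4 := h2 z hz
      rw [e1, e2, e3] at e4
      exact e4
    · rintro ⟨j', hj', h1, h2⟩
      obtain ⟨j, hj, rfl⟩ := h.sur j' hj'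
      refine ⟨j, hj, (ih j hj).2 h1, ?_⟩
      intro z hz
      have e1 := h.rel 0 [z, x] (SatI_two hz hx)
      have e2 := h.rel 0 [z, j] (SatI_two hz hj)
      have e3 : z = j ↔ i z = i j := ⟨fun e => by rw [e], h.inj z j hz hj⟩
      have e4 := h2 (i z) (h.mem z hz)
      rw [e1, e2, e3]
      exact e4

theorem IsoS.low (h : IsoS R D R' D' i) (b : K) (hb : D b) : IsoS R (Low R D b) R' (Low R' D' (i b)) i := by
  refine ⟨?_, ?_, ?_, ?_⟩
  · rintro x ⟨hx, h1⟩
    exact ⟨h.mem x hx, (h.rel 2 [x, b] (SatI_two hx hb)).1 h1⟩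
  · rintro y ⟨hy, h1⟩
    obtain ⟨x, hx, rfl⟩ := h.sur y hy
    exact ⟨x, ⟨hx, (h.rel 2 [x, b] (SatI_two hx hb)).2 h1⟩, rfl⟩
  · rintro x y ⟨hx, _⟩ ⟨hy, _⟩ e
    exact h.inj x y hx hy e
  · intro r l hl
    exact h.rel r l fun x hx => (hl x hx).1

end

/-- Two relations which agree on `D`. -/
theorem isoS_id {K : Type u} {R R' : ℕ → List K → Prop} {D : K → Prop}
    (h : ∀ r l, (∀ x ∈ l, D x) → (R r l ↔ R' r l)) : IsoS R D R' D id := by
  refine ⟨fun x hx => hx, fun y hy => ⟨y, hy, rfl⟩, fun x y _ _ e => e, ?_⟩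
  intro r l hl
  rw [List.map_id]
  exact h r l hl

end Pool.Agent.LZF
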