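import Pool.Agent.LZF.RCl
import Pool.Agent.NI.Fun

set_option autoImplicit false

/-!
# TRd: the reals of the model are closed under Turing reducibility and joins (difficulty 2)

`sq k`: the finite sequence with the number `k` (every finite sequence `s` is `sq (Encodable.encode s)`).
`qB b k j`: the bit number `j` of the finite sequence with the number `k` is `b`. `qPhi i n k`: every real which
extends the finite sequence number `k` satisfies `1 ∈ Phi y i n`. `qC n l m`: `m = Nat.pair n l + 1` (the code of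
the list with head `n` whose tail has the code `l`). `Bas a`: the real `a` has tables of these relations.

* `rm_tred`: let `y ∈ RM a`, represented by `c`, and `x` computable from `y` by the index `i`. By `Phi_use` (NI)
  `x n = true ↔ 1 ∈ Phi y i n ↔ ∃ k, pre y (length of sequence k) = sequence k ∧ qPhi i n k`. In the model: `∃ k`,
  `tab3` of `qPhi` at `(nu i, x, k)` and for all `j`: (`tab2` of `qB true` at `(k, j)` → `EM a j c`) and (`tab2` of `qB false`
  at `(k, j)` → `¬ EM a j c`). So by `rc` the real is in the model.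
* `rm_jn`: the bit `k` of `jn x y`: `∃ n, pq (nu 0) n k ∧ EM a n c ∨ pq (nu 1) n k ∧ EM a n d`.
-/

namespace Pool.Agent.LZF

open Pool.Agent.NI Pool.Agent.H55 Pool.Agent.H55.ZFU FirstOrder

variable {a : Rl}

/-- The finite sequence with the number `k`. -/
def sq (k : ℕ) : List Bool := (Encodable.decode (α := List Bool) k).getD []

/-- The bit number `j` of the sequence number `k` is `b`. -/
def qB (b : Bool) (k j : ℕ) : Prop := (sq k)[j]? = some b

/-- The sequence number `k` forces the `i`-th functional to have the value `1` at `n`. -/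
def qPhi (i n k : ℕ) : Prop :=
  ∀ y : Rl, pre y (sq k).length = sq k → 1 ∈ Phi y i n

/-- `m` is the code of the list with head `n` and tail with the code `l`. -/
def qC (n l m : ℕ) : Prop := m = Nat.pair n l + 1

/-- The real `a` contains the basic tables. -/
structure Bas (a : Rl) : Prop where
  tT : HasT a (fun k => qB true k.unpair.1 k.unpair.2)
  tF : HasT a (fun k => qB false k.unpair.1 k.unpair.2)
  tP : HasT a (fun k => qPhi k.unpair.1 k.unpair.2.unpair.1 k.unpair.2.unpair.2)
  tC : HasT a (fun k => qC k.unpair.1 k.unpair.2.unpair.1 k.unpair.2.unpair.2)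

theorem trd_pq (x y z : Mo a) :
    pq x y z ↔ ∃ n m, x = nu a n ∧ y = nu a m ∧ z = nu a (Nat.pair n m) := by
  have h1 : ∀ (n : ℕ) (w : Mo a), NumG (Kd a) n w ↔ w = nu a n := by
    intro n w
    exact (num_un a n w).symm.trans (nu_iff n w)
  unfold pq
  refine (rk7 a x y z).trans ?_
  simp only [h1]

open Classical in
theorem trd_chr (P : ℕ → Prop) (n : ℕ) : chr P n = true ↔ P n := by
  unfold chr
  exact decide_eq_true_iff

theorem trd_sq (s : List Bool) : sq (Encodable.encode s) = s := by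
  unfold sq
  simp

theorem trd_pre (y : Rl) (s : List Bool) (h : ∀ (j : ℕ) (b : Bool), s[j]? = some b → y j = b) :
    pre y s.length = s := by
  unfold pre
  apply List.ext_getElem?
  intro j
  by_cases hj : j < s.length
  · have h2 : s[j]? = some s[j] := List.getElem?_eq_getElem hj
    have h3 := h j _ h2
    rw [h2]
    simp [hj, h3]
  · have hj2 : s.length ≤ j := not_lt.1 hj
    rw [List.getElem?_eq_none hj2, List.getElem?_eq_none (by simpa using hj2)]

theorem trd_phi (y : Rl) (i n : ℕ) : 1 ∈ Phi y i n ↔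
    ∃ k, qPhi i n k ∧ ∀ j, (qB true k j → y j = true) ∧ (qB false k j → ¬ y j = true) := by
  constructor
  · intro h
    obtain ⟨t, ht⟩ := Phi_use i y n 1 h
    have hl : (pre y t).length = t := by simp [pre]
    have hg : ∀ j b, (pre y t)[j]? = some b → y j = b := by
      intro j b hb
      have hj : j < t := by
        by_contra hj
        rw [List.getElem?_eq_none (by rw [hl]; exact not_lt.1 hj)] at hb
        simp at hb
      unfold pre at hb
      simpa [hj] using hb
    refine ⟨Encodable.encode (pre y t), ?_, ?_⟩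
    · intro y' hy'
      rw [trd_sq, hl] at hy'
      apply ht
      intro j hj
      have h1 : (pre y' t)[j]? = (pre y t)[j]? := by rw [hy']
      unfold pre at h1
      simpa [hj] using h1
    · intro j
      unfold qB
      rw [trd_sq]
      refine ⟨fun hb => hg j true hb, fun hb => ?_⟩
      rw [hg j false hb]
      exact Bool.false_ne_true
  · rintro ⟨k, hk, hj⟩
    apply hk
    apply trd_pre
    intro j b hb
    cases b with
    | true => exact (hj j).1 hb
    | false =>
      have := (hj j).2 hb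
      simpa using this

theorem rm_tred (hb : Bas a) (y : Rl) (hy : y ∈ RM a) (x : Rl) (h : TRed x y) : x ∈ RM a := by
  obtain ⟨c, hc⟩ := hy
  obtain ⟨i, hi⟩ := h
  have hc' : Rep a (show Mo a from c) y := hc
  revert hc'
  generalize (show Mo a from c) = c'
  intro hc'
  have i3 : ∀ {ι : Type} (t s r : (ι → Mo a) → Mo a) [DFun t] [DFun s] [DFun r],
      Dfn (fun v => ∃ n m k, t v = nu a n ∧ s v = nu a m ∧ r v = nu a k ∧ qPhi n m k) := by
    intro ι t s r _ _ _
    exact Dfn.comp3 (P := fun x y z : Mo a => ∃ n m k, x = nu a n ∧ y = nu a m ∧ z = nu a k ∧ qPhi n m k)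
      (tab3 qPhi hb.tP) t s r
  have i2t : ∀ {ι : Type} (t s : (ι → Mo a) → Mo a) [DFun t] [DFun s],
      Dfn (fun v => ∃ n m, t v = nu a n ∧ s v = nu a m ∧ qB true n m) := by
    intro ι t s _ _
    exact Dfn.comp2 (P := fun x y : Mo a => ∃ n m, x = nu a n ∧ y = nu a m ∧ qB true n m)
      (tab2 (qB true) hb.tT) t s
  have i2f : ∀ {ι : Type} (t s : (ι → Mo a) → Mo a) [DFun t] [DFun s],
      Dfn (fun v => ∃ n m, t v = nu a n ∧ s v = nu a m ∧ qB false n m) := by
    intro ι t s _ _
    exact Dfn.comp2 (P := fun x y : Mo a => ∃ n m, x = nu a n ∧ y = nu a m ∧ qB false n m)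
      (tab2 (qB false) hb.tF) t s
  have hd : Dfn1 (fun z : Mo a => ∃ k : Mo a,
      (∃ n m l, nu a i = nu a n ∧ z = nu a m ∧ k = nu a l ∧ qPhi n m l) ∧
      ∀ j : Mo a, ((∃ n m, k = nu a n ∧ j = nu a m ∧ qB true n m) → EM a j c') ∧
        ((∃ n m, k = nu a n ∧ j = nu a m ∧ qB false n m) → ¬ EM a j c')) := by
    have h3 := i3 (ι := Option (Fin 1)) (fun _ => nu a i) (fun v => v (some 0)) (fun v => v none)
    have h2t := i2t (ι := Option (Option (Fin 1))) (fun v => v (some none)) (fun v => v none)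
    have h2f := i2f (ι := Option (Option (Fin 1))) (fun v => v (some none)) (fun v => v none)
    infer_instance
  have hr := rc _ hd
  refine (congrArg (fun r : Rl => r ∈ RM a) ?_).mpr hr
  funext n
  have e1 : (x n = true) ↔ 1 ∈ Phi y i n := by
    rw [hi n, Part.mem_some_iff]
    cases x n <;> simp
  rw [Bool.eq_iff_iff, trd_chr, e1, trd_phi]
  constructor
  · rintro ⟨k, h1, h2⟩
    refine ⟨nu a k, ⟨i, n, k, rfl, rfl, rfl, h1⟩, fun j => ⟨?_, ?_⟩⟩
    · rintro ⟨p, m, e, rfl, hq⟩
      rw [← nu_inj _ _ e] at hq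
      exact (rep_mem c' y hc' m).2 ((h2 m).1 hq)
    · rintro ⟨p, m, e, rfl, hq⟩
      rw [← nu_inj _ _ e] at hq
      intro hm
      exact (h2 m).2 hq ((rep_mem c' y hc' m).1 hm)
  · rintro ⟨k, ⟨p, m, l, e1, e2, e3, hq⟩, h2⟩
    rw [← nu_inj _ _ e1, ← nu_inj _ _ e2] at hq
    refine ⟨l, hq, fun j => ⟨fun hb => ?_, fun hb => ?_⟩⟩
    · exact (rep_mem c' y hc' j).1 ((h2 (nu a j)).1 ⟨l, j, e3, rfl, hb⟩)
    · intro hm
      exact (h2 (nu a j)).2 ⟨l, j, e3, rfl, hb⟩ ((rep_mem c' y hc' j).2 hm)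

theorem rm_jn (x : Rl) (hx : x ∈ RM a) (y : Rl) (hy : y ∈ RM a) : jn x y ∈ RM a := by
  obtain ⟨c, hc⟩ := hx
  obtain ⟨d, hd⟩ := hy
  obtain ⟨c', hc'⟩ : ∃ c' : Mo a, Rep a c' x := ⟨c, hc⟩
  obtain ⟨d', hd'⟩ : ∃ d' : Mo a, Rep a d' y := ⟨d, hd⟩
  have hdf : Dfn1 (fun z : Mo a => (∃ n, pq (nu a 0) n z ∧ EM a n c') ∨ (∃ n, pq (nu a 1) n z ∧ EM a n d')) := by
    infer_instance
  have hr := rc _ hdf
  refine (congrArg (fun r : Rl => r ∈ RM a) ?_).mpr hr
  funext k
  rw [Bool.eq_iff_iff, trd_chr]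
  have key : ∀ (i : ℕ) (e : Mo a) (w : Rl), Rep a e w →
      ((∃ n, pq (nu a i) n (nu a k) ∧ EM a n e) ↔ (k.unpair.1 = i ∧ w k.unpair.2 = true)) := by
    intro i e w he
    constructor
    · rintro ⟨n, h1, h2⟩
      obtain ⟨p, m, e1, e2, e3⟩ := (trd_pq _ _ _).1 h1
      have h4 := nu_inj _ _ e3
      rw [e2] at h2
      rw [h4, Nat.unpair_pair]
      exact ⟨(nu_inj _ _ e1).symm, (rep_mem e w he m).1 h2⟩
    · rintro ⟨h1, h2⟩
      refine ⟨nu a k.unpair.2, (trd_pq _ _ _).2 ⟨i, k.unpair.2, rfl, rfl, ?_⟩, (rep_mem e w he _).2 h2⟩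
      rw [← h1, Nat.pair_unpair]
  rw [key 0 c' x hc', key 1 d' y hd']
  unfold jn
  by_cases h0 : k.unpair.1 = 0
  · simp [h0]
  · by_cases h1 : k.unpair.1 = 1
    · simp [h1]
    · simp [h0, h1]

/-- The relation coded by the real `c` of the model is definable. -/
theorem code_dfn (c : Mo a) : Dfn2 (fun q p : Mo a => ∃ u, pq q p u ∧ EM a u c) := by
  infer_instance

theorem code_iff (c : Mo a) (x : Rl) (h : Rep a c x) (m n : ℕ) :
    (∃ u, pq (nu a m) (nu a n) u ∧ EM a u c) ↔ x (Nat.pair m n) = true := by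
  constructor
  · rintro ⟨u, h1, h2⟩
    obtain ⟨p, q, e1, e2, e3⟩ := (trd_pq _ _ _).1 h1
    rw [e3, ← nu_inj _ _ e1, ← nu_inj _ _ e2] at h2
    exact (rep_mem c x h _).1 h2
  · intro hx
    exact ⟨nu a (Nat.pair m n), (trd_pq _ _ _).2 ⟨m, n, rfl, rfl, rfl⟩, (rep_mem c x h _).2 hx⟩

end Pool.Agent.LZF
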