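import Pool.Agent.LZF.MoD

set_option autoImplicit false

/-!
# Tra: definable predicates of the model are given by formulas `Fm` (difficulty 2)

* `dfn_rel1` ... `dfn_rel4`: `Set.Definable` by the atomic formula `Relations.formula` (a formula
  `(r : LK.Relations n).formula (fun i => Term.var i)`, as in `H55/SCBridge.lean`, `zE_dfn`), and
  `List.ofFn ![x, y] = [x, y]`.
* `tra`: a definable set of tuples `Fin k → Mo a` is given by a formula `ψ` of the language `LK[[univ]]`
  (`Set.Definable`), with constants for the elements of the model. By induction on the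
  `BoundedFormula ψ` of `LK[[univ]]` with free variables in `Fin k` and `n` bound variables: there is a list `p₀`
  (the constants of `ψ`) such that for every list `p` which contains all elements of `p₀` there is `f : Fm` such
  that `ψ.Realize v xs ↔ Sat (RK a) Un f (p ++ List.ofFn v ++ List.ofFn xs)` for all `v, xs`. Every term is a
  variable (in `Fin k` or `Fin n`) or a constant (there are no function symbols of positive arity in
  `LK[[univ]]`); its value is the member of the list with a number which depends only on `p` and the term (for a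
  constant `c` an index of `c` in `p`). `equal`: `Fm.atm 1 [i, j]` (`rk1`). `rel` of `LK`: `Fm.atm r (list of the
  indices)`; relations of `LK[[univ]]` not in `LK` do not exist. `falsum`: `nand φ φ` with `φ` true, e.g.
  `Fm.nand (Fm.atm 8 []) (Fm.atm 8 [])` is true (`rk_ar`), so `falsum` is `Fm.atm 8 []`. `imp`: `Fm.imp` with `p₀` the
  concatenation. `all`: `Fm.all`, `List.ofFn (Fin.snoc xs x) = List.ofFn xs ++ [x]`.
* `tra1`, `tra2`: `k = 1, 2`.
-/

namespace Pool.Agent.LZF

open Pool.Agent.NI Pool.Agent.H55 Pool.Agent.H55.ZFU FirstOrder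

theorem dfn_rel1 (a : Rl) (r : ℕ) : Dfn (fun v : Fin 1 → Mo a => RK a r [v 0]) := by
  let _ := strK a
  have : Set.Definable Set.univ LK {v : Fin 1 → Mo a | RK a r [v 0]} := by
    refine Set.Definable.mono (A := ∅) ?_ (Set.empty_subset _)
    rw [Set.empty_definable_iff]
    refine ⟨Language.Relations.formula (L := LK) (r : LK.Relations 1) (fun i => Language.Term.var i), ?_⟩
    ext v
    exact Iff.rfl
  exact ⟨this⟩

theorem dfn_rel2 (a : Rl) (r : ℕ) : Dfn (fun v : Fin 2 → Mo a => RK a r [v 0, v 1]) := by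
  let _ := strK a
  have : Set.Definable Set.univ LK {v : Fin 2 → Mo a | RK a r [v 0, v 1]} := by
    refine Set.Definable.mono (A := ∅) ?_ (Set.empty_subset _)
    rw [Set.empty_definable_iff]
    refine ⟨Language.Relations.formula (L := LK) (r : LK.Relations 2) (fun i => Language.Term.var i), ?_⟩
    ext v
    exact Iff.rfl
  exact ⟨this⟩

theorem dfn_rel3 (a : Rl) (r : ℕ) : Dfn (fun v : Fin 3 → Mo a => RK a r [v 0, v 1, v 2]) := by
  let _ := strK a
  have : Set.Definable Set.univ LK {v : Fin 3 → Mo a | RK a r [v 0, v 1, v 2]} := by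
    refine Set.Definable.mono (A := ∅) ?_ (Set.empty_subset _)
    rw [Set.empty_definable_iff]
    refine ⟨Language.Relations.formula (L := LK) (r : LK.Relations 3) (fun i => Language.Term.var i), ?_⟩
    ext v
    exact Iff.rfl
  exact ⟨this⟩

theorem dfn_rel4 (a : Rl) (r : ℕ) : Dfn (fun v : Fin 4 → Mo a => RK a r [v 0, v 1, v 2, v 3]) := by
  let _ := strK a
  have : Set.Definable Set.univ LK {v : Fin 4 → Mo a | RK a r [v 0, v 1, v 2, v 3]} := by
    refine Set.Definable.mono (A := ∅) ?_ (Set.empty_subset _)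
    rw [Set.empty_definable_iff]
    refine ⟨Language.Relations.formula (L := LK) (r : LK.Relations 4) (fun i => Language.Term.var i), ?_⟩
    ext v
    exact Iff.rfl
  exact ⟨this⟩

theorem Tra_atm {K : Type*} {R : ℕ → List K → Prop} {D : K → Prop} (r : ℕ) (js : List ℕ) (s w : List K)
    (h : js.map (fun i => s[i]?) = w.map some) : Sat R D (Fm.atm r js) s ↔ R r w := by
  constructor
  · rintro ⟨l, hl, hR⟩
    rw [h] at hl
    have : w = l := List.map_injective_iff.2 (Option.some_injective K) hl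
    rw [this]; exact hR
  · intro hR
    exact ⟨w, h, hR⟩

theorem Tra_get0 {α : Type*} {k n : ℕ} (p : List α) (v : Fin k → α) (xs : Fin n → α) (j : ℕ) (x : α)
    (h : p[j]? = some x) : (p ++ List.ofFn v ++ List.ofFn xs)[j]? = some x := by
  obtain ⟨hj, -⟩ := List.getElem?_eq_some_iff.1 h
  rw [List.append_assoc, List.getElem?_append_left hj, h]

theorem Tra_get1 {α : Type*} {k n : ℕ} (p : List α) (v : Fin k → α) (xs : Fin n → α) (i : Fin k) :
    (p ++ List.ofFn v ++ List.ofFn xs)[p.length + i]? = some (v i) := by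
  have hi := i.2
  rw [List.getElem?_append_left (by rw [List.length_append, List.length_ofFn]; omega),
    List.getElem?_append_right (by omega), Nat.add_sub_cancel_left, List.getElem?_ofFn, dif_pos hi]

theorem Tra_get2 {α : Type*} {k n : ℕ} (p : List α) (v : Fin k → α) (xs : Fin n → α) (i : Fin n) :
    (p ++ List.ofFn v ++ List.ofFn xs)[p.length + k + i]? = some (xs i) := by
  have hi := i.2
  rw [List.getElem?_append_right (by rw [List.length_append, List.length_ofFn]; omega),
    List.length_append, List.length_ofFn, Nat.add_sub_cancel_left, List.getElem?_ofFn, dif_pos hi]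

/-- Satisfaction in the model. -/
def Tra_S (a : Rl) (f : Fm) (s : List (Mo a)) : Prop := Sat (K := Od) (RK a) Un f s

theorem Tra_S_nand (a : Rl) (f g : Fm) (s : List (Mo a)) :
    Tra_S a (Fm.nand f g) s ↔ ¬ (Tra_S a f s ∧ Tra_S a g s) := Iff.rfl

theorem Tra_S_ex (a : Rl) (f : Fm) (s : List (Mo a)) :
    Tra_S a (Fm.ex f) s ↔ ∃ x : Mo a, Tra_S a f (s ++ [x]) :=
  ⟨fun ⟨x, _, h⟩ => ⟨x, h⟩, fun ⟨x, h⟩ => ⟨x, trivial, h⟩⟩

theorem Tra_S_atm (a : Rl) (r : ℕ) (js : List ℕ) (s w : List (Mo a))
    (h : js.map (fun i => s[i]?) = w.map some) : Tra_S a (Fm.atm r js) s ↔ RK a r w :=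
  Tra_atm (K := Od) (R := RK a) (D := Un) r js s w h

section
variable (a : Rl) (k : ℕ)

attribute [local instance] strK

theorem Tra_term {n : ℕ} (t : (LK[[(Set.univ : Set (Mo a))]]).Term (Fin k ⊕ Fin n)) :
    ∃ p₀ : List (Mo a), ∀ p : List (Mo a), (∀ x ∈ p₀, x ∈ p) → ∃ j : ℕ,
      ∀ (v : Fin k → Mo a) (xs : Fin n → Mo a),
        (p ++ List.ofFn v ++ List.ofFn xs)[j]? = some (t.realize (Sum.elim v xs)) := by
  cases t with
  | var i =>
    refine ⟨[], fun p _ => ?_⟩
    rcases i with i | i
    · exact ⟨p.length + i, fun v xs => Tra_get1 p v xs i⟩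
    · exact ⟨p.length + k + i, fun v xs => Tra_get2 p v xs i⟩
  | @func l f ts =>
    rcases f with f | c
    · exact f.elim
    · cases l with
      | zero =>
        have c' : (Set.univ : Set (Mo a)) := c
        have hc : ∀ (v : Fin k → Mo a) (xs : Fin n → Mo a),
            (Language.Term.func (Sum.inr c : (LK[[(Set.univ : Set (Mo a))]]).Functions 0) ts).realize
              (Sum.elim v xs) = ((show (Set.univ : Set (Mo a)) from c) : Mo a) := by
          intro v xs
          exact Language.withConstants_funMap_sumInr (L := LK) (M := Mo a)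
            (α := (Set.univ : Set (Mo a)))
        refine ⟨[((show (Set.univ : Set (Mo a)) from c) : Mo a)], fun p hp => ?_⟩
        obtain ⟨j, hj⟩ := List.mem_iff_getElem?.1 (hp _ (List.mem_singleton.2 rfl))
        refine ⟨j, fun v xs => ?_⟩
        rw [hc]
        exact Tra_get0 p v xs j _ hj
      | succ l => exact (c : PEmpty).elim

theorem Tra_ind {n : ℕ} (ψ : (LK[[(Set.univ : Set (Mo a))]]).BoundedFormula (Fin k) n) :
    ∃ p₀ : List (Mo a), ∀ p : List (Mo a), (∀ x ∈ p₀, x ∈ p) → ∃ f : Fm,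
      ∀ (v : Fin k → Mo a) (xs : Fin n → Mo a),
        ψ.Realize v xs ↔ Tra_S a f (p ++ List.ofFn v ++ List.ofFn xs) := by
  induction ψ with
  | falsum =>
    refine ⟨[], fun p _ => ⟨Fm.atm 8 [], fun v xs => ?_⟩⟩
    rw [Tra_S_atm a 8 [] _ [] rfl]
    exact Iff.rfl
  | equal t₁ t₂ =>
    obtain ⟨p1, h1⟩ := Tra_term a k t₁
    obtain ⟨p2, h2⟩ := Tra_term a k t₂
    refine ⟨p1 ++ p2, fun p hp => ?_⟩
    obtain ⟨j1, hj1⟩ := h1 p fun x hx => hp x (List.mem_append_left _ hx)
    obtain ⟨j2, hj2⟩ := h2 p fun x hx => hp x (List.mem_append_right _ hx)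
    refine ⟨Fm.atm 1 [j1, j2], fun v xs => ?_⟩
    rw [Tra_S_atm a 1 [j1, j2] _ [t₁.realize (Sum.elim v xs), t₂.realize (Sum.elim v xs)]
      (by
        have e1 := hj1 v xs
        have e2 := hj2 v xs
        rw [List.map_cons, List.map_cons, List.map_nil, List.map_cons, List.map_cons, List.map_nil]
        exact congrArg₂ (fun x y => [x, y]) e1 e2)]
    have key : ∀ x y : Mo a, RK a 1 [x, y] ↔ x = y := by
      intro x y
      constructor
      · rintro ⟨z, hz⟩
        have e1 : x = z := (List.cons.inj hz).1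
        have e2 : y = z := (List.cons.inj (List.cons.inj hz).2).1
        exact e1.trans e2.symm
      · intro h
        exact ⟨y, by rw [h]⟩
    exact (key _ _).symm
  | @rel n l r ts =>
    rcases r with r | r
    · choose p0 hp0 using fun i => Tra_term a k (ts i)
      refine ⟨(List.ofFn p0).flatten, fun p hp => ?_⟩
      have hj : ∀ i, ∃ j : ℕ, ∀ (v : Fin k → Mo a) (xs : Fin n → Mo a),
          (p ++ List.ofFn v ++ List.ofFn xs)[j]? = some ((ts i).realize (Sum.elim v xs)) := by
        intro i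
        refine hp0 i p fun x hx => hp x ?_
        exact List.mem_flatten.2 ⟨p0 i, (List.mem_ofFn' _ _).2 ⟨i, rfl⟩, hx⟩
      choose j hj using hj
      refine ⟨Fm.atm r (List.ofFn j), fun v xs => ?_⟩
      rw [Tra_S_atm a r (List.ofFn j) _ (List.ofFn fun i => (ts i).realize (Sum.elim v xs))
        (by
          rw [List.map_ofFn, List.map_ofFn]
          congr 1
          funext i
          exact hj i v xs)]
      exact Iff.rfl
    · exact (r : Empty).elim
  | imp f₁ f₂ ih1 ih2 =>
    obtain ⟨p1, h1⟩ := ih1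
    obtain ⟨p2, h2⟩ := ih2
    refine ⟨p1 ++ p2, fun p hp => ?_⟩
    obtain ⟨g1, hg1⟩ := h1 p fun x hx => hp x (List.mem_append_left _ hx)
    obtain ⟨g2, hg2⟩ := h2 p fun x hx => hp x (List.mem_append_right _ hx)
    refine ⟨Fm.nand g1 (Fm.nand g2 g2), fun v xs => ?_⟩
    rw [Language.BoundedFormula.realize_imp, hg1, hg2, Tra_S_nand, Tra_S_nand]
    tauto
  | @all n f ih =>
    obtain ⟨p1, h1⟩ := ih
    refine ⟨p1, fun p hp => ?_⟩
    obtain ⟨g, hg⟩ := h1 p hp
    refine ⟨Fm.nand (Fm.ex (Fm.nand g g)) (Fm.ex (Fm.nand g g)), fun v xs => ?_⟩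
    rw [Language.BoundedFormula.realize_all]
    have key : ∀ x : Mo a, p ++ List.ofFn v ++ List.ofFn xs ++ [x] =
        p ++ List.ofFn v ++ List.ofFn (Fin.snoc xs x : Fin (n + 1) → Mo a) := by
      intro x
      rw [List.ofFn_succ' (Fin.snoc xs x : Fin (n + 1) → Mo a), List.concat_eq_append,
        ← List.append_assoc]
      simp only [Fin.snoc_castSucc, Fin.snoc_last]
    rw [Tra_S_nand, Tra_S_ex]
    constructor
    · intro h hcon
      obtain ⟨⟨x, hx⟩, -⟩ := hcon
      rw [Tra_S_nand, key x] at hx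
      have := (hg v (Fin.snoc xs x)).1 (h x)
      exact hx ⟨this, this⟩
    · intro h x
      by_contra hx
      have h3 : ∃ x : Mo a, Tra_S a (Fm.nand g g) (p ++ List.ofFn v ++ List.ofFn xs ++ [x]) := by
        refine ⟨x, ?_⟩
        rw [Tra_S_nand, key x]
        intro h2
        exact hx ((hg v (Fin.snoc xs x)).2 h2.1)
      exact h ⟨h3, h3⟩

end

theorem tra (a : Rl) (k : ℕ) (φ : (Fin k → Mo a) → Prop) (h : Dfn φ) : ∃ (f : Fm) (p : List (Mo a)),
    ∀ v : Fin k → Mo a, φ v ↔ Sat (K := Od) (RK a) Un f (p ++ List.ofFn v) := by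
  obtain ⟨ψ, hψ⟩ := h.out
  obtain ⟨p, hp⟩ := Tra_ind a k ψ
  obtain ⟨f, hf⟩ := hp p fun x hx => hx
  refine ⟨f, p, fun v => ?_⟩
  have h1 : φ v ↔ Language.BoundedFormula.Realize ψ v default := by
    have : v ∈ {v | φ v} ↔ v ∈ Set.ofPred ψ.Realize := by rw [hψ]
    exact this
  rw [h1, hf]
  unfold Tra_S
  have e : (List.ofFn (default : Fin 0 → Mo a)) = [] := List.ofFn_zero
  rw [e, List.append_nil]

theorem tra1 (a : Rl) (φ : Mo a → Prop) (h : Dfn1 φ) : ∃ (f : Fm) (p : List (Mo a)),
    ∀ x : Mo a, φ x ↔ Sat (K := Od) (RK a) Un f (p ++ [x]) := by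
  obtain ⟨f, p, hf⟩ := tra a 1 (fun v => φ (v 0)) h
  refine ⟨f, p, fun x => ?_⟩
  have := hf (fun _ => x)
  rw [List.ofFn_succ, List.ofFn_zero] at this
  exact this

end Pool.Agent.LZF
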