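import Pool.Agent.LZF.Rnk
import Pool.Agent.LZF.KLs

set_option autoImplicit false

/-!
# UnA: uniqueness of the structures, the part below `k` (difficulty 2)

`Hyp a R D i k`: the rank function `i` preserves all relations of lists of elements of `D` below `k`.

* `hyp_iso`: let `Hyp a R D i k` and `b ∈ D` with `¬ R 2 [k, b]` (so `b = k` or `b` below `k`). Then `i` is an isomorphism
  from `(Low R D b, R)` to `(· < i b, RK a)`: `mem`, `sur` from `IsRank`, `inj` from `rank_inj`, `rel`: `Low R D b x`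
  implies `R 2 [x, k]` (transitivity, linearity).
* `hyp_num`: for `x ∈ D` with `R 2 [x, k]`: `IsNum R D n x ↔ NumG (Kd a) n (i x)`. Induction on `n`, use
  `R 0 [z, x] ↔ RK a 0 [i z, i x]` for `z` below `x` (`el`, `rk0_lt`: elements are smaller, `rank_lt`), and that every
  ordinal `< i x` is `i z` for some `z ∈ D` below `x`; `NumG (Kd a)` through `rk0`. For `n + 1` the number `j` is below
  `x` in both cases (it is an element of `x`).
* `hyp_mono`: `Hyp k` implies `Hyp k'` for `¬ R 2 [k, k']`.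
* `hyp_of_le`: if `HypL k'` (lists of elements `≤ k'`) holds for all `k'` below `k`, then `Hyp k`: a nonempty list has a
  maximal element `k'` (`list_max`); for the empty list both sides are false by `ar` and `rk_ar` (`arr r ≠ 0` for
  `r < 8`).
-/

namespace Pool.Agent.LZF

open Pool.Agent.NI

universe u

variable {K : Type u} {a : Rl} {R : ℕ → List K → Prop} {D : K → Prop} {i : K → Od}

/-- `i` preserves the relations below `k`. -/
def Hyp (a : Rl) (R : ℕ → List K → Prop) (D : K → Prop) (i : K → Od) (k : K) : Prop :=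
  ∀ r l, (∀ x ∈ l, D x ∧ R 2 [x, k]) → (R r l ↔ RK a r (l.map i))

/-- `i` preserves the relations up to `k`. -/
def HypL (a : Rl) (R : ℕ → List K → Prop) (D : K → Prop) (i : K → Od) (k : K) : Prop :=
  ∀ r l, (∀ x ∈ l, D x ∧ ¬ R 2 [k, x]) → (R r l ↔ RK a r (l.map i))

theorem hyp_mono (hl : Lin R D) (k k' : K) (hk : D k) (hk' : D k') (h : Hyp a R D i k)
    (hkk : ¬ R 2 [k, k']) : Hyp a R D i k' := by
  intro r l hl'
  refine h r l fun x hx => ⟨(hl' x hx).1, ?_⟩
  rcases hl.tri k k' hk hk' with h1 | h1 | h1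
  · exact absurd h1 hkk
  · rw [h1]; exact (hl' x hx).2
  · exact hl.tra x k' k (hl' x hx).1 hk' hk (hl' x hx).2 h1

theorem hyp_iso (hl : Lin R D) (hi : IsRank R D i) (k b : K) (hk : D k) (hb : D b)
    (h : Hyp a R D i k) (hkb : ¬ R 2 [k, b]) : IsoS R (Low R D b) (RK a) (fun x => x < i b) i := by
  refine ⟨?_, ?_, ?_, ?_⟩
  · intro x hx
    exact (hi b hb (i x)).mpr ⟨x, hx.1, hx.2, rfl⟩
  · intro y hy
    obtain ⟨x, hx, hxb, hxy⟩ := (hi b hb y).mp hy
    exact ⟨x, ⟨hx, hxb⟩, hxy⟩
  · intro x y hx hy e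
    exact rank_inj hl hi x y hx.1 hy.1 e
  · intro r l hl'
    exact hyp_mono hl k b hk hb h hkb r l hl'

private theorem UnA_corr (hs : LStr a R D) (hi : IsRank R D i) (k : K) (hk : D k) (h : Hyp a R D i k)
    (x : K) (hx : D x) (hxk : R 2 [x, k]) (z : K) (hz : D z) : R 0 [z, x] ↔ (Kd a (i x)).S (i z) := by
  have hk2 : R 2 [z, x] → (R 0 [z, x] ↔ RK a 0 [i z, i x]) := by
    intro hzx
    have := h 0 [z, x] (by
      intro w hw
      simp only [List.mem_cons, List.not_mem_nil, or_false] at hw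
      rcases hw with rfl | rfl
      · exact ⟨hz, hs.lin.tra w x k hz hx hk hzx hxk⟩
      · exact ⟨hx, hxk⟩)
    simpa using this
  rw [← rk0]
  constructor
  · intro h0
    exact (hk2 (hs.el z x hz hx h0)).mp h0
  · intro h0
    exact (hk2 ((rank_lt hs.lin hi z x hz hx).mpr (rk0_lt a h0))).mpr h0

private theorem UnA_sur (hi : IsRank R D i) (x : K) (hx : D x) (w : Od)
    (hw : (Kd a (i x)).S w) : ∃ z, D z ∧ R 2 [z, x] ∧ i z = w := by
  rw [← rk0] at hw
  exact (hi x hx w).mp (rk0_lt a hw)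

theorem hyp_num (hs : LStr a R D) (hi : IsRank R D i) (k : K) (hk : D k) (h : Hyp a R D i k)
    (n : ℕ) (x : K) (hx : D x) (hxk : R 2 [x, k]) : IsNum R D n x ↔ NumG (Kd a) n (i x) := by
  induction n generalizing x with
  | zero =>
    constructor
    · intro h0 w hw
      obtain ⟨z, hz, -, rfl⟩ := UnA_sur hi x hx w hw
      exact h0 z hz ((UnA_corr hs hi k hk h x hx hxk z hz).mpr hw)
    · intro h0 z hz hzx
      exact h0 (i z) ((UnA_corr hs hi k hk h x hx hxk z hz).mp hzx)
  | succ n ih =>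
    constructor
    · rintro ⟨j, hj, hjn, hjx⟩
      have h1 : R 0 [j, x] := (hjx j hj).mpr (Or.inr rfl)
      have h2 := hs.el j x hj hx h1
      have h3 := hs.lin.tra j x k hj hx hk h2 hxk
      refine ⟨i j, (rank_lt hs.lin hi j x hj hx).mp h2, (ih j hj h3).mp hjn, ?_⟩
      intro w
      constructor
      · intro hw
        obtain ⟨z, hz, -, rfl⟩ := UnA_sur hi x hx w hw
        rcases (hjx z hz).mp ((UnA_corr hs hi k hk h x hx hxk z hz).mpr hw) with h4 | h4
        · exact Or.inl ((UnA_corr hs hi k hk h j hj h3 z hz).mp h4)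
        · exact Or.inr (by rw [h4])
      · rintro (hw | rfl)
        · obtain ⟨z, hz, -, rfl⟩ := UnA_sur hi j hj w hw
          exact (UnA_corr hs hi k hk h x hx hxk z hz).mp
            ((hjx z hz).mpr (Or.inl ((UnA_corr hs hi k hk h j hj h3 z hz).mpr hw)))
        · exact (UnA_corr hs hi k hk h x hx hxk j hj).mp h1
    · rintro ⟨j', hj', hjn, hjx⟩
      obtain ⟨j, hj, h2, rfl⟩ := (hi x hx j').mp hj'
      have h3 := hs.lin.tra j x k hj hx hk h2 hxk
      refine ⟨j, hj, (ih j hj h3).mpr hjn, ?_⟩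
      intro z hz
      rw [UnA_corr hs hi k hk h x hx hxk z hz, UnA_corr hs hi k hk h j hj h3 z hz, hjx]
      refine or_congr_right ?_
      exact ⟨fun e => rank_inj hs.lin hi z j hz hj e, fun e => by rw [e]⟩

theorem hyp_of_le (hs : LStr a R D) (k : K) (hk : D k)
    (h : ∀ k', D k' → R 2 [k', k] → HypL a R D i k') : Hyp a R D i k := by
  intro r l hl
  by_cases hn : l = []
  · subst hn
    have h0 : ¬ (r < 8 ∧ (0 : ℕ) = arr r) := by
      rintro ⟨h1, h2⟩
      interval_cases r <;> simp [arr] at h2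
    constructor
    · intro hr
      exact absurd (hs.ar r [] (by simp) hr) h0
    · intro hr
      exact absurd (rk_ar a r _ hr) h0
  · obtain ⟨m, hm, hmax⟩ := list_max hs.lin l hn fun x hx => (hl x hx).1
    exact h m (hl m hm).1 (hl m hm).2 r l fun x hx => ⟨(hl x hx).1, hmax x hx⟩

end Pool.Agent.LZF
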