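import Pool.Agent.LZF.UnA

set_option autoImplicit false

/-!
# UnC: uniqueness of the structures, the key of `k` (difficulty 3)

Let `Hyp a R D i k`, `q` the key of `k` in `(D, R)`, `q' = (i q.1, q.2.1, q.2.2.map i)`.

* `dfs_corr`: for a key `q` with `q.1 ∈ D`, `¬ R 2 [k, q.1]`, parameters in `D` below `q.1`, and `x ∈ D`:
  `(R 2 [x, q.1] ∧ Sat R (Low R D q.1) (fm q.2.1) (q.2.2 ++ [x])) ↔ DfO (RK a) q' (i x)`: `rank_lt` and `hyp_iso` for
  `b = q.1` (`IsoS.sat`, `List.map_append`).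
* `key_corr`: `(Kd a (i k)).k = q'`. By `kd_new`, `kd_least`, `keyLt_tri` it suffices that `q'` is new at stage `i k` and
  that no key `q'' < q'` is new at stage `i k`.
  New: `i q.1 ≤ i k` (`rank_lt`), parameters by `rank_lt`. Let `β < i k`, `β = i z`, `z ∈ D` below `k`. Suppose
  `RK a 0 [w, β] ↔ DfO (RK a) q' w` for all `w`. Then `R 0 [x, z] ↔ R 0 [x, k]` for all `x ∈ D`: if `R 0 [x, z]` then
  `x` is below `z` (`el`), so by `Hyp` `RK a 0 [i x, i z]`, `DfO (RK a) q' (i x)`, `R 0 [x, k]` by `dfs_corr` and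
  `IsKey.dfs`; conversely `R 0 [x, k]` gives `DfO (RK a) q' (i x)`, `RK a 0 [i x, i z]`, so `i x < i z`, `x` below `z`, and
  `R 0 [x, z]` by `Hyp`. So `z = k` by `ext`, a contradiction.
  Least: let `q'' < q'` be valid (`q''.1 ≤ i k`, parameters `< q''.1`). `q''.1 ≤ i q.1`, so `q''.1 = i g` for some
  `g ∈ D` with `¬ R 2 [q.1, g]`, and `q''.2.2 = p.map i` for a list `p` in `D` below `g` (`IsRank`). By `keyLt_map`
  `KeyLt (R 2) (g, q''.2.1, p) q`, so by `IsKey.least` there is `z ∈ D` below `k` with `DfS R D z (g, q''.2.1, p)`. Then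
  `RK a 0 [w, i z] ↔ DfO (RK a) q'' w` for all `w` (if one side holds then `w < i z` or `w < i g`, so `w = i x` for some
  `x ∈ D` below `k`; use `Hyp` and `dfs_corr`), so `q''` is not new.
* `el_corr`: `R 0 [x, k] ↔ RK a 0 [i x, i k]`: `IsKey.dfs`, `dfs_corr`, `key_corr`, `rk_S`.
-/

namespace Pool.Agent.LZF

open Pool.Agent.NI

universe u

variable {K : Type u} {a : Rl} {R : ℕ → List K → Prop} {D : K → Prop} {i : K → Od}

theorem dfs_corr (hs : LStr a R D) (hi : IsRank R D i) (k : K) (hk : D k) (h : Hyp a R D i k)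
    (q : Ky K) (h1 : D q.1) (h2 : ¬ R 2 [k, q.1]) (h3 : ∀ x ∈ q.2.2, D x ∧ R 2 [x, q.1]) (x : K)
    (hx : D x) :
    (R 2 [x, q.1] ∧ Sat R (Low R D q.1) (fm q.2.1) (q.2.2 ++ [x])) ↔
      DfO (RK a) (i q.1, q.2.1, q.2.2.map i) (i x) := by
  have e : DfO (RK a) (i q.1, q.2.1, q.2.2.map i) (i x) ↔
      (i x < i q.1 ∧ Sat (RK a) (fun x => x < i q.1) (fm q.2.1) (q.2.2.map i ++ [i x])) := Iff.rfl
  rw [e, rank_lt hs.lin hi x q.1 hx h1]
  refine and_congr_right fun hlt => ?_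
  have hlt' : R 2 [x, q.1] := (rank_lt hs.lin hi x q.1 hx h1).2 hlt
  have h4 := (hyp_iso hs.lin hi k q.1 hk h1 h h2).sat (fm q.2.1) (q.2.2 ++ [x]) (by
    intro y hy
    rcases List.mem_append.1 hy with hy | hy
    · exact h3 y hy
    · rw [List.mem_singleton.1 hy]
      exact ⟨hx, hlt'⟩)
  rw [List.map_append, List.map_singleton] at h4
  exact h4

theorem key_corr (hs : LStr a R D) (hi : IsRank R D i) (k : K) (hk : D k) (h : Hyp a R D i k)
    (q : Ky K) (hq : IsKey R D k q) : (Kd a (i k)).k = (i q.1, q.2.1, q.2.2.map i) := by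
  have hl := hs.lin
  have hle : i q.1 ≤ i k := not_lt.1 fun hh => hq.le ((rank_lt hl hi k q.1 hk hq.mem).2 hh)
  have hH : ∀ x z, D x → D z → R 2 [x, z] → R 2 [z, k] → (R 0 [x, z] ↔ RK a 0 [i x, i z]) := by
    intro x z hx hz hxz hzk
    refine h 0 [x, z] ?_
    intro y hy
    rcases List.mem_cons.1 hy with rfl | hy
    · exact ⟨hx, hl.tra _ _ _ hx hz hk hxz hzk⟩
    · rw [List.mem_singleton.1 hy]
      exact ⟨hz, hzk⟩
  have hnew : NewK (RK a) (i k) (i q.1, q.2.1, q.2.2.map i) := by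
    refine ⟨hle, ?_, ?_⟩
    · intro x hx
      obtain ⟨y, hy, rfl⟩ := List.mem_map.1 hx
      exact (rank_lt hl hi y q.1 (hq.par y hy).1 hq.mem).1 (hq.par y hy).2
    · intro β hβ
      obtain ⟨z, hz, hzk, rfl⟩ := (hi k hk β).1 hβ
      by_contra hcon
      have hall : ∀ w, RK a 0 [w, i z] ↔ DfO (RK a) (i q.1, q.2.1, q.2.2.map i) w := by
        intro w
        by_contra hw
        exact hcon ⟨w, hw⟩
      have hzk' : z = k := by
        refine hs.ext z k hz hk fun x hx => ?_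
        constructor
        · intro hxz
          have h1 := hs.el x z hx hz hxz
          have h2 := (hall (i x)).1 ((hH x z hx hz h1 hzk).1 hxz)
          exact (hq.dfs x hx).2 ((dfs_corr hs hi k hk h q hq.mem hq.le hq.par x hx).2 h2)
        · intro hxk
          have h2 := (dfs_corr hs hi k hk h q hq.mem hq.le hq.par x hx).1 ((hq.dfs x hx).1 hxk)
          have h3 := (hall (i x)).2 h2
          have h4 : R 2 [x, z] := (rank_lt hl hi x z hx hz).2 (rk0_lt a h3)
          exact (hH x z hx hz h4 hzk).2 h3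
      rw [hzk'] at hzk
      exact hl.irr k hk hzk
  rcases keyLt_tri (Kd a (i k)).k (i q.1, q.2.1, q.2.2.map i) with hlt | heq | hgt
  · exfalso
    have hN := kd_new a (i k)
    generalize (Kd a (i k)).k = Q at hlt hN
    obtain ⟨hN1, hN2, hN3⟩ := hN
    have hQ : ∃ g, D g ∧ ¬ R 2 [q.1, g] ∧ i g = Q.1 := by
      have h1 : Q.1 < i q.1 ∨ Q.1 = i q.1 := by
        rcases hlt with h1 | h1
        · exact Or.inl h1
        · exact Or.inr h1.1
      rcases h1 with h1 | h1
      · obtain ⟨g, hg, hgq, hgi⟩ := (hi q.1 hq.mem Q.1).1 h1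
        exact ⟨g, hg, fun hh => hl.irr g hg (hl.tra g q.1 g hg hq.mem hg hgq hh), hgi⟩
      · exact ⟨q.1, hq.mem, hl.irr _ hq.mem, h1.symm⟩
    obtain ⟨g, hg, hgq, hgi⟩ := hQ
    have hlift : ∀ l : List Od, (∀ x ∈ l, x < Q.1) →
        ∃ p : List K, p.map i = l ∧ ∀ y ∈ p, D y ∧ R 2 [y, g] := by
      intro l
      induction l with
      | nil => exact fun _ => ⟨[], rfl, fun y hy => absurd hy List.not_mem_nil⟩
      | cons x l ih =>
        intro hx
        obtain ⟨p, hp, hp'⟩ := ih fun y hy => hx y (List.mem_cons_of_mem _ hy)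
        have h1 := hx x List.mem_cons_self
        rw [← hgi] at h1
        obtain ⟨y, hy, hyg, hyx⟩ := (hi g hg x).1 h1
        refine ⟨y :: p, by rw [List.map_cons, hp, hyx], ?_⟩
        intro w hw
        rcases List.mem_cons.1 hw with rfl | hw
        · exact ⟨hy, hyg⟩
        · exact hp' w hw
    obtain ⟨p, hp, hp'⟩ := hlift Q.2.2 hN2
    have hkg : ¬ R 2 [k, g] := by
      intro hh
      have h1 := (rank_lt hl hi k g hk hg).1 hh
      rw [hgi] at h1
      exact absurd hN1 (not_le.2 h1)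
    have hQe : Q = (i g, Q.2.1, p.map i) := by
      rw [hgi, hp]
    have hKL : KeyLt (fun x y => R 2 [x, y]) (g, Q.2.1, p) q := by
      refine (keyLt_map (fun x y => R 2 [x, y]) (· < ·) i D
        (fun x y hx hy => rank_lt hl hi x y hx hy) (fun x y hx hy => rank_inj hl hi x y hx hy)
        (g, Q.2.1, p) q hg (fun x hx => (hp' x hx).1) hq.mem fun x hx => (hq.par x hx).1).2 ?_
      show KeyLt (· < ·) (i g, Q.2.1, p.map i) (i q.1, q.2.1, q.2.2.map i)
      rw [← hQe]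
      exact hlt
    obtain ⟨z, hz, hzk, hzd⟩ := hq.least (g, Q.2.1, p) hg hp' hKL
    obtain ⟨w, hw⟩ := hN3 (i z) ((rank_lt hl hi z k hz hk).1 hzk)
    apply hw
    rw [hQe]
    constructor
    · intro h1
      obtain ⟨x, hx, hxz, rfl⟩ := (hi z hz w).1 (rk0_lt a h1)
      have h2 := (hH x z hx hz hxz hzk).2 h1
      exact (dfs_corr hs hi k hk h (g, Q.2.1, p) hg hkg hp' x hx).1 ((hzd x hx).1 h2)
    · intro h1
      obtain ⟨x, hx, hxg, rfl⟩ := (hi g hg w).1 h1.1
      have h2 := (hzd x hx).2 ((dfs_corr hs hi k hk h (g, Q.2.1, p) hg hkg hp' x hx).2 h1)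
      exact (hH x z hx hz (hs.el x z hx hz h2) hzk).1 h2
  · exact heq
  · exact absurd hgt (kd_least a (i k) _ hnew)

theorem el_corr (hs : LStr a R D) (hi : IsRank R D i) (k : K) (hk : D k) (h : Hyp a R D i k)
    (x : K) (hx : D x) : R 0 [x, k] ↔ RK a 0 [i x, i k] := by
  obtain ⟨q, hq⟩ := hs.key k hk
  rw [hq.dfs x hx, dfs_corr hs hi k hk h q hq.mem hq.le hq.par x hx, rk_S a (i x) (i k),
    key_corr hs hi k hk h q hq]

end Pool.Agent.LZF
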