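import Pool.Agent.LZF.DfS
import Pool.Agent.LZF.CHm

set_option autoImplicit false

/-!
# VCm: Vaught's conjecture in the model (difficulty 3)

Let `G_S` be given by `SatAna`, `G_I` and `c` by `IsoAna`; `ts` consists of the tables of `dfn_sigma` for `G_S` and `G_I`
and of the table of `c` (so `Idl c (RM a)` by `rm_idl`; interleave: `ts (3 * j)`, `ts (3 * j + 1)`, `ts (3 * j + 2)`).
Let `L`, `f` be given with `vcode L, fcode f ∈ Reals (EM a) = RM a` (`reals_eq`); `p = jn (vcode L) (fcode f) ∈ RM a`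
is represented by `w : Mo a`. The predicate `φ z := ∃ x q, Rep a z x ∧ Rep a w q ∧ (x, q) ∈ G_S` is definable and means:
`z` represents `scode N` for some `N ∈ Mod f` (`rep_unique`). `ψ z z' := ∃ x x', Rep a z x ∧ Rep a z' x' ∧ (x, x') ∈ G_I` is
definable; for `z, z'` representing `scode N`, `scode N'` it means `Iso N N'`, i.e. `IsoIn (RM a) N N'`.
Let `d` be the set (by `em_sep` from `pow omega`; `φ z` implies that `z` is a set of numerals) of all `z` with `φ z` and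
`¬ ψ z z'` for all `z'` with `φ z'` and `wlt z' z`. First clause: clear (`isRl_iff`). Second clause: for `N ∈ Mod f` with
`scode N ∈ RM a` let `z` be the least element with `φ z` which represents some `scode N'` with `Iso N N'`
(wellfoundedness of `wlt`); `z ∈ d` (a `z'` below `z` with `φ z'`, `ψ z z'` would be isomorphic to `N`); uniqueness:
two such `z, z' ∈ d` are isomorphic, and the larger one would not be in `d` (`Iso` is an equivalence relation;
`scode` is injective). Third clause: `ch_set`.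
-/

namespace Pool.Agent.LZF

open Pool.Agent.NI Pool.Agent.H55 Pool.Agent.H55.ZFU FirstOrder

theorem VCm_symm {L : Voc} {M N : Str L} (h : Iso M N) : Iso N M := by
  obtain ⟨s, hs⟩ := h
  refine ⟨s.symm, fun k l => ?_⟩
  rw [hs k (l.map s.symm), List.map_map]
  have e : (s ∘ s.symm : ℕ → ℕ) = id := by
    funext n
    simp
  rw [e, List.map_id]

theorem VCm_trans {L : Voc} {M N P : Str L} (h : Iso M N) (h' : Iso N P) : Iso M P := by
  obtain ⟨s, hs⟩ := h
  obtain ⟨t, ht⟩ := h'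
  refine ⟨s.trans t, fun k l => ?_⟩
  rw [hs k l, ht k (l.map s), List.map_map]
  rfl

theorem vc_model (hS : SatAna) (hI : IsoAna) : ∃ ts : ℕ → ℕ → Prop,
    ∀ a : Rl, Bas a → (∀ j, HasT a (ts j)) → VCIn (EM a) := by
  obtain ⟨GS, hGS, hS'⟩ := hS
  obtain ⟨⟨GI, hGI, hI'⟩, c, hc⟩ := hI
  obtain ⟨t1, ht1⟩ := dfn_sigma GS hGS
  obtain ⟨t2, ht2⟩ := dfn_sigma GI hGI
  refine ⟨fun j => if j % 3 = 0 then t1 (j / 3) else if j % 3 = 1 then t2 (j / 3) else fun n => c n = true, ?_⟩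
  intro a hb h
  have h1 : ∀ j, HasT a (t1 j) := by
    intro j
    have h0 := h (3 * j)
    have e1 : 3 * j % 3 = 0 := by omega
    have e2 : 3 * j / 3 = j := by omega
    simp only [e1, e2, if_true] at h0
    exact h0
  have h2 : ∀ j, HasT a (t2 j) := by
    intro j
    have h0 := h (3 * j + 1)
    have e1 : (3 * j + 1) % 3 = 1 := by omega
    have e2 : (3 * j + 1) / 3 = j := by omega
    simp only [e1, e2, if_true, one_ne_zero, if_false] at h0
    exact h0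
  have h3 : HasT a (fun n => c n = true) := by
    have h0 := h 2
    have e1 : ¬ 2 % 3 = 0 := by omega
    have e2 : ¬ 2 % 3 = 1 := by omega
    simp only [e1, e2, if_false] at h0
    exact h0
  have hidl : Idl c (RM a) := rm_idl hb c h3
  have d1 := ht1 a hb h1
  have d2 := ht2 a hb h2
  intro L f hL hf
  rw [reals_eq] at hL hf
  obtain ⟨w, hw⟩ := hidl.join _ hL _ hf
  obtain ⟨φ, hφd, hφ⟩ : ∃ φ : Mo a → Prop, Dfn1 φ ∧ ∀ z, φ z ↔ ∃ N ∈ Mod f, Rep a z (scode N) := by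
    refine ⟨fun z => ∃ x p, Rep a z x ∧ Rep a w p ∧ (x, p) ∈ GS,
      Dfn.comp2 (P := fun z w : Mo a => ∃ x p, Rep a z x ∧ Rep a w p ∧ (x, p) ∈ GS) d1
        (fun v : Fin 1 → Mo a => v 0) (fun _ => w), fun z => ?_⟩
    constructor
    · rintro ⟨x, q, hx, hq, hG⟩
      have e : q = jn (vcode L) (fcode f) := rep_unique w _ _ hq hw
      rw [e] at hG
      obtain ⟨N, hN, rfl⟩ := (hS' L f x).1 hG
      exact ⟨N, hN, hx⟩
    · rintro ⟨N, hN, hz⟩
      exact ⟨_, _, hz, hw, (hS' L f _).2 ⟨N, hN, rfl⟩⟩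
  obtain ⟨ψ, hψd, hψ⟩ : ∃ ψ : Mo a → Mo a → Prop, Dfn2 ψ ∧ ∀ (N N' : Str L) (z z' : Mo a),
      Rep a z (scode N) → Rep a z' (scode N') → (ψ z z' ↔ Iso N N') := by
    refine ⟨fun z z' => ∃ x p, Rep a z x ∧ Rep a z' p ∧ (x, p) ∈ GI, d2, ?_⟩
    intro N N' z z' hz hz'
    constructor
    · rintro ⟨x, q, hx, hq, hG⟩
      rw [rep_unique z _ _ hx hz, rep_unique z' _ _ hq hz'] at hG
      exact (hI' L N N').1 hG
    · intro hiso
      exact ⟨_, _, hz, hz', (hI' L N N').2 hiso⟩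
  have i1 : ∀ {ι : Type} (t : (ι → Mo a) → Mo a) [DFun t], Dfn (fun v => φ (t v)) :=
    fun t => Dfn.comp1 (P := fun x : Mo a => φ x) hφd t
  have i2 : ∀ {ι : Type} (t s : (ι → Mo a) → Mo a) [DFun t] [DFun s], Dfn (fun v => ψ (t v) (s v)) :=
    fun t s => Dfn.comp2 (P := fun x y : Mo a => ψ x y) hψd t s
  have hχ : Dfn (fun v : Fin 1 → Mo a => φ (v 0) ∧ ∀ z', φ z' → wlt z' (v 0) → ¬ ψ (v 0) z') := by
    infer_instance
  have hφr : ∀ z, φ z → ∃ x, Rep a z x := by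
    intro z hz
    obtain ⟨N, _, hN⟩ := (hφ z).1 hz
    exact ⟨_, hN⟩
  obtain ⟨d, hd⟩ := small_set (a := a) (fun z => φ z ∧ ∀ z', φ z' → wlt z' z → ¬ ψ z z') hχ (by
    have hs : Small.{0} Rl := inferInstance
    let g : {x : Mo a // φ x ∧ ∀ z', φ z' → wlt z' x → ¬ ψ x z'} → Rl := fun x => (hφr x.1 x.2.1).choose
    have hg : ∀ x, Rep a x.1 (g x) := fun x => (hφr x.1 x.2.1).choose_spec
    have hgi : Function.Injective g := by
      intro x y e
      have h5 := hg x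
      rw [e] at h5
      exact Subtype.ext (rep_inj _ _ _ h5 (hg y))
    exact small_of_injective hgi)
  refine ⟨d, ?_, ?_, ?_⟩
  · intro z hz
    obtain ⟨N, hN, hz'⟩ := (hφ z).1 ((hd z).1 hz).1
    exact ⟨N, hN, (isRl_iff z _).2 hz'⟩
  · intro N hN hNR
    rw [reals_eq] at hNR
    obtain ⟨z0, hz0⟩ := hNR
    let A : Set Ordinal.{0} := {z | ∃ N' ∈ Mod f, Rep a z (scode N') ∧ Iso N N'}
    have hA : A.Nonempty := ⟨z0, N, hN, hz0, Equiv.refl ℕ, fun k l => by simp⟩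
    have hwf : WellFounded (fun x y : Ordinal.{0} => x < y) := wellFounded_lt
    let z : Mo a := hwf.min A hA
    have hzA : ∃ N' ∈ Mod f, Rep a z (scode N') ∧ Iso N N' := hwf.min_mem A hA
    have hzmin : ∀ z' : Mo a, (∃ N' ∈ Mod f, Rep a z' (scode N') ∧ Iso N N') → ¬ wlt z' z := by
      intro z' hz' hlt
      exact hwf.not_lt_min A hz' ((wlt_iff z' z).1 hlt)
    obtain ⟨N', hN', hzN', hiso⟩ := hzA
    refine ⟨z, ⟨(hd z).2 ⟨(hφ z).2 ⟨N', hN', hzN'⟩, ?_⟩, N', (isRl_iff z _).2 hzN', ?_⟩, ?_⟩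
    · intro z' hz' hlt hψz
      obtain ⟨N2, hN2, hz2⟩ := (hφ z').1 hz'
      have h6 := (hψ N' N2 z z' hzN' hz2).1 hψz
      exact hzmin z' ⟨N2, hN2, hz2, VCm_trans hiso h6⟩ hlt
    · rw [reals_eq]
      exact (hc (RM a) hidl L N N' ⟨z0, hz0⟩ ⟨z, hzN'⟩).2 hiso
    · rintro z2 ⟨hz2d, N2, hz2, hiso2⟩
      rw [isRl_iff] at hz2
      rw [reals_eq] at hiso2
      have h7 : Iso N N2 := (hc (RM a) hidl L N N2 ⟨z0, hz0⟩ ⟨z2, hz2⟩).1 hiso2
      have hzd : EM a z d := (hd z).2 ⟨(hφ z).2 ⟨N', hN', hzN'⟩, by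
        intro z' hz' hlt hψz
        obtain ⟨N3, hN3, hz3⟩ := (hφ z').1 hz'
        have h6 := (hψ N' N3 z z' hzN' hz3).1 hψz
        exact hzmin z' ⟨N3, hN3, hz3, VCm_trans hiso h6⟩ hlt⟩
      have h8 := (hd z).1 hzd
      have h9 := (hd z2).1 hz2d
      rcases lt_trichotomy (α := Ordinal.{0}) z2 z with h10 | h10 | h10
      · exact absurd ((hψ N' N2 z z2 hzN' hz2).2 (VCm_trans (VCm_symm hiso) h7))
          (h8.2 z2 h9.1 ((wlt_iff z2 z).2 h10))
      · exact h10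
      · exact absurd ((hψ N2 N' z2 z hz2 hzN').2 (VCm_trans (VCm_symm h7) hiso))
          (h9.2 z h8.1 ((wlt_iff z z2).2 h10))
  · exact ch_set d fun z hz => hφr z ((hd z).1 hz).1

end Pool.Agent.LZF
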