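import Pool.Agent.LZF.Tra
import Pool.Agent.LZF.Rfl
import Pool.Agent.LZF.Ren

set_option autoImplicit false

/-!
# Zfa: bounded definable classes are sets (difficulty 2)

* `bdd_set`: let `φ` be definable, `φ x → x < B`. `tra1` gives `f`, `p`. Let `κ` be elementary (`reflection`) with `κ > B`
  and `κ` above all elements of `p` (take for the bound of `reflection` the maximum; e.g. `List.foldr max B p`).
  `k_sep` with `g = κ`: a set `c` with `RK a 0 [z, c] ↔ z < κ ∧ Sat (RK a) (· < κ) f (p ++ [z])`, and the last formula is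
  `Sat (RK a) Un f (p ++ [z]) ↔ φ z` by elementarity.
* `bdd_of_small`: a small set of ordinals is bounded (`Ordinal.bddAbove_of_small`).
* `em_ext`: `k_ext`; `em_wf`: `em_lt` and wellfoundedness of the ordinals (`Subrelation.wf`).
-/

namespace Pool.Agent.LZF

open Pool.Agent.NI Pool.Agent.H55 Pool.Agent.H55.ZFU FirstOrder

variable {a : Rl}

instance par_mo (c : Mo a) : Par c := ⟨trivial⟩

instance em_dfn {ι : Type} (t s : (ι → Mo a) → Mo a) [DFun t] [DFun s] :
    Dfn (fun v => EM a (t v) (s v)) := Dfn.comp2 (P := fun x y : Mo a => EM a x y) (dfn_rel2 a 0) t s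

instance wlt_dfn {ι : Type} (t s : (ι → Mo a) → Mo a) [DFun t] [DFun s] :
    Dfn (fun v => wlt (t v) (s v)) := Dfn.comp2 (P := fun x y : Mo a => wlt x y) (dfn_rel2 a 2) t s

instance vr_dfn {ι : Type} (t s r q : (ι → Mo a) → Mo a) [DFun t] [DFun s] [DFun r] [DFun q] :
    Dfn (fun v => vr (t v) (s v) (r v) (q v)) :=
  Dfn.comp4 (P := fun x y z w : Mo a => vr x y z w) (dfn_rel4 a 3) t s r q

instance pq_dfn {ι : Type} (t s r : (ι → Mo a) → Mo a) [DFun t] [DFun s] [DFun r] :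
    Dfn (fun v => pq (t v) (s v) (r v)) :=
  Dfn.comp3 (P := fun x y z : Mo a => pq x y z) (dfn_rel3 a 7) t s r

instance ta_dfn {ι : Type} (t : (ι → Mo a) → Mo a) [DFun t] : Dfn (fun v => ta (t v)) :=
  Dfn.comp1 (P := fun x : Mo a => ta x) (dfn_rel1 a 6) t

theorem wlt_iff (x y : Mo a) : wlt x y ↔ @LT.lt Ordinal.{0} _ x y := rk2 a x y

theorem em_lt (x y : Mo a) (h : EM a x y) : wlt x y := (rk2 a x y).2 (rk0_lt a h)

theorem zfa_foldr (B : Od) (p : List Od) : B ≤ p.foldr max B ∧ ∀ x ∈ p, x ≤ p.foldr max B := by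
  induction p with
  | nil => exact ⟨le_refl _, by simp⟩
  | cons y p ih =>
    refine ⟨le_trans ih.1 (le_max_right _ _), ?_⟩
    intro x hx
    rcases List.mem_cons.1 hx with h | h
    · rw [h]; exact le_max_left _ _
    · exact le_trans (ih.2 x h) (le_max_right _ _)

theorem bdd_set (φ : Mo a → Prop) (h : Dfn1 φ) (B : Mo a) (hB : ∀ x, φ x → wlt x B) :
    ∃ c : Mo a, ∀ x, EM a x c ↔ φ x := by
  obtain ⟨f, p0, hf0⟩ := tra1 a φ h
  obtain ⟨p, hpe⟩ : ∃ p : List Od, p = p0 := ⟨p0, rfl⟩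
  obtain ⟨B', hBe⟩ : ∃ B' : Od, B' = B := ⟨B, rfl⟩
  have hf : ∀ x : Od, φ x ↔ Sat (K := Od) (RK a) Un f (p ++ [x]) := by
    intro x; rw [hpe]; exact hf0 x
  have hfo := zfa_foldr B' p
  obtain ⟨κ, hκ, he⟩ := reflection a (List.foldr max B' p)
  have hp : ∀ x ∈ p, x < κ := fun x hx => lt_of_le_of_lt (hfo.2 x hx) hκ
  obtain ⟨c, hc⟩ := k_sep a κ f p hp
  have key : ∀ z : Od, z < κ → (Sat (RK a) (fun x => x < κ) f (p ++ [z]) ↔ φ z) := by
    intro z hz
    have h1 := he.2 f (p ++ [z]) (by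
      intro b hb
      rcases List.mem_append.1 hb with h | h
      · exact hp b h
      · rw [List.mem_singleton.1 h]; exact hz)
    exact h1.trans (hf z).symm
  have main : ∀ x : Od, RK a 0 [x, c] ↔ φ x := by
    intro x
    constructor
    · intro hx
      have h2 := (hc x).1 hx
      exact (key x h2.1).1 h2.2
    · intro hx
      have h4 : x < B' := by rw [hBe]; exact (rk2 a x B).1 (hB x hx)
      have h3 : x < κ := lt_of_lt_of_le h4 (le_trans hfo.1 hκ.le)
      exact (hc x).2 ⟨h3, (key x h3).2 hx⟩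
  exact ⟨c, main⟩

theorem bdd_of_small (S : Set (Mo a)) (h : Small.{0} S) : ∃ B : Mo a, ∀ x ∈ S, wlt x B := by
  have h1 : ∃ b : Od, ∀ x : Od, x ∈ (show Set Od from S) → x ≤ b := by
    have h2 : BddAbove (show Set Od from S) := @Ordinal.bddAbove_of_small (show Set Od from S) h
    obtain ⟨b, hb⟩ := h2
    exact ⟨b, fun x hx => hb hx⟩
  obtain ⟨b, hb⟩ := h1
  have h3 : ∀ x : Od, x ∈ (show Set Od from S) → RK a 2 [x, Order.succ b] := fun x hx =>
    (rk2 a x _).2 (Order.lt_succ_of_le (hb x hx))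
  exact ⟨(Order.succ b : Od), h3⟩

theorem small_set (φ : Mo a → Prop) (h : Dfn1 φ) (hs : Small.{0} {x : Mo a // φ x}) :
    ∃ c : Mo a, ∀ x, EM a x c ↔ φ x := by
  obtain ⟨B, hB⟩ := bdd_of_small (a := a) {x : Mo a | φ x} hs
  exact bdd_set φ h B (fun x hx => hB x hx)

theorem em_ext (x y : Mo a) (h : ∀ z, EM a z x ↔ EM a z y) : x = y := k_ext a x y h

theorem em_wf : WellFounded (EM a) := by
  have h : WellFounded (fun x y : Od => x < y) := wellFounded_lt
  have h2 : WellFounded (fun x y : Od => RK a 0 [x, y]) :=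
    Subrelation.wf (fun {x y} hxy => rk0_lt a hxy) h
  exact h2

end Pool.Agent.LZF
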