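import Pool.Agent.LZF.Zfa

set_option autoImplicit false

/-!
# Zfb: the axioms of ZF in the model (difficulty 2)

All by `bdd_set` or `small_set`; `EM a x y → wlt x y` (`em_lt`), `wlt` is `<` (`wlt_iff`).
`pairing`: `x = b ∨ x = c` (bounded by `max b c + 1`); `union`: `∃ y, EM y b ∧ EM x y`; `power`: `∀ y, EM y x → EM y b`:
the class is small: `x ↦ {y | EM a y x}` is an injection into the subsets of `{y | EM a y b} ⊆ Set.Iio b` (`em_ext`);
`sep`: `EM a x b ∧ φ x`; `repl`: `∃ x, EM a x b ∧ R x y`, an image of a small set. Infinity: the class of the numerals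
`∃ n, Nu a n x` is small; it is definable (`nu_dfn`) because `x` is a numeral iff `pq x x y` for some `y` (`rk7`,
`num_un`; for the numeral `n` the element `y` is the numeral `Nat.pair n n`, `exists_num`).
Definability is found by instances: `Dfn.ex`, `Dfn.and`, ..., for the atomic parts use `Dfn.comp2 (dfn_rel2 a 0) _ _`
etc. (`instance em_dfn`); parameters are constants (an instance `Par c` is needed: `⟨trivial⟩`, provided below).
-/

namespace Pool.Agent.LZF

open Pool.Agent.NI Pool.Agent.H55 Pool.Agent.H55.ZFU FirstOrder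

variable {a : Rl}

theorem zfb_lt (x y : Mo a) (h : EM a x y) : @LT.lt Ordinal.{0} _ x y := (wlt_iff x y).1 (em_lt x y h)

theorem zfb_le_trans (x y z : Mo a) (h : @LT.lt Ordinal.{0} _ x y) (h' : @LT.lt Ordinal.{0} _ y z) :
    @LT.lt Ordinal.{0} _ x z := lt_trans (α := Ordinal.{0}) h h'

theorem em_pair (b c : Mo a) : ∃ d : Mo a, ∀ x, EM a x d ↔ x = b ∨ x = c := by
  refine bdd_set (fun x => x = b ∨ x = c) (inferInstanceAs (Dfn (fun v : Fin 1 → Mo a => v 0 = b ∨ v 0 = c)))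
    (Order.succ (α := Ordinal.{0}) (max (α := Ordinal.{0}) b c)) ?_
  intro x hx
  rw [wlt_iff]
  rcases hx with hx | hx
  · rw [hx]
    exact lt_of_le_of_lt (α := Ordinal.{0}) (le_max_left (α := Ordinal.{0}) b c) (Order.lt_succ (α := Ordinal.{0}) _)
  · rw [hx]
    exact lt_of_le_of_lt (α := Ordinal.{0}) (le_max_right (α := Ordinal.{0}) b c) (Order.lt_succ (α := Ordinal.{0}) _)

theorem em_union (b : Mo a) : ∃ d : Mo a, ∀ x, EM a x d ↔ ∃ y, EM a y b ∧ EM a x y := by
  refine bdd_set (fun x => ∃ y, EM a y b ∧ EM a x y)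
    (inferInstanceAs (Dfn (fun v : Fin 1 → Mo a => ∃ y, EM a y b ∧ EM a (v 0) y))) b ?_
  rintro x ⟨y, h1, h2⟩
  rw [wlt_iff]
  exact zfb_le_trans x y b (zfb_lt x y h2) (zfb_lt y b h1)

theorem em_pow (b : Mo a) : ∃ d : Mo a, ∀ x, EM a x d ↔ ∀ y, EM a y x → EM a y b := by
  refine small_set (fun x => ∀ y, EM a y x → EM a y b)
    (inferInstanceAs (Dfn (fun v : Fin 1 → Mo a => ∀ y, EM a y (v 0) → EM a y b))) ?_
  have h1 : Small.{0} (Set (Set.Iio (α := Ordinal.{0}) b)) := inferInstance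
  let f : {x : Mo a // ∀ y, EM a y x → EM a y b} → Set (Set.Iio (α := Ordinal.{0}) b) :=
    fun x => {y | EM a y.1 x.1}
  have hf : Function.Injective f := by
    intro x x' h
    apply Subtype.ext
    apply em_ext
    intro z
    constructor
    · intro hz
      have h2 : (⟨z, zfb_lt z b (x.2 z hz)⟩ : Set.Iio (α := Ordinal.{0}) b) ∈ f x := hz
      rw [h] at h2
      exact h2
    · intro hz
      have h2 : (⟨z, zfb_lt z b (x'.2 z hz)⟩ : Set.Iio (α := Ordinal.{0}) b) ∈ f x' := hz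
      rw [← h] at h2
      exact h2
  exact small_of_injective hf

theorem em_sep (φ : Mo a → Prop) (h : Dfn1 φ) (b : Mo a) : ∃ d : Mo a, ∀ x, EM a x d ↔ EM a x b ∧ φ x := by
  have hd : Dfn (fun v : Fin 1 → Mo a => EM a (v 0) b ∧ φ (v 0)) := Dfn.and _ _ (hψ := h)
  exact bdd_set (fun x => EM a x b ∧ φ x) hd b (fun x hx => em_lt x b hx.1)

theorem em_repl (R : Mo a → Mo a → Prop) (h : Dfn2 R) (b : Mo a) (hR : ∀ x, EM a x b → ∃! y, R x y) :
    ∃ d : Mo a, ∀ y, EM a y d ↔ ∃ x, EM a x b ∧ R x y := by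
  have hd : Dfn (fun v : Fin 1 → Mo a => ∃ x, EM a x b ∧ R x (v 0)) := by
    have h1 : Dfn (fun v : Option (Fin 1) → Mo a => R (v none) (v (some 0))) :=
      Dfn.comp2 (P := fun x y : Mo a => R x y) h (fun v => v none) (fun v => v (some 0))
    have h2 : Dfn (fun v : Option (Fin 1) → Mo a => EM a (v none) b ∧ R (v none) (v (some 0))) :=
      Dfn.and _ _ (hψ := h1)
    exact Dfn.ex (fun (v : Fin 1 → Mo a) x => EM a x b ∧ R x (v 0)) (h := h2)
  refine small_set (fun y => ∃ x, EM a x b ∧ R x y) hd ?_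
  have h1 : Small.{0} {x : Set.Iio (α := Ordinal.{0}) b // EM a x.1 b} := inferInstance
  let f : {x : Set.Iio (α := Ordinal.{0}) b // EM a x.1 b} → {y : Mo a // ∃ x, EM a x b ∧ R x y} :=
    fun x => ⟨(hR x.1.1 x.2).choose, x.1.1, x.2, (hR x.1.1 x.2).choose_spec.1⟩
  have hf : Function.Surjective f := by
    rintro ⟨y, x, hx, hy⟩
    refine ⟨⟨⟨x, zfb_lt x b hx⟩, hx⟩, ?_⟩
    apply Subtype.ext
    exact ((hR x hx).choose_spec.2 y hy).symm
  exact small_of_surjective hf

theorem zfb_nu_iff (x : Mo a) : (∃ n, Nu a n x) ↔ ∃ y : Mo a, pq x x y := by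
  constructor
  · rintro ⟨n, hn⟩
    obtain ⟨y, hy⟩ := exists_num a (Nat.pair n n)
    exact ⟨y, (rk7 a x x y).2 ⟨n, n, (num_un a n x).1 hn, (num_un a n x).1 hn, (num_un a _ y).1 hy⟩⟩
  · rintro ⟨y, hy⟩
    obtain ⟨n, m, h1, _, _⟩ := (rk7 a x x y).1 hy
    exact ⟨n, (num_un a n x).2 h1⟩

theorem nu_dfn : Dfn1 (fun x : Mo a => ∃ n, Nu a n x) :=
  Dfn.congr (φ := fun v : Fin 1 → Mo a => ∃ y : Mo a, pq (v 0) (v 0) y) inferInstance
    (fun v => zfb_nu_iff (v 0))

theorem em_omega : ∃ w : Mo a, ∀ x, EM a x w ↔ ∃ n, Nu a n x := by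
  refine small_set (fun x => ∃ n, Nu a n x) nu_dfn ?_
  have h1 : Small.{0} ℕ := inferInstance
  let f : ℕ → {x : Mo a // ∃ n, Nu a n x} := fun n => ⟨(exists_num a n).choose, n, (exists_num a n).choose_spec⟩
  have hf : Function.Surjective f := by
    rintro ⟨x, n, hn⟩
    refine ⟨n, ?_⟩
    apply Subtype.ext
    exact num_unique a n _ _ (exists_num a n).choose_spec hn
  exact small_of_surjective hf

theorem nu_succ (n : ℕ) (x y : Mo a) (hx : Nu a n x) : Nu a (n + 1) y ↔ ∀ z, EM a z y ↔ EM a z x ∨ z = x := by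
  constructor
  · rintro ⟨j, _, hj, h⟩ z
    have e : j = x := num_unique a n _ _ hj hx
    rw [← e]
    exact h z trivial
  · intro h
    exact ⟨x, trivial, hx, fun z _ => h z⟩

end Pool.Agent.LZF
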